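import Pool.Agent.H77.PT.Fda

/-!
# [H77 PT FDB] signature and discriminant of `MF ρ H`, 90-140 lines. File Pool/Agent/H77/PT/Fdb.lean

Close copies of `dsc_tc` and `dsc` in Pool/Agent/H51/CUB/DSC.lean (both proved).
* `mf_tc`: the extension `M` contains a primitive root of unity of order `> 2` (`ζ` or `i`): same proof; `[M : ℚ] = [M : K] [K : ℚ]` with `mf_deg`.
* `mf_dd`: `n = H.index` (only finitely many subgroups of `G`; here `H` is fixed before the constant). `H38.ML.disc_bound Ω n S` with `S` = the primes of `D.S0` and those dividing `n!` (`gdisu_fin n`), `T₀` = the `v ∈ T` with `v.asIdeal ∉ S` (so `v ∉ D.S0`), `w = n`; for `v ∉ S`, `v ∉ T₀`: `v ∉ D.S0`, `v ∉ T`,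
 so `ρ` is trivial on `inr L v` and `mf_orb`, `mf_deg` give `n ≤ embOrb`. Then the discriminant formula `natAbs_discr_eq_absNorm_differentIdeal_mul_natAbs_discr_pow` as in `dsc`.
-/

set_option autoImplicit false

open scoped NumberField
open IsDedekindDomain
open scoped Classical

noncomputable section

namespace H77.PT

open H63.MA H38.BB H38.BG H57.PC H51.CUB H77.PC3 H36.QA

variable {K : Type} [Field K] [NumberField K] {p : ℕ} {ζ : K} {Ω : Type}
  [Field Ω] [Algebra K Ω] [IsAlgClosure K Ω] {G : Type} [Group G]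

theorem mf_tc [Finite G] (hp : p.Prime) (hp2 : MOne p K) (hζ : IsPrimitiveRoot ζ p)
    (ρ : Gal(Ω/K) →* G) (hρ : H38.ML.FT ρ) (hs : Function.Surjective ρ) (H : Subgroup G)
    [NumberField (MF ρ H)] : TC (MF ρ H) (H.index * Module.finrank ℚ K) := by
  have hfd : FiniteDimensional K (MF ρ H) := mf_fin ρ hρ H
  refine ⟨?_, ?_⟩
  · have h0 : ∃ (k : ℕ) (x : K), 2 < k ∧ IsPrimitiveRoot x k := by
      rcases hp.two_le.eq_or_lt with h2 | h2
      · obtain ⟨i, hi⟩ := hp2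
        refine ⟨4, i, by norm_num, ?_⟩
        have hne : (-1 : K) ≠ 1 := by
          intro h
          have h3 : (2 : K) = 0 := by linear_combination -h
          exact two_ne_zero h3
        rw [← h2] at hi
        have h4 : orderOf i = 2 ^ (1 + 1) := by
          refine orderOf_eq_prime_pow (p := 2) (n := 1) ?_ ?_
          · rw [pow_one, hi]
            exact hne
          · calc i ^ 2 ^ (1 + 1) = (i ^ 2) ^ 2 := by ring
              _ = 1 := by rw [hi]; ring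
        have h5 := IsPrimitiveRoot.orderOf i
        rw [h4] at h5
        exact h5
      · exact ⟨p, ζ, h2, hζ⟩
    obtain ⟨k, x, hk, hx⟩ := h0
    have h1 : IsPrimitiveRoot (algebraMap K (MF ρ H) x) k :=
      hx.map_of_injective (algebraMap K (MF ρ H)).injective
    exact NumberField.nrRealPlaces_eq_zero_iff.mp
      (NumberField.InfinitePlace.IsPrimitiveRoot.nrRealPlaces_eq_zero_of_two_lt hk h1)
  · rw [← Module.finrank_mul_finrank ℚ K (MF ρ H), mf_deg ρ hρ hs H, mul_comm]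

theorem mf_dd [Finite G] (hp : p.Prime) (D : RD0 K p ζ) (L : LDs D Ω) (H : Subgroup G) :
    ∃ C : ℝ, 1 ≤ C ∧ ∀ ρ : Gal(Ω/K) →* G, H38.ML.FT ρ → Function.Surjective ρ →
      ∀ T : Finset (Pl K), (∀ v, v ∉ D.S0 → v ∉ T → ∀ τ ∈ inr L v, ρ τ = 1) →
      ∀ [NumberField (MF ρ H)], dd (MF ρ H) ≤ C * nr T ^ H.index := by
  classical
  obtain ⟨n, hn⟩ : ∃ n : ℕ, n = H.index := ⟨_, rfl⟩
  set S : Set (Ideal (𝓞 K)) := ((D.S0.image fun v : Pl K => v.asIdeal : Finset (Ideal (𝓞 K))) :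
    Set (Ideal (𝓞 K))) ∪
    {v : Ideal (𝓞 K) | v.IsPrime ∧ v ≠ ⊥ ∧ ((n.factorial : ℕ) : 𝓞 K) ∈ v} with hS
  have hSf : S.Finite := (Finset.finite_toSet _).union (gdisu_fin n)
  obtain ⟨C, hC, hb⟩ := H38.ML.disc_bound Ω n S hSf (fun v hv hv0 hvS hmem =>
    hvS (Or.inr ⟨hv, hv0, hmem⟩))
  have hK1 : 1 ≤ (NumberField.discr K).natAbs :=
    Nat.one_le_iff_ne_zero.mpr (Int.natAbs_ne_zero.mpr (NumberField.discr_ne_zero K))
  refine ⟨((C * (NumberField.discr K).natAbs ^ n : ℕ) : ℝ), ?_, ?_⟩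
  · exact_mod_cast Nat.mul_pos hC (Nat.pow_pos hK1)
  intro ρ hρ hs T hT hnf
  have hfd : FiniteDimensional K (MF ρ H) := mf_fin ρ hρ H
  have hdeg : Module.finrank K (MF ρ H) = n := by rw [hn]; exact mf_deg ρ hρ hs H
  set T₀ : Finset (Pl K) := T.filter fun v => v.asIdeal ∉ S with hT₀
  have hS0 : ∀ v : Pl K, v.asIdeal ∉ S → v ∉ D.S0 := by
    intro v hv h
    exact hv (Or.inl (Finset.mem_coe.2 (Finset.mem_image_of_mem _ h)))
  have hmain := hb (MF ρ H) hfd hnf hdeg (T₀.image fun v => v.asIdeal) n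
    (by
      intro v hv
      obtain ⟨w, -, rfl⟩ := Finset.mem_image.1 hv
      exact ⟨w.isPrime, w.ne_bot⟩)
    (by
      intro v hv
      obtain ⟨w, hw, rfl⟩ := Finset.mem_image.1 hv
      have hw0 := hS0 w (Finset.mem_filter.1 hw).2
      exact ⟨(L.ld w hw0).P, (L.ld w hw0).prime, (L.ld w hw0).under, Nat.le_add_right _ _⟩)
    (by
      intro v hv hv0 hvS hvT
      have hw0 : (⟨v, hv, hv0⟩ : Pl K) ∉ D.S0 := hS0 ⟨v, hv, hv0⟩ hvS
      have hwT : (⟨v, hv, hv0⟩ : Pl K) ∉ T := by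
        intro h
        exact hvT (Finset.mem_image.2 ⟨⟨v, hv, hv0⟩, Finset.mem_filter.2 ⟨h, hvS⟩, rfl⟩)
      refine ⟨(L.ld _ hw0).P, (L.ld _ hw0).prime, (L.ld _ hw0).under, ?_⟩
      rw [mf_orb ρ hρ H, hdeg]
      intro τ hτ
      have hτ' : τ ∈ inr L ⟨v, hv, hv0⟩ := by rw [dup_inr L _ hw0]; exact hτ
      exact hT _ hw0 hwT τ hτ')
  have hprod : ∏ v ∈ T₀.image (fun v : Pl K => v.asIdeal), Ideal.absNorm v ≤ ∏ v ∈ T, nm v := by
    rw [Finset.prod_image (fun a _ b _ h => HeightOneSpectrum.ext h)]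
    refine Finset.prod_le_prod_of_subset_of_one_le' (Finset.filter_subset _ _) fun v _ _ => ?_
    exact Nat.one_le_iff_ne_zero.2 fun h => v.ne_bot (Ideal.absNorm_eq_zero_iff.1 h)
  have h1 : Ideal.absNorm (differentIdeal (𝓞 K) (𝓞 (MF ρ H))) ≤ C * (∏ v ∈ T, nm v) ^ n :=
    le_trans hmain (Nat.mul_le_mul_left _ (Nat.pow_le_pow_left hprod _))
  have h2 := NumberField.natAbs_discr_eq_absNorm_differentIdeal_mul_natAbs_discr_pow
    K (𝓞 K) (MF ρ H) (𝓞 (MF ρ H))
  have h4 : dd (MF ρ H) = (((NumberField.discr (MF ρ H)).natAbs : ℕ) : ℝ) := by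
    unfold dd
    rw [Nat.cast_natAbs, Int.cast_abs]
  rw [h4, h2, hdeg, ← hn]
  have h5 : Ideal.absNorm (differentIdeal (𝓞 K) (𝓞 (MF ρ H))) *
      (NumberField.discr K).natAbs ^ n ≤
      (C * (∏ v ∈ T, nm v) ^ n) * (NumberField.discr K).natAbs ^ n :=
    Nat.mul_le_mul_right _ h1
  calc ((Ideal.absNorm (differentIdeal (𝓞 K) (𝓞 (MF ρ H))) *
        (NumberField.discr K).natAbs ^ n : ℕ) : ℝ)
      ≤ (((C * (∏ v ∈ T, nm v) ^ n) * (NumberField.discr K).natAbs ^ n : ℕ) : ℝ) := by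
        exact_mod_cast h5
    _ = _ := by
        unfold nr
        push_cast
        ring

end H77.PT
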