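import Pool.Agent.H77.PT.Dq

/-!
# [H77 PT FXP] fixed points on cosets (finite group theory), 100-150 lines. File Pool/Agent/H77/PT/Fxp.lean

`fx C r` = number of `x ∈ G ⧸ C` with `r • x = x`. `Z : Multiplicative (Fin N → ZMod p) →* G` with central values.
* `fx_nonneg`, `fx_le` (`#(G ⧸ C) ≤ #G`), `fx_one_le`?? not needed.
* `fx_mul`: for `z ∈ C` central: `(r * z) • xC = r x z C = r • xC`, so `fx C (r * z) = fx C r`.
* `fx_mean`: `∑ t, fx C (r * Z t) = p ^ N * fx (C ⊔ Z.range) r`. PROOF. Double counting of the pairs `(t, x)`, `x ∈ G ⧸ C`, `r Z(t) x = x`. `C ⊔ Z.range = {c * a}` (`Z.range` is central, so normal: `Subgroup.mul_normal` / `Subgroup.mem_sup_of_normal_right`). Map `x = yC` to `x' = y (C ⊔ Z.range)`; `r Z(t) x = x` implies `r x' = x'`.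
 Fix `x'` with `r • x' = x'`, `x' = y (C ⊔ Z.range)`: the `x` over `x'` are the `y Z(s) C`, and `r y = y c₀ a₀` with `c₀ ∈ C`, `a₀ ∈ Z.range`, so `r Z(t) y Z(s) C = y Z(s) a₀ Z(t) C`, which is `y Z(s) C` iff `a₀ Z(t) ∈ C`. So for every `x` over `x'` the number of the `t` is `#{t | Z(t) ∈ a₀⁻¹ C}` = `#(Z⁻¹ C)` (`a₀ = Z(t₀)`; a coset of
 the subgroup `Z⁻¹ C = C.comap Z`), and the number of the `x` over `x'` is the index of `Z⁻¹ C` in `(ZMod p)^N` (`Z(s) C = Z(s') C` iff `s - s' ∈ Z⁻¹ C`). The product is `p ^ N` (`Subgroup.card_mul_index`; `Nat.card (Multiplicative (Fin N → ZMod p)) = p ^ N`).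
* `fx_quot`: for a normal subgroup `A ≤ H` of `G`: `fx H r = fx (H.map (mk' A)) (mk' A r)` (the bijection `G ⧸ H → (G ⧸ A) ⧸ (H ⧸ A)`).
-/

set_option autoImplicit false

open scoped NumberField
open IsDedekindDomain
open scoped Classical

noncomputable section

namespace H77.PT

open H63.MA H38.BB H38.BG H57.PC H51.CUB H77.PC3

variable {G : Type} [Group G]

theorem fx_nonneg (C : Subgroup G) (r : G) : 0 ≤ fx C r := Nat.cast_nonneg _

theorem fx_le [Finite G] (C : Subgroup G) (r : G) : fx C r ≤ Nat.card G := by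
  unfold fx
  have h1 : Nat.card {x : G ⧸ C // r • x = x} ≤ Nat.card (G ⧸ C) :=
    Nat.card_le_card_of_injective Subtype.val Subtype.val_injective
  have h2 : Nat.card (G ⧸ C) ≤ Nat.card G :=
    Nat.card_le_card_of_surjective (QuotientGroup.mk : G → G ⧸ C) QuotientGroup.mk_surjective
  exact_mod_cast h1.trans h2

theorem fx_mul (C : Subgroup G) (r z : G) (hz : ∀ x, z * x = x * z) (hC : z ∈ C) :
    fx C (r * z) = fx C r := by
  have h1 : ∀ x : G ⧸ C, (r * z) • x = r • x := by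
    intro x
    obtain ⟨y, rfl⟩ := QuotientGroup.mk_surjective x
    show (((r * z) * y : G) : G ⧸ C) = ((r * y : G) : G ⧸ C)
    rw [mul_assoc, hz y, ← mul_assoc]
    exact QuotientGroup.mk_mul_of_mem _ hC
  unfold fx
  simp only [h1]

/-- the number of the `t` with `Z t • x = y` -/
private theorem fxp_coset {p N : ℕ} [NeZero p] {G : Type} [Group G]
    (Z : Multiplicative (Fin N → ZMod p) →* G) (C : Subgroup G) (x y : G ⧸ C)
    (s : Fin N → ZMod p) (hs : Z (Multiplicative.ofAdd s) • x = y) :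
    (Finset.univ.filter fun t : Fin N → ZMod p => Z (Multiplicative.ofAdd t) • x = y).card =
      (Finset.univ.filter fun t : Fin N → ZMod p => Z (Multiplicative.ofAdd t) • y = y).card := by
  refine Finset.card_bij (fun t _ => t - s) ?_ ?_ ?_
  · intro t ht
    rw [Finset.mem_filter] at ht ⊢
    refine ⟨Finset.mem_univ _, ?_⟩
    rw [← hs, smul_smul, ← map_mul, ← ofAdd_add, sub_add_cancel, ht.2, hs]
  · intro t _ t' _ h
    exact sub_left_injective h
  · intro t ht
    rw [Finset.mem_filter] at ht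
    refine ⟨t + s, ?_, add_sub_cancel_right _ _⟩
    rw [Finset.mem_filter]
    refine ⟨Finset.mem_univ _, ?_⟩
    rw [ofAdd_add, map_mul, mul_smul, hs, ht.2]

theorem fx_mean [Finite G] {p N : ℕ} [NeZero p] (Z : Multiplicative (Fin N → ZMod p) →* G)
    (hZ : ∀ t x, Z t * x = x * Z t) (C : Subgroup G) (r : G) :
    ∑ t : Fin N → ZMod p, fx C (r * Z (Multiplicative.ofAdd t)) =
      (p : ℝ) ^ N * fx (C ⊔ Z.range) r := by
  have hfC : Fintype (G ⧸ C) := Fintype.ofFinite _
  have hfH : Fintype (G ⧸ (C ⊔ Z.range)) := Fintype.ofFinite _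
  have hn : Z.range.Normal := ⟨by
    rintro n ⟨t, rfl⟩ g
    rw [← hZ t g, mul_inv_cancel_right]
    exact ⟨t, rfl⟩⟩
  obtain ⟨pr, hpr⟩ : ∃ pr : G ⧸ C → G ⧸ (C ⊔ Z.range),
      ∀ y : G, pr (y : G ⧸ C) = (y : G ⧸ (C ⊔ Z.range)) :=
    ⟨Subgroup.quotientMapOfLE le_sup_left, fun y => rfl⟩
  -- equivariance
  have h1 : ∀ (g : G) (x : G ⧸ C), pr (g • x) = g • pr x := by
    intro g x
    obtain ⟨y, rfl⟩ := QuotientGroup.mk_surjective x
    show pr ((g * y : G) : G ⧸ C) = _
    rw [hpr, hpr]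
    rfl
  -- the range acts trivially
  have h2 : ∀ t (x : G ⧸ (C ⊔ Z.range)), Z t • x = x := by
    intro t x
    obtain ⟨y, rfl⟩ := QuotientGroup.mk_surjective x
    show ((Z t * y : G) : G ⧸ (C ⊔ Z.range)) = y
    rw [hZ]
    exact QuotientGroup.mk_mul_of_mem _ (le_sup_right (a := C) ⟨t, rfl⟩)
  -- the fibres
  have h3 : ∀ x y : G ⧸ C, pr x = pr y → ∃ t : Fin N → ZMod p,
      Z (Multiplicative.ofAdd t) • x = y := by
    intro x y h
    obtain ⟨a, rfl⟩ := QuotientGroup.mk_surjective x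
    obtain ⟨b, rfl⟩ := QuotientGroup.mk_surjective y
    rw [hpr, hpr, QuotientGroup.eq, Subgroup.mem_sup_of_normal_right] at h
    obtain ⟨u, hu, v, ⟨t, rfl⟩, h⟩ := h
    refine ⟨Multiplicative.toAdd t, ?_⟩
    rw [ofAdd_toAdd]
    show ((Z t * a : G) : G ⧸ C) = b
    have h4 : b = Z t * a * u := by
      rw [mul_assoc, hZ, mul_assoc, h, mul_inv_cancel_left]
    rw [h4]
    exact (QuotientGroup.mk_mul_of_mem _ hu).symm
  -- the numbers as sums
  have h4 : ∀ t : Fin N → ZMod p, fx C (r * Z (Multiplicative.ofAdd t)) =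
      ∑ x : G ⧸ C, if (r * Z (Multiplicative.ofAdd t)) • x = x then (1 : ℝ) else 0 := by
    intro t
    unfold fx
    rw [Nat.card_eq_fintype_card, Fintype.card_subtype, ← Finset.sum_filter, Finset.sum_const,
      nsmul_eq_mul, mul_one]
  have h5 : fx (C ⊔ Z.range) r =
      ∑ x : G ⧸ (C ⊔ Z.range), if r • x = x then (1 : ℝ) else 0 := by
    unfold fx
    rw [Nat.card_eq_fintype_card, Fintype.card_subtype, ← Finset.sum_filter, Finset.sum_const,
      nsmul_eq_mul, mul_one]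
  rw [Finset.sum_congr rfl fun t _ => h4 t, Finset.sum_comm, h5, Finset.mul_sum,
    ← Finset.sum_fiberwise_of_maps_to (g := pr) (fun x _ => Finset.mem_univ (pr x))]
  refine Finset.sum_congr rfl fun x' _ => ?_
  by_cases hx' : r • x' = x'
  · rw [if_pos hx', mul_one]
    obtain ⟨b, rfl⟩ := QuotientGroup.mk_surjective x'
    have h6 : ∀ x ∈ Finset.univ.filter (fun x : G ⧸ C => pr x = (b : G ⧸ (C ⊔ Z.range))),
        (∑ t : Fin N → ZMod p,
          if (r * Z (Multiplicative.ofAdd t)) • x = x then (1 : ℝ) else 0) =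
        ∑ t : Fin N → ZMod p,
          if Z (Multiplicative.ofAdd t) • (b : G ⧸ C) = x then (1 : ℝ) else 0 := by
      intro x hx
      rw [Finset.mem_filter] at hx
      obtain ⟨s, hs⟩ := h3 (b : G ⧸ C) x (by rw [hx.2, hpr])
      obtain ⟨s', hs'⟩ := h3 (r • x) x (by rw [h1, hx.2, hx'])
      have h7 := fxp_coset Z C _ _ s hs
      have h8 := fxp_coset Z C _ _ s' hs'
      have h9 : ∀ t : Fin N → ZMod p, (r * Z (Multiplicative.ofAdd t)) • x =
          Z (Multiplicative.ofAdd t) • (r • x) := by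
        intro t
        rw [← hZ, mul_smul]
      simp only [h9]
      rw [← Finset.sum_filter, ← Finset.sum_filter, Finset.sum_const, Finset.sum_const, h7, h8]
    rw [Finset.sum_congr rfl h6, Finset.sum_comm]
    have h10 : ∀ t : Fin N → ZMod p,
        (∑ x ∈ Finset.univ.filter (fun x : G ⧸ C => pr x = (b : G ⧸ (C ⊔ Z.range))),
          if Z (Multiplicative.ofAdd t) • (b : G ⧸ C) = x then (1 : ℝ) else 0) = 1 := by
      intro t
      rw [Finset.sum_ite_eq, if_pos]
      rw [Finset.mem_filter]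
      refine ⟨Finset.mem_univ _, ?_⟩
      rw [h1, h2, hpr]
    rw [Finset.sum_congr rfl fun t _ => h10 t, Finset.sum_const, Finset.card_univ, nsmul_eq_mul,
      mul_one, Fintype.card_fun, Fintype.card_fin, ZMod.card]
    push_cast
    rfl
  · rw [if_neg hx', mul_zero]
    refine Finset.sum_eq_zero fun x hx => Finset.sum_eq_zero fun t _ => ?_
    rw [Finset.mem_filter] at hx
    rw [if_neg]
    intro h
    apply hx'
    have h6 := congrArg pr h
    rw [h1, hx.2, mul_smul, h2] at h6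
    exact h6

theorem fx_quot (A H : Subgroup G) [A.Normal] (hAH : A ≤ H) (r : G) :
    fx (H.map (QuotientGroup.mk' A)) (QuotientGroup.mk' A r) = fx H r := by
  have h0 : ∀ a b : G, a⁻¹ * b ∈ H ↔
      (QuotientGroup.mk' A a)⁻¹ * QuotientGroup.mk' A b ∈ H.map (QuotientGroup.mk' A) := by
    intro a b
    rw [← map_inv, ← map_mul, ← Subgroup.mem_comap, Subgroup.comap_map_eq_self]
    rw [QuotientGroup.ker_mk']
    exact hAH
  obtain ⟨e, he⟩ : ∃ e : G ⧸ H ≃ (G ⧸ A) ⧸ (H.map (QuotientGroup.mk' A)),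
      ∀ y : G, e (y : G ⧸ H) = ((QuotientGroup.mk' A y : G ⧸ A) :
        (G ⧸ A) ⧸ (H.map (QuotientGroup.mk' A))) := by
    have hw : ∀ a b : G, (QuotientGroup.leftRel H) a b →
        (QuotientGroup.leftRel (H.map (QuotientGroup.mk' A))) (QuotientGroup.mk' A a)
          (QuotientGroup.mk' A b) := by
      intro a b h
      rw [QuotientGroup.leftRel_apply] at h ⊢
      exact (h0 a b).1 h
    refine ⟨Equiv.ofBijective (Quotient.map' (QuotientGroup.mk' A) hw) ⟨?_, ?_⟩, fun y => rfl⟩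
    · intro x y h
      obtain ⟨a, rfl⟩ := QuotientGroup.mk_surjective x
      obtain ⟨b, rfl⟩ := QuotientGroup.mk_surjective y
      have h' : ((QuotientGroup.mk' A a : G ⧸ A) : (G ⧸ A) ⧸ (H.map (QuotientGroup.mk' A))) =
          ((QuotientGroup.mk' A b : G ⧸ A) : (G ⧸ A) ⧸ (H.map (QuotientGroup.mk' A))) := h
      rw [QuotientGroup.eq] at h' ⊢
      exact (h0 a b).2 h'
    · intro x
      obtain ⟨a, rfl⟩ := QuotientGroup.mk_surjective x
      obtain ⟨b, rfl⟩ := QuotientGroup.mk'_surjective A a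
      exact ⟨(b : G ⧸ H), rfl⟩
  unfold fx
  congr 1
  refine Nat.card_congr (Equiv.subtypeEquiv e.symm ?_)
  intro x
  obtain ⟨x, rfl⟩ := e.surjective x
  rw [Equiv.symm_apply_apply]
  obtain ⟨y, rfl⟩ := QuotientGroup.mk_surjective x
  have h1 : (QuotientGroup.mk' A r) • e (y : G ⧸ H) = e (r • (y : G ⧸ H)) := by
    have h2 : r • (y : G ⧸ H) = ((r * y : G) : G ⧸ H) := rfl
    rw [he, h2, he, map_mul]
    rfl
  rw [h1]
  exact e.injective.eq_iff

end H77.PT
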