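import Pool.Agent.H77.PT.Dq
import Pool.Agent.H51.CUB.DSC

/-!
# [H77 PT FDA] the field attached to a subgroup, 90-140 lines. File Pool/Agent/H77/PT/Fda.lean

`ρ : Γ → G` of finite type, `H ≤ G`; `MF ρ H` is the fixed field of `ρ⁻¹(H)`.
* `mf_fix`, `mf_fin`: `H38.ML.fixing_fixedField` (Pool/Agent/H38/ML/Factor.lean) with `U = H.comap ρ` and the field `E` of `hρ` (`E.fixingSubgroup ≤ ρ.ker ≤ H.comap ρ`).
* `mf_deg` (`ρ` surjective): `Module.finrank K M = Nat.card (M →ₐ[K] Ω)` (`AlgHom.card`, `Nat.card_eq_fintype_card`; `Ω` is algebraically closed of characteristic zero) and `M →ₐ[K] Ω ≃ Γ ⧸ M.fixingSubgroup ≃ G ⧸ H`: every embedding is the restriction of some `g ∈ Γ` (`AlgHom.liftNormal`, see `dsc_orb` in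
 Pool/Agent/H51/CUB/DSC.lean), two elements `g, h` have the same restriction iff `g⁻¹ h ∈ M.fixingSubgroup = H.comap ρ`, and `g ↦ ρ g` induces a bijection of `Γ ⧸ H.comap ρ` with `G ⧸ H` (`Subgroup.index_comap_of_surjective` gives the equality of the indices). (`Subgroup.index = Nat.card (· ⧸ ·)`.)
* `mf_orb`: if `ρ` is trivial on `J` then `J` acts trivially on the embeddings: exactly the proof of `dsc_orb` (conjugates `g⁻¹ τ g` satisfy `ρ (g⁻¹ τ g) = 1`, so they are in `M.fixingSubgroup`), `embOrb M J = #(M →ₐ[K] Ω) = finrank`.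
-/

set_option autoImplicit false

open scoped NumberField
open IsDedekindDomain
open scoped Classical

noncomputable section

namespace H77.PT

open H63.MA H38.BB H38.BG H57.PC H51.CUB H77.PC3

variable {K : Type} [Field K] [NumberField K] {Ω : Type}
  [Field Ω] [Algebra K Ω] [IsAlgClosure K Ω] {G : Type} [Group G]

omit [NumberField K] [IsAlgClosure K Ω] in
/-- the fixed field of `ρ⁻¹(H)` -/
def MF (ρ : Gal(Ω/K) →* G) (H : Subgroup G) : IntermediateField K Ω :=
  IntermediateField.fixedField (H.comap ρ)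

theorem mf_fix (ρ : Gal(Ω/K) →* G) (hρ : H38.ML.FT ρ) (H : Subgroup G) :
    (MF ρ H).fixingSubgroup = H.comap ρ := by
  obtain ⟨E, hE, hle⟩ := hρ
  exact (H38.ML.fixing_fixedField (H.comap ρ) E
    (hle.trans fun σ hσ => by
      rw [MonoidHom.mem_ker] at hσ
      rw [Subgroup.mem_comap, hσ]
      exact H.one_mem)).1

theorem mf_fin (ρ : Gal(Ω/K) →* G) (hρ : H38.ML.FT ρ) (H : Subgroup G) :
    FiniteDimensional K (MF ρ H) := by
  obtain ⟨E, hE, hle⟩ := hρ
  exact (H38.ML.fixing_fixedField (H.comap ρ) E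
    (hle.trans fun σ hσ => by
      rw [MonoidHom.mem_ker] at hσ
      rw [Subgroup.mem_comap, hσ]
      exact H.one_mem)).2

theorem mf_deg [Finite G] (ρ : Gal(Ω/K) →* G) (hρ : H38.ML.FT ρ)
    (hs : Function.Surjective ρ) (H : Subgroup G) : Module.finrank K (MF ρ H) = H.index := by
  have : IsGalois K Ω := IsAlgClosure.isGalois K Ω
  rw [IntermediateField.finrank_eq_fixingSubgroup_index, mf_fix ρ hρ H,
    Subgroup.index_comap_of_surjective H hs]

theorem mf_orb (ρ : Gal(Ω/K) →* G) (hρ : H38.ML.FT ρ) (H : Subgroup G)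
    (J : Subgroup Gal(Ω/K)) (hJ : ∀ τ ∈ J, ρ τ = 1) :
    H38.ML.embOrb (MF ρ H) J = Module.finrank K (MF ρ H) := by
  have hcl : IsAlgClosed Ω := IsAlgClosure.isAlgClosed K
  have hnorm : Normal K Ω := IsAlgClosure.normal K Ω
  have halg : Algebra.IsAlgebraic K Ω := IsAlgClosure.isAlgebraic
  have hfd : FiniteDimensional K (MF ρ H) := mf_fin ρ hρ H
  have key : ∀ τ ∈ J, ∀ φ : MF ρ H →ₐ[K] Ω, ((τ : Gal(Ω/K)) : Ω →ₐ[K] Ω).comp φ = φ := by
    intro τ hτ φ
    let g : Gal(Ω/K) := AlgEquiv.ofBijective (φ.liftNormal Ω)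
      (Algebra.IsAlgebraic.algHom_bijective _)
    have hg : ∀ x : MF ρ H, g (x : Ω) = φ x := fun x => AlgHom.liftNormal_commutes φ Ω x
    have h1 : g⁻¹ * τ * g ∈ (MF ρ H).fixingSubgroup := by
      rw [mf_fix ρ hρ H, Subgroup.mem_comap, map_mul, map_mul, hJ τ hτ, mul_one, ← map_mul,
        inv_mul_cancel, map_one]
      exact H.one_mem
    ext x
    have h2 := (IntermediateField.mem_fixingSubgroup_iff (MF ρ H) _).1 h1 x.1 x.2
    have h3 : g ((g⁻¹ * τ * g) (x : Ω)) = g (x : Ω) := congrArg g h2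
    have h4 : g ((g⁻¹ * τ * g) (x : Ω)) = τ (g (x : Ω)) := by
      rw [← AlgEquiv.mul_apply, ← mul_assoc, ← mul_assoc, mul_inv_cancel, one_mul,
        AlgEquiv.mul_apply]
    rw [h4, hg] at h3
    exact h3
  unfold H38.ML.embOrb
  rw [← AlgHom.card K (MF ρ H) Ω, ← Nat.card_eq_fintype_card]
  refine Nat.card_congr ?_
  refine ⟨Quot.lift id ?_, Quot.mk _, ?_, ?_⟩
  · rintro φ ψ ⟨τ, hτ, rfl⟩
    exact (key τ hτ φ).symm
  · intro x
    induction x using Quot.ind with
    | mk φ => rfl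
  · intro φ
    rfl

end H77.PT
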