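import Pool.Agent.H51.CUB.LNK
import Pool.Agent.H77.PC3.CMa

/-!
# H77-PT-DEF: sums over families with windows (MP_b39724_nt), definitions

* `thr Y k = exp ((log log Y)^(5 k + 3))`: the thresholds. `Pat Y k I f`: the classes in `I` have a prime larger than `thr Y (k + 1)`, all primes of the
  other classes are at most `thr Y k`.
* `WY N J`: windows `a ∈ J` with class `cls a ∈ Fin N` and window `(lo a, hi a]` for the norms.
* `clw U h i`: the union of the `h a` of class `i`. `Wc`: the conditions for a family `h : J → Finset (Pl K)`.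
* `PC U φ ω Y`: the sum over the families `h` of good primes in the windows, disjoint, off `E`, with the spanning condition, of `ω (spt h)`, of the smooth
  weight and of the sum over `ρ ∈ RHf (clw U h)` of `∏ φ a (cq ρ v)`. `PR`: the same for real functions.
* `WY.ex U c`: the types `(a, ψ)`, `ψ ∈ (ZMod p)^w`, with weight `c a ψ` (types of weight `0` get the functional `0`).
* `VII`, `VI`: the subspaces `[U_I, U_I]`, `[U_I, U]` of `V`, `U_I` the span of the `s i`, `i ∈ I`. `BS Dg S i = [S, s i]`.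
* `UW Y k I`: the windows `(i, false)`: norms `≤ thr Y (k + 1)` if `i ∈ I`, `≤ thr Y k` if `i ∉ I`, and `(i, true)`: norms `> thr Y (k + 1)` if `i ∈ I`, empty
  if `i ∉ I`. `om0 I`: the windows `(i, true)` which occur are those with `i ∈ I`. `phi Dg S`: `Wn i` for the small windows, `Wn i / #[S, s i]` on `[S, s i]` for the large ones; `cf Dg S` its Fourier coefficients.
* `MUp`: the upper bound for the part of `FSum` where all classes have a prime larger than `thr Y 1`. `SUp`: the upper bound for the other part.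
-/

set_option autoImplicit false

open scoped NumberField
open IsDedekindDomain
open scoped Classical

noncomputable section

namespace H77.PT

open H63.MA H38.BB H38.BG H57.PC H51.CUB H77.PC3

/-- the thresholds -/
def thr (Y : ℝ) (k : ℕ) : ℝ := Real.exp (Real.log (Real.log Y) ^ (5 * k + 3))

/-- windows -/
structure WY (N : ℕ) (J : Type) where
  cls : J → Fin N
  lo : J → ℝ
  hi : J → ℝ

/-- all types over the windows, with weights -/
def WY.ex {N p w : ℕ} {J : Type} (U : WY N J) (c : J → (Fin w → ZMod p) → ℝ) :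
    TY N w p (J × (Fin w → ZMod p)) where
  cls a := U.cls a.1
  psi a := if c a.1 a.2 = 0 then 0 else a.2
  lo a := U.lo a.1
  hi a := U.hi a.1
  wt a := c a.1 a.2

section grp

variable {p m l w N : ℕ} {P R : Type} [Group P] [Group R]

/-- the span of the vectors `[s i, s j]`, `i, j ∈ I` -/
def VII (Dg : GP p m l w N P R) (I : Finset (Fin N)) : Submodule (ZMod p) (Fin l → ZMod p) :=
  Submodule.span (ZMod p) {v | ∃ i ∈ I, ∃ j ∈ I, v = Dg.kV (Dg.s i) (Dg.s j)}

/-- the span of the vectors `[s i, u]`, `i ∈ I` -/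
def VI (Dg : GP p m l w N P R) (I : Finset (Fin N)) : Submodule (ZMod p) (Fin l → ZMod p) :=
  Submodule.span (ZMod p) {v | ∃ i ∈ I, ∃ u, v = Dg.kV (Dg.s i) u}

/-- `[S, s i]` for a subspace `S` of `V` -/
def BS (Dg : GP p m l w N P R) (S : Submodule (ZMod p) (Fin l → ZMod p)) (i : Fin N) :
    Submodule (ZMod p) (Fin w → ZMod p) := S.map (Dg.β.flip (Dg.s i))

end grp

section sums

variable {K : Type} [Field K] [NumberField K] {p : ℕ} {ζ : K} {D : RD0 K p ζ} {Ω : Type}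
  [Field Ω] [Algebra K Ω] {m l w N : ℕ} {P R : Type} [Group P] [Group R] {J : Type} [Fintype J]

/-- the pattern `(k, I)` -/
def Pat (Y : ℝ) (k : ℕ) (I : Finset (Fin N)) (f : Fin N → Finset (Pl K)) : Prop :=
  (∀ i ∈ I, ∃ v ∈ f i, thr Y (k + 1) < nm v) ∧ ∀ i, i ∉ I → ∀ v ∈ f i, (nm v : ℝ) ≤ thr Y k

/-- the classes of a family with windows -/
def clw (U : WY N J) (h : J → Finset (Pl K)) (i : Fin N) : Finset (Pl K) :=
  (Finset.univ.filter fun a => U.cls a = i).biUnion h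

/-- the conditions for a family with windows -/
def Wc (D : RD0 K p ζ) (U : WY N J) (E : Finset (Pl K)) (Y : ℝ) (h : J → Finset (Pl K)) : Prop :=
  Dj h ∧ (∀ a, Disjoint (h a) E) ∧ ∏ a, nr (h a) ≤ 2 * Y ∧
    ∀ a, ∀ v ∈ h a, U.lo a < nm v ∧ (nm v : ℝ) ≤ U.hi a

/-- the sum over the families with windows, complex weights -/
def PC [NeZero p] {L : LDs D Ω} (Dg : GP p m l w N P R) (Fr : FR L) (U : WY N J)
    (φ : J → (Fin w → ZMod p) → ℂ) (b : Fin m → Kˣ) (E : Finset (Pl K))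
    (ε : Pl K → Gal(Ω/K) → R) (ω : Finset J → ℂ) (Y : ℝ) : ℂ :=
  ∑ h ∈ Fintype.piFinset (fun _ : J => GF D (2 * Y)),
    if Wc D U E Y h ∧ SpR Dg.cr b (clw U h) then
      ω (spt h) * ((wl ((∏ a, nr (h a)) / Y) : ℝ) : ℂ) *
        ∑ ρ ∈ RHf L Dg b E ε (clw U h), ∏ a, ∏ v ∈ h a, φ a (cq Dg Fr ρ v)
    else 0

/-- the sum over the families with windows, real weights -/
def PR [NeZero p] {L : LDs D Ω} (Dg : GP p m l w N P R) (Fr : FR L) (U : WY N J)
    (φ : J → (Fin w → ZMod p) → ℝ) (b : Fin m → Kˣ) (E : Finset (Pl K))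
    (ε : Pl K → Gal(Ω/K) → R) (ω : Finset J → ℝ) (Y : ℝ) : ℝ :=
  ∑ h ∈ Fintype.piFinset (fun _ : J => GF D (2 * Y)),
    if Wc D U E Y h ∧ SpR Dg.cr b (clw U h) then
      ω (spt h) * wl ((∏ a, nr (h a)) / Y) *
        ∑ ρ ∈ RHf L Dg b E ε (clw U h), ∏ a, ∏ v ∈ h a, φ a (cq Dg Fr ρ v)
    else 0

/-- the windows of the pattern `(k, I)` -/
def UW (N : ℕ) (Y : ℝ) (k : ℕ) (I : Finset (Fin N)) : WY N (Fin N × Bool) where
  cls a := a.1
  lo a := if a.2 = true then thr Y (k + 1) else 0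
  hi a := if a.2 = true then (if a.1 ∈ I then 2 * Y else 0) else
    if a.1 ∈ I then thr Y (k + 1) else thr Y k

/-- exactly the large windows of the classes in `I` occur -/
def om0 {N : ℕ} (I : Finset (Fin N)) (S : Finset (Fin N × Bool)) : ℝ :=
  if ∀ i, i ∈ I ↔ (i, true) ∈ S then 1 else 0

/-- the local weights -/
def phi (Dg : GP p m l w N P R) (S : Submodule (ZMod p) (Fin l → ZMod p)) (a : Fin N × Bool)
    (x : Fin w → ZMod p) : ℝ :=
  if a.2 = true then
    (Dg.Wn a.1 : ℝ) / Nat.card (BS Dg S a.1) * (if x ∈ BS Dg S a.1 then 1 else 0)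
  else Dg.Wn a.1

/-- the Fourier coefficients of `phi` -/
def cf (Dg : GP p m l w N P R) (S : Submodule (ZMod p) (Fin l → ZMod p)) (a : Fin N × Bool)
    (ψ : Fin w → ZMod p) : ℝ :=
  if a.2 = true then
    (if ∀ x ∈ BS Dg S a.1, dt ψ x = 0 then (Dg.Wn a.1 : ℝ) / (p : ℝ) ^ w else 0)
  else if ψ = 0 then Dg.Wn a.1 else 0

/-- the upper bound for the main pattern -/
def MUp [NeZero p] {L : LDs D Ω} (Dg : GP p m l w N P R) (Fr : FR L) : Prop :=
  ∀ η : ℝ, 0 < η → ∃ C Y₀ : ℝ, 0 < C ∧ 3 ≤ Y₀ ∧ ∀ Y : ℝ, Y₀ ≤ Y → ∀ (b : Fin m → Kˣ)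
    (E : Finset (Pl K)), BS2 D b E → nr E ≤ thr Y 0 → ∀ ε : Pl K → Gal(Ω/K) → R,
      (∑ f ∈ Fintype.piFinset (fun _ : Fin N => GF D Y),
        if (Dj f ∧ (∀ i, Disjoint (f i) E) ∧ ∏ i, nr (f i) ≤ Y ∧ SpR Dg.cr b f) ∧
            ∀ i, ∃ v ∈ f i, thr Y 1 < nm v then FW Dg Fr b E ε f else 0) ≤
        C * nr E ^ η * Y * (1 + Real.log Y) ^ (N - 1)

/-- the upper bound for the other patterns -/
def SUp [NeZero p] {L : LDs D Ω} (Dg : GP p m l w N P R) (Fr : FR L) : Prop :=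
  ∃ C Y₀ : ℝ, 0 < C ∧ 3 ≤ Y₀ ∧ ∀ Y : ℝ, Y₀ ≤ Y → ∀ (b : Fin m → Kˣ)
    (E : Finset (Pl K)), BS2 D b E → nr E ≤ thr Y 0 → ∀ ε : Pl K → Gal(Ω/K) → R,
      (∑ f ∈ Fintype.piFinset (fun _ : Fin N => GF D Y),
        if (Dj f ∧ (∀ i, Disjoint (f i) E) ∧ ∏ i, nr (f i) ≤ Y ∧ SpR Dg.cr b f) ∧
            ¬ ∀ i, ∃ v ∈ f i, thr Y 1 < nm v then FW Dg Fr b E ε f else 0) ≤
        C * Y * (1 + Real.log Y) ^ (N - 1)

end sums

end H77.PT
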