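import Pool.Agent.H77.PT.Def
import Pool.Agent.H57.LOW.Loe

/-!
# [H77 PT LIA] character sums over cosets of annihilators, 60-100 lines. File Pool/Agent/H77/PT/Lia.lean

* `lia_sum`: `∑_{ψ = ψ₀ on A} ep (ψ · x) = (p^w / #A) ep (ψ₀ · x)` for `x ∈ A`, `0` otherwise.
  PROOF. The `ψ` with `ψ = ψ₀` on `A` are the `ψ₀ + θ`, `θ ∈ ann0 A` (`ann0`: H57/PC/Def; `dt` is additive). So the sum is `ep (ψ₀ · x) * ∑_{θ ∈ ann0 A} ep (θ · x)`, and `∑_{θ ∈ ann0 A} ep (θ · x)` is `#(ann0 A)` if all `θ · x = 0`, and `0` otherwise (`rx_char`, Pool/Agent/H38/BB/CExp.lean).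
  `θ · x = 0` for all `θ ∈ ann0 A` iff `x ∈ A`, and `#(ann0 A) * #A = p ^ w`: `H57.LOW.ann_ann` (Pool/Agent/H57/LOW/Loe.lean), `H57.LOW.ann_card` (Loc.lean) — import Pool.Agent.H57.LOW.Loe.
* `phi_cf`: `phi` is the Fourier transform of `cf`: `a.2 = true`: `lia_sum` with `ψ₀ = 0` (`ep p 0 = 1`), times `Wn / p^w` (`#A ≠ 0`, `p ^ w ≠ 0`); `a.2 = false`: only `ψ = 0`.
* `phi_coset`: for `ψ₀` which kills `BS Dg S i`, `S ≤ S'`: `∑_{ψ = ψ₀ on BS Dg S' i} cf Dg S (i, true) ψ ep (ψ · x) = phi Dg S' (i, true) x * ep (ψ₀ · x)` (all these `ψ` kill `BS Dg S i ≤ BS Dg S' i`: `Submodule.map_mono`).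
-/

set_option autoImplicit false

open scoped NumberField
open IsDedekindDomain
open scoped Classical

noncomputable section

namespace H77.PT

open H63.MA H38.BB H38.BG H57.PC H51.CUB H77.PC3

theorem lia_add {p w : ℕ} (a b u : Fin w → ZMod p) : dt (a + b) u = dt a u + dt b u := by
  simp only [dt, Pi.add_apply, add_mul, Finset.sum_add_distrib]

theorem lia_zero {p w : ℕ} (u : Fin w → ZMod p) : dt (0 : Fin w → ZMod p) u = 0 := by
  simp only [dt, Pi.zero_apply, zero_mul, Finset.sum_const_zero]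

theorem lia_sum {p w : ℕ} [NeZero p] (hp : p.Prime) (A : Submodule (ZMod p) (Fin w → ZMod p))
    (ψ₀ x : Fin w → ZMod p) :
    (∑ ψ ∈ Finset.univ.filter (fun ψ : Fin w → ZMod p => ∀ y ∈ A, dt ψ y = dt ψ₀ y),
      ep p (dt ψ x)) =
      if x ∈ A then (((p : ℝ) ^ w / Nat.card A : ℝ) : ℂ) * ep p (dt ψ₀ x) else 0 := by
  have hAc : (Nat.card A : ℝ) ≠ 0 := by
    have : 0 < Nat.card A := Nat.card_pos
    positivity
  have h1 : (∑ ψ ∈ Finset.univ.filter (fun ψ : Fin w → ZMod p => ∀ y ∈ A, dt ψ y = dt ψ₀ y),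
      ep p (dt ψ x)) = ∑ δ : {δ : Fin w → ZMod p // δ ∈ ann0 A}, ep p (dt (δ.1 + ψ₀) x) := by
    symm
    refine Finset.sum_bij (fun δ _ => δ.1 + ψ₀) ?_ ?_ ?_ ?_
    · intro δ _
      rw [Finset.mem_filter]
      refine ⟨Finset.mem_univ _, fun y hy => ?_⟩
      rw [lia_add, δ.2 y hy, zero_add]
    · intro δ _ δ' _ h
      exact Subtype.ext (add_right_cancel h)
    · intro ψ hψ
      refine ⟨⟨ψ - ψ₀, fun y hy => ?_⟩, Finset.mem_univ _, sub_add_cancel ψ ψ₀⟩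
      have h2 := (Finset.mem_filter.1 hψ).2 y hy
      have h3 : dt (ψ - ψ₀ + ψ₀) y = dt (ψ - ψ₀) y + dt ψ₀ y := lia_add _ _ _
      rw [sub_add_cancel, h2] at h3
      exact left_eq_add.mp (h3.trans (add_comm _ _))
    · intro δ _
      rfl
  have h2 : ∀ δ : {δ : Fin w → ZMod p // δ ∈ ann0 A}, ep p (dt (δ.1 + ψ₀) x) =
      ep p (dt δ.1 x) * ep p (dt ψ₀ x) := by
    intro δ
    rw [lia_add, ep_add hp]
  rw [h1, Finset.sum_congr rfl fun δ _ => h2 δ, ← Finset.sum_mul, ← rx_char hp (ann0 A) x]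
  have h3 : (∀ δ ∈ ann0 A, dt δ x = 0) ↔ x ∈ A := (H57.LOW.ann_ann hp A x).symm
  by_cases hx : x ∈ A
  · rw [if_pos (h3.2 hx), if_pos hx]
    congr 2
    rw [eq_div_iff hAc]
    exact_mod_cast H57.LOW.ann_card hp A
  · rw [if_neg fun h => hx (h3.1 h), if_neg hx, Complex.ofReal_zero, zero_mul]

variable {p m l w N : ℕ} {P R : Type} [Group P] [Group R]

theorem phi_cf [NeZero p] (hp : p.Prime) (Dg : GP p m l w N P R)
    (S : Submodule (ZMod p) (Fin l → ZMod p)) (a : Fin N × Bool) (x : Fin w → ZMod p) :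
    ((phi Dg S a x : ℝ) : ℂ) = ∑ ψ, ((cf Dg S a ψ : ℝ) : ℂ) * ep p (dt ψ x) := by
  have hpw : ((p : ℝ) ^ w) ≠ 0 := by
    have : (p : ℝ) ≠ 0 := by exact_mod_cast hp.ne_zero
    positivity
  by_cases ha : a.2 = true
  · have h1 : ∀ ψ : Fin w → ZMod p, ((cf Dg S a ψ : ℝ) : ℂ) * ep p (dt ψ x) =
        if ∀ y ∈ BS Dg S a.1, dt ψ y = dt (0 : Fin w → ZMod p) y then
          (((Dg.Wn a.1 : ℝ) / (p : ℝ) ^ w : ℝ) : ℂ) * ep p (dt ψ x) else 0 := by
      intro ψ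
      unfold cf
      rw [if_pos ha]
      simp only [lia_zero]
      by_cases h : ∀ y ∈ BS Dg S a.1, dt ψ y = 0
      · rw [if_pos h, if_pos h]
      · rw [if_neg h, if_neg h, Complex.ofReal_zero, zero_mul]
    rw [Finset.sum_congr rfl fun ψ _ => h1 ψ, ← Finset.sum_filter, ← Finset.mul_sum,
      lia_sum hp (BS Dg S a.1) 0 x, lia_zero, ep_zero]
    unfold phi
    rw [if_pos ha]
    by_cases hx : x ∈ BS Dg S a.1
    · rw [if_pos hx, if_pos hx, mul_one, mul_one, ← Complex.ofReal_mul]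
      congr 1
      field_simp
    · rw [if_neg hx, if_neg hx, mul_zero, mul_zero, Complex.ofReal_zero]
  · unfold phi cf
    rw [if_neg ha]
    simp only [if_neg ha]
    rw [Finset.sum_eq_single (0 : Fin w → ZMod p)]
    · rw [if_pos rfl, lia_zero, ep_zero, mul_one]
    · intro ψ _ hψ
      rw [if_neg hψ, Complex.ofReal_zero, zero_mul]
    · intro h
      exact absurd (Finset.mem_univ _) h

theorem phi_coset [NeZero p] (hp : p.Prime) (Dg : GP p m l w N P R)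
    (S S' : Submodule (ZMod p) (Fin l → ZMod p)) (hS : S ≤ S') (i : Fin N)
    (ψ₀ : Fin w → ZMod p) (h₀ : ∀ y ∈ BS Dg S i, dt ψ₀ y = 0) (x : Fin w → ZMod p) :
    (∑ ψ ∈ Finset.univ.filter (fun ψ : Fin w → ZMod p => ∀ y ∈ BS Dg S' i, dt ψ y = dt ψ₀ y),
      ((cf Dg S (i, true) ψ : ℝ) : ℂ) * ep p (dt ψ x)) =
      ((phi Dg S' (i, true) x : ℝ) : ℂ) * ep p (dt ψ₀ x) := by
  have hpw : ((p : ℝ) ^ w) ≠ 0 := by
    have : (p : ℝ) ≠ 0 := by exact_mod_cast hp.ne_zero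
    positivity
  have hle : BS Dg S i ≤ BS Dg S' i := Submodule.map_mono hS
  have h1 : ∀ ψ ∈ Finset.univ.filter
      (fun ψ : Fin w → ZMod p => ∀ y ∈ BS Dg S' i, dt ψ y = dt ψ₀ y),
      ((cf Dg S (i, true) ψ : ℝ) : ℂ) * ep p (dt ψ x) =
        (((Dg.Wn i : ℝ) / (p : ℝ) ^ w : ℝ) : ℂ) * ep p (dt ψ x) := by
    intro ψ hψ
    have h2 := (Finset.mem_filter.1 hψ).2
    have h3 : ∀ y ∈ BS Dg S i, dt ψ y = 0 := by
      intro y hy
      rw [h2 y (hle hy), h₀ y hy]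
    unfold cf
    simp only [if_true]
    rw [if_pos h3]
  rw [Finset.sum_congr rfl h1, ← Finset.mul_sum, lia_sum hp (BS Dg S' i) ψ₀ x]
  unfold phi
  simp only [if_true]
  by_cases hx : x ∈ BS Dg S' i
  · rw [if_pos hx, if_pos hx, mul_one, ← mul_assoc, ← Complex.ofReal_mul]
    congr 2
    field_simp
  · rw [if_neg hx, if_neg hx, mul_zero, mul_zero, Complex.ofReal_zero, zero_mul]

theorem phi_nonneg (Dg : GP p m l w N P R) (S : Submodule (ZMod p) (Fin l → ZMod p))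
    (a : Fin N × Bool) (x : Fin w → ZMod p) : 0 ≤ phi Dg S a x := by
  unfold phi
  split_ifs <;> positivity

theorem cf_nonneg (Dg : GP p m l w N P R) (S : Submodule (ZMod p) (Fin l → ZMod p))
    (a : Fin N × Bool) (ψ : Fin w → ZMod p) : 0 ≤ cf Dg S a ψ := by
  unfold cf
  split_ifs <;> positivity

end H77.PT
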