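import Pool.Agent.H77.PT.Def

/-!
# [H77 PT LIN] simple properties of `PC`, `PR`, `TS`, 100-150 lines. File Pool/Agent/H77/PT/Lin.lean

* `pr_pc`: `PR` as a complex number is `PC` of the casts (`push_cast`). `pc_abs`: `‖PC φ ω‖ ≤ PR ‖φ‖ ‖ω‖`: `norm_sum_le`, `wl ≥ 0` (`le_max_left`), `norm_prod`. `pr_nonneg`, `pr_mono` (`φ`, `ω` nonnegative): termwise (`Finset.prod_le_prod`).
* `ts_sum`: `TS` is additive in `ω` (finite sums), `ts_smul`: and homogeneous. Termwise, `Finset.sum_comm`, `Finset.mul_sum`.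
* `ts_bad`: if `ω S ≠ 0` only for supports `S` with `Bd t S` for some `t` in a finite set `B`, and for every `t ∈ B` and every `ω'` (`‖ω'‖ ≤ 1`, `ω' S ≠ 0 → Bd t S`) `‖TS ω'‖ ≤ M`, then `‖TS ω‖ ≤ #B * M`.
  PROOF. Choose for every `S` with `ω S ≠ 0` an element `τ S ∈ B` with `Bd (τ S) S`; `ω = ∑ t ∈ B, ω_t` with `ω_t S = if ω S ≠ 0 ∧ τ S = t then ω S else 0` (exactly one `t`); `ts_sum`, `norm_sum_le`.
-/

set_option autoImplicit false

open scoped NumberField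
open IsDedekindDomain
open scoped Classical

noncomputable section

namespace H77.PT

open H63.MA H38.BB H38.BG H57.PC H51.CUB H77.PC3

variable {K : Type} [Field K] [NumberField K] {p : ℕ} {ζ : K} {D : RD0 K p ζ} {Ω : Type}
  [Field Ω] [Algebra K Ω] {m l w N : ℕ} {P R : Type} [Group P] [Group R] {J : Type} [Fintype J]

theorem wl_nonneg (x : ℝ) : 0 ≤ wl x := le_max_left _ _

theorem pr_pc [NeZero p] {L : LDs D Ω} (Dg : GP p m l w N P R) (Fr : FR L) (U : WY N J)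
    (φ : J → (Fin w → ZMod p) → ℝ) (b : Fin m → Kˣ) (E : Finset (Pl K))
    (ε : Pl K → Gal(Ω/K) → R) (ω : Finset J → ℝ) (Y : ℝ) :
    ((PR Dg Fr U φ b E ε ω Y : ℝ) : ℂ) =
      PC Dg Fr U (fun a x => ((φ a x : ℝ) : ℂ)) b E ε (fun S => ((ω S : ℝ) : ℂ)) Y := by
  unfold PR PC
  rw [Complex.ofReal_sum]
  refine Finset.sum_congr rfl fun h _ => ?_
  split_ifs with hc
  · push_cast
    rfl
  · exact Complex.ofReal_zero

theorem pc_abs [NeZero p] {L : LDs D Ω} (Dg : GP p m l w N P R) (Fr : FR L) (U : WY N J)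
    (φ : J → (Fin w → ZMod p) → ℂ) (b : Fin m → Kˣ) (E : Finset (Pl K))
    (ε : Pl K → Gal(Ω/K) → R) (ω : Finset J → ℂ) (Y : ℝ) :
    ‖PC Dg Fr U φ b E ε ω Y‖ ≤ PR Dg Fr U (fun a x => ‖φ a x‖) b E ε (fun S => ‖ω S‖) Y := by
  unfold PR PC
  refine (norm_sum_le _ _).trans (Finset.sum_le_sum fun h _ => ?_)
  split_ifs with hc
  · rw [norm_mul, norm_mul, Complex.norm_real, Real.norm_of_nonneg (wl_nonneg _)]
    refine mul_le_mul_of_nonneg_left ?_ (mul_nonneg (norm_nonneg _) (wl_nonneg _))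
    refine (norm_sum_le _ _).trans (Finset.sum_le_sum fun ρ _ => ?_)
    rw [norm_prod]
    refine le_of_eq (Finset.prod_congr rfl fun a _ => ?_)
    rw [norm_prod]
  · rw [norm_zero]

theorem pr_mono [NeZero p] {L : LDs D Ω} (Dg : GP p m l w N P R) (Fr : FR L) (U : WY N J)
    (φ φ' : J → (Fin w → ZMod p) → ℝ) (b : Fin m → Kˣ) (E : Finset (Pl K))
    (ε : Pl K → Gal(Ω/K) → R) (ω ω' : Finset J → ℝ) (Y : ℝ) (h0 : ∀ a x, 0 ≤ φ a x)
    (h1 : ∀ a x, φ a x ≤ φ' a x) (h2 : ∀ S, 0 ≤ ω S) (h3 : ∀ S, ω S ≤ ω' S) :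
    PR Dg Fr U φ b E ε ω Y ≤ PR Dg Fr U φ' b E ε ω' Y := by
  unfold PR
  refine Finset.sum_le_sum fun h _ => ?_
  split_ifs with hc
  · refine mul_le_mul ?_ ?_ ?_ ?_
    · exact mul_le_mul_of_nonneg_right (h3 _) (wl_nonneg _)
    · refine Finset.sum_le_sum fun ρ _ => ?_
      refine Finset.prod_le_prod (fun a _ => Finset.prod_nonneg fun v _ => h0 _ _) fun a _ => ?_
      exact Finset.prod_le_prod (fun v _ => h0 _ _) fun v _ => h1 _ _
    · exact Finset.sum_nonneg fun ρ _ => Finset.prod_nonneg fun a _ =>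
        Finset.prod_nonneg fun v _ => h0 _ _
    · exact mul_nonneg ((h2 _).trans (h3 _)) (wl_nonneg _)
  · exact le_refl _

theorem pr_nonneg [NeZero p] {L : LDs D Ω} (Dg : GP p m l w N P R) (Fr : FR L) (U : WY N J)
    (φ : J → (Fin w → ZMod p) → ℝ) (b : Fin m → Kˣ) (E : Finset (Pl K))
    (ε : Pl K → Gal(Ω/K) → R) (ω : Finset J → ℝ) (Y : ℝ) (h0 : ∀ a x, 0 ≤ φ a x)
    (h2 : ∀ S, 0 ≤ ω S) : 0 ≤ PR Dg Fr U φ b E ε ω Y := by
  unfold PR
  refine Finset.sum_nonneg fun h _ => ?_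
  split_ifs with hc
  · refine mul_nonneg (mul_nonneg (h2 _) (wl_nonneg _)) ?_
    exact Finset.sum_nonneg fun ρ _ => Finset.prod_nonneg fun a _ =>
        Finset.prod_nonneg fun v _ => h0 _ _
  · exact le_refl _

theorem ts_sum [NeZero p] {L : LDs D Ω} (Dg : GP p m l w N P R) (Fr : FR L) (T : TY N w p J)
    (b : Fin m → Kˣ) (E : Finset (Pl K)) (ε : Pl K → Gal(Ω/K) → R) {A : Type} (B : Finset A)
    (ω : A → Finset J → ℂ) (Y : ℝ) :
    TS Dg Fr T b E ε (fun S => ∑ t ∈ B, ω t S) Y = ∑ t ∈ B, TS Dg Fr T b E ε (ω t) Y := by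
  unfold TS
  rw [Finset.sum_comm]
  refine Finset.sum_congr rfl fun g _ => ?_
  split_ifs with hc
  · rw [Finset.sum_mul, Finset.sum_mul, Finset.sum_mul]
  · rw [Finset.sum_const_zero]

theorem ts_smul [NeZero p] {L : LDs D Ω} (Dg : GP p m l w N P R) (Fr : FR L) (T : TY N w p J)
    (b : Fin m → Kˣ) (E : Finset (Pl K)) (ε : Pl K → Gal(Ω/K) → R) (c : ℂ)
    (ω : Finset J → ℂ) (Y : ℝ) :
    TS Dg Fr T b E ε (fun S => c * ω S) Y = c * TS Dg Fr T b E ε ω Y := by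
  unfold TS
  rw [Finset.mul_sum]
  refine Finset.sum_congr rfl fun g _ => ?_
  split_ifs with hc
  · ring
  · rw [mul_zero]

theorem ts_bad [NeZero p] {L : LDs D Ω} (Dg : GP p m l w N P R) (Fr : FR L) (T : TY N w p J)
    (b : Fin m → Kˣ) (E : Finset (Pl K)) (ε : Pl K → Gal(Ω/K) → R) {A : Type} (B : Finset A)
    (Bd : A → Finset J → Prop) (Y M : ℝ)
    (h : ∀ t ∈ B, ∀ ω : Finset J → ℂ, (∀ S, ‖ω S‖ ≤ 1) → (∀ S, ω S ≠ 0 → Bd t S) →
      ‖TS Dg Fr T b E ε ω Y‖ ≤ M)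
    (ω : Finset J → ℂ) (hω : ∀ S, ‖ω S‖ ≤ 1) (hω' : ∀ S, ω S ≠ 0 → ∃ t ∈ B, Bd t S) :
    ‖TS Dg Fr T b E ε ω Y‖ ≤ B.card * M := by
  obtain ⟨τ, hτ⟩ : ∃ τ : Finset J → Option A,
      ∀ S, ω S ≠ 0 → ∃ t ∈ B, Bd t S ∧ τ S = some t := by
    refine ⟨fun S => if h : ∃ t ∈ B, Bd t S then some h.choose else none, fun S hS => ?_⟩
    have h1 := hω' S hS
    exact ⟨h1.choose, h1.choose_spec.1, h1.choose_spec.2, dif_pos h1⟩
  have e : ω = fun S => ∑ t ∈ B, if τ S = some t then ω S else 0 := by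
    funext S
    by_cases hS : ω S = 0
    · rw [hS]
      symm
      refine Finset.sum_eq_zero fun t _ => ?_
      split_ifs <;> rfl
    · obtain ⟨t, ht, -, htt⟩ := hτ S hS
      rw [Finset.sum_eq_single t]
      · rw [if_pos htt]
      · intro t' _ htt'
        rw [if_neg]
        rw [htt]
        intro h2
        exact htt' (Option.some.inj h2).symm
      · intro h2
        exact absurd ht h2
  rw [e, ts_sum Dg Fr T b E ε B (fun t S => if τ S = some t then ω S else 0) Y]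
  refine (norm_sum_le _ _).trans ?_
  calc ∑ t ∈ B, ‖TS Dg Fr T b E ε (fun S => if τ S = some t then ω S else 0) Y‖ ≤
        ∑ _t ∈ B, M := by
        refine Finset.sum_le_sum fun t ht => h t ht _ (fun S => ?_) fun S hS => ?_
        · split_ifs
          · exact hω S
          · rw [norm_zero]; exact zero_le_one
        · by_cases h2 : τ S = some t
          · have h3 : ω S ≠ 0 := by
              simpa only [h2, if_true] using hS
            obtain ⟨t', _, hb, ht'⟩ := hτ S h3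
            rw [h2] at ht'
            rw [Option.some.inj ht']
            exact hb
          · exact absurd (if_neg h2) hS
    _ = B.card * M := by rw [Finset.sum_const, nsmul_eq_mul]

end H77.PT
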