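import Pool.Agent.H77.PT.Col

/-!
# [H77 PT PTS] sums over families with windows as sums over typed families, 120-180 lines. File Pool/Agent/H77/PT/Pts.lean

* `pc_ts`: `PC U φ ω = TS (U.ex c) (ω ∘ image fst)` for `φ a x = ∑ ψ, c a ψ * ep (ψ · x)`.
  PROOF. Unfold `PC`, `TS`; apply `col` (Col.lean) with `ι = J`, `T = Fin w → ZMod p`, `X = 2 * Y`, `A = Gal(Ω/K) →* R`, `S f = RHf L Dg b E ε (clw U f)`, `u ρ (a, ψ) v = c a ψ * ep p (dt ψ (cq Dg Fr ρ v))`, `c f = if Wc D U E Y f ∧ SpR .. then ω (spt f) * wl (∏ nr (f a) / Y) else 0` (`Wc` contains `Dj f` and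
  `∏ nr ≤ 2 Y`). For `Dj g` and `f = uc g`: `Wc D U E Y (uc g) ↔ Wd D (U.ex c) E Y g` (windows, disjointness from `E`, `uc_nr`), `clw U (uc g) = clf (U.ex c) g`, `spt (uc g) = (spt g).image Prod.fst`, `∏ a, nr (uc g a) = ∏ a, nr (g a)`, and
  `∏ a, ∏ v ∈ g a, c a.1 a.2 * ep (dt a.2 (cq ρ v)) = (∏ a, wt a ^ #(g a)) * ep (∑ a, ∑ v ∈ g a, dt (psi a) (cq ρ v))` for the type data of `U.ex c`: `aexp_ep_sum`; for `a` with `c a.1 a.2 = 0` and `g a ≠ ∅` both sides are `0`, and for `g a = ∅` the factor is `1`.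
* `ts_sub`: the part of the supports inside a set `S₀` of types. PROOF. By `pc_ts` with `c' a ψ = if (a, ψ) ∈ S₀ then c a ψ else 0` the right side is `TS (U.ex c') ..`. Compare the terms: `Wd`, `clf`, `spt`, `wl` are the same (same `cls, lo, hi`). If `spt g ⊆ S₀`, then `wt` and `psi` agree on the `a` with `g a ≠ ∅`.
  Otherwise some `g a ≠ ∅`, `a ∉ S₀`: the left side has the factor `0`, the right side the factor `wt' a ^ #(g a) = 0`.
-/

set_option autoImplicit false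

open scoped NumberField
open IsDedekindDomain
open scoped Classical

noncomputable section

namespace H77.PT

open H63.MA H38.BB H38.BG H57.PC H51.CUB H77.PC3

variable {K : Type} [Field K] [NumberField K] {p : ℕ} {ζ : K} {D : RD0 K p ζ} {Ω : Type}
  [Field Ω] [Algebra K Ω] {m l w N : ℕ} {P R : Type} [Group P] [Group R] {J : Type} [Fintype J]

theorem pts_mem_uc {V ι T : Type} [Fintype T] {g : ι × T → Finset V} {a : ι} {v : V} :
    v ∈ uc g a ↔ ∃ t, v ∈ g (a, t) := by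
  unfold uc
  rw [Finset.mem_biUnion]
  constructor
  · rintro ⟨t, -, ht⟩
    exact ⟨t, ht⟩
  · rintro ⟨t, ht⟩
    exact ⟨t, Finset.mem_univ t, ht⟩

theorem pts_spt [NeZero p] (g : J × (Fin w → ZMod p) → Finset (Pl K)) :
    spt (uc g) = (spt g).image Prod.fst := by
  ext a
  unfold spt
  rw [Finset.mem_filter, Finset.mem_image]
  constructor
  · rintro ⟨-, h⟩
    obtain ⟨v, hv⟩ := Finset.nonempty_iff_ne_empty.mpr h
    obtain ⟨t, ht⟩ := pts_mem_uc.mp hv
    refine ⟨(a, t), Finset.mem_filter.mpr ⟨Finset.mem_univ _, ?_⟩, rfl⟩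
    exact Finset.nonempty_iff_ne_empty.mp ⟨v, ht⟩
  · rintro ⟨⟨a', t⟩, hb, rfl⟩
    refine ⟨Finset.mem_univ _, ?_⟩
    obtain ⟨v, hv⟩ := Finset.nonempty_iff_ne_empty.mpr (Finset.mem_filter.mp hb).2
    exact Finset.nonempty_iff_ne_empty.mp ⟨v, pts_mem_uc.mpr ⟨t, hv⟩⟩

theorem pts_clw [NeZero p] (U : WY N J) (c : J → (Fin w → ZMod p) → ℝ)
    (g : J × (Fin w → ZMod p) → Finset (Pl K)) : clw U (uc g) = clf (U.ex c) g := by
  funext i
  ext v
  unfold clw clf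
  rw [Finset.mem_biUnion, Finset.mem_biUnion]
  constructor
  · rintro ⟨a, ha, hv⟩
    obtain ⟨t, ht⟩ := pts_mem_uc.mp hv
    exact ⟨(a, t), Finset.mem_filter.mpr ⟨Finset.mem_univ _, (Finset.mem_filter.mp ha).2⟩, ht⟩
  · rintro ⟨⟨a, t⟩, ha, hv⟩
    exact ⟨a, Finset.mem_filter.mpr ⟨Finset.mem_univ _, (Finset.mem_filter.mp ha).2⟩,
      pts_mem_uc.mpr ⟨t, hv⟩⟩

theorem pts_wc [NeZero p] (U : WY N J) (c : J → (Fin w → ZMod p) → ℝ) (E : Finset (Pl K)) (Y : ℝ)
    (g : J × (Fin w → ZMod p) → Finset (Pl K)) (hg : Dj g) :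
    Wc D U E Y (uc g) ↔ Wd D (U.ex c) E Y g := by
  unfold Wc Wd
  rw [uc_nr hg]
  constructor
  · rintro ⟨-, h2, h3, h4⟩
    refine ⟨hg, fun a => ?_, h3, fun a v hv => h4 a.1 v (pts_mem_uc.mpr ⟨a.2, hv⟩)⟩
    refine Finset.disjoint_left.mpr fun v hv => Finset.disjoint_left.mp (h2 a.1) ?_
    exact pts_mem_uc.mpr ⟨a.2, hv⟩
  · rintro ⟨-, h2, h3, h4⟩
    refine ⟨uc_dj hg, fun a => ?_, h3, fun a v hv => ?_⟩
    · refine Finset.disjoint_left.mpr fun v hv => ?_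
      obtain ⟨t, ht⟩ := pts_mem_uc.mp hv
      exact Finset.disjoint_left.mp (h2 (a, t)) ht
    · obtain ⟨t, ht⟩ := pts_mem_uc.mp hv
      exact h4 (a, t) v ht

theorem pts_dt_zero (x : Fin w → ZMod p) : dt (0 : Fin w → ZMod p) x = 0 := by
  unfold dt
  exact Finset.sum_eq_zero fun k _ => by rw [Pi.zero_apply, zero_mul]

omit [Fintype J] in
theorem pts_phase (hp : p.Prime) (U : WY N J) (c : J → (Fin w → ZMod p) → ℝ)
    (a : J × (Fin w → ZMod p)) (s : Finset (Pl K)) (x : Pl K → Fin w → ZMod p) :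
    ∏ v ∈ s, ((c a.1 a.2 : ℝ) : ℂ) * ep p (dt a.2 (x v)) =
      (((U.ex c).wt a : ℝ) : ℂ) ^ s.card * ep p (∑ v ∈ s, dt ((U.ex c).psi a) (x v)) := by
  by_cases h : c a.1 a.2 = 0
  · have h1 : (U.ex c).psi a = 0 := if_pos h
    have h2 : (U.ex c).wt a = 0 := h
    have h3 : ∑ v ∈ s, dt ((U.ex c).psi a) (x v) = 0 :=
      Finset.sum_eq_zero fun v _ => by rw [h1, pts_dt_zero]
    rw [h3, ep_zero, mul_one, h2, h]
    rw [← Finset.prod_const]
    exact Finset.prod_congr rfl fun v _ => by rw [Complex.ofReal_zero, zero_mul]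
  · have h1 : (U.ex c).psi a = a.2 := if_neg h
    have h2 : (U.ex c).wt a = c a.1 a.2 := rfl
    rw [Finset.prod_mul_distrib, Finset.prod_const, h1, h2, aexp_ep_sum hp]

theorem pc_ts [NeZero p] (hp : p.Prime) {L : LDs D Ω} (Dg : GP p m l w N P R) (Fr : FR L)
    (U : WY N J) (c : J → (Fin w → ZMod p) → ℝ) (b : Fin m → Kˣ) (E : Finset (Pl K))
    (ε : Pl K → Gal(Ω/K) → R) (ω : Finset J → ℂ) (Y : ℝ) :
    PC Dg Fr U (fun a x => ∑ ψ, ((c a ψ : ℝ) : ℂ) * ep p (dt ψ x)) b E ε ω Y =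
      TS Dg Fr (U.ex c) b E ε (fun S => ω (S.image Prod.fst)) Y := by
  have hcol := col (p := p) (ζ := ζ) (ι := J) (T := Fin w → ZMod p) D (2 * Y)
    (fun f => if Wc D U E Y f ∧ SpR Dg.cr b (clw U f) then
      ω (spt f) * ((wl ((∏ a, nr (f a)) / Y) : ℝ) : ℂ) else 0)
    (fun f hf => by
      by_cases h : Wc D U E Y f ∧ SpR Dg.cr b (clw U f)
      · exact ⟨h.1.1, h.1.2.2.1⟩
      · exact absurd (if_neg h) hf)
    (fun f => RHf L Dg b E ε (clw U f))
    (fun ρ a v => ((c a.1 a.2 : ℝ) : ℂ) * ep p (dt a.2 (cq Dg Fr ρ v)))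
  have h1 : PC Dg Fr U (fun a x => ∑ ψ, ((c a ψ : ℝ) : ℂ) * ep p (dt ψ x)) b E ε ω Y =
      ∑ f ∈ Fintype.piFinset (fun _ : J => GF D (2 * Y)),
        (if Wc D U E Y f ∧ SpR Dg.cr b (clw U f) then
          ω (spt f) * ((wl ((∏ a, nr (f a)) / Y) : ℝ) : ℂ) else 0) *
        ∑ ρ ∈ RHf L Dg b E ε (clw U f), ∏ a, ∏ v ∈ f a,
          ∑ t, ((c a t : ℝ) : ℂ) * ep p (dt t (cq Dg Fr ρ v)) := by
    unfold PC
    refine Finset.sum_congr rfl fun f _ => ?_
    by_cases h : Wc D U E Y f ∧ SpR Dg.cr b (clw U f)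
    · rw [if_pos h, if_pos h]
    · rw [if_neg h, if_neg h, zero_mul]
  rw [h1]
  refine hcol.trans ?_
  unfold TS
  refine Finset.sum_congr (by ext x; simp only [Fintype.mem_piFinset]) fun g _ => ?_
  by_cases hg : Dj g
  · rw [if_pos hg]
    have h2 := pts_wc (D := D) U c E Y g hg
    have h3 := pts_clw (K := K) U c g
    by_cases h : Wd D (U.ex c) E Y g ∧ SpR Dg.cr b (clf (U.ex c) g)
    · have h' : Wc D U E Y (uc g) ∧ SpR Dg.cr b (clw U (uc g)) := by
        rw [h3]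
        exact ⟨h2.mpr h.1, h.2⟩
      rw [if_pos h, if_pos h', pts_spt, uc_nr hg]
      unfold PF
      rw [h3, Finset.mul_sum, Finset.mul_sum]
      refine Finset.sum_congr rfl fun ρ _ => ?_
      have h4 : ∏ a, ∏ v ∈ g a, ((c a.1 a.2 : ℝ) : ℂ) * ep p (dt a.2 (cq Dg Fr ρ v)) =
          ((∏ a, (U.ex c).wt a ^ (g a).card : ℝ) : ℂ) *
            ep p (∑ a, ∑ v ∈ g a, dt ((U.ex c).psi a) (cq Dg Fr ρ v)) := by
        rw [Finset.prod_congr rfl fun a _ => pts_phase hp U c a (g a) (cq Dg Fr ρ),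
          Finset.prod_mul_distrib, ← aexp_ep_sum hp]
        push_cast
        rfl
      rw [h4]
      ring
    · have h' : ¬ (Wc D U E Y (uc g) ∧ SpR Dg.cr b (clw U (uc g))) := by
        rw [h3, h2]
        exact h
      rw [if_neg h, if_neg h', zero_mul]
  · rw [if_neg hg, if_neg fun h => hg h.1.1]

theorem ts_sub [NeZero p] (hp : p.Prime) {L : LDs D Ω} (Dg : GP p m l w N P R) (Fr : FR L)
    (U : WY N J) (c : J → (Fin w → ZMod p) → ℝ) (S₀ : Finset (J × (Fin w → ZMod p)))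
    (b : Fin m → Kˣ) (E : Finset (Pl K)) (ε : Pl K → Gal(Ω/K) → R) (ω : Finset J → ℂ) (Y : ℝ) :
    TS Dg Fr (U.ex c) b E ε (fun S => if S ⊆ S₀ then ω (S.image Prod.fst) else 0) Y =
      PC Dg Fr U (fun a x => ∑ ψ, ((if (a, ψ) ∈ S₀ then c a ψ else 0 : ℝ) : ℂ) * ep p (dt ψ x))
        b E ε ω Y := by
  set c' : J → (Fin w → ZMod p) → ℝ := fun a ψ => if (a, ψ) ∈ S₀ then c a ψ else 0 with hc'
  refine Eq.trans ?_ (pc_ts hp Dg Fr U c' b E ε ω Y).symm
  unfold TS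
  refine Finset.sum_congr rfl fun g _ => ?_
  have e1 : Wd D (U.ex c') E Y g ↔ Wd D (U.ex c) E Y g := Iff.rfl
  have e2 : clf (U.ex c') g = clf (U.ex c) g := rfl
  by_cases h : Wd D (U.ex c) E Y g ∧ SpR Dg.cr b (clf (U.ex c) g)
  · have h' : Wd D (U.ex c') E Y g ∧ SpR Dg.cr b (clf (U.ex c') g) := h
    rw [if_pos h, if_pos h']
    beta_reduce
    by_cases hS : spt g ⊆ S₀
    · rw [if_pos hS]
      have hin : ∀ a, g a ≠ ∅ → c' a.1 a.2 = c a.1 a.2 := by
        intro a ha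
        have : a ∈ S₀ := hS (Finset.mem_filter.mpr ⟨Finset.mem_univ _, ha⟩)
        exact if_pos this
      have h3 : ∏ a, (U.ex c).wt a ^ (g a).card = ∏ a, (U.ex c').wt a ^ (g a).card := by
        refine Finset.prod_congr rfl fun a _ => ?_
        by_cases ha : g a = ∅
        · rw [ha, Finset.card_empty, pow_zero, pow_zero]
        · show c a.1 a.2 ^ (g a).card = c' a.1 a.2 ^ (g a).card
          rw [hin a ha]
      have h4 : PF Dg Fr (U.ex c) b E ε g = PF Dg Fr (U.ex c') b E ε g := by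
        unfold PF
        rw [e2]
        refine Finset.sum_congr rfl fun ρ _ => ?_
        congr 1
        refine Finset.sum_congr rfl fun a _ => ?_
        by_cases ha : g a = ∅
        · rw [ha, Finset.sum_empty, Finset.sum_empty]
        · have h5 : (U.ex c).psi a = (U.ex c').psi a := by
            show (if c a.1 a.2 = 0 then 0 else a.2) = (if c' a.1 a.2 = 0 then 0 else a.2)
            rw [hin a ha]
          rw [h5]
      rw [h3, h4]
    · rw [if_neg hS]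
      obtain ⟨a, ha, haS⟩ := Finset.not_subset.mp hS
      have hga : g a ≠ ∅ := (Finset.mem_filter.mp ha).2
      have h3 : ∏ a, (U.ex c').wt a ^ (g a).card = 0 := by
        refine Finset.prod_eq_zero (Finset.mem_univ a) ?_
        have h4 : (U.ex c').wt a = 0 := if_neg haS
        rw [h4]
        exact zero_pow (Finset.card_ne_zero.mpr (Finset.nonempty_iff_ne_empty.mpr hga))
      rw [h3, Complex.ofReal_zero]
      ring
  · have h' : ¬ (Wd D (U.ex c') E Y g ∧ SpR Dg.cr b (clf (U.ex c') g)) := h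
    rw [if_neg h, if_neg h']

end H77.PT
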