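import Pool.Agent.H77.PT.Dq
import Pool.Agent.H77.PC3.CLx

/-!
# [H77 PT RHC] the number of the homomorphisms with given labels, 80-130 lines. File Pool/Agent/H77/PT/Rhc.lean

* `rhc_fib`: a finite set `Rs` of elements of `RH L Dg b E ε f` with the same values `ρ (t v)` at all typed primes has at most `rhn L Dg` elements: fix `ρ₀ ∈ Rs`; by `rh_same` (Pool/Agent/H77/PC3/CTw.lean) every `ρ ∈ Rs` is `tw Dg χ ρ₀` with `χ` in the set counted by `rhn` (`rhn_mem`, `rhn_pos` in CLx.lean), and `ρ ↦ χ` is injective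
 (`tw_apply`, cancel). (If `Rs` is empty: `0 ≤`.)
* `rhc_card`: `#RHf ≤ rhn * ∏ i, #R ^ #(f i)`: the map `ρ ↦ (ρ (t v))_{v ∈ ⋃ f i}` to the functions `↥(⋃ f i) → R`; `Finset.card_le_mul_card_image`-type lemma (see `rh_finite` in CRh.lean), `#(⋃ f i) ≤ ∑ #(f i)`, `#R ≥ 1`.
* `fw_le`: `FW f ≤ C ^ (1 + ∑ #(f i))` with `C = rhn + #R * ∑ i, Wn i + 1`-like constant: `FW ≤ #RHf * ∏ Wn ^ #(f i)`.
* `phi_le`: `phi Dg S a x ≤ #P` (`Wn i ≤ #P`, `Nat.card (BS ..) ≥ 1`), and the sum over `ρ` in `PR` is at most `C ^ (1 + ∑ a, #(h a))`.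
-/

set_option autoImplicit false

open scoped NumberField
open IsDedekindDomain
open scoped Classical

noncomputable section

namespace H77.PT

open H63.MA H38.BB H38.BG H57.PC H51.CUB H77.PC3

variable {K : Type} [Field K] [NumberField K] {p : ℕ} {ζ : K} {D : RD0 K p ζ} {Ω : Type}
  [Field Ω] [Algebra K Ω] [IsAlgClosure K Ω] {m l w N : ℕ} {P R : Type} [Group P] [Group R]

theorem rhc_fib [NeZero p] [Finite R] (hp : p.Prime) (hζ : IsPrimitiveRoot ζ p) (L : LDs D Ω)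
    (Dg : GP p m l w N P R) (b : Fin m → Kˣ) (E : Finset (Pl K))
    (ε : Pl K → Gal(Ω/K) → R) (f : Fin N → Finset (Pl K)) (Rs : Finset (Gal(Ω/K) →* R))
    (h1 : ∀ ρ ∈ Rs, ρ ∈ RH L Dg b E ε f)
    (h2 : ∀ ρ ∈ Rs, ∀ ρ' ∈ Rs, ∀ i, ∀ v ∈ f i, ρ (L.t v) = ρ' (L.t v)) :
    Rs.card ≤ rhn L Dg := by
  rcases Rs.eq_empty_or_nonempty with hR | ⟨ρ₀, hρ₀⟩
  · rw [hR, Finset.card_empty]; exact Nat.zero_le _
  · have hex : ∀ ρ ∈ Rs, ∃ χ ∈ RHf L Dg (fun _ => (1 : Kˣ)) ∅ (fun _ _ => 1) (fun _ => ∅),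
        ∀ σ, ρ σ = χ σ * ρ₀ σ := by
      intro ρ hρ
      obtain ⟨χ, hχ, e1, e2, e3⟩ := rh_same hp hζ L Dg b E ε f ρ₀ ρ (h1 _ hρ₀) (h1 _ hρ)
        (fun i v hv => h2 ρ hρ ρ₀ hρ₀ i v hv)
      exact ⟨χ, (rhn_mem hp hζ Dg χ).2 ⟨e2, hχ, e3⟩, fun σ => by rw [e1, tw_apply]⟩
    unfold rhn
    choose! c hc1 hc2 using hex
    refine Finset.card_le_card_of_injOn c hc1 ?_
    intro ρ hρ ρ' hρ' h
    apply MonoidHom.ext
    intro σ
    rw [hc2 ρ (Finset.mem_coe.1 hρ) σ, hc2 ρ' (Finset.mem_coe.1 hρ') σ, h]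

theorem rhc_card [NeZero p] [Finite R] (hp : p.Prime) (hζ : IsPrimitiveRoot ζ p) (L : LDs D Ω)
    (Dg : GP p m l w N P R) (b : Fin m → Kˣ) (E : Finset (Pl K))
    (ε : Pl K → Gal(Ω/K) → R) (f : Fin N → Finset (Pl K)) :
    (RHf L Dg b E ε f).card ≤ rhn L Dg * Nat.card R ^ (∑ i, (f i).card) := by
  have hfin : Fintype R := Fintype.ofFinite R
  let x : Finset (Pl K) := Finset.univ.biUnion f
  let F : (Gal(Ω/K) →* R) → (↥x → R) := fun ρ v => ρ (L.t v.1)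
  have hfib : ∀ e ∈ (Finset.univ : Finset (↥x → R)),
      ((RHf L Dg b E ε f).filter fun ρ => F ρ = e).card ≤ rhn L Dg := by
    intro e _
    refine rhc_fib hp hζ L Dg b E ε f _
      (fun ρ hρ => (mem_RHf' hp hζ).1 (Finset.mem_filter.1 hρ).1) ?_
    intro ρ hρ ρ' hρ' i v hi
    rw [Finset.mem_filter] at hρ hρ'
    exact congrFun (hρ.2.trans hρ'.2.symm)
      ⟨v, Finset.mem_biUnion.2 ⟨i, Finset.mem_univ _, hi⟩⟩
  have h2 := Finset.card_le_mul_card_image_of_maps_to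
    (fun ρ _ => Finset.mem_univ (F ρ)) (rhn L Dg) hfib
  refine h2.trans (Nat.mul_le_mul_left _ ?_)
  rw [Finset.card_univ, Fintype.card_fun, Fintype.card_coe, Nat.card_eq_fintype_card]
  exact Nat.pow_le_pow_right Fintype.card_pos Finset.card_biUnion_le

theorem wn_le [Finite P] (Dg : GP p m l w N P R) (i : Fin N) : (Dg.Wn i : ℝ) ≤ Nat.card P := by
  unfold GP.Wn
  exact_mod_cast Nat.card_le_card_of_injective (Subtype.val : {x : P // _} → P)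
    Subtype.val_injective

theorem phi_nn (Dg : GP p m l w N P R)
    (S : Submodule (ZMod p) (Fin l → ZMod p)) (a : Fin N × Bool) (x : Fin w → ZMod p) :
    0 ≤ phi Dg S a x := by
  unfold phi
  split_ifs <;> positivity

theorem rhc_num {F c r s t Q : ℝ} {n : ℕ} (h1 : F ≤ c * t ^ n) (h2 : c ≤ r * s ^ n)
    (hr : 1 ≤ r) (hQ : Q = s * t) (hQ1 : 1 ≤ Q) (ht : 0 ≤ t) :
    F ≤ r * Q * (r * Q) ^ n := by
  calc F ≤ c * t ^ n := h1
    _ ≤ r * s ^ n * t ^ n := mul_le_mul_of_nonneg_right h2 (by positivity)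
    _ = r * 1 * (1 * Q) ^ n := by rw [hQ]; ring
    _ ≤ r * Q * (r * Q) ^ n := by
        have h3 : (1 * Q) ^ n ≤ (r * Q) ^ n :=
          pow_le_pow_left₀ (by linarith) (mul_le_mul_of_nonneg_right hr (by linarith)) n
        exact mul_le_mul (mul_le_mul_of_nonneg_left hQ1 (by linarith)) h3 (by positivity)
          (by positivity)

theorem phi_le [NeZero p] [Finite P] (Dg : GP p m l w N P R)
    (S : Submodule (ZMod p) (Fin l → ZMod p)) (a : Fin N × Bool) (x : Fin w → ZMod p) :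
    phi Dg S a x ≤ Nat.card P := by
  have hW : (Dg.Wn a.1 : ℝ) ≤ Nat.card P := wn_le Dg a.1
  have hW0 : (0 : ℝ) ≤ Dg.Wn a.1 := Nat.cast_nonneg _
  unfold phi
  split_ifs with h1 h2
  · rw [mul_one]
    refine le_trans ?_ hW
    rcases Nat.eq_zero_or_pos (Nat.card (BS Dg S a.1)) with h3 | h3
    · rw [h3, Nat.cast_zero, div_zero]; exact hW0
    · exact div_le_self hW0 (by exact_mod_cast h3)
  · rw [mul_zero]; exact Nat.cast_nonneg _
  · exact hW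

theorem fw_le [NeZero p] [Finite P] [Finite R] (hp : p.Prime) (hζ : IsPrimitiveRoot ζ p)
    (L : LDs D Ω) (Fr : FR L) (Dg : GP p m l w N P R) :
    ∃ C : ℝ, 1 ≤ C ∧ ∀ (b : Fin m → Kˣ) (E : Finset (Pl K)) (ε : Pl K → Gal(Ω/K) → R)
      (f : Fin N → Finset (Pl K)), FW Dg Fr b E ε f ≤ C * C ^ (∑ i, (f i).card) := by
  obtain ⟨Q, hQ⟩ : ∃ Q : ℝ, Q = (Nat.card R : ℝ) * Nat.card P := ⟨_, rfl⟩
  have hR1 : (1 : ℝ) ≤ Nat.card R := by exact_mod_cast Nat.card_pos (α := R)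
  have hP1 : (1 : ℝ) ≤ Nat.card P := by exact_mod_cast Nat.card_pos (α := P)
  have hr1 : (1 : ℝ) ≤ rhn L Dg := by exact_mod_cast rhn_pos hp hζ L Dg
  have hQ1 : 1 ≤ Q := by rw [hQ]; nlinarith
  refine ⟨rhn L Dg * Q, by nlinarith, fun b E ε f => ?_⟩
  have h1 : FW Dg Fr b E ε f ≤ ∑ _ρ ∈ RHf L Dg b E ε f, (Nat.card P : ℝ) ^ (∑ i, (f i).card) := by
    unfold FW
    refine Finset.sum_le_sum fun ρ _ => ?_
    split_ifs with hc
    · rw [← Finset.prod_pow_eq_pow_sum]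
      exact Finset.prod_le_prod (fun i _ => pow_nonneg (Nat.cast_nonneg _) _) fun i _ =>
        pow_le_pow_left₀ (Nat.cast_nonneg _) (wn_le Dg i) _
    · positivity
  rw [Finset.sum_const, nsmul_eq_mul] at h1
  have h2 : ((RHf L Dg b E ε f).card : ℝ) ≤ rhn L Dg * (Nat.card R : ℝ) ^ (∑ i, (f i).card) := by
    exact_mod_cast rhc_card hp hζ L Dg b E ε f
  exact rhc_num h1 h2 hr1 hQ hQ1 (by positivity)

theorem ps_le [NeZero p] [Finite P] [Finite R] (hp : p.Prime) (hζ : IsPrimitiveRoot ζ p)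
    (L : LDs D Ω) (Fr : FR L) (Dg : GP p m l w N P R) :
    ∃ C : ℝ, 1 ≤ C ∧ ∀ (U : WY N (Fin N × Bool)) (_ : ∀ a, U.cls a = a.1)
      (S : Submodule (ZMod p) (Fin l → ZMod p)) (b : Fin m → Kˣ) (E : Finset (Pl K))
      (ε : Pl K → Gal(Ω/K) → R) (h : Fin N × Bool → Finset (Pl K)),
      ∑ ρ ∈ RHf L Dg b E ε (clw U h), ∏ a, ∏ v ∈ h a, phi Dg S a (cq Dg Fr ρ v) ≤
        C * C ^ (∑ a, (h a).card) := by
  obtain ⟨Q, hQ⟩ : ∃ Q : ℝ, Q = (Nat.card R : ℝ) * Nat.card P := ⟨_, rfl⟩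
  have hR1 : (1 : ℝ) ≤ Nat.card R := by exact_mod_cast Nat.card_pos (α := R)
  have hP1 : (1 : ℝ) ≤ Nat.card P := by exact_mod_cast Nat.card_pos (α := P)
  have hr1 : (1 : ℝ) ≤ rhn L Dg := by exact_mod_cast rhn_pos hp hζ L Dg
  have hQ1 : 1 ≤ Q := by rw [hQ]; nlinarith
  refine ⟨rhn L Dg * Q, by nlinarith, fun U _ S b E ε h => ?_⟩
  have h1 : ∑ ρ ∈ RHf L Dg b E ε (clw U h), ∏ a, ∏ v ∈ h a, phi Dg S a (cq Dg Fr ρ v) ≤
      ∑ _ρ ∈ RHf L Dg b E ε (clw U h), (Nat.card P : ℝ) ^ (∑ a, (h a).card) := by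
    refine Finset.sum_le_sum fun ρ _ => ?_
    rw [← Finset.prod_pow_eq_pow_sum]
    refine Finset.prod_le_prod (fun a _ => Finset.prod_nonneg fun v _ => phi_nn Dg S a _)
      fun a _ => ?_
    rw [← Finset.prod_const]
    exact Finset.prod_le_prod (fun v _ => phi_nn Dg S a _) fun v _ => phi_le Dg S a _
  rw [Finset.sum_const, nsmul_eq_mul] at h1
  have h3 : ∑ i, (clw U h i).card ≤ ∑ a, (h a).card := by
    calc ∑ i, (clw U h i).card ≤
          ∑ i, ∑ a ∈ Finset.univ.filter (fun a => U.cls a = i), (h a).card :=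
          Finset.sum_le_sum fun i _ => Finset.card_biUnion_le
      _ = ∑ a, (h a).card := Finset.sum_fiberwise _ _ _
  have h2 : ((RHf L Dg b E ε (clw U h)).card : ℝ) ≤
      rhn L Dg * (Nat.card R : ℝ) ^ (∑ a, (h a).card) := by
    have h4 : ((RHf L Dg b E ε (clw U h)).card : ℝ) ≤
        rhn L Dg * (Nat.card R : ℝ) ^ (∑ i, (clw U h i).card) := by
      exact_mod_cast rhc_card hp hζ L Dg b E ε (clw U h)
    refine h4.trans (mul_le_mul_of_nonneg_left ?_ (Nat.cast_nonneg _))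
    exact pow_le_pow_right₀ hR1 h3
  exact rhc_num h1 h2 hr1 hQ hQ1 (by positivity)

end H77.PT
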