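import Pool.Agent.H77.PT.Col
import Pool.Agent.H63.MA.ADivJ

/-!
# [H77 PT TRV] trivial bounds for sums over families of sets of primes, 90-140 lines. File Pool/Agent/H77/PT/Trv.lean

* `trv`: `k` colours. By `col` (Col.lean, with `ι = J`, `T = Fin k`, `X = Z` , `u = 1`, `A = Unit`, `S = fun _ => univ`, `c h = if Dj h ∧ ∏ nr (h a) ≤ X then 1 else 0` over `ℝ`): `k ^ (∑ #(h a)) = ∏ a, ∏ v ∈ h a, ∑ t : Fin k, 1`, so the left side is the number of the `g ∈ piFinset (J × Fin k → GF D Z)` with `Dj g`, `∏ a, nr (uc g a) ≤ X`,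
 and `∏ a, nr (uc g a) = ∏ a, nr (g a)` (`uc_nr`), so these `g` are families in `AF K X` (`mem_AF`: every factor is `≤ X` as all are `≥ 1`) with `∏ nr ≤ X`: `af_tup_one K (J × Fin k)` (Pool/Agent/H63/MA/ADivJ.lean). `B = k * #J - 1` (or `B = Fintype.card (J × Fin k) - 1`). `GF D Z` is a subset of `AF K Z`.
* `esm`: `∑ n ∈ U, ∏ a, k ^ #(n a) / nr (n a) ≤ ∏ a : J, ∑_{s ∈ AF K Z} k ^ #s / nr s` (`Finset.prod_univ_sum`, `U ⊆ piFinset (AF K Z)`, terms `≥ 0`), and `∑_{s ∈ AF K Z} k ^ #s / nr s ≤ (∑_{s ∈ AF K Z} 1 / nr s) ^ k ≤ (C (1 + log Z)) ^ k` (`af_inv`): expand the power as a sum over `(s_c)_{c : Fin k} ∈ piFinset (AF K Z)` of `∏ 1 / nr (s_c)`;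
 the `k ^ #s` colourings of `s` give different families (`s_c` = the elements of colour `c`), with union `s` and `∏ nr (s_c) = nr s` (`col_pt` with `ι = Unit`, or directly by induction on `k`: `k = 0` is excluded; simplest: `k ^ #s = ∏ v ∈ s, ∑ c : Fin k, 1`, `aexp_split` or `Finset.prod_univ_sum`). `B = k * #J`.
-/

set_option autoImplicit false

open scoped NumberField
open IsDedekindDomain
open scoped Classical

noncomputable section

namespace H77.PT

open H63.MA H38.BB H38.BG H57.PC H51.CUB H77.PC3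

variable {K : Type} [Field K] [NumberField K] {p : ℕ} {ζ : K}

private theorem trv_up {x A : ℝ} (hx : 1 ≤ x) : x ^ A ≤ x ^ ⌈A⌉₊ := by
  rw [← Real.rpow_natCast]
  exact Real.rpow_le_rpow_of_exponent_le hx (Nat.le_ceil A)

private theorem trv_prod_one {J : Type} (g : J → Finset (Pl K)) (s : Finset J) :
    1 ≤ ∏ a ∈ s, nr (g a) := by
  induction s using Finset.induction_on with
  | empty => simp
  | insert a s ha ih =>
    rw [Finset.prod_insert ha]
    exact one_le_mul_of_one_le_of_one_le (one_le_nr _) ih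

private theorem trv_le_prod {J : Type} [Fintype J] (g : J → Finset (Pl K)) (a : J) :
    nr (g a) ≤ ∏ a, nr (g a) := by
  rw [← Finset.mul_prod_erase Finset.univ (fun a => nr (g a)) (Finset.mem_univ a)]
  exact le_mul_of_one_le_right (by linarith [one_le_nr (g a)]) (trv_prod_one g _)

theorem trv (D : RD0 K p ζ) (J : Type) [Fintype J] [Nonempty J] (k : ℕ) (hk : 1 ≤ k) :
    ∃ C : ℝ, 1 ≤ C ∧ ∃ B : ℕ, ∀ X Z : ℝ, 1 ≤ X → X ≤ Z →
      (∑ h ∈ Fintype.piFinset (fun _ : J => GF D Z),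
        if Dj h ∧ ∏ a, nr (h a) ≤ X then (k : ℝ) ^ (∑ a, (h a).card) else 0) ≤
        C * X * (1 + Real.log X) ^ B := by
  obtain ⟨C, A, hC, hA, h⟩ := af_tup K J k
  refine ⟨max C 1, le_max_right _ _, ⌈A⌉₊, fun X Z hX hXZ => ?_⟩
  have hL : 0 ≤ Real.log X := Real.log_nonneg hX
  have hA' : (1 + Real.log X) ^ A ≤ (1 + Real.log X) ^ ⌈A⌉₊ := trv_up (by linarith)
  have hA0 : 0 ≤ (1 + Real.log X) ^ A := Real.rpow_nonneg (by linarith) _
  have hM : C ≤ max C 1 := le_max_left _ _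
  have hM0 : 0 < max C 1 := hC.trans_le hM
  calc (∑ h ∈ Fintype.piFinset (fun _ : J => GF D Z),
        if Dj h ∧ ∏ a, nr (h a) ≤ X then (k : ℝ) ^ (∑ a, (h a).card) else 0)
      = ∑ h ∈ (Fintype.piFinset (fun _ : J => GF D Z)).filter
          (fun h => Dj h ∧ ∏ a, nr (h a) ≤ X), (k : ℝ) ^ (∑ a, (h a).card) :=
        (Finset.sum_filter _ _).symm
    _ ≤ ∑ g ∈ (Fintype.piFinset fun _ : J => AF K X).filter (fun g => ∏ a, nr (g a) ≤ X),
          (k : ℝ) ^ (∑ a, (g a).card) := by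
        apply Finset.sum_le_sum_of_subset_of_nonneg
        · intro g hg
          rw [Finset.mem_filter] at hg ⊢
          refine ⟨?_, hg.2.2⟩
          rw [Fintype.mem_piFinset]
          intro a
          rw [mem_AF]
          exact (trv_le_prod g a).trans hg.2.2
        · intro g _ _
          positivity
    _ = ∑ g ∈ (Fintype.piFinset fun _ : J => AF K X).filter (fun g => ∏ a, nr (g a) ≤ X),
          ∏ a, (k : ℝ) ^ (g a).card := by
        apply Finset.sum_congr rfl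
        intro g _
        exact (Finset.prod_pow_eq_pow_sum _ _ _).symm
    _ ≤ C * X * (1 + Real.log X) ^ A := h X hX
    _ ≤ max C 1 * X * (1 + Real.log X) ^ ⌈A⌉₊ := by
        apply mul_le_mul _ hA' hA0 (by positivity)
        exact mul_le_mul_of_nonneg_right hM (by linarith)

theorem esm (K : Type) [Field K] [NumberField K] (J : Type) [Fintype J] (k : ℕ) (hk : 1 ≤ k) :
    ∃ C : ℝ, 1 ≤ C ∧ ∃ B : ℕ, ∀ Z : ℝ, 1 ≤ Z → ∀ U : Finset (J → Finset (Pl K)),
      (∀ n ∈ U, ∀ a, nr (n a) ≤ Z) →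
      ∑ n ∈ U, (k : ℝ) ^ (∑ a, (n a).card) / ∏ a, nr (n a) ≤ C * (1 + Real.log Z) ^ B := by
  obtain ⟨C, A, hC, hA, h⟩ := af_pow K k
  refine ⟨max (C ^ Fintype.card J) 1, le_max_right _ _, ⌈A⌉₊ * Fintype.card J,
    fun Z hZ U hU => ?_⟩
  have hL : 0 ≤ Real.log Z := Real.log_nonneg hZ
  have hA' : (1 + Real.log Z) ^ A ≤ (1 + Real.log Z) ^ ⌈A⌉₊ := trv_up (by linarith)
  have hA0 : 0 ≤ (1 + Real.log Z) ^ A := Real.rpow_nonneg (by linarith) _
  have hpos : ∀ s : Finset (Pl K), 0 ≤ (k : ℝ) ^ s.card * (nr s)⁻¹ := fun s =>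
    mul_nonneg (by positivity) (inv_nonneg.2 (by linarith [one_le_nr s]))
  calc ∑ n ∈ U, (k : ℝ) ^ (∑ a, (n a).card) / ∏ a, nr (n a)
      = ∑ n ∈ U, ∏ a, ((k : ℝ) ^ (n a).card * (nr (n a))⁻¹) := by
        apply Finset.sum_congr rfl
        intro n _
        rw [Finset.prod_mul_distrib, Finset.prod_inv_distrib, Finset.prod_pow_eq_pow_sum,
          div_eq_mul_inv]
    _ ≤ ∑ n ∈ Fintype.piFinset fun _ : J => AF K Z,
          ∏ a, ((k : ℝ) ^ (n a).card * (nr (n a))⁻¹) := by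
        apply Finset.sum_le_sum_of_subset_of_nonneg
        · intro n hn
          rw [Fintype.mem_piFinset]
          exact fun a => mem_AF.2 (hU n hn a)
        · intro n _ _
          exact Finset.prod_nonneg fun a _ => hpos _
    _ = ∏ _a : J, ∑ n ∈ AF K Z, (k : ℝ) ^ n.card * (nr n)⁻¹ := by
        rw [Finset.prod_univ_sum]
    _ = (∑ n ∈ AF K Z, (k : ℝ) ^ n.card * (nr n)⁻¹) ^ (Fintype.card J) := by
        rw [Finset.prod_const, Finset.card_univ]
    _ ≤ (C * (1 + Real.log Z) ^ A) ^ (Fintype.card J) := by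
        apply pow_le_pow_left₀ _ (h Z hZ).2
        exact Finset.sum_nonneg fun n _ => hpos n
    _ ≤ (C * (1 + Real.log Z) ^ ⌈A⌉₊) ^ (Fintype.card J) := by
        apply pow_le_pow_left₀ (mul_nonneg hC.le hA0)
        exact mul_le_mul_of_nonneg_left hA' hC.le
    _ = C ^ Fintype.card J * (1 + Real.log Z) ^ (⌈A⌉₊ * Fintype.card J) := by
        rw [mul_pow, pow_mul]
    _ ≤ max (C ^ Fintype.card J) 1 * (1 + Real.log Z) ^ (⌈A⌉₊ * Fintype.card J) := by
        apply mul_le_mul_of_nonneg_right (le_max_left _ _)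
        have : 0 ≤ 1 + Real.log Z := by linarith
        positivity

end H77.PT
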