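import Pool.Agent.H77.PT.Dq
import Pool.Agent.H63.MA.ATupA

/-!
# [H77 PT AP2] the sum over the large parts by dyadic boxes, 130-200 lines. File Pool/Agent/H77/PT/Ap2.lean

Elementary. PROOF. `L = Nat.log 2 ⌊2 * Y⌋₊` or any natural number with `2 ^ L ≤ 2 * Y < 2 ^ (L + 1)`-type property; `L + 1 ≤ 2 * (1 + log (2 * Y))` (`1 / log 2 ≤ 2`; `Real.log_two_gt_d9`).
(1) Let `g` satisfy `Lc I Bd z₂ X g`, `g i ∈ GF D (2 * Y)`. For `i ∉ I`: `g i = ∅`, its factor is `1`. For `i ∈ I`: `g i` is nonempty with all primes `> z₂`, so `nr (g i) > z₂ ≥ 2 * W` (`nm v ≤ nr n` for `v ∈ n`; all factors `≥ 1`). Let `κ i` be the natural number with `2 ^ κ < nr (g i) ≤ 2 ^ (κ + 1)` (exists since `1 < nr (g i)`;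
e.g. `Nat.find` of `nr (g i) ≤ 2 ^ (κ + 1)`); `2 ^ (κ i) ≥ nr (g i) / 2 > W`, `∏_{i ∈ I} 2 ^ (κ i) ≤ ∏ i, nr (g i) ≤ X`, `κ i ≤ L` (`2 ^ κ < nr (g i) ≤ X ≤ 2 * Y`; `nr (g j) ≥ 1`).
(2) So the left side is at most `∑_{κ ∈ piFinset_{i : Fin N} (if i ∈ I then range (L + 1) else {0}), (∀ i ∈ I, W ≤ 2 ^ κ i), ∏_{i ∈ I} 2 ^ κ i ≤ X} ∑_{g ∈ piFinset_i (if i ∈ I then (GF D (2 * 2 ^ κ i)).filter (2 ^ κ i < nr · ∧ Disjoint · T) else {∅})} ∏ i, ∏ v ∈ g i, a i v` (every `g` of (1) occurs for its `κ`; all terms `≥ 0`; `T ⊆ Bd`).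
By `Finset.prod_univ_sum` (backwards) the inner sum is the product over `i ∈ I` of the sums of the hypothesis `h` with `Z = 2 ^ κ i`, so at most `∏_{i ∈ I} (M * 2 ^ κ i) = M ^ #I * ∏_{i ∈ I} 2 ^ κ i`.
(3) `∑_κ ∏_{i ∈ I} 2 ^ κ i` over the `κ` with `∏_{i ∈ I} 2 ^ κ i ≤ X` is at most `(L + 1) ^ (#I - 1) * 2 * X`: fix `i₀ ∈ I`; for given `κ j`, `j ∈ I \ {i₀}` (at most `(L + 1) ^ (#I - 1)` choices), with `Π = ∏_{j ≠ i₀} 2 ^ κ j`: `∑_{κ : 2 ^ κ ≤ X / Π} 2 ^ κ ≤ 2 * X / Π` (geometric sum: `∑_{κ ≤ κ'} 2 ^ κ < 2 ^ (κ' + 1)`). (Possible by induction on `I`, or with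
`Finset.sum_comm`/`Finset.sum_fiberwise` over the restriction of `κ` to `I.erase i₀`: e.g. all `κ` with given `κ j`, `j ≠ i₀`, differ only at `i₀`, the values `2 ^ κ i₀` are distinct powers of `2`, all `≤ X / Π`.)
(4) `(L + 1) ^ (#I - 1) ≤ 2 ^ (#I - 1) * (1 + log (2 Y)) ^ (#I - 1)`, `2 ^ (#I - 1) ≤ 2 ^ N`.
-/

set_option autoImplicit false

open scoped NumberField
open IsDedekindDomain
open scoped Classical

noncomputable section

namespace H77.PT

open H63.MA H38.BB H38.BG H57.PC H51.CUB H77.PC3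

variable {K : Type} [Field K] [NumberField K] {p : ℕ} {ζ : K} {N : ℕ}

private theorem ap2_kp {x : ℝ} (hx : 1 < x) : ∃ κ : ℕ, (2 : ℝ) ^ κ < x ∧ x ≤ 2 ^ (κ + 1) := by
  have hex : ∃ κ : ℕ, x ≤ 2 ^ (κ + 1) := by
    obtain ⟨n, hn⟩ := pow_unbounded_of_one_lt x (one_lt_two)
    exact ⟨n, hn.le.trans (pow_le_pow_right₀ (by norm_num) (Nat.le_succ n))⟩
  refine ⟨Nat.find hex, ?_, Nat.find_spec hex⟩
  rcases Nat.eq_zero_or_pos (Nat.find hex) with h0 | h0
  · rw [h0, pow_zero]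
    exact hx
  · have h1 := Nat.find_min hex (m := Nat.find hex - 1) (by omega)
    rw [not_le] at h1
    have h2 : Nat.find hex - 1 + 1 = Nat.find hex := by omega
    rw [h2] at h1
    exact h1

private theorem ap2_geo (Q : ℝ) (hQ : 0 ≤ Q) (L : ℕ) :
    (∑ t ∈ Finset.range L, if (2 : ℝ) ^ t ≤ Q then (2 : ℝ) ^ t else 0) ≤ 2 * Q ∧
    (∑ t ∈ Finset.range L, if (2 : ℝ) ^ t ≤ Q then (2 : ℝ) ^ t else 0) ≤ 2 ^ L - 1 := by
  induction L with
  | zero =>
    constructor
    · simpa using hQ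
    · simp
  | succ L ih =>
    rw [Finset.sum_range_succ]
    by_cases h : (2 : ℝ) ^ L ≤ Q
    · rw [if_pos h, pow_succ]
      constructor <;> linarith [ih.1, ih.2]
    · rw [if_neg h, pow_succ]
      have : (0 : ℝ) < 2 ^ L := by positivity
      constructor <;> linarith [ih.1, ih.2]

private theorem ap2_sum {N : ℕ} (I : Finset (Fin N)) (i₀ : Fin N) (hi₀ : i₀ ∈ I) (L : ℕ) (X : ℝ)
    (hX : 0 ≤ X) :
    ∑ κ ∈ (Fintype.piFinset (fun i : Fin N =>
        if i ∈ I then Finset.range L else ({0} : Finset ℕ))).filter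
      (fun κ => ∏ i ∈ I, (2 : ℝ) ^ κ i ≤ X), ∏ i ∈ I, (2 : ℝ) ^ κ i ≤
      2 * X * (L : ℝ) ^ (I.card - 1) := by
  set KK := (Fintype.piFinset (fun i : Fin N =>
        if i ∈ I then Finset.range L else ({0} : Finset ℕ))).filter
      (fun κ => ∏ i ∈ I, (2 : ℝ) ^ κ i ≤ X) with hKK
  set r : (Fin N → ℕ) → (Fin N → ℕ) := fun κ => Function.update κ i₀ 0 with hr
  have hmem : ∀ κ ∈ KK, (∀ i, κ i ∈ (if i ∈ I then Finset.range L else ({0} : Finset ℕ))) ∧
      ∏ i ∈ I, (2 : ℝ) ^ κ i ≤ X := by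
    intro κ hκ
    rw [hKK, Finset.mem_filter, Fintype.mem_piFinset] at hκ
    exact hκ
  have hrne : ∀ κ : Fin N → ℕ, ∀ i, i ≠ i₀ → r κ i = κ i := fun κ i hi =>
    Function.update_of_ne hi _ _
  have hreq : ∀ κ : Fin N → ℕ, r κ i₀ = 0 := fun κ => Function.update_self _ _ _
  have himg : KK.image r ⊆ Fintype.piFinset (fun i : Fin N =>
      if i ∈ I.erase i₀ then Finset.range L else ({0} : Finset ℕ)) := by
    intro f hf
    obtain ⟨κ, hκ, rfl⟩ := Finset.mem_image.1 hf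
    rw [Fintype.mem_piFinset]
    intro i
    by_cases hi : i = i₀
    · rw [hi, hreq, if_neg (Finset.notMem_erase i₀ I)]
      exact Finset.mem_singleton_self 0
    · rw [hrne κ i hi]
      have h1 := (hmem κ hκ).1 i
      by_cases hiI : i ∈ I
      · rw [if_pos (Finset.mem_erase.2 ⟨hi, hiI⟩)]
        rw [if_pos hiI] at h1
        exact h1
      · rw [if_neg (fun hc => hiI (Finset.mem_of_mem_erase hc))]
        rw [if_neg hiI] at h1
        exact h1
  have hcard : (Fintype.piFinset (fun i : Fin N =>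
      if i ∈ I.erase i₀ then Finset.range L else ({0} : Finset ℕ))).card = L ^ (I.card - 1) := by
    rw [Fintype.card_piFinset]
    have h1 : ∀ i : Fin N, (if i ∈ I.erase i₀ then Finset.range L else ({0} : Finset ℕ)).card =
        if i ∈ I.erase i₀ then L else 1 := by
      intro i
      by_cases hi : i ∈ I.erase i₀
      · rw [if_pos hi, if_pos hi, Finset.card_range]
      · rw [if_neg hi, if_neg hi, Finset.card_singleton]
    rw [Finset.prod_congr rfl (fun i _ => h1 i), Finset.prod_ite_mem, Finset.univ_inter,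
      Finset.prod_const, Finset.card_erase_of_mem hi₀]
  have hsplit : ∀ κ : Fin N → ℕ, ∏ i ∈ I, (2 : ℝ) ^ κ i =
      2 ^ κ i₀ * ∏ i ∈ I.erase i₀, (2 : ℝ) ^ (r κ i) := by
    intro κ
    rw [← Finset.mul_prod_erase I _ hi₀]
    congr 1
    apply Finset.prod_congr rfl
    intro i hi
    rw [hrne κ i (Finset.ne_of_mem_erase hi)]
  have hfib : ∀ κ' ∈ KK.image r,
      ∑ κ ∈ KK.filter (fun κ => r κ = κ'), ∏ i ∈ I, (2 : ℝ) ^ κ i ≤ 2 * X := by
    intro κ' _
    set P := ∏ i ∈ I.erase i₀, (2 : ℝ) ^ (κ' i) with hP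
    have hP0 : 0 < P := Finset.prod_pos fun i _ => by positivity
    have hinj : Set.InjOn (fun κ : Fin N → ℕ => κ i₀)
        (↑(KK.filter (fun κ => r κ = κ')) : Set (Fin N → ℕ)) := by
      intro κ₁ h₁ κ₂ h₂ h12
      rw [Finset.mem_coe, Finset.mem_filter] at h₁ h₂
      funext i
      by_cases hi : i = i₀
      · rw [hi]
        exact h12
      · rw [← hrne κ₁ i hi, ← hrne κ₂ i hi, h₁.2, h₂.2]
    calc ∑ κ ∈ KK.filter (fun κ => r κ = κ'), ∏ i ∈ I, (2 : ℝ) ^ κ i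
        = ∑ κ ∈ KK.filter (fun κ => r κ = κ'),
            (if (2 : ℝ) ^ (κ i₀) ≤ X / P then (2 : ℝ) ^ (κ i₀) * P else 0) := by
          apply Finset.sum_congr rfl
          intro κ hκ
          rw [Finset.mem_filter] at hκ
          have h1 := (hmem κ hκ.1).2
          rw [hsplit κ, hκ.2] at h1
          rw [hsplit κ, hκ.2, if_pos ((le_div_iff₀ hP0).2 h1)]
      _ = ∑ t ∈ (KK.filter (fun κ => r κ = κ')).image (fun κ : Fin N → ℕ => κ i₀),
            (if (2 : ℝ) ^ t ≤ X / P then (2 : ℝ) ^ t * P else 0) :=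
          (Finset.sum_image (f := fun t : ℕ =>
            (if (2 : ℝ) ^ t ≤ X / P then (2 : ℝ) ^ t * P else 0)) hinj).symm
      _ ≤ ∑ t ∈ Finset.range L, (if (2 : ℝ) ^ t ≤ X / P then (2 : ℝ) ^ t * P else 0) := by
          apply Finset.sum_le_sum_of_subset_of_nonneg
          · intro t ht
            obtain ⟨κ, hκ, rfl⟩ := Finset.mem_image.1 ht
            rw [Finset.mem_filter] at hκ
            have h1 := (hmem κ hκ.1).1 i₀
            rw [if_pos hi₀] at h1
            exact h1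
          · intro t _ _
            split_ifs
            · positivity
            · exact le_rfl
      _ = (∑ t ∈ Finset.range L, (if (2 : ℝ) ^ t ≤ X / P then (2 : ℝ) ^ t else 0)) * P := by
          rw [Finset.sum_mul]
          apply Finset.sum_congr rfl
          intro t _
          rw [ite_mul, zero_mul]
      _ ≤ (2 * (X / P)) * P :=
          mul_le_mul_of_nonneg_right (ap2_geo (X / P) (by positivity) L).1 hP0.le
      _ = 2 * X := by
          field_simp
  calc ∑ κ ∈ KK, ∏ i ∈ I, (2 : ℝ) ^ κ i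
      = ∑ κ' ∈ KK.image r, ∑ κ ∈ KK.filter (fun κ => r κ = κ'), ∏ i ∈ I, (2 : ℝ) ^ κ i :=
        (Finset.sum_fiberwise_of_maps_to (fun κ hκ => Finset.mem_image_of_mem r hκ) _).symm
    _ ≤ ∑ _κ' ∈ KK.image r, 2 * X := Finset.sum_le_sum hfib
    _ = ((KK.image r).card : ℝ) * (2 * X) := by rw [Finset.sum_const, nsmul_eq_mul]
    _ ≤ (L : ℝ) ^ (I.card - 1) * (2 * X) := by
        apply mul_le_mul_of_nonneg_right _ (by positivity)
        have h1 := Finset.card_le_card himg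
        rw [hcard] at h1
        exact_mod_cast h1
    _ = _ := by ring

private theorem ap2_prod_one {J : Type} (g : J → Finset (Pl K)) (s : Finset J) :
    1 ≤ ∏ a ∈ s, nr (g a) := by
  induction s using Finset.induction_on with
  | empty => simp
  | insert a s ha ih =>
    rw [Finset.prod_insert ha]
    exact one_le_mul_of_one_le_of_one_le (one_le_nr _) ih

private theorem ap2_prod_sub {J : Type} [Fintype J] (g : J → Finset (Pl K)) (s : Finset J) :
    ∏ a ∈ s, nr (g a) ≤ ∏ a, nr (g a) := by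
  rw [← Finset.prod_sdiff (Finset.subset_univ s)]
  exact le_mul_of_one_le_left (by linarith [ap2_prod_one g s]) (ap2_prod_one g _)

private theorem ap2_le_prod {J : Type} [Fintype J] (g : J → Finset (Pl K)) (a : J) :
    nr (g a) ≤ ∏ a, nr (g a) := by
  have h := ap2_prod_sub g {a}
  rwa [Finset.prod_singleton] at h

theorem ap2 (D : RD0 K p ζ) (I : Finset (Fin N)) (hI : I.Nonempty) (a : Fin N → Pl K → ℝ)
    (ha : ∀ i v, 0 ≤ a i v) (M W : ℝ) (hM : 0 ≤ M) (hW : 1 ≤ W) (T : Finset (Pl K))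
    (h : ∀ i ∈ I, ∀ Z : ℝ, W ≤ Z →
      ∑ n ∈ (GF D (2 * Z)).filter (fun n => Z < nr n ∧ Disjoint n T), ∏ v ∈ n, a i v ≤ M * Z)
    (Bd : Finset (Pl K)) (hB : T ⊆ Bd) (z₂ X Y : ℝ) (hz : 2 * W ≤ z₂) (hX0 : 0 ≤ X)
    (hX : X ≤ 2 * Y) (hY : 1 ≤ Y) :
    (∑ g ∈ Fintype.piFinset (fun _ : Fin N => GF D (2 * Y)),
      if Lc I Bd z₂ X g then ∏ i, ∏ v ∈ g i, a i v else 0) ≤
      2 * 2 ^ N * M ^ I.card * X * (1 + Real.log (2 * Y)) ^ (I.card - 1) := by
  obtain ⟨i₀, hi₀⟩ := hI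
  have hkp : ∀ s : Finset (Pl K), ∃ κ : ℕ, 1 < nr s → (2 : ℝ) ^ κ < nr s ∧
      nr s ≤ 2 ^ (κ + 1) := by
    intro s
    by_cases hs : 1 < nr s
    · obtain ⟨κ, hκ⟩ := ap2_kp hs
      exact ⟨κ, fun _ => hκ⟩
    · exact ⟨0, fun h => absurd h hs⟩
  choose kp hkp using hkp
  have hY2 : 1 ≤ 2 * Y := by linarith
  have hY20 : 0 ≤ 2 * Y := by linarith
  have hfl : ⌊2 * Y⌋₊ ≠ 0 := by
    have : 1 ≤ ⌊2 * Y⌋₊ := (Nat.one_le_floor_iff (2 * Y)).2 hY2
    omega
  set L := Nat.log 2 ⌊2 * Y⌋₊ with hL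
  set F := (Fintype.piFinset (fun _ : Fin N => GF D (2 * Y))).filter
    (fun g => Lc I Bd z₂ X g) with hF
  set KK := (Fintype.piFinset (fun i : Fin N =>
        if i ∈ I then Finset.range (L + 1) else ({0} : Finset ℕ))).filter
      (fun κ => ∏ i ∈ I, (2 : ℝ) ^ κ i ≤ X) with hKK
  set KW := KK.filter (fun κ => ∀ i ∈ I, W ≤ (2 : ℝ) ^ κ i) with hKW
  set km : (Fin N → Finset (Pl K)) → (Fin N → ℕ) := fun g i => if i ∈ I then kp (g i) else 0
    with hkm
  have hFm : ∀ g ∈ F, (∀ i, g i ∈ GF D (2 * Y)) ∧ Lc I Bd z₂ X g := by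
    intro g hg
    rw [hF, Finset.mem_filter, Fintype.mem_piFinset] at hg
    exact hg
  have hFI : ∀ g ∈ F, ∀ i ∈ I, (2 : ℝ) ^ (kp (g i)) < nr (g i) ∧
      nr (g i) ≤ 2 ^ (kp (g i) + 1) ∧ W ≤ (2 : ℝ) ^ (kp (g i)) ∧ kp (g i) < L + 1 := by
    intro g hg i hi
    obtain ⟨-, hdj, hBd, hpr, hne, hbig⟩ := hFm g hg
    obtain ⟨v, hv⟩ := Finset.nonempty_iff_ne_empty.2 ((hne i).1 hi)
    have h1 : (nm v : ℝ) ≤ nr (g i) := by
      have h2 := nr_mono (Finset.singleton_subset_iff.2 hv)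
      have h3 : nr ({v} : Finset (Pl K)) = nm v := by
        unfold nr
        rw [Finset.prod_singleton]
      rw [h3] at h2
      exact h2
    have h2 := hbig i v hv
    have h3 : 2 * W < nr (g i) := by linarith
    obtain ⟨h4, h5⟩ := hkp (g i) (by linarith)
    refine ⟨h4, h5, ?_, ?_⟩
    · rw [pow_succ] at h5
      linarith
    · have h6 : (2 : ℝ) ^ (kp (g i)) ≤ 2 * Y :=
        h4.le.trans ((ap2_le_prod g i).trans (hpr.trans hX))
      have h7 : 2 ^ (kp (g i)) ≤ ⌊2 * Y⌋₊ := by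
        apply Nat.le_floor
        push_cast
        exact h6
      have h8 : kp (g i) ≤ L := Nat.le_log_of_pow_le (by norm_num) h7
      omega
  have hmap : ∀ g ∈ F, km g ∈ KW := by
    intro g hg
    obtain ⟨-, hdj, hBd, hpr, hne, hbig⟩ := hFm g hg
    rw [hKW, Finset.mem_filter, hKK, Finset.mem_filter, Fintype.mem_piFinset]
    refine ⟨⟨?_, ?_⟩, ?_⟩
    · intro i
      by_cases hi : i ∈ I
      · rw [if_pos hi, Finset.mem_range]
        change (if i ∈ I then kp (g i) else 0) < L + 1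
        rw [if_pos hi]
        exact (hFI g hg i hi).2.2.2
      · rw [if_neg hi, Finset.mem_singleton]
        change (if i ∈ I then kp (g i) else 0) = 0
        rw [if_neg hi]
    · refine le_trans ?_ ((ap2_prod_sub g I).trans hpr)
      apply Finset.prod_le_prod (fun i _ => by positivity)
      intro i hi
      change (2 : ℝ) ^ (if i ∈ I then kp (g i) else 0) ≤ nr (g i)
      rw [if_pos hi]
      exact (hFI g hg i hi).1.le
    · intro i hi
      change W ≤ (2 : ℝ) ^ (if i ∈ I then kp (g i) else 0)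
      rw [if_pos hi]
      exact (hFI g hg i hi).2.2.1
  have hnn : ∀ g : Fin N → Finset (Pl K), 0 ≤ ∏ i, ∏ v ∈ g i, a i v := fun g =>
    Finset.prod_nonneg fun i _ => Finset.prod_nonneg fun v _ => ha i v
  have hfib : ∀ κ ∈ KW, ∑ g ∈ F.filter (fun g => km g = κ), ∏ i, ∏ v ∈ g i, a i v ≤
      M ^ I.card * ∏ i ∈ I, (2 : ℝ) ^ κ i := by
    intro κ hκ
    rw [hKW, Finset.mem_filter] at hκ
    set S : Fin N → Finset (Finset (Pl K)) := fun i => if i ∈ I then
      (GF D (2 * (2 : ℝ) ^ κ i)).filter (fun n => (2 : ℝ) ^ κ i < nr n ∧ Disjoint n T)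
      else {∅} with hS
    calc ∑ g ∈ F.filter (fun g => km g = κ), ∏ i, ∏ v ∈ g i, a i v
        ≤ ∑ g ∈ Fintype.piFinset S, ∏ i, ∏ v ∈ g i, a i v := by
          apply Finset.sum_le_sum_of_subset_of_nonneg
          · intro g hg
            rw [Finset.mem_filter] at hg
            obtain ⟨hg, hgκ⟩ := hg
            obtain ⟨hGF, hdj, hBd, hpr, hne, hbig⟩ := hFm g hg
            rw [Fintype.mem_piFinset]
            intro i
            by_cases hi : i ∈ I
            · have h1 : κ i = kp (g i) := by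
                rw [← hgκ]
                change (if i ∈ I then kp (g i) else 0) = kp (g i)
                rw [if_pos hi]
              obtain ⟨h2, h3, h4, h5⟩ := hFI g hg i hi
              change g i ∈ (if i ∈ I then (GF D (2 * (2 : ℝ) ^ κ i)).filter
                (fun n => (2 : ℝ) ^ κ i < nr n ∧ Disjoint n T) else {∅})
              rw [if_pos hi, Finset.mem_filter, h1]
              refine ⟨?_, h2, Finset.disjoint_of_subset_right hB (hBd i)⟩
              unfold GF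
              rw [Finset.mem_filter, mem_AF]
              have h6 := hGF i
              unfold GF at h6
              rw [Finset.mem_filter] at h6
              refine ⟨?_, h6.2⟩
              rw [pow_succ] at h3
              linarith
            · change g i ∈ (if i ∈ I then (GF D (2 * (2 : ℝ) ^ κ i)).filter
                (fun n => (2 : ℝ) ^ κ i < nr n ∧ Disjoint n T) else {∅})
              rw [if_neg hi, Finset.mem_singleton]
              by_contra hc
              exact hi ((hne i).2 hc)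
          · intro g _ _
            exact hnn g
      _ = ∏ i, ∑ n ∈ S i, ∏ v ∈ n, a i v := by
          rw [Finset.prod_univ_sum]
      _ ≤ ∏ i, (if i ∈ I then M * (2 : ℝ) ^ κ i else 1) := by
          apply Finset.prod_le_prod
          · intro i _
            exact Finset.sum_nonneg fun n _ => Finset.prod_nonneg fun v _ => ha i v
          · intro i _
            by_cases hi : i ∈ I
            · rw [if_pos hi]
              have h1 := h i hi ((2 : ℝ) ^ κ i) (hκ.2 i hi)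
              change ∑ n ∈ (if i ∈ I then (GF D (2 * (2 : ℝ) ^ κ i)).filter
                (fun n => (2 : ℝ) ^ κ i < nr n ∧ Disjoint n T) else {∅}), ∏ v ∈ n, a i v ≤ _
              rw [if_pos hi]
              exact h1
            · rw [if_neg hi]
              change ∑ n ∈ (if i ∈ I then (GF D (2 * (2 : ℝ) ^ κ i)).filter
                (fun n => (2 : ℝ) ^ κ i < nr n ∧ Disjoint n T) else {∅}), ∏ v ∈ n, a i v ≤ _
              rw [if_neg hi, Finset.sum_singleton, Finset.prod_empty]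
      _ = ∏ i ∈ I, (M * (2 : ℝ) ^ κ i) := by
          rw [Finset.prod_ite_mem, Finset.univ_inter]
      _ = M ^ I.card * ∏ i ∈ I, (2 : ℝ) ^ κ i := by
          rw [Finset.prod_mul_distrib, Finset.prod_const]
  have hlog2 : (1 / 2 : ℝ) < Real.log 2 := by
    have := Real.log_two_gt_d9
    linarith
  have hlY : 0 ≤ Real.log (2 * Y) := Real.log_nonneg hY2
  have hL1 : ((L + 1 : ℕ) : ℝ) ≤ 2 * (1 + Real.log (2 * Y)) := by
    have h1 : ((2 ^ L : ℕ) : ℝ) ≤ (⌊2 * Y⌋₊ : ℝ) := by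
      exact_mod_cast Nat.pow_log_le_self 2 hfl
    push_cast at h1
    have h2 : (2 : ℝ) ^ L ≤ 2 * Y := h1.trans (Nat.floor_le hY20)
    have h3 := Real.log_le_log (by positivity) h2
    rw [Real.log_pow] at h3
    push_cast
    have h4 : (0 : ℝ) ≤ (L : ℝ) := Nat.cast_nonneg _
    nlinarith
  have hIN : I.card - 1 ≤ N := by
    have h1 := Finset.card_le_univ I
    rw [Fintype.card_fin] at h1
    omega
  have hpow : ((L + 1 : ℕ) : ℝ) ^ (I.card - 1) ≤
      2 ^ N * (1 + Real.log (2 * Y)) ^ (I.card - 1) := by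
    calc ((L + 1 : ℕ) : ℝ) ^ (I.card - 1) ≤ (2 * (1 + Real.log (2 * Y))) ^ (I.card - 1) :=
          pow_le_pow_left₀ (Nat.cast_nonneg _) hL1 _
      _ = 2 ^ (I.card - 1) * (1 + Real.log (2 * Y)) ^ (I.card - 1) := mul_pow _ _ _
      _ ≤ _ := by
          apply mul_le_mul_of_nonneg_right _ (by positivity)
          exact pow_le_pow_right₀ (by norm_num) hIN
  have hMI : 0 ≤ M ^ I.card := pow_nonneg hM _
  calc (∑ g ∈ Fintype.piFinset (fun _ : Fin N => GF D (2 * Y)),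
      if Lc I Bd z₂ X g then ∏ i, ∏ v ∈ g i, a i v else 0)
      = ∑ g ∈ F, ∏ i, ∏ v ∈ g i, a i v := by
        rw [hF, Finset.sum_filter]
    _ = ∑ κ ∈ KW, ∑ g ∈ F.filter (fun g => km g = κ), ∏ i, ∏ v ∈ g i, a i v :=
        (Finset.sum_fiberwise_of_maps_to hmap _).symm
    _ ≤ ∑ κ ∈ KW, M ^ I.card * ∏ i ∈ I, (2 : ℝ) ^ κ i := Finset.sum_le_sum hfib
    _ ≤ ∑ κ ∈ KK, M ^ I.card * ∏ i ∈ I, (2 : ℝ) ^ κ i := by
        apply Finset.sum_le_sum_of_subset_of_nonneg (Finset.filter_subset _ _)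
        intro κ _ _
        positivity
    _ = M ^ I.card * ∑ κ ∈ KK, ∏ i ∈ I, (2 : ℝ) ^ κ i := by rw [Finset.mul_sum]
    _ ≤ M ^ I.card * (2 * X * ((L + 1 : ℕ) : ℝ) ^ (I.card - 1)) :=
        mul_le_mul_of_nonneg_left (ap2_sum I i₀ hi₀ (L + 1) X hX0) hMI
    _ ≤ M ^ I.card * (2 * X * (2 ^ N * (1 + Real.log (2 * Y)) ^ (I.card - 1))) :=
        mul_le_mul_of_nonneg_left (mul_le_mul_of_nonneg_left hpow (by positivity)) hMI
    _ = _ := by ring

end H77.PT
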