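import Pool.Agent.H77.PT.Apu
import Pool.Agent.H57.LS.Kpa

/-!
# [H77 PT APF] the twists by the large primes do not matter, 80-120 lines. File Pool/Agent/H77/PT/Apf.lean

PROOF. `apx` writes the sum as `∑_{S admissible} TJ S`. The unlinked `S`: `apu`. For a linked `S` (`lk a a' ≠ 0` for some `a, a' ∈ S`): `kpa3` (Pool/Agent/H57/LS/Kpa.lean) with `P = PJ`, `J = AJ N p #G`, `t = 1`, `blk = 0`, exponent `A`, its `X` := `2 * Y`, `z₁ = 1`, its `z₂` := our `z₂`, its `Y` := `fun _ => X` (`0 < X ≤ 2 * Y`), `b = 1`, `E = ∅`, `η = 0`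
(`BS2 D 1 ∅`: `ord v 1 = 0`; `nr ∅ = 1`), `Lg = S`, `s = fun _ => ∅` (`nr ∅ = 1 ≤ 1`), `κ = ka ..` (`‖ka a n‖ ≤ 1`: `cc_le`), `h = 1`: `‖TJ S‖ ≤ X / sn * log (2 Y) ^ (-A) ≤ X * log Y ^ (-A)` (`sn = ∏ nr ∅ = 1`; `A ≥ 0`: replace `A` by `max A 0` in `kpa3`, and use `log Y ≥ 1`). The number of the supports is at most `2 ^ #AJ`.
The condition `log (2 Y) ^ B₁ ≤ z₂` follows from `exp ((log log Y) ^ 2) ≤ z₂` for large `Y`: `log (2 Y) ≤ 2 log Y = exp (x + log 2)`, `x = log log Y`, and `B₁ (x + log 2) ≤ x ^ 2` for `x ≥ B₁ + 1`.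
-/

set_option autoImplicit false

open scoped NumberField
open IsDedekindDomain
open scoped Classical

noncomputable section

namespace H77.PT

open H63.MA H38.BB H38.BG H57.PC H51.CUB H77.PC3 H57.LS

variable {K : Type} [Field K] [NumberField K] {p : ℕ} {ζ : K} {G : Type} [Group G] {N : ℕ}

theorem ap1_log {B : ℕ} {Y : ℝ} (h1 : 3 ≤ Y) (h2 : Real.exp (Real.exp ((B : ℝ) + 1)) ≤ Y) :
    1 ≤ Real.log Y ∧ Real.log (2 * Y) ^ B ≤ Real.exp (Real.log (Real.log Y) ^ 2) := by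
  have hY : 0 < Y := by linarith
  have hl1 : 1 ≤ Real.log Y := by
    rw [Real.le_log_iff_exp_le hY]
    have := Real.exp_one_lt_d9
    linarith
  refine ⟨hl1, ?_⟩
  have hx : (B : ℝ) + 1 ≤ Real.log (Real.log Y) := by
    rw [Real.le_log_iff_exp_le (by linarith), Real.le_log_iff_exp_le hY]
    exact h2
  obtain ⟨x, hxd⟩ : ∃ x : ℝ, x = Real.log (Real.log Y) := ⟨_, rfl⟩
  have hexp : Real.exp x = Real.log Y := by rw [hxd, Real.exp_log (by linarith)]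
  have hlog2 : Real.log 2 ≤ Real.log Y := Real.log_le_log (by norm_num) (by linarith)
  have h3 : Real.log (2 * Y) ≤ Real.exp (x + 1) := by
    rw [Real.log_mul (by norm_num) hY.ne', Real.exp_add, hexp]
    have h4 : (2 : ℝ) ≤ Real.exp 1 := by
      have := Real.add_one_le_exp (1 : ℝ)
      linarith
    nlinarith
  have h5 : 0 ≤ Real.log (2 * Y) := Real.log_nonneg (by linarith)
  rw [← hxd] at hx ⊢
  calc Real.log (2 * Y) ^ B ≤ Real.exp (x + 1) ^ B := pow_le_pow_left₀ h5 h3 B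
    _ = Real.exp (B * (x + 1)) := by rw [← Real.exp_nat_mul]
    _ ≤ Real.exp (x ^ 2) := by
        apply Real.exp_le_exp.2
        have hB : (0 : ℝ) ≤ B := Nat.cast_nonneg B
        nlinarith

theorem ka_le [NeZero p] [Finite G] (Z : Multiplicative (Fin N → ZMod p) →* G)
    (C : Fin N → Subgroup G) (r : Pl K → G) (Bd : Finset (Pl K)) (z₂ : ℝ)
    (a : AJ N p (Nat.card G)) (n : Finset (Pl K)) :
    ‖ka Z C r Bd z₂ (Nat.card G) a n‖ ≤ 1 := by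
  unfold ka
  split_ifs
  · rw [norm_prod]
    exact Finset.prod_le_one (fun v _ => norm_nonneg _) fun v _ => cc_le Z C r a v
  · rw [norm_zero]; exact zero_le_one

theorem ap1 [NeZero p] [Finite G] (hp : p.Prime) (hζ : IsPrimitiveRoot ζ p) (D : RD K p ζ)
    (I : Finset (Fin N)) (Z : Multiplicative (Fin N → ZMod p) →* G)
    (hZ : ∀ t x, Z t * x = x * Z t)
    (hZI : ∀ i, i ∉ I → Z (Multiplicative.ofAdd (Pi.single i 1)) = 1) (C : Fin N → Subgroup G)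
    (hC : ∀ i ∈ I, Z (Multiplicative.ofAdd (Pi.single i 1)) ∈ C i) (A : ℝ) :
    ∃ C₀ Y₀ : ℝ, 1 ≤ C₀ ∧ 3 ≤ Y₀ ∧ ∀ Y : ℝ, Y₀ ≤ Y → ∀ X : ℝ, 0 < X → X ≤ 2 * Y →
      ∀ (r : Pl K → G) (Bd : Finset (Pl K)) (z₂ : ℝ), Real.exp (Real.log (Real.log Y) ^ 2) ≤ z₂ →
      (∑ g ∈ Fintype.piFinset (fun _ : Fin N => GF D.toRD0 (2 * Y)), if Lc I Bd z₂ X g then
        ∏ i, ∏ v ∈ g i, fx (C i) (r v * Z (Multiplicative.ofAdd (tv D.toRD0 g v))) else 0) ≤
        C₀ * (∑ g ∈ Fintype.piFinset (fun _ : Fin N => GF D.toRD0 (2 * Y)),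
          if Lc I Bd z₂ X g then ∏ i, ∏ v ∈ g i, fx (C i ⊔ Z.range) (r v) else 0) +
          C₀ * X * Real.log Y ^ (-A) := by
  obtain ⟨M, hM⟩ : ∃ M : ℕ, M = Nat.card G := ⟨_, rfl⟩
  obtain ⟨A', hA'⟩ : ∃ A' : ℝ, A' = max A 0 := ⟨_, rfl⟩
  have hA'0 : 0 ≤ A' := by rw [hA']; exact le_max_right _ _
  have hAA' : A ≤ A' := by rw [hA']; exact le_max_left _ _
  obtain ⟨B₁, X₀, hX₀, hk⟩ := kpa3 hp hζ D (PJ N p (Nat.card G))
    (fun _ : AJ N p (Nat.card G) => (0 : Fin 1)) A'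
  obtain ⟨c, hc⟩ : ∃ c : ℝ, c = ((Finset.univ : Finset (Finset (AJ N p (Nat.card G)))).card : ℝ) :=
    ⟨_, rfl⟩
  have hc0 : 0 ≤ c := by rw [hc]; exact Nat.cast_nonneg _
  have hpN : 0 ≤ (p : ℝ) ^ (N * N) := by positivity
  refine ⟨(p : ℝ) ^ (N * N) + c + 1, max (max 3 X₀) (Real.exp (Real.exp ((B₁ : ℝ) + 1))),
    by linarith, (le_max_left _ _).trans (le_max_left _ _), ?_⟩
  intro Y hY X hX0 hX r Bd z₂ hz₂
  have hY3 : 3 ≤ Y := ((le_max_left _ _).trans (le_max_left _ _)).trans hY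
  have hYX₀ : X₀ ≤ Y := ((le_max_right _ _).trans (le_max_left _ _)).trans hY
  have hYe : Real.exp (Real.exp ((B₁ : ℝ) + 1)) ≤ Y := (le_max_right _ _).trans hY
  obtain ⟨hl1, hlB⟩ := ap1_log hY3 hYe
  have hz1 : 1 ≤ z₂ := by
    refine le_trans ?_ hz₂
    exact Real.one_le_exp (sq_nonneg _)
  obtain ⟨Lh, hLh⟩ : ∃ Lh : ℝ, Lh = ∑ g ∈ Fintype.piFinset (fun _ : Fin N => GF D.toRD0 (2 * Y)),
      if Lc I Bd z₂ X g then
        ∏ i, ∏ v ∈ g i, fx (C i) (r v * Z (Multiplicative.ofAdd (tv D.toRD0 g v))) else 0 :=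
    ⟨_, rfl⟩
  obtain ⟨Rh, hRh⟩ : ∃ Rh : ℝ, Rh = ∑ g ∈ Fintype.piFinset (fun _ : Fin N => GF D.toRD0 (2 * Y)),
      if Lc I Bd z₂ X g then ∏ i, ∏ v ∈ g i, fx (C i ⊔ Z.range) (r v) else 0 := ⟨_, rfl⟩
  have hRh0 : 0 ≤ Rh := by
    rw [hRh]
    refine Finset.sum_nonneg fun g _ => ?_
    split_ifs
    · exact Finset.prod_nonneg fun i _ => Finset.prod_nonneg fun v _ => Nat.cast_nonneg _
    · exact le_rfl
  have hexp := apx hp hζ D.toRD0 I Z hZ hZI C hC r Bd z₂ X Y hz1 hX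
  have hun := apu hp D.toRD0 I Z hZ C r Bd z₂ X Y hz1 hX
  rw [← hLh] at hexp ⊢
  rw [← hRh] at hun ⊢
  have hl0 : 0 < Real.log Y := by linarith
  have hl2 : Real.log Y ≤ Real.log (2 * Y) := Real.log_le_log (by linarith) (by linarith)
  have hlA : Real.log (2 * Y) ^ (-A') ≤ Real.log Y ^ (-A) := by
    calc Real.log (2 * Y) ^ (-A') ≤ Real.log Y ^ (-A') :=
          Real.rpow_le_rpow_of_nonpos hl0 hl2 (by linarith)
      _ ≤ Real.log Y ^ (-A) := Real.rpow_le_rpow_of_exponent_le hl1 (by linarith)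
  have hlk : ∀ S ∈ Finset.univ.filter (fun S : Finset (AJ N p (Nat.card G)) => RS I S ∧
      ¬ ∀ a ∈ S, ∀ a' ∈ S, (PJ N p (Nat.card G)).lk a a' = 0),
      ‖TJ D.toRD0 Z C r Bd z₂ X Y (Nat.card G) S‖ ≤ X * Real.log Y ^ (-A) := by
    intro S hS
    rw [Finset.mem_filter] at hS
    have hne : ∃ a ∈ S, ∃ a' ∈ S, (PJ N p (Nat.card G)).lk a a' ≠ 0 := by
      have h3 := hS.2.2
      push Not at h3
      exact h3
    have h4 := hk (2 * Y) 1 z₂ (by linarith) le_rfl (by rw [one_pow]; exact hz1) (hlB.trans hz₂)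
      (fun _ => X) (fun _ => ⟨hX0, hX⟩) (fun _ => (1 : Kˣ)) ∅ (fun _ => 0)
      ⟨fun v hv => absurd hv (Finset.notMem_empty v), fun k v _ _ => ord_one v⟩
      (le_of_eq aup_nr_empty) S (fun _ => ∅)
      (fun l _ => ⟨fun v hv => absurd hv (Finset.notMem_empty v), le_of_eq aup_nr_empty⟩)
      (ka Z C r Bd z₂ (Nat.card G)) (ka_le Z C r Bd z₂) (fun _ => 1)
      (fun _ => le_of_eq norm_one) hne
    have h5 : sn (K := K) S (fun _ : AJ N p (Nat.card G) => (∅ : Finset (Pl K))) = 1 := by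
      unfold sn
      exact Finset.prod_eq_one fun a _ => aup_nr_empty
    rw [h5, div_one, Fin.prod_univ_one] at h4
    exact h4.trans (mul_le_mul_of_nonneg_left hlA hX0.le)
  have hspl : ∑ S ∈ Finset.univ.filter (fun S : Finset (AJ N p (Nat.card G)) => RS I S),
      ‖TJ D.toRD0 Z C r Bd z₂ X Y (Nat.card G) S‖ =
      ∑ S ∈ Finset.univ.filter (fun S : Finset (AJ N p (Nat.card G)) => RS I S ∧
        ∀ a ∈ S, ∀ a' ∈ S, (PJ N p (Nat.card G)).lk a a' = 0),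
        ‖TJ D.toRD0 Z C r Bd z₂ X Y (Nat.card G) S‖ +
      ∑ S ∈ Finset.univ.filter (fun S : Finset (AJ N p (Nat.card G)) => RS I S ∧
        ¬ ∀ a ∈ S, ∀ a' ∈ S, (PJ N p (Nat.card G)).lk a a' = 0),
        ‖TJ D.toRD0 Z C r Bd z₂ X Y (Nat.card G) S‖ := by
    rw [← Finset.filter_filter, ← Finset.filter_filter]
    exact (Finset.sum_filter_add_sum_filter_not _ _ _).symm
  have hll : ∑ S ∈ Finset.univ.filter (fun S : Finset (AJ N p (Nat.card G)) => RS I S ∧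
        ¬ ∀ a ∈ S, ∀ a' ∈ S, (PJ N p (Nat.card G)).lk a a' = 0),
        ‖TJ D.toRD0 Z C r Bd z₂ X Y (Nat.card G) S‖ ≤ c * (X * Real.log Y ^ (-A)) := by
    refine (Finset.sum_le_card_nsmul _ _ _ hlk).trans ?_
    rw [nsmul_eq_mul, hc]
    refine mul_le_mul_of_nonneg_right ?_ (mul_nonneg hX0.le (Real.rpow_nonneg hl0.le _))
    exact_mod_cast Finset.card_filter_le _ _
  have hL : Lh ≤ ∑ S ∈ Finset.univ.filter (fun S : Finset (AJ N p (Nat.card G)) => RS I S),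
      ‖TJ D.toRD0 Z C r Bd z₂ X Y (Nat.card G) S‖ := by
    calc Lh ≤ |Lh| := le_abs_self _
      _ = ‖(Lh : ℂ)‖ := by rw [Complex.norm_real, Real.norm_eq_abs]
      _ ≤ _ := by rw [hexp]; exact norm_sum_le _ _
  have hXl : 0 ≤ X * Real.log Y ^ (-A) := mul_nonneg hX0.le (Real.rpow_nonneg hl0.le _)
  rw [hspl] at hL
  nlinarith [mul_nonneg hc0 hRh0, mul_nonneg hpN hXl]

end H77.PT
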