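import Pool.Agent.H77.PT.Fda

/-!
# [H77 PT FDC] fixed points of Frobenius and primes of degree one, 130-200 lines. File Pool/Agent/H77/PT/Fdc.lean

`M = MF ρ H`, `ρ` surjective and of finite type, trivial on the inertia groups `inr L v`, `v ∉ S0 ∪ T`. There is `j : Pl K → G ⧸ H → Ideal (𝓞 M)` such that for `v ∉ S0 ∪ T` and `x ∈ G ⧸ H` fixed by `ρ (F v)`: `j v x` is a nonzero prime of norm `nm v`, and `j` is injective on these pairs.
PROOF. For `v ∉ S0` let `P = (L.ld v _).P` (a prime of `𝓞 Ω` over `v`). For `x ∈ G ⧸ H` choose `g = g v x ∈ Γ` with `(ρ g : G ⧸ H) = x` (`ρ` surjective), let `f_g : 𝓞 M →+* 𝓞 Ω` be the map `a ↦ g a` (`NumberField.RingOfIntegers.mapRingHom ((g : Ω →+* Ω).comp (algebraMap M Ω))`) and `j v x = P.comap f_g` (for `v ∈ S0` anything).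
(1) It is prime and lies over `v`: `(j v x).under (𝓞 K) = P.under (𝓞 K) = v` (`g` fixes `K`); so it is `≠ ⊥`.
(2) Let `ρ (F v) • x = x`, i.e. `g⁻¹ F g ∈ H.comap ρ = M.fixingSubgroup` (`mf_fix`; `QuotientGroup.eq`). For `a ∈ 𝓞 M`: `F (g a) = g a` (as `g⁻¹ F g a = a`), and `Fr.fr v hv (g a)`: `F (g a) - (g a) ^ q ∈ P`, `q = nm v`. So `a ^ q - a ∈ j v x` for all `a ∈ 𝓞 M`. The residue field `k' = 𝓞 M ⧸ j v x` is a finite field in which all elements are roots of `X ^ q - X`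
 (`q > 1`), so `#k' ≤ q` (`Polynomial.card_roots'`), and `𝓞 K ⧸ v → k'` is injective (a field homomorphism; `v` is the prime below), so `#k' ≥ q`: `absNorm (j v x) = #k' = q`; moreover the map `𝓞 K ⧸ v → k'` is bijective: (3) for every `a ∈ 𝓞 M` there is `c ∈ 𝓞 K` with `a - c ∈ j v x`.
(4) Injectivity: let `j v x = j w y` for such pairs. The primes of `𝓞 K` below are equal: `v = w`. Let `g = g v x`, `h = g v y`. For `a ∈ 𝓞 M` take `c` as in (3): `g a - c = g (a - c) ∈ P` and `h a - c = h (a - c) ∈ P` (as `a - c ∈ j v x = j v y`), so `g a - h a ∈ P`. `H38.ML.exists_inertia` (Pool/Agent/H38/ML/EmbOrb.lean) with `L = M`, `𝔓 = P`, `φ = g ∘ incl`, `ψ = h ∘ incl`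
 gives `τ` in the inertia group of `P` (`= inr L v`: `dup_inr`) with `τ g a = h a` for all `a ∈ M`. So `h⁻¹ τ g ∈ M.fixingSubgroup = H.comap ρ`, `ρ τ = 1` (`v ∉ S0 ∪ T`), so `ρ(h)⁻¹ ρ(g) ∈ H`, `x = y`.
-/

set_option autoImplicit false

open scoped NumberField
open IsDedekindDomain
open scoped Classical

noncomputable section

namespace H77.PT

open H63.MA H38.BB H38.BG H57.PC H51.CUB H77.PC3 H36.QA

variable {K : Type} [Field K] [NumberField K] {p : ℕ} {ζ : K} {Ω : Type}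
  [Field Ω] [Algebra K Ω] [IsAlgClosure K Ω] {G : Type} [Group G]

/-- the map of the integers given by an element of the Galois group -/
private def fdcf (M : IntermediateField K Ω) (g : Gal(Ω/K)) : 𝓞 M →+* 𝓞 Ω :=
  NumberField.RingOfIntegers.mapRingHom ((g : Ω →ₐ[K] Ω).toRingHom.comp (algebraMap M Ω))

omit [NumberField K] [IsAlgClosure K Ω] in
private theorem fdcf_apply (M : IntermediateField K Ω) (g : Gal(Ω/K)) (a : 𝓞 M) :
    ((fdcf M g a : 𝓞 Ω) : Ω) = g ((a : M) : Ω) := rfl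

omit [NumberField K] [IsAlgClosure K Ω] in
private theorem fdcf_alg (M : IntermediateField K Ω) (g : Gal(Ω/K)) (c : 𝓞 K) :
    fdcf M g (algebraMap (𝓞 K) (𝓞 M) c) = algebraMap (𝓞 K) (𝓞 Ω) c := by
  apply NumberField.RingOfIntegers.ext
  rw [fdcf_apply]
  exact g.commutes (c : K)

omit [IsAlgClosure K Ω] in
/-- the prime below -/
private theorem fdcf_under (M : IntermediateField K Ω) (g : Gal(Ω/K)) (v : Pl K)
    (P : Ideal (𝓞 Ω)) (hP : P.under (𝓞 K) = v.asIdeal) :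
    (P.comap (fdcf M g)).comap (algebraMap (𝓞 K) (𝓞 M)) = v.asIdeal := by
  rw [← hP]
  ext c
  rw [Ideal.mem_comap, Ideal.mem_comap, fdcf_alg, Ideal.under, Ideal.mem_comap]

/-- a finite domain in which `x ^ q = x` has at most `q` elements -/
private theorem fdc_card (R : Type) [CommRing R] [IsDomain R] [Finite R] (q : ℕ) (hq : 1 < q)
    (h : ∀ x : R, x ^ q - x = 0) : Nat.card R ≤ q := by
  have hf : Fintype R := Fintype.ofFinite _
  have hdeg : (Polynomial.X ^ q - Polynomial.X : Polynomial R).natDegree = q := by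
    rw [Polynomial.natDegree_sub_eq_left_of_natDegree_lt, Polynomial.natDegree_X_pow]
    rw [Polynomial.natDegree_X_pow, Polynomial.natDegree_X]
    exact hq
  have hf0 : (Polynomial.X ^ q - Polynomial.X : Polynomial R) ≠ 0 := by
    intro h0
    rw [h0, Polynomial.natDegree_zero] at hdeg
    omega
  have hsub : (Finset.univ : Finset R) ⊆
      (Polynomial.X ^ q - Polynomial.X : Polynomial R).roots.toFinset := by
    intro x _
    rw [Multiset.mem_toFinset, Polynomial.mem_roots hf0, Polynomial.IsRoot, Polynomial.eval_sub,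
      Polynomial.eval_pow, Polynomial.eval_X]
    exact h x
  rw [Nat.card_eq_fintype_card, ← Finset.card_univ]
  calc (Finset.univ : Finset R).card ≤
      (Polynomial.X ^ q - Polynomial.X : Polynomial R).roots.toFinset.card :=
        Finset.card_le_card hsub
    _ ≤ Multiset.card (Polynomial.X ^ q - Polynomial.X : Polynomial R).roots :=
        Multiset.toFinset_card_le _
    _ ≤ _ := Polynomial.card_roots' _
    _ = q := hdeg

/-- the residue map is bijective -/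
private theorem fdc_sur (A R : Type) [CommRing A] [CommRing R] (f : A →+* R) (I : Ideal A)
    (J : Ideal R) (hJ : J.IsPrime) (hIJ : J.comap f = I) (hI : I ≠ ⊤) (hA : Finite (A ⧸ I))
    (hR : Finite (R ⧸ J)) (h : ∀ a : R, a ^ Nat.card (A ⧸ I) - a ∈ J) :
    Nat.card (R ⧸ J) = Nat.card (A ⧸ I) ∧ ∀ a : R, ∃ c : A, a - f c ∈ J := by
  have hq1 : 1 < Nat.card (A ⧸ I) := by
    have : Nontrivial (A ⧸ I) := Ideal.Quotient.nontrivial_iff.2 hI
    exact Finite.one_lt_card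
  have hφ : Function.Injective (Ideal.quotientMap J f hIJ.ge) :=
    Ideal.quotientMap_injective' hIJ.le
  have hdom : IsDomain (R ⧸ J) := Ideal.Quotient.isDomain J
  have hroot : ∀ x : R ⧸ J, x ^ Nat.card (A ⧸ I) - x = 0 := by
    intro x
    obtain ⟨a, rfl⟩ := Ideal.Quotient.mk_surjective x
    rw [← map_pow, ← map_sub]
    exact Ideal.Quotient.eq_zero_iff_mem.2 (h a)
  have hcard := fdc_card (R ⧸ J) _ hq1 hroot
  have hcard2 : Nat.card (A ⧸ I) ≤ Nat.card (R ⧸ J) := Nat.card_le_card_of_injective _ hφ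
  have heq : Nat.card (A ⧸ I) = Nat.card (R ⧸ J) := le_antisymm hcard2 hcard
  have hsur := ((Nat.bijective_iff_injective_and_card _).2 ⟨hφ, heq⟩).2
  refine ⟨heq.symm, fun a => ?_⟩
  obtain ⟨y, hy⟩ := hsur (Ideal.Quotient.mk J a)
  obtain ⟨c, rfl⟩ := Ideal.Quotient.mk_surjective y
  refine ⟨c, ?_⟩
  rw [← Ideal.Quotient.eq_zero_iff_mem, map_sub, ← hy, Ideal.quotientMap_mk, sub_self]

/-- a prime with `a ^ q - a ∈ j` for all `a` has degree one over `v`, `q = nm v` -/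
private theorem fdc_deg (M : Type) [Field M] [NumberField M] [Algebra K M] (v : Pl K)
    (j : Ideal (𝓞 M)) (hj : j.IsPrime) (hj0 : j ≠ ⊥)
    (hv : j.comap (algebraMap (𝓞 K) (𝓞 M)) = v.asIdeal)
    (h : ∀ a : 𝓞 M, a ^ nm v - a ∈ j) :
    Ideal.absNorm j = nm v ∧ ∀ a : 𝓞 M, ∃ c : 𝓞 K, a - algebraMap (𝓞 K) (𝓞 M) c ∈ j := by
  have hfin : Finite (𝓞 M ⧸ j) := Ideal.finiteQuotientOfFreeOfNeBot j hj0
  have hfinK : Finite (𝓞 K ⧸ v.asIdeal) := Ideal.finiteQuotientOfFreeOfNeBot _ v.ne_bot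
  have hq : nm v = Nat.card (𝓞 K ⧸ v.asIdeal) := by
    rw [nm, Ideal.absNorm_apply, Submodule.cardQuot_apply]
  have hcj : Ideal.absNorm j = Nat.card (𝓞 M ⧸ j) := by
    rw [Ideal.absNorm_apply, Submodule.cardQuot_apply]
  rw [hq] at h
  obtain ⟨h1, h2⟩ := fdc_sur (𝓞 K) (𝓞 M) (algebraMap (𝓞 K) (𝓞 M)) v.asIdeal j hj hv
    v.isPrime.ne_top hfinK hfin h
  exact ⟨by rw [hcj, hq, h1], h2⟩

theorem mf_j [Finite G] {D : RD0 K p ζ} (L : LDs D Ω) (Fr : FR L) (H : Subgroup G)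
    (ρ : Gal(Ω/K) →* G) (hρ : H38.ML.FT ρ) (hs : Function.Surjective ρ) (T : Finset (Pl K))
    (hT : ∀ v, v ∉ D.S0 → v ∉ T → ∀ τ ∈ inr L v, ρ τ = 1) [NumberField (MF ρ H)] :
    ∃ j : Pl K → G ⧸ H → Ideal (𝓞 (MF ρ H)),
      (∀ v, v ∉ D.S0 → v ∉ T → ∀ x : G ⧸ H, ρ (Fr.F v) • x = x →
        (j v x).IsPrime ∧ j v x ≠ ⊥ ∧ Ideal.absNorm (j v x) = nm v) ∧
      ∀ v, v ∉ D.S0 → v ∉ T → ∀ x : G ⧸ H, ρ (Fr.F v) • x = x →
        ∀ v', v' ∉ D.S0 → v' ∉ T → ∀ y : G ⧸ H, ρ (Fr.F v') • y = y →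
          j v x = j v' y → v = v' ∧ x = y := by
  have hfd : FiniteDimensional K (MF ρ H) := mf_fin ρ hρ H
  have hchoice : ∀ x : G ⧸ H, ∃ g : Gal(Ω/K), (QuotientGroup.mk (ρ g) : G ⧸ H) = x := by
    intro x
    obtain ⟨y, rfl⟩ := QuotientGroup.mk_surjective x
    obtain ⟨g, rfl⟩ := hs y
    exact ⟨g, rfl⟩
  choose g hg using hchoice
  let jj : Pl K → G ⧸ H → Ideal (𝓞 (MF ρ H)) := fun v x =>
    if hv : v ∉ D.S0 then (L.ld v hv).P.comap (fdcf (MF ρ H) (g x)) else ⊥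
  have hjj : ∀ v (hv : v ∉ D.S0) x, jj v x = (L.ld v hv).P.comap (fdcf (MF ρ H) (g x)) := by
    intro v hv x
    simp only [jj]
    rw [dif_pos hv]
  have hpr : ∀ v, v ∉ D.S0 → ∀ x, (jj v x).IsPrime := by
    intro v hv x
    rw [hjj v hv]
    have := (L.ld v hv).prime
    exact Ideal.IsPrime.comap _
  have hun : ∀ v, v ∉ D.S0 → ∀ x,
      (jj v x).comap (algebraMap (𝓞 K) (𝓞 (MF ρ H))) = v.asIdeal := by
    intro v hv x
    rw [hjj v hv]
    exact fdcf_under _ _ v _ (L.ld v hv).under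
  have hne : ∀ v, v ∉ D.S0 → ∀ x, jj v x ≠ ⊥ := by
    intro v hv x h0
    have h1 := hun v hv x
    rw [h0, ← RingHom.ker_eq_comap_bot, (RingHom.injective_iff_ker_eq_bot _).1
      (FaithfulSMul.algebraMap_injective (𝓞 K) (𝓞 (MF ρ H)))] at h1
    exact v.ne_bot h1.symm
  have hpow : ∀ v, v ∉ D.S0 → ∀ x : G ⧸ H, ρ (Fr.F v) • x = x → ∀ a : 𝓞 (MF ρ H),
      a ^ nm v - a ∈ jj v x := by
    intro v hv x hx a
    rw [hjj v hv, Ideal.mem_comap, map_sub, map_pow]
    have h1 : (g x)⁻¹ * Fr.F v * g x ∈ (MF ρ H).fixingSubgroup := by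
      rw [mf_fix ρ hρ H, Subgroup.mem_comap, map_mul, map_mul, map_inv]
      have h2 : (QuotientGroup.mk (ρ (Fr.F v) * ρ (g x)) : G ⧸ H) =
          QuotientGroup.mk (ρ (g x)) := by
        calc (QuotientGroup.mk (ρ (Fr.F v) * ρ (g x)) : G ⧸ H) =
            ρ (Fr.F v) • (QuotientGroup.mk (ρ (g x)) : G ⧸ H) := rfl
          _ = x := by rw [hg, hx]
          _ = QuotientGroup.mk (ρ (g x)) := (hg x).symm
      have h3 := QuotientGroup.eq.1 h2.symm
      rwa [← mul_assoc] at h3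
    have h4 : Fr.F v • fdcf (MF ρ H) (g x) a = fdcf (MF ρ H) (g x) a := by
      apply NumberField.RingOfIntegers.ext
      have h5 := (IntermediateField.mem_fixingSubgroup_iff _ _).1 h1 ((a : MF ρ H) : Ω)
        (a : MF ρ H).2
      change Fr.F v (g x ((a : MF ρ H) : Ω)) = g x ((a : MF ρ H) : Ω)
      rw [AlgEquiv.mul_apply, AlgEquiv.mul_apply] at h5
      have h6 := congrArg (g x) h5
      rw [← AlgEquiv.mul_apply, mul_inv_cancel, AlgEquiv.one_apply] at h6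
      exact h6
    have h7 := Fr.fr v hv (fdcf (MF ρ H) (g x) a)
    rw [h4] at h7
    have h8 := (L.ld v hv).P.neg_mem h7
    rwa [neg_sub] at h8
  refine ⟨jj, fun v hv _ x hx => ⟨hpr v hv x, hne v hv x, ?_⟩, ?_⟩
  · exact (fdc_deg _ v (jj v x) (hpr v hv x) (hne v hv x) (hun v hv x) (hpow v hv x hx)).1
  · intro v hv hvT x hx v' hv' _ y hy hxy
    have hvv : v = v' := by
      apply HeightOneSpectrum.ext
      rw [← hun v hv x, ← hun v' hv' y, hxy]
    subst hvv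
    refine ⟨rfl, ?_⟩
    have hres := (fdc_deg _ v (jj v x) (hpr v hv x) (hne v hv x) (hun v hv x)
      (hpow v hv x hx)).2
    obtain ⟨τ, hτ, hτ2⟩ := H38.ML.exists_inertia (MF ρ H) (L.ld v hv).P (L.ld v hv).prime
      ((g x : Ω →ₐ[K] Ω).comp (MF ρ H).val) ((g y : Ω →ₐ[K] Ω).comp (MF ρ H).val)
      (fun a ha => by
        obtain ⟨c, hc⟩ := hres ⟨a, ha⟩
        have h1 := hc
        rw [hjj v hv, Ideal.mem_comap, map_sub, fdcf_alg] at h1
        have h2 := hc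
        rw [hxy, hjj v hv, Ideal.mem_comap, map_sub, fdcf_alg] at h2
        refine ⟨_, (L.ld v hv).P.sub_mem h1 h2, ?_⟩
        rw [sub_sub_sub_cancel_right]
        rfl)
    have h3 : (g y)⁻¹ * τ * g x ∈ (MF ρ H).fixingSubgroup := by
      rw [IntermediateField.mem_fixingSubgroup_iff]
      intro z hz
      have h4 : τ (g x z) = g y z := congrArg (fun f : MF ρ H →ₐ[K] Ω => f ⟨z, hz⟩) hτ2
      rw [AlgEquiv.mul_apply, AlgEquiv.mul_apply, h4, ← AlgEquiv.mul_apply, inv_mul_cancel,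
        AlgEquiv.one_apply]
    rw [mf_fix ρ hρ H, Subgroup.mem_comap, map_mul, map_mul, map_inv, hT v hv hvT τ (by
      rw [inr, dif_pos hv]
      exact hτ), mul_one] at h3
    rw [← hg x, ← hg y]
    exact (QuotientGroup.eq.2 h3).symm

end H77.PT
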