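import Pool.Agent.H77.PT.Idc
import Pool.Agent.H77.PT.Fdb
import Pool.Agent.H77.PT.Fdc

/-!
# [H77 PT FLI] the sum of the numbers of fixed points over squarefree ideals, 130-200 lines. File Pool/Agent/H77/PT/Fli.lean

PROOF. `M = MF ρ H`, `n₀ = H.index * [K : ℚ]` (positive); `idc n₀` gives `C₁, A₁`, `mf_dd` gives `C₂`; `mf_tc`: `TC M n₀`. (`NumberField M` from `mf_fin`: `FiniteDimensional K M`, `K` a number field: see how it is done in Pool/Agent/H51/CUB or H38/ML, e.g. `NumberField.of_module_finite K M`.) `1 ≤ dd M ≤ C₂ * nr T ^ n'`, `n' = H.index`, `nr T ≥ 1`.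
`C₁ * dd M ^ A₁ ≤ C₁ * C₂ ^ A₁ * nr T ^ (n' * A₁) ≤ X` for the right `C, B` (`B = n' * A₁ + n₀` as a natural number cast to `ℕ`), and `(1 + log (dd M)) ^ n₀ ≤ ((1 + log C₂) * (1 + n')) ^ n₀ * (1 + log (nr T)) ^ n₀`, and `(1 + log (nr T)) ^ n₀ ≤ (1 + log (nr T)) ^ B`.
Let `j` be as in `mf_j`. For `n` in the index set (primes of `n` outside `S0` (GF) and `T`): `∏ v ∈ n, fx H (ρ (F v)) = #(n.pi fun v => Fix v)`, `Fix v = {x | ρ (F v) • x = x}` as a finset of `G ⧸ H` (finite), so the sum is the number of the pairs `(n, (x v)_{v ∈ n})` (`Finset.card_sigma`, `Finset.card_pi`). Map the pair to the ideal `∏ v ∈ n, j v (x v)` of `𝓞 M`; its norm is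
`∏ nm v = nr n ∈ (X, 2 X]` (`absNorm` is multiplicative; `n ∈ GF D (2 X)` gives `nr n ≤ 2 X`). The map is injective: a prime `j w y` (`w ∉ S0 ∪ T`, `y` fixed) divides `∏ j v (x v)` iff `j w y = j v (x v)` for some `v ∈ n` (`Prime.dvd_finset_prod_iff`; divisibility of nonzero primes of a Dedekind domain implies equality), iff `w ∈ n` and `y = x w`. So the ideal determines `n` and the `x v`.
So the number is the cardinality of a finset of ideals (the image) to which `idc` applies.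
-/

set_option autoImplicit false

open scoped NumberField
open IsDedekindDomain
open scoped Classical

noncomputable section

namespace H77.PT

open H63.MA H38.BB H38.BG H57.PC H51.CUB H77.PC3 H36.QA

variable {K : Type} [Field K] [NumberField K] {p : ℕ} {ζ : K} {Ω : Type}
  [Field Ω] [Algebra K Ω] [IsAlgClosure K Ω] {G : Type} [Group G]

/-- the factorisation determines the index set and the choice -/
private theorem fli_key {V X R : Type} [CommRing R] [IsDedekindDomain R] (j : V → X → Ideal R)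
    (Al : V → Prop) (Fx : V → Finset X)
    (hj : ∀ v, Al v → ∀ x ∈ Fx v, (j v x).IsPrime ∧ j v x ≠ ⊥)
    (hinj : ∀ v, Al v → ∀ x ∈ Fx v, ∀ v', Al v' → ∀ y ∈ Fx v', j v x = j v' y → v = v' ∧ x = y)
    (n n' : Finset V) (hn : ∀ v ∈ n, Al v) (hn' : ∀ v ∈ n', Al v)
    (f : ∀ v ∈ n, X) (f' : ∀ v ∈ n', X) (hf : ∀ v (hv : v ∈ n), f v hv ∈ Fx v)
    (hf' : ∀ v (hv : v ∈ n'), f' v hv ∈ Fx v)
    (h : ∏ v ∈ n.attach, j v.1 (f v.1 v.2) = ∏ v ∈ n'.attach, j v.1 (f' v.1 v.2))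
    (v : V) (hv : v ∈ n) : ∃ hv' : v ∈ n', f v hv = f' v hv' := by
  have h1 : Prime (j v (f v hv)) :=
    Ideal.prime_of_isPrime (hj v (hn v hv) _ (hf v hv)).2 (hj v (hn v hv) _ (hf v hv)).1
  have h2 : j v (f v hv) ∣ ∏ w ∈ n'.attach, j w.1 (f' w.1 w.2) := by
    rw [← h]
    exact Finset.dvd_prod_of_mem (fun w : {w // w ∈ n} => j w.1 (f w.1 w.2))
      (Finset.mem_attach n ⟨v, hv⟩)
  obtain ⟨w, -, hw⟩ := h1.exists_mem_finset_dvd h2
  have h3 : Prime (j w.1 (f' w.1 w.2)) :=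
    Ideal.prime_of_isPrime (hj w.1 (hn' w.1 w.2) _ (hf' w.1 w.2)).2
      (hj w.1 (hn' w.1 w.2) _ (hf' w.1 w.2)).1
  have h4 := associated_iff_eq.1 ((h1.dvd_prime_iff_associated h3).1 hw)
  obtain ⟨h5, h6⟩ := hinj v (hn v hv) _ (hf v hv) w.1 (hn' w.1 w.2) _ (hf' w.1 w.2) h4
  obtain ⟨w, hw'⟩ := w
  subst h5
  exact ⟨hw', h6⟩

/-- the sum over index sets is the number of products -/
private theorem fli_cnt {V X R : Type} [DecidableEq V] [DecidableEq X] [CommRing R]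
    [IsDedekindDomain R]
    (j : V → X → Ideal R) (Al : V → Prop) (Fx : V → Finset X)
    (hj : ∀ v, Al v → ∀ x ∈ Fx v, (j v x).IsPrime ∧ j v x ≠ ⊥)
    (hinj : ∀ v, Al v → ∀ x ∈ Fx v, ∀ v', Al v' → ∀ y ∈ Fx v', j v x = j v' y → v = v' ∧ x = y)
    (S : Finset (Finset V)) (hS : ∀ n ∈ S, ∀ v ∈ n, Al v) :
    ∃ T : Finset (Ideal R), T.card = ∑ n ∈ S, ∏ v ∈ n, (Fx v).card ∧
      ∀ I ∈ T, ∃ n ∈ S, ∃ f : ∀ v ∈ n, X, (∀ v (hv : v ∈ n), f v hv ∈ Fx v) ∧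
        I = ∏ v ∈ n.attach, j v.1 (f v.1 v.2) := by
  classical
  refine ⟨S.biUnion fun n => (n.pi Fx).image fun f => ∏ v ∈ n.attach, j v.1 (f v.1 v.2), ?_, ?_⟩
  · rw [Finset.card_biUnion]
    · refine Finset.sum_congr rfl fun n hn => ?_
      rw [Finset.card_image_of_injOn, Finset.card_pi]
      intro f hf f' hf' h
      rw [Finset.mem_coe, Finset.mem_pi] at hf hf'
      funext v hv
      obtain ⟨hv', h1⟩ := fli_key j Al Fx hj hinj n n (hS n hn) (hS n hn) f f' hf hf' h v hv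
      exact h1
    · intro n hn n' hn' hne
      change Disjoint _ _
      rw [Finset.disjoint_left]
      intro I hI hI'
      rw [Finset.mem_image] at hI hI'
      obtain ⟨f, hf, rfl⟩ := hI
      obtain ⟨f', hf', h⟩ := hI'
      rw [Finset.mem_pi] at hf hf'
      apply hne
      apply Finset.Subset.antisymm
      · intro v hv
        obtain ⟨h1, -⟩ := fli_key j Al Fx hj hinj n n' (hS n hn) (hS n' hn') f f' hf hf' h.symm
          v hv
        exact h1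
      · intro v hv
        obtain ⟨h1, -⟩ := fli_key j Al Fx hj hinj n' n (hS n' hn') (hS n hn) f' f hf' hf h v hv
        exact h1
  · intro I hI
    rw [Finset.mem_biUnion] at hI
    obtain ⟨n, hn, hI⟩ := hI
    rw [Finset.mem_image] at hI
    obtain ⟨f, hf, rfl⟩ := hI
    rw [Finset.mem_pi] at hf
    exact ⟨n, hn, f, hf, rfl⟩

theorem fli [Finite G] (hp : p.Prime) (hp2 : MOne p K) (hζ : IsPrimitiveRoot ζ p)
    {D : RD0 K p ζ} (L : LDs D Ω) (Fr : FR L) (H : Subgroup G) :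
    ∃ C : ℝ, 1 ≤ C ∧ ∃ B : ℕ, ∀ ρ : Gal(Ω/K) →* G, H38.ML.FT ρ → Function.Surjective ρ →
      ∀ T : Finset (Pl K), (∀ v, v ∉ D.S0 → v ∉ T → ∀ τ ∈ inr L v, ρ τ = 1) →
      ∀ X : ℝ, C * nr T ^ B ≤ X →
        ∑ n ∈ (GF D (2 * X)).filter (fun n => X < nr n ∧ Disjoint n T),
          ∏ v ∈ n, fx H (ρ (Fr.F v)) ≤ C * (1 + Real.log (nr T)) ^ B * X := by
  have hX : Fintype (G ⧸ H) := Fintype.ofFinite _
  have hidx : H.index ≠ 0 := Subgroup.FiniteIndex.index_ne_zero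
  obtain ⟨k, hk⟩ : ∃ k : ℕ, k = H.index := ⟨_, rfl⟩
  obtain ⟨n₀, hn₀⟩ : ∃ n₀ : ℕ, n₀ = k * Module.finrank ℚ K := ⟨_, rfl⟩
  have hk0 : 0 < k := by
    rw [hk]
    exact Nat.pos_of_ne_zero hidx
  have hn₀pos : 0 < n₀ := by
    rw [hn₀]
    exact Nat.mul_pos hk0 Module.finrank_pos
  obtain ⟨C₁, hC₁, A₁, h1⟩ := idc n₀ hn₀pos
  obtain ⟨C₂, hC₂, h2⟩ := mf_dd hp D L H
  have hl2 : 0 ≤ Real.log C₂ := Real.log_nonneg hC₂
  obtain ⟨E, hE⟩ : ∃ E : ℝ, E = ((1 + Real.log C₂) * (1 + (k : ℝ))) ^ n₀ := ⟨_, rfl⟩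
  have hE0 : 0 ≤ E := by
    rw [hE]
    positivity
  have hCA : 1 ≤ C₁ * C₂ ^ A₁ := one_le_mul_of_one_le_of_one_le hC₁ (one_le_pow₀ hC₂)
  refine ⟨C₁ * C₂ ^ A₁ + C₁ * E, ?_, k * A₁ + n₀, ?_⟩
  · have : 0 ≤ C₁ * E := by positivity
    linarith
  intro ρ hρ hs T hT X hX1
  have hfd : FiniteDimensional K (MF ρ H) := mf_fin ρ hρ H
  have hnf : NumberField (MF ρ H) := NumberField.of_module_finite K (MF ρ H)
  have htc := mf_tc hp hp2 hζ ρ hρ hs H
  rw [← hk, ← hn₀] at htc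
  have hdd := h2 ρ hρ hs T hT
  rw [← hk] at hdd
  have hd1 := one_le_dd (MF ρ H)
  obtain ⟨d, hd⟩ : ∃ d : ℝ, d = dd (MF ρ H) := ⟨_, rfl⟩
  have hcard := h1 (MF ρ H) htc X
  rw [← hd] at hdd hd1 hcard
  obtain ⟨t, ht⟩ : ∃ t : ℝ, t = nr T := ⟨_, rfl⟩
  have ht1 : 1 ≤ t := by
    rw [ht]
    exact one_le_nr T
  rw [← ht] at hdd hX1 ⊢
  have hlt : 0 ≤ Real.log t := Real.log_nonneg ht1
  have hC0 : 0 ≤ C₁ * E := by positivity
  have hXpos : 0 < X := by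
    refine lt_of_lt_of_le ?_ hX1
    have : 0 < t ^ (k * A₁ + n₀) := by positivity
    have h3 : 0 < C₁ * C₂ ^ A₁ + C₁ * E := by linarith
    positivity
  have hcX : C₁ * d ^ A₁ ≤ X := by
    refine le_trans ?_ hX1
    have e1 : d ^ A₁ ≤ (C₂ * t ^ k) ^ A₁ := pow_le_pow_left₀ (by linarith) hdd A₁
    have e2 : (C₂ * t ^ k) ^ A₁ = C₂ ^ A₁ * t ^ (k * A₁) := by
      rw [mul_pow, ← pow_mul]
    have e3 : t ^ (k * A₁) ≤ t ^ (k * A₁ + n₀) := pow_le_pow_right₀ ht1 (by omega)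
    have e4 : 0 ≤ t ^ (k * A₁ + n₀) := by positivity
    calc C₁ * d ^ A₁ ≤ C₁ * (C₂ ^ A₁ * t ^ (k * A₁)) := by
          rw [← e2]
          exact mul_le_mul_of_nonneg_left e1 (by linarith)
      _ = C₁ * C₂ ^ A₁ * t ^ (k * A₁) := by ring
      _ ≤ C₁ * C₂ ^ A₁ * t ^ (k * A₁ + n₀) := mul_le_mul_of_nonneg_left e3 (by linarith)
      _ ≤ (C₁ * C₂ ^ A₁ + C₁ * E) * t ^ (k * A₁ + n₀) := by
          apply mul_le_mul_of_nonneg_right _ e4
          linarith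
  have hcard2 := hcard hcX
  obtain ⟨jj, hj1, hj2⟩ := mf_j L Fr H ρ hρ hs T hT
  obtain ⟨Fx, hFx⟩ : ∃ Fx : Pl K → Finset (G ⧸ H),
      Fx = fun v => Finset.univ.filter fun x => ρ (Fr.F v) • x = x := ⟨_, rfl⟩
  have hmem : ∀ v x, x ∈ Fx v ↔ ρ (Fr.F v) • x = x := by
    intro v x
    rw [hFx, Finset.mem_filter]
    exact ⟨fun h => h.2, fun h => ⟨Finset.mem_univ _, h⟩⟩
  have hfx : ∀ v, fx H (ρ (Fr.F v)) = ((Fx v).card : ℝ) := by
    intro v
    rw [fx, hFx, Nat.card_eq_fintype_card, Fintype.card_subtype]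
  obtain ⟨S, hS⟩ : ∃ S : Finset (Finset (Pl K)),
      S = (GF D (2 * X)).filter (fun n => X < nr n ∧ Disjoint n T) := ⟨_, rfl⟩
  have hSm : ∀ n ∈ S, nr n ≤ 2 * X ∧ X < nr n ∧ ∀ v ∈ n, v ∉ D.S0 ∧ v ∉ T := by
    intro n hn
    rw [hS, Finset.mem_filter, GF, Finset.mem_filter, mem_AF] at hn
    obtain ⟨⟨a1, a2⟩, a3, a4⟩ := hn
    exact ⟨a1, a3, fun v hv => ⟨(a2 v hv).1, Finset.disjoint_left.1 a4 hv⟩⟩
  obtain ⟨TT, hT1, hT2⟩ := fli_cnt jj (fun v => v ∉ D.S0 ∧ v ∉ T) Fx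
    (fun v hv x hx => by
      obtain ⟨a1, a2, -⟩ := hj1 v hv.1 hv.2 x ((hmem v x).1 hx)
      exact ⟨a1, a2⟩)
    (fun v hv x hx v' hv' y hy h => hj2 v hv.1 hv.2 x ((hmem v x).1 hx) v' hv'.1 hv'.2 y
      ((hmem v' y).1 hy) h) S (fun n hn v hv => (hSm n hn).2.2 v hv)
  have hfin := hcard2 TT (fun I hI => by
    obtain ⟨n, hn, f, hf, rfl⟩ := hT2 I hI
    have e1 : ((Ideal.absNorm (∏ v ∈ n.attach, jj v.1 (f v.1 v.2)) : ℕ) : ℝ) = nr n := by
      rw [map_prod]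
      push_cast
      rw [nr, ← Finset.prod_attach n]
      refine Finset.prod_congr rfl fun v _ => ?_
      have hv := (hSm n hn).2.2 v.1 v.2
      rw [(hj1 v.1 hv.1 hv.2 _ ((hmem _ _).1 (hf v.1 v.2))).2.2]
    rw [e1]
    exact ⟨(hSm n hn).2.1, (hSm n hn).1⟩)
  have e0 : ∑ n ∈ (GF D (2 * X)).filter (fun n => X < nr n ∧ Disjoint n T),
      ∏ v ∈ n, fx H (ρ (Fr.F v)) = (TT.card : ℝ) := by
    rw [← hS, hT1]
    push_cast
    refine Finset.sum_congr rfl fun n _ => Finset.prod_congr rfl fun v _ => hfx v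
  rw [e0]
  refine hfin.trans ?_
  have hld : Real.log d ≤ Real.log C₂ + k * Real.log t := by
    have e1 := Real.log_le_log (by linarith) hdd
    rwa [Real.log_mul (by linarith) (by positivity), Real.log_pow] at e1
  have hld0 : 0 ≤ Real.log d := Real.log_nonneg hd1
  have e2 : 1 + Real.log d ≤ (1 + Real.log C₂) * (1 + (k : ℝ)) * (1 + Real.log t) := by
    have k1 : 0 ≤ Real.log C₂ * (k : ℝ) := by positivity
    have k2 : 0 ≤ Real.log C₂ * Real.log t := by positivity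
    have k3 : 0 ≤ Real.log C₂ * (k : ℝ) * Real.log t := by positivity
    have k4 : (0 : ℝ) ≤ k := Nat.cast_nonneg k
    nlinarith
  have e3 : (1 + Real.log d) ^ n₀ ≤ E * (1 + Real.log t) ^ n₀ := by
    calc (1 + Real.log d) ^ n₀ ≤
        ((1 + Real.log C₂) * (1 + (k : ℝ)) * (1 + Real.log t)) ^ n₀ :=
          pow_le_pow_left₀ (by linarith) e2 n₀
      _ = E * (1 + Real.log t) ^ n₀ := by rw [mul_pow, hE]
  have e4 : (1 + Real.log t) ^ n₀ ≤ (1 + Real.log t) ^ (k * A₁ + n₀) :=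
    pow_le_pow_right₀ (by linarith) (by omega)
  have e5 : 0 ≤ (1 + Real.log t) ^ (k * A₁ + n₀) := by positivity
  apply mul_le_mul_of_nonneg_right _ hXpos.le
  calc C₁ * (1 + Real.log d) ^ n₀ ≤ C₁ * (E * (1 + Real.log t) ^ n₀) :=
        mul_le_mul_of_nonneg_left e3 (by linarith)
    _ ≤ C₁ * (E * (1 + Real.log t) ^ (k * A₁ + n₀)) := by
        apply mul_le_mul_of_nonneg_left _ (by linarith)
        exact mul_le_mul_of_nonneg_left e4 hE0
    _ = C₁ * E * (1 + Real.log t) ^ (k * A₁ + n₀) := by ring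
    _ ≤ (C₁ * C₂ ^ A₁ + C₁ * E) * (1 + Real.log t) ^ (k * A₁ + n₀) := by
        apply mul_le_mul_of_nonneg_right _ e5
        linarith

end H77.PT
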