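import Pool.Agent.H77.PT.Inr
import Pool.Agent.H77.PT.Apf
import Pool.Agent.H77.PT.Ap2
import Pool.Agent.H77.PT.Fli

/-!
# [H77 PT INN] the sum over the large parts for given small part, 180-260 lines. File Pool/Agent/H77/PT/Inn.lean

Notation: `x = log log Y`, `z₂ = thr Y (k + 1) = exp (x ^ (5 k + 8))`, `Π = ∏ i, nr (n i) ≥ 1`, `X = 2 * Y / Π ≤ 2 * Y`, `H i = (C2 Dg I i ⊔ Z.range).map (mk' Z.range)`, `ρ₃ = (mk' Z.range).comp r`, `T = E ∪ ⋃_{i ∉ I} n i`, `Bd = E ∪ ⋃_i n i`, `G = G2 Dg I` (finite).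
(1) `ap1` (Apf.lean) with `C = C2 Dg I`, `r := fun v => r (Fr.F v)`, `A = 1` (`inr_C2`, `hZ.cen`, `hZ.off`; `exp (x ^ 2) ≤ z₂` for `x ≥ 1`): the sum is at most `C₀ * ∑_g [Lc I Bd z₂ X g] ∏ i, ∏ v ∈ g i, fx (C2 i ⊔ Z.range) (r (F v)) + C₀ * X * (log Y)⁻¹`, and `fx (C2 i ⊔ Z.range) (r (F v)) = fx (H i) (ρ₃ (F v))` (`fx_quot`; `Z.range.Normal`: `inr_norm`, use `haveI`).
 Error: `X * (log Y)⁻¹ = 2 (Y / Π) / log Y`, `1 / log Y ≤ 2 / (1 + log Y) ≤ 2 * (1 + log Y) ^ (N - 1) / (1 + log Y)` (`log Y ≥ 1`).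
(2) `I = ∅`: then `Lc` forces `g = ∅` for all `i` (one family), the sum of (1) is at most `1`, and `1 ≤ (Y / Π) / (1 + log Y)` because all primes of the `n i` are at most `thr Y k`: `Π ≤ thr Y k ^ (∑ #(n i)) ≤ exp (A * x ^ (5 k + 4))` and `exp (A x ^ (5 k + 4)) * (1 + log Y) ≤ Y` for large `Y` (`log Y = exp x`; `A x ^ (5 k + 4) + x + 1 ≤ exp x` for large `x`).
 (In fact the original sum is also `≤ 1` then and `ap1` is not needed.)
(3) `I` nonempty, so `1 ≤ #I ≤ N - 1` and `N ≥ 2`. For every `i ∈ I` `fli` (Fli.lean) with `H i` and `ρ₃`: `inr_quot` gives finite type, surjectivity, and triviality on `inr L v` for `v ∉ S0`, `v ∉ T`. Let `C₁` be the sum over `i` of the constants `C`, `B` the sum of the `B` (`nr T ≥ 1`, so all inequalities hold with `C₁`, `B`).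
 `ap2` (Ap2.lean) with `a i v = fx (H i) (ρ₃ (F v))`, `W = C₁ * nr T ^ B`, `M = C₁ * (1 + log (nr T)) ^ B`: the sum is at most `2 * 2 ^ N * M ^ #I * X * (1 + log (2 Y)) ^ (#I - 1)`.
 `log (nr T) ≤ log (nr E) + (∑ #(n i)) * log (thr Y k) ≤ x ^ 3 + A x * x ^ (5 k + 3) ≤ (1 + A) * x ^ (5 k + 4)` (`x ≥ 1`; primes of `n i`, `i ∉ I`, are `≤ thr Y k`; `nr` of a union is at most the product of the `nr`).
 Condition `2 * W ≤ z₂`: `log 2 + log C₁ + B (1 + A) x ^ (5 k + 4) ≤ x ^ (5 k + 8)` if `x ^ 4 ≥ log 2 + log C₁ + B (1 + A)`. `M ≤ C₁ * (2 + A) ^ B * (1 + x) ^ ((5 k + 4) * B)`, `M ^ #I ≤ (C₁ * (2 + A) ^ B) ^ N * (1 + x) ^ ((5 k + 4) * B * N)` (bases `≥ 1`).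
 `(1 + log (2 Y)) ^ (#I - 1) ≤ (2 (1 + log Y)) ^ (N - 2) ≤ 2 ^ N * (1 + log Y) ^ (N - 1) / (1 + log Y)` (`#I - 1 ≤ N - 2`, `N - 1 = (N - 2) + 1`).
-/

set_option autoImplicit false

open scoped NumberField
open IsDedekindDomain
open scoped Classical

noncomputable section

namespace H77.PT

open H63.MA H38.BB H38.BG H57.PC H51.CUB H77.PC3

variable {K : Type} [Field K] [NumberField K] {p : ℕ} {ζ : K} {Ω : Type}
  [Field Ω] [Algebra K Ω] [IsAlgClosure K Ω] {m l w N : ℕ} {P R : Type} [Group P] [Group R]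

omit [IsAlgClosure K Ω] [Algebra K Ω] [Field Ω] in
private theorem inn_union (n n' : Finset (Pl K)) : nr (n ∪ n') ≤ nr n * nr n' := by
  rw [← Finset.union_sdiff_self_eq_union, nr_union Finset.disjoint_sdiff]
  have h1 := nr_mono (Finset.sdiff_subset : n' \ n ⊆ n')
  have h2 := one_le_nr n
  exact mul_le_mul_of_nonneg_left h1 (by linarith)

private theorem inn_bU {ι : Type} (s : Finset ι) (n : ι → Finset (Pl K)) :
    nr (s.biUnion n) ≤ ∏ i ∈ s, nr (n i) := by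
  induction s using Finset.induction_on with
  | empty => simp [nr]
  | insert a s ha ih =>
    rw [Finset.biUnion_insert, Finset.prod_insert ha]
    refine (inn_union _ _).trans (mul_le_mul_of_nonneg_left ih ?_)
    have := one_le_nr (n a)
    linarith

private theorem inn_pow {n : Finset (Pl K)} {t : ℝ} (h : ∀ v ∈ n, (nm v : ℝ) ≤ t) :
    nr n ≤ t ^ n.card := by
  unfold nr
  rw [← Finset.prod_const]
  exact Finset.prod_le_prod (fun v _ => Nat.cast_nonneg _) h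

private theorem inn_prod (s : Finset (Fin N)) (n : Fin N → Finset (Pl K)) {t : ℝ} (ht : 1 ≤ t)
    (h : ∀ i ∈ s, ∀ v ∈ n i, (nm v : ℝ) ≤ t) : ∏ i ∈ s, nr (n i) ≤ t ^ (∑ i, (n i).card) := by
  calc ∏ i ∈ s, nr (n i) ≤ ∏ i ∈ s, t ^ (n i).card :=
        Finset.prod_le_prod (fun i _ => by linarith [one_le_nr (n i)]) fun i hi =>
          inn_pow (h i hi)
    _ = t ^ (∑ i ∈ s, (n i).card) := Finset.prod_pow_eq_pow_sum s (fun i => (n i).card) t
    _ ≤ t ^ (∑ i, (n i).card) := pow_le_pow_right₀ ht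
        (Finset.sum_le_sum_of_subset (Finset.subset_univ s))

private theorem inn_op {ι : Type} [Fintype ι] (n : ι → Finset (Pl K)) : 1 ≤ ∏ i, nr (n i) := by
  calc (1 : ℝ) = ∏ _i : ι, (1 : ℝ) := by rw [Finset.prod_const_one]
    _ ≤ ∏ i, nr (n i) := Finset.prod_le_prod (fun _ _ => zero_le_one) fun i _ => one_le_nr _

private theorem inn_thr {Y x A : ℝ} {k s : ℕ} (hx : x = Real.log (Real.log Y)) (hx1 : 1 ≤ x)
    (hs : (s : ℝ) ≤ A * x) : thr Y k ^ s ≤ Real.exp (A * x ^ (5 * k + 4)) := by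
  unfold thr
  rw [← hx, ← Real.exp_nat_mul]
  apply Real.exp_le_exp.2
  calc (s : ℝ) * x ^ (5 * k + 3) ≤ A * x * x ^ (5 * k + 3) :=
        mul_le_mul_of_nonneg_right hs (by positivity)
    _ = A * x ^ (5 * k + 4) := by ring

/-- the case `I = ∅` -/
private theorem inn_small {x A : ℝ} {k : ℕ} (hA : 1 ≤ A)
    (hx : (A + 2) * ((5 * k + 5).factorial : ℝ) + 1 ≤ x) :
    Real.exp (A * x ^ (5 * k + 4)) * (1 + Real.exp x) ≤ Real.exp (Real.exp x) := by
  have hf : (0 : ℝ) < ((5 * k + 5).factorial : ℝ) := by exact_mod_cast Nat.factorial_pos _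
  have hx1 : 1 ≤ x := by
    have : 0 < (A + 2) * ((5 * k + 5).factorial : ℝ) := by positivity
    linarith
  have hx0 : 0 ≤ x := by linarith
  have h1 := Real.pow_div_factorial_le_exp x hx0 (5 * k + 5)
  have h2 : (A + 2) * x ^ (5 * k + 4) ≤ Real.exp x := by
    refine le_trans ?_ h1
    rw [le_div_iff₀ hf]
    have h3 : x ^ (5 * k + 5) = x * x ^ (5 * k + 4) := by ring
    rw [h3]
    have h4 : 0 ≤ x ^ (5 * k + 4) := by positivity
    nlinarith
  have h5 : x ≤ x ^ (5 * k + 4) := le_self_pow₀ hx1 (by omega)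
  have h6 : 1 + Real.exp x ≤ Real.exp (x + 1) := by
    rw [Real.exp_add]
    have e1 := Real.add_one_le_exp (1 : ℝ)
    have e2 : 1 ≤ Real.exp x := Real.one_le_exp hx0
    nlinarith
  calc Real.exp (A * x ^ (5 * k + 4)) * (1 + Real.exp x)
      ≤ Real.exp (A * x ^ (5 * k + 4)) * Real.exp (x + 1) :=
        mul_le_mul_of_nonneg_left h6 (Real.exp_pos _).le
    _ = Real.exp (A * x ^ (5 * k + 4) + (x + 1)) := by rw [← Real.exp_add]
    _ ≤ Real.exp (Real.exp x) := by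
        apply Real.exp_le_exp.2
        nlinarith

/-- the final inequality for `I ≠ ∅` -/
private theorem inn_fin {x Λ Q C₀ D M S L2 : ℝ} {c N B' : ℕ} (hx1 : 1 ≤ x) (hΛ : 1 ≤ Λ)
    (hQ : 0 ≤ Q) (hC₀ : 1 ≤ C₀) (hD : 1 ≤ D) (_hM0 : 0 ≤ M) (hc1 : 1 ≤ c) (hcN : c + 1 ≤ N)
    (hM : M ^ c ≤ D ^ N * (1 + x) ^ B') (hL20 : 0 ≤ L2) (hL2 : 1 + L2 ≤ 2 * (1 + Λ))
    (hS : S ≤ 2 * 2 ^ N * M ^ c * (2 * Q) * (1 + L2) ^ (c - 1)) :
    C₀ * S + C₀ * (2 * Q) * Λ⁻¹ ≤
      (C₀ * (4 * 2 ^ N * 2 ^ N * D ^ N + 4)) * (1 + x) ^ B' * Q * (1 + Λ) ^ (N - 1) / (1 + Λ) := by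
  have h1Λ : (0 : ℝ) < 1 + Λ := by linarith
  obtain ⟨R, hR⟩ : ∃ R : ℝ, R = (1 + Λ) ^ (N - 1) / (1 + Λ) := ⟨_, rfl⟩
  have hR1 : (1 + Λ) ^ (N - 2) = R := by
    rw [hR, show N - 1 = (N - 2) + 1 by omega, pow_succ]
    field_simp
  have hR0 : 1 ≤ R := by
    rw [← hR1]
    exact one_le_pow₀ (by linarith)
  have h1 : (1 + L2) ^ (c - 1) ≤ 2 ^ N * R := by
    calc (1 + L2) ^ (c - 1) ≤ (2 * (1 + Λ)) ^ (c - 1) := pow_le_pow_left₀ (by linarith) hL2 _
      _ = 2 ^ (c - 1) * (1 + Λ) ^ (c - 1) := by rw [mul_pow]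
      _ ≤ 2 ^ N * (1 + Λ) ^ (N - 2) :=
          mul_le_mul (pow_le_pow_right₀ (by norm_num) (by omega))
            (pow_le_pow_right₀ (by linarith) (by omega)) (by positivity) (by positivity)
      _ = 2 ^ N * R := by rw [hR1]
  have hS2 : S ≤ 2 * 2 ^ N * (D ^ N * (1 + x) ^ B') * (2 * Q) * (2 ^ N * R) := by
    refine hS.trans ?_
    gcongr
  have h2 : Λ⁻¹ ≤ 2 * R := by
    have h3 : Λ⁻¹ ≤ 1 := inv_le_one_of_one_le₀ hΛ
    linarith
  have h4 : (1 : ℝ) ≤ (1 + x) ^ B' := one_le_pow₀ (by linarith)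
  have h5 : C₀ * (2 * Q) * Λ⁻¹ ≤ C₀ * (2 * Q) * (2 * ((1 + x) ^ B' * R)) := by
    apply mul_le_mul_of_nonneg_left _ (by positivity)
    refine h2.trans ?_
    have h6 : R ≤ (1 + x) ^ B' * R := le_mul_of_one_le_left (by linarith) h4
    linarith
  have h7 : (C₀ * (4 * 2 ^ N * 2 ^ N * D ^ N + 4)) * (1 + x) ^ B' * Q * (1 + Λ) ^ (N - 1) /
      (1 + Λ) = (C₀ * (4 * 2 ^ N * 2 ^ N * D ^ N + 4)) * (1 + x) ^ B' * Q * R := by
    rw [hR]
    ring
  rw [h7]
  calc C₀ * S + C₀ * (2 * Q) * Λ⁻¹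
      ≤ C₀ * (2 * 2 ^ N * (D ^ N * (1 + x) ^ B') * (2 * Q) * (2 ^ N * R)) +
        C₀ * (2 * Q) * (2 * ((1 + x) ^ B' * R)) := by
        refine add_le_add (mul_le_mul_of_nonneg_left hS2 (by linarith)) h5
    _ = _ := by ring

theorem inn [NeZero p] [Finite P] [Finite R] (hp : p.Prime) (hp2 : MOne p K)
    (hζ : IsPrimitiveRoot ζ p) (D : RD K p ζ) (L : LDs D.toRD0 Ω) (Fr : FR L)
    (Dg : GP p m l w N P R) (I : Finset (Fin N)) (hI : I ≠ Finset.univ)
    (Z : Multiplicative (Fin N → ZMod p) →* G2 Dg I) (hZ : ZD Dg I Z) (k : ℕ) (A : ℝ)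
    (hA : 1 ≤ A) :
    ∃ C Y₀ : ℝ, 1 ≤ C ∧ 3 ≤ Y₀ ∧ ∃ B : ℕ, ∀ Y : ℝ, Y₀ ≤ Y → ∀ (b : Fin m → Kˣ)
      (E : Finset (Pl K)), nr E ≤ thr Y 0 → ∀ (ε : Pl K → Gal(Ω/K) → R)
      (n : Fin N → Finset (Pl K)), (∀ i, ∀ v ∈ n i, v ∉ D.toRD0.S0) →
      (∀ i, i ∉ I → ∀ v ∈ n i, (nm v : ℝ) ≤ thr Y k) →
      ((∑ i, (n i).card : ℕ) : ℝ) ≤ A * Real.log (Real.log Y) →
      ∀ r ∈ PH L Dg I Z b E ε n,
      (∑ g ∈ Fintype.piFinset (fun _ : Fin N => GF D.toRD0 (2 * Y)),
        if Lc I (E ∪ Finset.univ.biUnion n) (thr Y (k + 1)) (2 * Y / ∏ i, nr (n i)) g then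
          ∏ i, ∏ v ∈ g i, fx (C2 Dg I i) (r (Fr.F v) *
            Z (Multiplicative.ofAdd (tv D.toRD0 g v))) else 0) ≤
        C * (1 + Real.log (Real.log Y)) ^ B * (Y / ∏ i, nr (n i)) *
          (1 + Real.log Y) ^ (N - 1) / (1 + Real.log Y) := by
  rcases Finset.eq_empty_or_nonempty I with hIe | hIne
  · -- `I = ∅`
    obtain ⟨x₀, hx₀⟩ : ∃ x₀ : ℝ, x₀ = (A + 2) * ((5 * k + 5).factorial : ℝ) + 1 := ⟨_, rfl⟩
    refine ⟨1, max 3 (Real.exp (Real.exp x₀)), le_rfl, le_max_left _ _, 0, ?_⟩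
    intro Y hY b E hE ε n hn0 hn hcard r hr
    have hY3 : 3 ≤ Y := (le_max_left _ _).trans hY
    have hY2 : Real.exp (Real.exp x₀) ≤ Y := (le_max_right _ _).trans hY
    have hY0 : 0 < Y := by linarith
    have hL2 : Real.exp x₀ ≤ Real.log Y := (Real.le_log_iff_exp_le hY0).2 hY2
    have hL0 : 0 < Real.log Y := (Real.exp_pos _).trans_le hL2
    obtain ⟨x, hx⟩ : ∃ x : ℝ, x = Real.log (Real.log Y) := ⟨_, rfl⟩
    have hxx : x₀ ≤ x := by
      rw [hx]
      exact (Real.le_log_iff_exp_le hL0).2 hL2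
    have hx1 : 1 ≤ x := by
      have : (0 : ℝ) ≤ (A + 2) * ((5 * k + 5).factorial : ℝ) := by positivity
      linarith
    have hLx : Real.log Y = Real.exp x := by
      rw [hx, Real.exp_log hL0]
    rw [← hx] at hcard
    have hP0 : 0 < ∏ i, nr (n i) := zero_lt_one.trans_le (inn_op n)
    have hthr1 : 1 ≤ thr Y k := by
      unfold thr
      rw [← hx]
      exact Real.one_le_exp (by positivity)
    have hP : ∏ i, nr (n i) ≤ Real.exp (A * x ^ (5 * k + 4)) :=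
      (inn_prod Finset.univ n hthr1 (fun i _ => hn i (by rw [hIe]; exact Finset.notMem_empty i))).trans
        (inn_thr hx hx1 hcard)
    have hsm := inn_small (x := x) (A := A) (k := k) hA (by rw [← hx₀]; exact hxx)
    have hYe : Y = Real.exp (Real.exp x) := by
      rw [← hLx, Real.exp_log hY0]
    have h1 : 1 + Real.log Y ≤ Y / ∏ i, nr (n i) := by
      rw [le_div_iff₀ hP0, hLx]
      calc (1 + Real.exp x) * ∏ i, nr (n i)
          ≤ (1 + Real.exp x) * Real.exp (A * x ^ (5 * k + 4)) :=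
            mul_le_mul_of_nonneg_left hP (by positivity)
        _ = Real.exp (A * x ^ (5 * k + 4)) * (1 + Real.exp x) := mul_comm _ _
        _ ≤ Real.exp (Real.exp x) := hsm
        _ = Y := hYe.symm
    have hlhs : (∑ g ∈ Fintype.piFinset (fun _ : Fin N => GF D.toRD0 (2 * Y)),
        if Lc I (E ∪ Finset.univ.biUnion n) (thr Y (k + 1)) (2 * Y / ∏ i, nr (n i)) g then
          ∏ i, ∏ v ∈ g i, fx (C2 Dg I i) (r (Fr.F v) *
            Z (Multiplicative.ofAdd (tv D.toRD0 g v))) else 0) ≤ 1 := by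
      calc _ ≤ ∑ g ∈ Fintype.piFinset (fun _ : Fin N => GF D.toRD0 (2 * Y)),
            if g = (fun _ => ∅) then (1 : ℝ) else 0 := by
            refine Finset.sum_le_sum fun g _ => ?_
            by_cases hg : g = fun _ => ∅
            · rw [if_pos hg]
              split_ifs
              · rw [hg]
                simp
              · exact zero_le_one
            · rw [if_neg hg, if_neg]
              rintro ⟨-, -, -, h4, -⟩
              refine hg (funext fun i => ?_)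
              by_contra h5
              have h6 := (h4 i).2 h5
              rw [hIe] at h6
              exact absurd h6 (Finset.notMem_empty i)
        _ ≤ 1 := by
            rw [Finset.sum_ite_eq']
            split_ifs
            · exact le_rfl
            · exact zero_le_one
    refine hlhs.trans ?_
    rw [one_mul, pow_zero, one_mul, le_div_iff₀ (by linarith), one_mul]
    have h2 : (1 : ℝ) ≤ (1 + Real.log Y) ^ (N - 1) := one_le_pow₀ (by linarith)
    calc 1 + Real.log Y ≤ Y / ∏ i, nr (n i) := h1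
      _ ≤ Y / (∏ i, nr (n i)) * (1 + Real.log Y) ^ (N - 1) :=
          le_mul_of_one_le_right (by positivity) h2
  · -- `I ≠ ∅`
    have hNor := inr_norm Dg I Z hZ
    obtain ⟨C₀, Y₁, hC₀, hY₁, H1⟩ := ap1 hp hζ D I Z hZ.cen hZ.off (C2 Dg I)
      (fun i hi => inr_C2 Dg I Z hZ i hi) 1
    have hfl : ∀ i : Fin N, ∃ C : ℝ, 1 ≤ C ∧ ∃ B : ℕ, ∀ ρ : Gal(Ω/K) →* (G2 Dg I ⧸ Z.range),
        H38.ML.FT ρ → Function.Surjective ρ →
        ∀ T : Finset (Pl K), (∀ v, v ∉ D.toRD0.S0 → v ∉ T → ∀ τ ∈ inr L v, ρ τ = 1) →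
        ∀ X : ℝ, C * nr T ^ B ≤ X →
        ∑ n ∈ (GF D.toRD0 (2 * X)).filter (fun n => X < nr n ∧ Disjoint n T),
          ∏ v ∈ n, fx ((C2 Dg I i ⊔ Z.range).map (QuotientGroup.mk' Z.range)) (ρ (Fr.F v)) ≤
            C * (1 + Real.log (nr T)) ^ B * X := fun i =>
      fli hp hp2 hζ L Fr ((C2 Dg I i ⊔ Z.range).map (QuotientGroup.mk' Z.range))
    choose Ci hCi Bi hfl using hfl
    obtain ⟨C₁, hC₁⟩ : ∃ C₁ : ℝ, C₁ = ∑ i, Ci i := ⟨_, rfl⟩
    obtain ⟨B, hB⟩ : ∃ B : ℕ, B = ∑ i, Bi i := ⟨_, rfl⟩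
    have hCiC : ∀ i, Ci i ≤ C₁ := by
      intro i
      rw [hC₁]
      exact Finset.single_le_sum (fun j _ => by linarith [hCi j]) (Finset.mem_univ i)
    have hBiB : ∀ i, Bi i ≤ B := by
      intro i
      rw [hB]
      exact Finset.single_le_sum (fun j _ => Nat.zero_le _) (Finset.mem_univ i)
    have hC₁1 : 1 ≤ C₁ := by
      obtain ⟨i, _⟩ := hIne
      exact (hCi i).trans (hCiC i)
    have hC₁0 : 0 < C₁ := by linarith
    obtain ⟨x₀, hx₀⟩ : ∃ x₀ : ℝ, x₀ = 1 + Real.log 2 + Real.log C₁ + B * (1 + A) := ⟨_, rfl⟩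
    obtain ⟨Dd, hDd⟩ : ∃ Dd : ℝ, Dd = C₁ * (2 + A) ^ B := ⟨_, rfl⟩
    have hDd1 : 1 ≤ Dd := by
      rw [hDd]
      exact one_le_mul_of_one_le_of_one_le hC₁1 (one_le_pow₀ (by linarith))
    have hc1 : 1 ≤ I.card := Finset.card_pos.2 hIne
    have hcN : I.card + 1 ≤ N := by
      have h1 : I ⊂ Finset.univ := Finset.ssubset_univ_iff.2 hI
      have h2 := Finset.card_lt_card h1
      rw [Finset.card_univ, Fintype.card_fin] at h2
      exact h2
    have hCfin : 1 ≤ C₀ * (4 * 2 ^ N * 2 ^ N * Dd ^ N + 4) := by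
      refine one_le_mul_of_one_le_of_one_le hC₀ ?_
      have : (0 : ℝ) ≤ 4 * 2 ^ N * 2 ^ N * Dd ^ N := by positivity
      linarith
    refine ⟨C₀ * (4 * 2 ^ N * 2 ^ N * Dd ^ N + 4), max Y₁ (Real.exp (Real.exp x₀)), hCfin,
      hY₁.trans (le_max_left _ _), (5 * k + 4) * B * N, ?_⟩
    intro Y hY b E hE ε n hn0 hn hcard r hr
    have hYY₁ : Y₁ ≤ Y := (le_max_left _ _).trans hY
    have hY3 : 3 ≤ Y := hY₁.trans hYY₁
    have hY2 : Real.exp (Real.exp x₀) ≤ Y := (le_max_right _ _).trans hY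
    have hY0 : 0 < Y := by linarith
    have hL2 : Real.exp x₀ ≤ Real.log Y := (Real.le_log_iff_exp_le hY0).2 hY2
    have hL0 : 0 < Real.log Y := (Real.exp_pos _).trans_le hL2
    obtain ⟨x, hx⟩ : ∃ x : ℝ, x = Real.log (Real.log Y) := ⟨_, rfl⟩
    have hxx : x₀ ≤ x := by
      rw [hx]
      exact (Real.le_log_iff_exp_le hL0).2 hL2
    have hl2 : 0 ≤ Real.log 2 := Real.log_nonneg (by norm_num)
    have hlC : 0 ≤ Real.log C₁ := Real.log_nonneg hC₁1
    have hBA : (0 : ℝ) ≤ B * (1 + A) := by positivity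
    have hx1 : 1 ≤ x := by linarith
    have hx0 : 0 ≤ x := by linarith
    have hLx : Real.log Y = Real.exp x := by
      rw [hx, Real.exp_log hL0]
    have hL1 : 1 ≤ Real.log Y := by
      rw [hLx]
      exact Real.one_le_exp hx0
    have hP1 : 1 ≤ ∏ i, nr (n i) := inn_op n
    have hP0 : 0 < ∏ i, nr (n i) := zero_lt_one.trans_le hP1
    obtain ⟨X, hX⟩ : ∃ X : ℝ, X = 2 * Y / ∏ i, nr (n i) := ⟨_, rfl⟩
    have hX0 : 0 < X := by
      rw [hX]
      positivity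
    have hXY : X ≤ 2 * Y := by
      rw [hX]
      exact div_le_self (by linarith) hP1
    have hz₂ : Real.exp (Real.log (Real.log Y) ^ 2) ≤ thr Y (k + 1) := by
      unfold thr
      rw [← hx]
      exact Real.exp_le_exp.2 (pow_le_pow_right₀ hx1 (by omega))
    obtain ⟨Bd, hBd⟩ : ∃ Bd : Finset (Pl K), Bd = E ∪ Finset.univ.biUnion n := ⟨_, rfl⟩
    obtain ⟨T, hT⟩ : ∃ T : Finset (Pl K),
      T = E ∪ (Finset.univ.filter fun i => i ∉ I).biUnion n := ⟨_, rfl⟩
    have hTBd : T ⊆ Bd := by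
      rw [hT, hBd]
      exact Finset.union_subset_union_right
        (Finset.biUnion_subset_biUnion_of_subset_left n (Finset.filter_subset _ _))
    have hthr1 : 1 ≤ thr Y k := by
      unfold thr
      rw [← hx]
      exact Real.one_le_exp (by positivity)
    have hnrT : nr T ≤ Real.exp ((1 + A) * x ^ (5 * k + 4)) := by
      have h1 : nr T ≤ nr E * ∏ i ∈ Finset.univ.filter (fun i => i ∉ I), nr (n i) := by
        rw [hT]
        refine (inn_union _ _).trans (mul_le_mul_of_nonneg_left (inn_bU _ _) ?_)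
        linarith [one_le_nr E]
      have h2 : ∏ i ∈ Finset.univ.filter (fun i => i ∉ I), nr (n i) ≤
          Real.exp (A * x ^ (5 * k + 4)) :=
        (inn_prod _ n hthr1 (fun i hi => hn i (Finset.mem_filter.1 hi).2)).trans
          (inn_thr hx hx1 (by rw [hx]; exact hcard))
      have h3 : nr E ≤ Real.exp (x ^ (5 * k + 4)) := by
        refine hE.trans ?_
        unfold thr
        rw [← hx]
        exact Real.exp_le_exp.2 (pow_le_pow_right₀ hx1 (by omega))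
      calc nr T ≤ nr E * ∏ i ∈ Finset.univ.filter (fun i => i ∉ I), nr (n i) := h1
        _ ≤ Real.exp (x ^ (5 * k + 4)) * Real.exp (A * x ^ (5 * k + 4)) := by
            have e1 := one_le_nr E
            have e2 : 0 ≤ ∏ i ∈ Finset.univ.filter (fun i => i ∉ I), nr (n i) :=
              Finset.prod_nonneg fun i _ => by linarith [one_le_nr (n i)]
            gcongr
        _ = Real.exp ((1 + A) * x ^ (5 * k + 4)) := by
            rw [← Real.exp_add]
            congr 1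
            ring
    have hnrT1 : 1 ≤ nr T := one_le_nr T
    have hlogT0 : 0 ≤ Real.log (nr T) := Real.log_nonneg hnrT1
    have hlogT : Real.log (nr T) ≤ (1 + A) * x ^ (5 * k + 4) := by
      have h1 := Real.log_le_log (by linarith) hnrT
      rwa [Real.log_exp] at h1
    have hq1 : 1 ≤ x ^ (5 * k + 4) := one_le_pow₀ hx1
    -- the constants for `ap2`
    obtain ⟨W, hW⟩ : ∃ W : ℝ, W = C₁ * nr T ^ B := ⟨_, rfl⟩
    obtain ⟨M, hM⟩ : ∃ M : ℝ, M = C₁ * (1 + Real.log (nr T)) ^ B := ⟨_, rfl⟩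
    have hM0 : 0 ≤ M := by
      rw [hM]
      positivity
    have hW1 : 1 ≤ W := by
      rw [hW]
      exact one_le_mul_of_one_le_of_one_le hC₁1 (one_le_pow₀ hnrT1)
    have hWz : 2 * W ≤ thr Y (k + 1) := by
      unfold thr
      rw [← hx, ← Real.log_le_iff_le_exp (by linarith), Real.log_mul (by norm_num) (by linarith),
        hW, Real.log_mul hC₁0.ne' (by positivity), Real.log_pow]
      have h1 : (B : ℝ) * Real.log (nr T) ≤ B * (1 + A) * x ^ (5 * k + 4) := by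
        rw [mul_assoc]
        exact mul_le_mul_of_nonneg_left hlogT (Nat.cast_nonneg _)
      have h2 : x ^ (5 * (k + 1) + 3) = x ^ 4 * x ^ (5 * k + 4) := by
        rw [← pow_add]
        congr 1
        ring
      have h3 : x ≤ x ^ 4 := le_self_pow₀ hx1 (by norm_num)
      rw [h2]
      have h4 : (1 + Real.log 2 + Real.log C₁ + B * (1 + A)) * x ^ (5 * k + 4) ≤
          x ^ 4 * x ^ (5 * k + 4) :=
        mul_le_mul_of_nonneg_right (by linarith) (by linarith)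
      have h5 : Real.log 2 + Real.log C₁ ≤ (Real.log 2 + Real.log C₁) * x ^ (5 * k + 4) :=
        le_mul_of_one_le_right (by linarith) hq1
      nlinarith
    obtain ⟨hq1', hq2', hq3'⟩ := inr_quot hp hζ L Dg I Z hZ b E ε n hn0 r hr
    have key := ap2 D.toRD0 I hIne
      (fun i v => fx (C2 Dg I i ⊔ Z.range) (r (Fr.F v))) (fun i v => fx_nonneg _ _) M W hM0 hW1 T
      (by
        intro i hi Z' hZ'
        have h1 := hfl i ((QuotientGroup.mk' Z.range).comp r) hq1' hq2' T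
          (by rw [hT]; exact hq3') Z' (by
            refine le_trans ?_ hZ'
            rw [hW]
            exact mul_le_mul (hCiC i) (pow_le_pow_right₀ hnrT1 (hBiB i)) (by positivity)
              hC₁0.le)
        have h2 : ∀ v, fx ((C2 Dg I i ⊔ Z.range).map (QuotientGroup.mk' Z.range))
            (((QuotientGroup.mk' Z.range).comp r) (Fr.F v)) =
            fx (C2 Dg I i ⊔ Z.range) (r (Fr.F v)) := fun v =>
          fx_quot Z.range (C2 Dg I i ⊔ Z.range) le_sup_right (r (Fr.F v))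
        simp only [h2] at h1
        refine h1.trans ?_
        have hZ0 : 0 ≤ Z' := by linarith
        rw [hM]
        refine mul_le_mul_of_nonneg_right ?_ hZ0
        exact mul_le_mul (hCiC i) (pow_le_pow_right₀ (by linarith) (hBiB i)) (by positivity)
          hC₁0.le)
      Bd hTBd (thr Y (k + 1)) X Y hWz hX0.le hXY (by linarith)
    have hap := H1 Y hYY₁ X hX0 hXY (fun v => r (Fr.F v)) Bd (thr Y (k + 1)) hz₂
    rw [← hX, ← hBd]
    refine hap.trans ?_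
    have hMc : M ^ I.card ≤ Dd ^ N * (1 + x) ^ ((5 * k + 4) * B * N) := by
      have h1 : M ≤ Dd * (1 + x) ^ ((5 * k + 4) * B) := by
        rw [hM, hDd, pow_mul (1 + x), mul_assoc, ← mul_pow]
        refine mul_le_mul_of_nonneg_left (pow_le_pow_left₀ (by linarith) ?_ _) hC₁0.le
        have h2 : x ^ (5 * k + 4) ≤ (1 + x) ^ (5 * k + 4) :=
          pow_le_pow_left₀ hx0 (by linarith) _
        calc 1 + Real.log (nr T) ≤ x ^ (5 * k + 4) + (1 + A) * x ^ (5 * k + 4) := by linarith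
          _ = (2 + A) * x ^ (5 * k + 4) := by ring
          _ ≤ (2 + A) * (1 + x) ^ (5 * k + 4) := mul_le_mul_of_nonneg_left h2 (by linarith)
      have h3 : 1 ≤ Dd * (1 + x) ^ ((5 * k + 4) * B) :=
        one_le_mul_of_one_le_of_one_le hDd1 (one_le_pow₀ (by linarith))
      calc M ^ I.card ≤ (Dd * (1 + x) ^ ((5 * k + 4) * B)) ^ I.card := pow_le_pow_left₀ hM0 h1 _
        _ ≤ (Dd * (1 + x) ^ ((5 * k + 4) * B)) ^ N := pow_le_pow_right₀ h3 (by omega)
        _ = Dd ^ N * (1 + x) ^ ((5 * k + 4) * B * N) := by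
            rw [mul_pow, ← pow_mul]
    have hlog2Y : Real.log (2 * Y) ≤ 2 * Real.log Y := by
      rw [Real.log_mul (by norm_num) hY0.ne']
      have := Real.log_le_log (by norm_num) (show (2 : ℝ) ≤ Y by linarith)
      linarith
    have hfin := inn_fin (x := x) (Λ := Real.log Y) (Q := Y / ∏ i, nr (n i)) (C₀ := C₀) (D := Dd)
      (S := ∑ g ∈ Fintype.piFinset (fun _ : Fin N => GF D.toRD0 (2 * Y)),
          if Lc I Bd (thr Y (k + 1)) X g then
            ∏ i, ∏ v ∈ g i, fx (C2 Dg I i ⊔ Z.range) (r (Fr.F v)) else 0)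
      (M := M) (L2 := Real.log (2 * Y)) (c := I.card) (N := N) (B' := (5 * k + 4) * B * N)
      hx1 hL1 (by positivity) hC₀ hDd1 hM0 hc1 hcN hMc (Real.log_nonneg (by linarith))
      (by linarith) (by
        have h1 : X = 2 * (Y / ∏ i, nr (n i)) := by
          rw [hX]
          ring
        rw [← h1]
        exact key)
    have h1 : X = 2 * (Y / ∏ i, nr (n i)) := by
      rw [hX]
      ring
    rw [← hx, Real.rpow_neg_one]
    rw [← h1] at hfin
    exact hfin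

end H77.PT
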