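import Pool.Agent.H77.PT.Zex
import Pool.Agent.H77.PC3.CLx

/-!
# [H77 PT GTW] removing the large primes by a central twist, 150-220 lines. File Pool/Agent/H77/PT/Gtw.lean

`h` a disjoint family, `n i = h (i, false)`, `g i = h (i, true)`, `g i = ∅` for `i ∉ I`, off `E`, outside `S0`. For `ρ ∈ RH (clw U h)` (with `SpR`) put `ρ₂ = k2 ∘ ρ`, `τ σ = Z (fun j => ∑_{w ∈ g j} kk (pi w) σ)` (a homomorphism of finite type with central values: `kk` is additive in `σ`) and `r σ = ρ₂ σ * (τ σ)⁻¹`. Then `r ∈ PH .. n`, and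
`ρ₂ (F v) = r (F v) * Z (tv D g v)`: `τ (F v) = Z (tv D g v)` by `Fr.kf`.

PROOF that `r ∈ PH`: (1) homomorphism (central values), finite type (intersection of the two finite levels; see `tw_ft`, `kch_ft` in CTw.lean). (2) Kummer data: `p2 (r σ) = π (ρ σ) - ∑_{j ∈ I} (∑_{w ∈ g j} kk (pi w) σ) s j` (`zex_p2`, `p2_k2`), and `π (ρ σ) k = kk (akR D Dg.cr b (clw U h) k) σ` with
`akR (clw U h) k = akR n k * ∏_{j} ∏_{w ∈ g j} pi w ^ (s j k).val` (`clw U h i` is the disjoint union of `n i` and `g i`; `Dg.cr.x = Dg.s`), so `kk` of it is `kk (akR n k) σ + ∑_j ∑_{w ∈ g j} (s j k) kk (pi w) σ` (`kk_mul_arg`, `kk` of a power and of a product: see `kuh`, CLf.lean/CLg.lean for the same computations).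
(3) For `v ∈ n i`, `v ∈ E` or `v ∉ S0`, `v` in no `g j`: `kk (pi w) τ' = 0` for `w ∈ g j`, `τ' ∈ inr L v` (`ord v (pi w) = 0` for `w ≠ v`, `v ∉ S0`; `kk_inr`-type lemma, see `kuh_un`, `kch_inr`), so `r = ρ₂` on `inr L v`; the conditions at `n i`, `E` and outside follow from those of `RH` (`k2` of conjugates are conjugate; `(k2 x) ^ p = 1`).
(4) For `v ∈ g i`: `i ∈ I`. `ρ (t v)` is conjugate to `q (g i)`, so `ρ₂ (t v) = k2 (q (g i)) = Z (single i 1)` (central: `zex_cen`, `ZD.on`); for `τ' ∈ inr L v`: `ρ₂ τ' = ρ₂ (t v) ^ (kk (pi v) τ').val` (`tm_z` for `ρ` or `ρ₂`), and `τ τ' = Z (single i (kk (pi v) τ'))` (`kk (pi w) τ' = 0` for the other `w`), equal. So `r τ' = 1`.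
(5) `∀ x : G2, ∃ σ, r σ * x⁻¹ ∈ Z.range`: `ρ` is surjective: `gp_frat`/`sp_surj`-type argument (CLg.lean; there `b = 1`; here for general `b`: `SpR Dg.cr b f` gives that every `θ ≠ 0` has `∑ θ_k kk (akR b f k) ≠ 0` on `Γ`; this is proved for the upper bound in Pool/Agent/H77/PC3 (grep `SpR`) — the proof of `sp_surj` works with `b`: if `θ` kills all `π (ρ σ)`,
then `∏ akR b f k ^ θ_k` is a `p`-th power, so `θ · s i = 0` for all `i` with `f i ≠ ∅` (orders at `v ∈ f i`; `BS2` and disjointness from `E`: `ord v (b k) = 0`) and then `bp b θ` is a `p`-th power, contradiction to `SpR`). Then `π ∘ ρ` is surjective, so `ρ` is surjective since `V` is contained in the Frattini subgroup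
(`gp_frat` for `P`: pull back the range of `ρ` to `P`). Take `σ` with `k2 (ρ σ) = x`: `r σ * x⁻¹ = x (τ σ)⁻¹ x⁻¹ = (τ σ)⁻¹ ∈ Z.range`.
-/

set_option autoImplicit false

open scoped NumberField
open IsDedekindDomain
open scoped Classical

noncomputable section

namespace H77.PT

open H63.MA H38.BB H38.BG H57.PC H51.CUB H77.PC3

variable {K : Type} [Field K] [NumberField K] {p : ℕ} {ζ : K} {D : RD0 K p ζ} {Ω : Type}
  [Field Ω] [Algebra K Ω] [IsAlgClosure K Ω] {m l w N : ℕ} {P R : Type} [Group P] [Group R]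

theorem gtw_kk [NeZero p] (hp : p.Prime) (hζ : IsPrimitiveRoot ζ p) (c : CR p m N)
    (b : Fin m → Kˣ) (f : Fin N → Finset (Pl K)) (k : Fin m) (σ : Gal(Ω/K)) :
    kk p ζ (akR D c b f k) σ =
      kk p ζ (b k) σ + ∑ i, ∑ w ∈ f i, c.x i k * kk p ζ (D.pi w) σ := by
  unfold akR
  rw [kk_mul_arg hp hζ, kk_prod_arg hp hζ]
  congr 1
  refine Finset.sum_congr rfl fun i _ => ?_
  rw [kk_prod_arg hp hζ]
  refine Finset.sum_congr rfl fun w _ => ?_
  have h := kk_zpow_arg hp hζ (D.pi w) ((c.x i k).val : ℤ) σ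
  rw [zpow_natCast, gkum_val hp] at h
  exact h

theorem gtw_bp [NeZero p] (hp : p.Prime) (hζ : IsPrimitiveRoot ζ p)
    (b : Fin m → Kˣ) (θ : Fin m → ZMod p) (σ : Gal(Ω/K)) :
    kk p ζ (bp b θ) σ = ∑ k, θ k * kk p ζ (b k) σ := by
  unfold bp
  rw [kk_prod_arg hp hζ]
  refine Finset.sum_congr rfl fun k _ => ?_
  have h := kk_zpow_arg hp hζ (b k) ((θ k).val : ℤ) σ
  rw [zpow_natCast, gkum_val hp] at h
  exact h

theorem gtw_dt [NeZero p] (hp : p.Prime) (hζ : IsPrimitiveRoot ζ p) (c : CR p m N)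
    (b : Fin m → Kˣ) (f : Fin N → Finset (Pl K)) (θ : Fin m → ZMod p)
    (hθ : ∀ i, f i ≠ ∅ → dt θ (c.x i) = 0) (σ : Gal(Ω/K)) :
    dt θ (fun k => kk p ζ (akR D c b f k) σ) = kk p ζ (bp b θ) σ := by
  have h6 : ∑ k, θ k * ∑ i, ∑ w ∈ f i, c.x i k * kk p ζ (D.pi w) σ = 0 := by
    simp only [Finset.mul_sum]
    rw [Finset.sum_comm]
    refine Finset.sum_eq_zero fun i _ => ?_
    rw [Finset.sum_comm]
    refine Finset.sum_eq_zero fun w hw => ?_
    have h8 : ∑ k, θ k * (c.x i k * kk p ζ (D.pi w) σ) = dt θ (c.x i) * kk p ζ (D.pi w) σ := by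
      unfold dt
      rw [Finset.sum_mul]
      exact Finset.sum_congr rfl fun k _ => by ring
    rw [h8, hθ i (Finset.ne_empty_of_mem hw), zero_mul]
  have h5 : dt θ (fun k => kk p ζ (akR D c b f k) σ) = ∑ k, (θ k * kk p ζ (b k) σ +
      θ k * ∑ i, ∑ w ∈ f i, c.x i k * kk p ζ (D.pi w) σ) := by
    unfold dt
    refine Finset.sum_congr rfl fun k _ => ?_
    show θ k * kk p ζ (akR D c b f k) σ = _
    rw [gtw_kk hp hζ, mul_add]
  rw [h5, Finset.sum_add_distrib, h6, add_zero, gtw_bp hp hζ]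

theorem gtw_pi [NeZero p] (hp : p.Prime) (hζ : IsPrimitiveRoot ζ p) (L : LDs D Ω)
    (Dg : GP p m l w N P R) (b : Fin m → Kˣ) (E : Finset (Pl K)) (ε : Pl K → Gal(Ω/K) → R)
    (f : Fin N → Finset (Pl K)) (hsp : SpR Dg.cr b f) (ρ : Gal(Ω/K) →* R)
    (hρ : ρ ∈ RH L Dg b E ε f) (y : Multiplicative (Fin m → ZMod p)) :
    ∃ σ, Dg.π (ρ σ) = y := by
  have : Fact p.Prime := ⟨hp⟩
  let S : Submodule (ZMod p) (Fin m → ZMod p) :=
    { carrier := {y | ∃ σ, Multiplicative.toAdd (Dg.π (ρ σ)) = y}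
      add_mem' := by
        rintro _ _ ⟨σ, rfl⟩ ⟨τ, rfl⟩
        exact ⟨σ * τ, by rw [map_mul, map_mul, toAdd_mul]⟩
      zero_mem' := ⟨1, by rw [map_one, map_one, toAdd_one]⟩
      smul_mem' := by
        rintro r _ ⟨σ, rfl⟩
        refine ⟨σ ^ r.val, ?_⟩
        rw [map_pow, map_pow, toAdd_pow]
        funext k
        rw [Pi.smul_apply, Pi.smul_apply, smul_eq_mul, nsmul_eq_mul, ZMod.natCast_zmod_val] }
  have hS : S = ⊤ := by
    by_contra hne
    obtain ⟨F, hF, hle⟩ := Submodule.exists_le_ker_of_lt_top S (lt_top_iff_ne_top.2 hne)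
    obtain ⟨θ, hθ⟩ : ∃ θ : Fin m → ZMod p, ∀ y, F y = dt θ y := by
      refine ⟨fun k => F (Pi.single k 1), fun y => ?_⟩
      have h1 : y = ∑ k, y k • (Pi.single k (1 : ZMod p) : Fin m → ZMod p) := by
        funext j
        rw [Finset.sum_apply, Finset.sum_eq_single j]
        · simp
        · intro k _ hk
          simp [hk.symm]
        · intro h
          exact absurd (Finset.mem_univ j) h
      conv_lhs => rw [h1]
      rw [map_sum]
      unfold dt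
      refine Finset.sum_congr rfl fun k _ => ?_
      rw [map_smul, smul_eq_mul, mul_comm]
    have hθ0 : θ ≠ 0 := by
      rintro rfl
      apply hF
      apply LinearMap.ext
      intro y
      rw [hθ, LinearMap.zero_apply]
      unfold dt
      simp
    have hex : ∀ i, f i ≠ ∅ → dt θ (Dg.cr.x i) = 0 := by
      intro i hi
      obtain ⟨v, hv⟩ := Finset.nonempty_iff_ne_empty.2 hi
      have h2 := (hρ.2.2.1 i v hv).1
      obtain ⟨c, hc⟩ := isConj_iff.1 h2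
      have h3 : Dg.π (ρ (L.t v)) = Dg.π (Dg.q (Dg.g i)) := by
        rw [← hc, map_mul, map_mul, map_inv, mul_comm (Dg.π c), mul_inv_cancel_right]
      have h4 : Dg.cr.x i ∈ S := ⟨L.t v, by
        rw [h3]
        rfl⟩
      have h5 := hle h4
      rwa [LinearMap.mem_ker, hθ] at h5
    rcases hsp θ hθ0 with ⟨i, hi, h1⟩ | h1
    · exact h1 (hex i hi)
    · apply h1
      refine (kk_eq_zero_iff (Ω := Ω) hp hζ _).1 fun σ => ?_
      rw [← gtw_dt (D := D) hp hζ Dg.cr b f θ hex σ]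
      have h3 : Multiplicative.toAdd (Dg.π (ρ σ)) ∈ S := ⟨σ, rfl⟩
      have h4 := hle h3
      rw [LinearMap.mem_ker, hθ] at h4
      rw [← h4]
      congr 1
      funext k
      exact hρ.2.1 σ k
  have h1 : Multiplicative.toAdd y ∈ S := by
    rw [hS]
    exact Submodule.mem_top
  obtain ⟨σ, hσ⟩ := h1
  exact ⟨σ, Multiplicative.toAdd.injective hσ⟩

theorem gtw_surj' [NeZero p] (hp : p.Prime) (hζ : IsPrimitiveRoot ζ p)
    (L : LDs D Ω) (Dg : GP p m l w N P R) (b : Fin m → Kˣ) (E : Finset (Pl K))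
    (ε : Pl K → Gal(Ω/K) → R) (f : Fin N → Finset (Pl K)) (hsp : SpR Dg.cr b f)
    (ρ : Gal(Ω/K) →* R) (hρ : ρ ∈ RH L Dg b E ε f) : Function.Surjective ρ := by
  have h1 : ρ.range.comap Dg.q = ⊤ := by
    refine gp_frat Dg _ fun x => ?_
    obtain ⟨σ, hσ⟩ := gtw_pi hp hζ L Dg b E ε f hsp ρ hρ (Dg.π (Dg.q x))
    obtain ⟨y, hy⟩ := Dg.qs (ρ σ)
    exact ⟨y, ⟨σ, hy.symm⟩, by rw [hy, hσ]⟩
  intro r
  obtain ⟨x, rfl⟩ := Dg.qs r
  have h2 : x ∈ ρ.range.comap Dg.q := by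
    rw [h1]
    exact Subgroup.mem_top x
  exact h2

theorem gtw_surj [NeZero p] [Finite P] [Finite R] (hp : p.Prime) (hζ : IsPrimitiveRoot ζ p)
    (L : LDs D Ω) (Dg : GP p m l w N P R) (b : Fin m → Kˣ) (E : Finset (Pl K))
    (ε : Pl K → Gal(Ω/K) → R) (f : Fin N → Finset (Pl K)) (hb : BS2 D b E) (hf : Dj f)
    (hfE : ∀ i, Disjoint (f i) E) (hfS : ∀ i, ∀ v ∈ f i, v ∉ D.S0) (hsp : SpR Dg.cr b f)
    (ρ : Gal(Ω/K) →* R) (hρ : ρ ∈ RH L Dg b E ε f) : Function.Surjective ρ := gtw_surj' hp hζ L Dg b E ε f hsp ρ hρ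

omit [IsAlgClosure K Ω] in
theorem gtw_ord (n : Finset (Pl K)) (hn : ∀ w ∈ n, w ∉ D.S0) (v : Pl K) (hv : v ∉ D.S0) :
    ord v (pf D n) = if v ∈ n then 1 else 0 := by
  unfold pf
  rw [ord_prod]
  split_ifs with h
  · rw [Finset.sum_eq_single v
      (fun w hw hwv => D.pi_ne w v (hn w hw) hv (Ne.symm hwv)) (fun h' => absurd h h')]
    exact D.pi_self v hv
  · refine Finset.sum_eq_zero fun w hw => D.pi_ne w v (hn w hw) hv ?_
    rintro rfl
    exact h hw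

theorem gtw_inr (hp : p.Prime) (hζ : IsPrimitiveRoot ζ p) (L : LDs D Ω)
    (v : Pl K) (hv : v ∉ D.S0) (τ : Gal(Ω/K)) (hτ : τ ∈ inr L v) (a : Kˣ) :
    kk p ζ a τ = ord v a * kk p ζ (D.pi v) τ := by
  have h1 : inr L v = (L.ld v hv).P.inertia Gal(Ω/K) := by
    unfold inr
    rw [dif_pos hv]
  rw [h1] at hτ
  exact ld_kk hp hζ (fun h => hv (D.above v h)) (D.pi_self v hv) (L.ld v hv) τ hτ a

theorem gtw_mem {U : WY N (Fin N × Bool)} (hU : ∀ a, U.cls a = a.1)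
    {h : Fin N × Bool → Finset (Pl K)} {i : Fin N} {v : Pl K} :
    v ∈ clw U h i ↔ v ∈ h (i, false) ∨ v ∈ h (i, true) := by
  unfold clw
  rw [Finset.mem_biUnion]
  constructor
  · rintro ⟨⟨j, b⟩, ha, hv⟩
    have hj : j = i := (hU (j, b)).symm.trans (Finset.mem_filter.1 ha).2
    subst hj
    cases b
    · exact Or.inl hv
    · exact Or.inr hv
  · rintro (hv | hv)
    · exact ⟨(i, false), Finset.mem_filter.2 ⟨Finset.mem_univ _, hU _⟩, hv⟩
    · exact ⟨(i, true), Finset.mem_filter.2 ⟨Finset.mem_univ _, hU _⟩, hv⟩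

theorem gtw_sum {U : WY N (Fin N × Bool)} (hU : ∀ a, U.cls a = a.1)
    {h : Fin N × Bool → Finset (Pl K)} (hdj : Dj h) (i : Fin N) (F : Pl K → ZMod p) :
    ∑ v ∈ clw U h i, F v = ∑ v ∈ h (i, false), F v + ∑ v ∈ h (i, true), F v := by
  have h1 : clw U h i = h (i, false) ∪ h (i, true) := by
    ext v
    rw [gtw_mem hU, Finset.mem_union]
  rw [h1, Finset.sum_union]
  exact hdj _ _ (fun h => Bool.false_ne_true (Prod.mk.inj h).2)

theorem gtw [NeZero p] [Finite P] [Finite R] (hp : p.Prime) (hζ : IsPrimitiveRoot ζ p)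
    (L : LDs D Ω) (Fr : FR L) (Dg : GP p m l w N P R) (I : Finset (Fin N))
    (Z : Multiplicative (Fin N → ZMod p) →* G2 Dg I) (hZ : ZD Dg I Z)
    (U : WY N (Fin N × Bool)) (hU : ∀ a, U.cls a = a.1) (b : Fin m → Kˣ) (E : Finset (Pl K))
    (hb : BS2 D b E) (ε : Pl K → Gal(Ω/K) → R) (h : Fin N × Bool → Finset (Pl K)) (hdj : Dj h)
    (hE : ∀ a, Disjoint (h a) E) (hS : ∀ a, ∀ v ∈ h a, v ∉ D.S0)
    (hI : ∀ i, i ∉ I → h (i, true) = ∅) (hsp : SpR Dg.cr b (clw U h)) :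
    ∃ tau : Gal(Ω/K) →* G2 Dg I, (∀ σ x, tau σ * x = x * tau σ) ∧
      (∀ v, v ∉ D.S0 → tau (Fr.F v) = Z (Multiplicative.ofAdd (tv D (fun i => h (i, true)) v))) ∧
      ∀ ρ ∈ RH L Dg b E ε (clw U h), ∃ r ∈ PH L Dg I Z b E ε (fun i => h (i, false)),
        ∀ σ, k2 Dg I (ρ σ) = r σ * tau σ := by
  obtain ⟨a, ha⟩ : ∃ a : Fin N → Kˣ, ∀ j, a j = pf D (h (j, true)) := ⟨_, fun _ => rfl⟩
  have hka : ∀ (j : Fin N) (σ : Gal(Ω/K)),
      kk p ζ (a j) σ = ∑ v ∈ h (j, true), kk p ζ (D.pi v) σ := by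
    intro j σ
    rw [ha]
    unfold pf
    exact kk_prod_arg hp hζ _ _ σ
  obtain ⟨tau, htau⟩ : ∃ tau : Gal(Ω/K) →* G2 Dg I, ∀ σ,
      tau σ = Z (Multiplicative.ofAdd fun j => kk p ζ (a j) σ) :=
    ⟨Z.comp (kuh p ζ Ω a), fun _ => rfl⟩
  have hcen : ∀ σ x, tau σ * x = x * tau σ := by
    intro σ x
    rw [htau]
    exact hZ.cen _ x
  refine ⟨tau, hcen, fun v hv => ?_, fun ρ hρ => ?_⟩
  · rw [htau]
    congr 2
    funext j
    rw [hka]
    unfold tv
    exact Finset.sum_congr rfl fun w _ => Fr.kf v hv _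
  obtain ⟨r0, r1, r2, r3, r4⟩ := id hρ
  obtain ⟨r, hr⟩ : ∃ r : Gal(Ω/K) →* G2 Dg I, ∀ σ, r σ = k2 Dg I (ρ σ) * (tau σ)⁻¹ := by
    refine ⟨{ toFun := fun σ => k2 Dg I (ρ σ) * (tau σ)⁻¹
              map_one' := ?_
              map_mul' := ?_ }, fun _ => rfl⟩
    · rw [map_one, map_one, map_one, inv_one, mul_one]
    · intro σ τ
      have h1 : (tau σ)⁻¹ * k2 Dg I (ρ τ) = k2 Dg I (ρ τ) * (tau σ)⁻¹ := by
        rw [← map_inv]
        exact hcen _ _
      have h2 : k2 Dg I (ρ σ) * (tau σ)⁻¹ * (k2 Dg I (ρ τ) * (tau τ)⁻¹) =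
          k2 Dg I (ρ σ) * ((tau σ)⁻¹ * k2 Dg I (ρ τ)) * (tau τ)⁻¹ := by group
      have h3 : (tau (σ * τ))⁻¹ = (tau σ)⁻¹ * (tau τ)⁻¹ := by
        rw [map_mul, hcen, mul_inv_rev]
      rw [h2, h1, h3, map_mul, map_mul]
      group
  have hone : ∀ v, v ∉ D.S0 → (∀ j, v ∉ h (j, true)) → ∀ τ ∈ inr L v, tau τ = 1 := by
    intro v hv hvh τ hτ
    rw [htau]
    have h1 : (fun j => kk p ζ (a j) τ) = 0 := by
      funext j
      rw [gtw_inr hp hζ L v hv τ hτ, ha, gtw_ord _ (hS (j, true)) v hv, if_neg (hvh j),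
        Int.cast_zero, zero_mul, Pi.zero_apply]
    rw [h1, ofAdd_zero, map_one]
  have hrk : ∀ v, v ∉ D.S0 → (∀ j, v ∉ h (j, true)) → ∀ τ ∈ inr L v,
      r τ = k2 Dg I (ρ τ) := by
    intro v hv hvh τ hτ
    rw [hr, hone v hv hvh τ hτ, inv_one, mul_one]
  refine ⟨r, ⟨?_, fun σ k => ?_, fun i v hv => ?_, fun v hv τ hτ => ?_,
    fun v hv hvE hvn τ hτ => ?_, fun x => ?_⟩, fun σ => by rw [hr, inv_mul_cancel_right]⟩
  · refine lev_ft r ?_
    have h1 := glift_lev_comp2 (fun σ => ρ σ) (fun σ => kuh p ζ Ω a σ)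
      (fun z => k2 Dg I z.1 * (Z z.2)⁻¹) (ft_lev ρ r0) (ft_lev _ (kuh_ft hp hζ a))
    have h2 : (fun σ => r σ) = fun σ => k2 Dg I (ρ σ) * (Z (kuh p ζ Ω a σ))⁻¹ := by
      funext σ
      rw [hr, htau]
      rfl
    change Lev (fun σ => r σ)
    rw [h2]
    exact h1
  · have h1 : Multiplicative.toAdd (p2 Dg I (r σ)) k =
        Multiplicative.toAdd (Dg.π (ρ σ)) k - ∑ i ∈ I, kk p ζ (a i) σ * Dg.s i k := by
      rw [← zex_p2 hp Dg I Z hZ (fun j => kk p ζ (a j) σ) k, hr, map_mul, map_inv, p2_k2,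
        toAdd_mul, toAdd_inv, Pi.add_apply, Pi.neg_apply, htau, sub_eq_add_neg]
    rw [h1, ← r1 σ k, gtw_kk hp hζ, gtw_kk hp hζ]
    have h2 : ∑ i, ∑ v ∈ clw U h i, Dg.cr.x i k * kk p ζ (D.pi v) σ =
        ∑ i, ∑ v ∈ h (i, false), Dg.cr.x i k * kk p ζ (D.pi v) σ +
          ∑ i, ∑ v ∈ h (i, true), Dg.cr.x i k * kk p ζ (D.pi v) σ := by
      rw [← Finset.sum_add_distrib]
      exact Finset.sum_congr rfl fun i _ => gtw_sum hU hdj i _
    have h3 : ∑ i, ∑ v ∈ h (i, true), Dg.cr.x i k * kk p ζ (D.pi v) σ =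
        ∑ i ∈ I, kk p ζ (a i) σ * Dg.s i k := by
      rw [← Finset.sum_subset (Finset.subset_univ I) fun i _ hi => by
        rw [hI i hi, Finset.sum_empty]]
      refine Finset.sum_congr rfl fun i _ => ?_
      rw [hka, ← Finset.mul_sum, mul_comm]
      rfl
    rw [h2, h3]
    ring
  · have hvS := hS _ v hv
    have hvt : ∀ j, v ∉ h (j, true) := fun j hj =>
      Finset.disjoint_left.1 (hdj (i, false) (j, true)
        (fun h => Bool.false_ne_true (Prod.mk.inj h).2)) hv hj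
    have h2 := r2 i v ((gtw_mem hU).2 (Or.inl hv))
    refine ⟨?_, fun τ hτ => ?_⟩
    · rw [hrk v hvS hvt _ (H63.BU.uinr_t L v)]
      exact (k2 Dg I).map_isConj h2.1
    · rw [hrk v hvS hvt τ hτ, ← map_pow, h2.2 τ hτ, map_one]
  · have hvt : ∀ j, v ∉ h (j, true) := fun j hj => Finset.disjoint_left.1 (hE _) hj hv
    rw [hrk v (hb.1 v hv) hvt τ hτ, r3 v hv τ hτ]
  · by_cases hvt : ∀ j, v ∉ h (j, true)
    · rw [hrk v hv hvt τ hτ, r4 v hv hvE (fun i hi => ?_) τ hτ, map_one]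
      rcases (gtw_mem hU).1 hi with h1 | h1
      · exact hvn i h1
      · exact hvt i h1
    · push Not at hvt
      obtain ⟨i, hi⟩ := hvt
      have hiI : i ∈ I := by
        by_contra h1
        rw [hI i h1] at hi
        exact absurd hi (Finset.notMem_empty v)
      have h2 := r2 i v ((gtw_mem hU).2 (Or.inr hi))
      have hRf : Finite R := inferInstance
      have h3 := tm_z hp hζ L ρ r0 v hv h2.2 τ hτ
      have h4 : k2 Dg I (ρ (L.t v)) = Z (Multiplicative.ofAdd (Pi.single i 1)) := by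
        obtain ⟨c, hc⟩ := isConj_iff.1 h2.1
        have h5 := congrArg (k2 Dg I) hc
        rw [← hZ.on i hiI, map_mul, map_mul, map_inv] at h5
        have h6 : k2 Dg I (ρ (L.t v)) = (k2 Dg I c)⁻¹ *
            (Z (Multiplicative.ofAdd (Pi.single i 1)) * k2 Dg I c) := by
          rw [← h5]
          group
        rw [h6, hZ.cen, inv_mul_cancel_left]
      have h5 : (fun j => kk p ζ (a j) τ) =
          (kk p ζ (D.pi v) τ).val • (Pi.single i 1 : Fin N → ZMod p) := by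
        funext j
        rw [gtw_inr hp hζ L v hv τ hτ, ha, gtw_ord _ (hS (j, true)) v hv, Pi.smul_apply,
          nsmul_eq_mul, ZMod.natCast_zmod_val]
        by_cases hj : j = i
        · subst hj
          rw [if_pos hi, Pi.single_eq_same, Int.cast_one, one_mul, mul_one]
        · rw [if_neg, Pi.single_eq_of_ne hj, Int.cast_zero, zero_mul, mul_zero]
          intro h6
          exact Finset.disjoint_left.1 (hdj (j, true) (i, true)
            (fun h => hj (Prod.mk.inj h).1)) h6 hi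
      rw [hr, htau, h5, ofAdd_nsmul, map_pow, h3, map_pow, h4, mul_inv_cancel]
  · obtain ⟨y, rfl⟩ := k2_surj Dg I x
    obtain ⟨σ, rfl⟩ := gtw_surj' hp hζ L Dg b E ε _ hsp ρ hρ y
    refine ⟨σ, ?_⟩
    have h1 : r σ * (k2 Dg I (ρ σ))⁻¹ = (tau σ)⁻¹ := by
      rw [hr, ← map_inv tau, ← hcen, mul_inv_cancel_right]
    rw [h1, htau, ← map_inv]
    exact ⟨_, rfl⟩

end H77.PT
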