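import Pool.Agent.H77.PT.Def

/-!
# [H77 PT COL] products of sums as sums over coloured families, 120-180 lines. File Pool/Agent/H77/PT/Col.lean

`uc g a = ⋃ t, g (a, t)`.
* `col_pt`: for a pairwise disjoint family `f`, `∏ a, ∏ v ∈ f a, ∑ t, u (a, t) v` is the sum over all pairwise disjoint `g : ι × T → Finset (Pl K)` with `uc g = f` of `∏ a, ∏ v ∈ g a, u a v`.
  PROOF. As `aexp_split` (Pool/Agent/H63/MA/AExp.lean, there for `ℂ` and one set): `Finset.prod_univ_sum` over the finite type `Σ a, ↥(f a)` (or for every `a` separately, then over `a`): a choice `φ` of a colour for every element of every `f a`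
  corresponds to `g (a, t) = {v ∈ f a | φ a v = t}`. (The proof of `aexp_split` works word for word over a commutative semiring; `aexp_multi`, same file, combines the `a`; then `g (a, t) = GG a t`: `Dj g` iff all `Dj (GG a)`, since `f` is disjoint and `GG a t ⊆ f a`.)
* `uc_nr`: for `Dj g`: `∏ a, nr (uc g a) = ∏ a, nr (g a)` (`Finset.prod_biUnion`, `Fintype.prod_prod_type`). `uc_dj`: `Dj g → Dj (uc g)`.
* `col`: the sum version: write the left side by `col_pt` for every `f` with `c f ≠ 0` as a sum over pairs `(f, g)`, `uc g = f`, and reindex by `g`: if `c (uc g) ≠ 0` and `Dj g` then `uc g a ∈ GF D X` (`∏ nr ≤ X`, all factors `≥ 1`, so every factor `≤ X`; `atupa_mem_GF`: `n ∈ GF D X ↔ nr n ≤ X ∧ ∀ v ∈ n, D.Gd v`)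
  and then `g a ∈ GF D X` (subset of a set in `GF`, `nr_mono`); exchange the finite sums over `ρ` and `g`.
-/

set_option autoImplicit false

open scoped NumberField
open IsDedekindDomain
open scoped Classical

noncomputable section

namespace H77.PT

open H63.MA H38.BB H38.BG H57.PC H51.CUB H77.PC3

/-- the union over the colours -/
def uc {V ι T : Type} [Fintype T] (g : ι × T → Finset V) (a : ι) : Finset V :=
  Finset.univ.biUnion fun t => g (a, t)

variable {K : Type} [Field K] [NumberField K] {p : ℕ} {ζ : K} {ι T : Type} [Fintype ι] [Fintype T]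

private theorem col_mem_uc {V ι T : Type} [Fintype T] {g : ι × T → Finset V} {a : ι} {v : V} :
    v ∈ uc g a ↔ ∃ t, v ∈ g (a, t) := by
  unfold uc
  rw [Finset.mem_biUnion]
  constructor
  · rintro ⟨t, -, h⟩
    exact ⟨t, h⟩
  · rintro ⟨t, h⟩
    exact ⟨t, Finset.mem_univ _, h⟩

private theorem col_split {M : Type} [CommSemiring M] (n : Finset (Pl K)) (h : Pl K → T → M) :
    ∏ v ∈ n, ∑ t, h v t =
      ∑ G ∈ (Fintype.piFinset fun _ : T => n.powerset).filter
        (fun G => Dj G ∧ Finset.univ.biUnion G = n), ∏ t, ∏ v ∈ G t, h v t := by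
  rw [← Finset.prod_attach n (fun v => ∑ t, h v t), ← Finset.univ_eq_attach,
    Finset.prod_univ_sum]
  refine Finset.sum_bij (fun φ _ => aexpPart n φ) ?_ ?_ ?_ ?_
  · intro φ _
    rw [Finset.mem_filter, Fintype.mem_piFinset]
    refine ⟨fun t => ?_, ?_, ?_⟩
    · rw [Finset.mem_powerset]
      intro v hv
      exact (aexp_mem_part.1 hv).1
    · intro t t' htt'
      rw [Finset.disjoint_left]
      intro v hv hv'
      obtain ⟨h1, h2⟩ := aexp_mem_part.1 hv
      obtain ⟨h3, h4⟩ := aexp_mem_part.1 hv'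
      exact htt' (h2.symm.trans h4)
    · ext v
      rw [Finset.mem_biUnion]
      constructor
      · rintro ⟨t, -, hv⟩
        exact (aexp_mem_part.1 hv).1
      · intro hv
        exact ⟨φ ⟨v, hv⟩, Finset.mem_univ _, aexp_mem_part.2 ⟨hv, rfl⟩⟩
  · intro φ _ ψ _ hφψ
    funext v
    have h1 : v.1 ∈ aexpPart n φ (φ v) := aexp_mem_part.2 ⟨v.2, rfl⟩
    have h2 : aexpPart n φ (φ v) = aexpPart n ψ (φ v) := congrFun hφψ (φ v)
    rw [h2] at h1
    obtain ⟨h3, h4⟩ := aexp_mem_part.1 h1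
    exact h4.symm
  · intro G hG
    rw [Finset.mem_filter, Fintype.mem_piFinset] at hG
    obtain ⟨hG1, hG2, hG3⟩ := hG
    have hex : ∀ v : {v // v ∈ n}, ∃ t, v.1 ∈ G t := by
      intro v
      have h1 : v.1 ∈ Finset.univ.biUnion G := hG3.symm ▸ v.2
      obtain ⟨t, -, ht⟩ := Finset.mem_biUnion.1 h1
      exact ⟨t, ht⟩
    choose φ hφ using hex
    refine ⟨φ, Fintype.mem_piFinset.2 fun _ => Finset.mem_univ _, ?_⟩
    funext t
    ext v
    rw [aexp_mem_part]
    constructor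
    · rintro ⟨hv, rfl⟩
      exact hφ ⟨v, hv⟩
    · intro hv
      have hvn : v ∈ n := Finset.mem_powerset.1 (hG1 t) hv
      refine ⟨hvn, ?_⟩
      by_contra hne
      exact Finset.disjoint_left.1 (hG2 _ _ hne) (hφ ⟨v, hvn⟩) hv
  · intro φ _
    rw [← Finset.prod_fiberwise Finset.univ φ]
    refine Finset.prod_congr rfl fun t _ => ?_
    unfold aexpPart
    rw [Finset.prod_map]
    refine Finset.prod_congr rfl fun v hv => ?_
    rw [(Finset.mem_filter.1 hv).2]
    rfl

theorem col_pt {M : Type} [CommSemiring M] (f : ι → Finset (Pl K))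
    (hf : Dj f) (u : ι × T → Pl K → M) :
    ∏ a, ∏ v ∈ f a, ∑ t, u (a, t) v =
      ∑ g ∈ (Fintype.piFinset fun a : ι × T => (f a.1).powerset).filter
        (fun g => Dj g ∧ uc g = f), ∏ a, ∏ v ∈ g a, u a v := by
  rw [Finset.prod_congr rfl fun a _ => col_split (f a) (fun v t => u (a, t) v),
    Finset.prod_univ_sum]
  refine Finset.sum_bij (fun GG _ => fun a : ι × T => GG a.1 a.2) ?_ ?_ ?_ ?_
  · intro GG hGG
    rw [Fintype.mem_piFinset] at hGG
    have hG : ∀ a, (∀ t, GG a t ⊆ f a) ∧ Dj (GG a) ∧ Finset.univ.biUnion (GG a) = f a := by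
      intro a
      have h1 := Finset.mem_filter.1 (hGG a)
      exact ⟨fun t => Finset.mem_powerset.1 (Fintype.mem_piFinset.1 h1.1 t), h1.2⟩
    refine Finset.mem_filter.2 ⟨Fintype.mem_piFinset.2
      fun a => Finset.mem_powerset.2 ((hG a.1).1 a.2), ?_, ?_⟩
    · rintro ⟨i, θ⟩ ⟨i', θ'⟩ hne
      by_cases hii' : i = i'
      · subst hii'
        have hne' : θ ≠ θ' := by
          rintro rfl
          exact hne rfl
        exact (hG i).2.1 θ θ' hne'
      · exact Finset.disjoint_of_subset_left ((hG i).1 θ)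
          (Finset.disjoint_of_subset_right ((hG i').1 θ') (hf i i' hii'))
    · funext a
      exact (hG a).2.2
  · intro GG _ GG' _ h
    funext a t
    exact congrFun h (a, t)
  · intro g hg
    obtain ⟨hg1, hg2, hg3⟩ := Finset.mem_filter.1 hg
    rw [Fintype.mem_piFinset] at hg1
    refine ⟨fun a t => g (a, t), Fintype.mem_piFinset.2 fun a => Finset.mem_filter.2
      ⟨Fintype.mem_piFinset.2 fun t => hg1 (a, t), ?_, ?_⟩, rfl⟩
    · intro t t' hne
      apply hg2
      intro h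
      exact hne (Prod.mk.inj h).2
    · exact congrFun hg3 a
  · intro GG _
    rw [Fintype.prod_prod_type]

theorem uc_dj {g : ι × T → Finset (Pl K)} (hg : Dj g) : Dj (uc g) := by
  intro i i' hii'
  rw [Finset.disjoint_left]
  intro v hv hv'
  obtain ⟨t, h1⟩ := col_mem_uc.1 hv
  obtain ⟨t', h2⟩ := col_mem_uc.1 hv'
  have hne : (i, t) ≠ (i', t') := fun h => hii' (Prod.mk.inj h).1
  exact Finset.disjoint_left.1 (hg _ _ hne) h1 h2

theorem uc_nr {g : ι × T → Finset (Pl K)} (hg : Dj g) : ∏ a, nr (uc g a) = ∏ a, nr (g a) := by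
  rw [Fintype.prod_prod_type]
  refine Finset.prod_congr rfl fun a _ => ?_
  unfold nr uc
  rw [Finset.prod_biUnion]
  intro t _ t' _ hne
  exact hg _ _ fun h => hne (Prod.mk.inj h).2

theorem col {M A : Type} [CommSemiring M] (D : RD0 K p ζ) (X : ℝ)
    (c : (ι → Finset (Pl K)) → M) (hc : ∀ f, c f ≠ 0 → Dj f ∧ ∏ a, nr (f a) ≤ X)
    (S : (ι → Finset (Pl K)) → Finset A) (u : A → ι × T → Pl K → M) :
    (∑ f ∈ Fintype.piFinset (fun _ : ι => GF D X),
      c f * ∑ ρ ∈ S f, ∏ a, ∏ v ∈ f a, ∑ t, u ρ (a, t) v) =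
      ∑ g ∈ Fintype.piFinset (fun _ : ι × T => GF D X),
        if Dj g then c (uc g) * ∑ ρ ∈ S (uc g), ∏ a, ∏ v ∈ g a, u ρ a v else 0 := by
  have h1 : ∀ f ∈ Fintype.piFinset (fun _ : ι => GF D X), f ∉
      (Fintype.piFinset (fun _ : ι => GF D X)).filter (fun f => c f ≠ 0) →
      c f * ∑ ρ ∈ S f, ∏ a, ∏ v ∈ f a, ∑ t, u ρ (a, t) v = 0 := by
    intro f hf hf'
    have : c f = 0 := by
      by_contra h0
      exact hf' (Finset.mem_filter.2 ⟨hf, h0⟩)
    rw [this, zero_mul]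
  rw [← Finset.sum_subset (Finset.filter_subset (fun f => c f ≠ 0) _) h1]
  have h2 : ∀ g ∈ Fintype.piFinset (fun _ : ι × T => GF D X), g ∉
      (Fintype.piFinset (fun _ : ι × T => GF D X)).filter (fun g => Dj g ∧ c (uc g) ≠ 0) →
      (if Dj g then c (uc g) * ∑ ρ ∈ S (uc g), ∏ a, ∏ v ∈ g a, u ρ a v else 0) = 0 := by
    intro g hg hg'
    by_cases hd : Dj g
    · rw [if_pos hd]
      have : c (uc g) = 0 := by
        by_contra h0
        exact hg' (Finset.mem_filter.2 ⟨hg, hd, h0⟩)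
      rw [this, zero_mul]
    · rw [if_neg hd]
  rw [← Finset.sum_subset (Finset.filter_subset (fun g => Dj g ∧ c (uc g) ≠ 0) _) h2]
  have hmaps : ∀ g ∈ (Fintype.piFinset (fun _ : ι × T => GF D X)).filter
      (fun g => Dj g ∧ c (uc g) ≠ 0),
      uc g ∈ (Fintype.piFinset (fun _ : ι => GF D X)).filter (fun f => c f ≠ 0) := by
    intro g hg
    obtain ⟨hg1, hg2, hg3⟩ := Finset.mem_filter.1 hg
    rw [Fintype.mem_piFinset] at hg1
    refine Finset.mem_filter.2 ⟨Fintype.mem_piFinset.2 fun a => atupa_mem_GF.2 ⟨?_, ?_⟩, hg3⟩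
    · exact (atupa_le_prod (uc g) a).trans (hc _ hg3).2
    · intro v hv
      obtain ⟨t, ht⟩ := col_mem_uc.1 hv
      exact (atupa_mem_GF.1 (hg1 (a, t))).2 v ht
  rw [← Finset.sum_fiberwise_of_maps_to hmaps]
  refine Finset.sum_congr rfl fun f hf => ?_
  obtain ⟨hf1, hf2⟩ := Finset.mem_filter.1 hf
  rw [Fintype.mem_piFinset] at hf1
  have h3 : ∑ ρ ∈ S f, ∏ a, ∏ v ∈ f a, ∑ t, u ρ (a, t) v =
      ∑ g ∈ (Fintype.piFinset fun a : ι × T => (f a.1).powerset).filter
        (fun g => Dj g ∧ uc g = f), ∑ ρ ∈ S f, ∏ a, ∏ v ∈ g a, u ρ a v := by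
    rw [Finset.sum_comm]
    exact Finset.sum_congr rfl fun ρ _ => col_pt f (hc f hf2).1 (u ρ)
  rw [h3, Finset.mul_sum]
  have h4 : (Fintype.piFinset fun a : ι × T => (f a.1).powerset).filter
      (fun g => Dj g ∧ uc g = f) =
      ((Fintype.piFinset (fun _ : ι × T => GF D X)).filter
        (fun g => Dj g ∧ c (uc g) ≠ 0)).filter (fun g => uc g = f) := by
    ext g
    simp only [Finset.mem_filter, Fintype.mem_piFinset, Finset.mem_powerset]
    constructor
    · rintro ⟨h5, h6, h7⟩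
      refine ⟨⟨fun a => ?_, h6, ?_⟩, h7⟩
      · have h8 := atupa_mem_GF.1 (hf1 a.1)
        exact atupa_mem_GF.2 ⟨(nr_mono (h5 a)).trans h8.1, fun v hv => h8.2 v (h5 a hv)⟩
      · rw [h7]
        exact hf2
    · rintro ⟨⟨h5, h6, h8⟩, h7⟩
      refine ⟨fun a => ?_, h6, h7⟩
      rw [← h7]
      intro v hv
      exact col_mem_uc.2 ⟨a.2, hv⟩
  rw [h4]
  refine Finset.sum_congr rfl fun g hg => ?_
  obtain ⟨hg1, hg2⟩ := Finset.mem_filter.1 hg
  obtain ⟨hg3, hg4, hg5⟩ := Finset.mem_filter.1 hg1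
  rw [if_pos hg4, hg2]

end H77.PT
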