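import Pool.Agent.H77.PT.Pig
import Pool.Agent.H77.PT.Rhc
import Pool.Agent.H77.PC3.CMa

/-!
# H77-PT-FBD: the upper bound for `FSum` from the upper bound for the main pattern (MP_b39724_nt)
-/

set_option autoImplicit false

open scoped NumberField
open IsDedekindDomain
open scoped Classical

noncomputable section

namespace H77.PT

open H63.MA H38.BB H38.BG H57.PC H57.BRA H51.CUB H77.PC3

variable {K : Type} [Field K] [NumberField K] {p : ℕ} {ζ : K} {Ω : Type}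
  [Field Ω] [Algebra K Ω] [IsAlgClosure K Ω] {m l w N : ℕ} {P R : Type} [Group P] [Group R]

theorem fb_triv [NeZero p] [Finite P] [Finite R] (hp : p.Prime) (hζ : IsPrimitiveRoot ζ p)
    {D : RD0 K p ζ} (L : LDs D Ω) (Fr : FR L) (Dg : GP p m l w N P R) (hN : 1 ≤ N) :
    ∃ C : ℝ, 1 ≤ C ∧ ∃ B : ℕ, ∀ (b : Fin m → Kˣ) (E : Finset (Pl K))
      (ε : Pl K → Gal(Ω/K) → R) (Y : ℝ), 1 ≤ Y →
      FSum Dg Fr b E ε Y ≤ C * Y * (1 + Real.log Y) ^ B := by
  obtain ⟨C₁, hC₁, h1⟩ := fw_le hp hζ L Fr Dg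
  obtain ⟨k, hk⟩ := exists_nat_ge C₁
  have hk1 : 1 ≤ k := by
    have : (1 : ℝ) ≤ k := hC₁.trans hk
    exact_mod_cast this
  have hne : Nonempty (Fin N) := ⟨⟨0, by omega⟩⟩
  obtain ⟨C₂, hC₂, B, h2⟩ := trv D (Fin N) k hk1
  refine ⟨C₁ * C₂, by nlinarith, B, fun b E ε Y hY => ?_⟩
  have h3 : FSum Dg Fr b E ε Y ≤ ∑ f ∈ Fintype.piFinset (fun _ : Fin N => GF D Y),
      C₁ * (if Dj f ∧ ∏ a, nr (f a) ≤ Y then (k : ℝ) ^ (∑ a, (f a).card) else 0) := by
    unfold FSum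
    refine Finset.sum_le_sum fun f _ => ?_
    split_ifs with h4 h5 h5
    · refine (h1 b E ε f).trans ?_
      refine mul_le_mul_of_nonneg_left ?_ (by linarith)
      exact pow_le_pow_left₀ (by linarith) hk _
    · exact absurd ⟨h4.1, h4.2.2.1⟩ h5
    · positivity
    · rw [mul_zero]
  rw [← Finset.mul_sum] at h3
  refine h3.trans ?_
  have h6 : (∑ f ∈ Fintype.piFinset (fun _ : Fin N => GF D Y),
      if Dj f ∧ ∏ a, nr (f a) ≤ Y then (k : ℝ) ^ (∑ a, (f a).card) else 0) ≤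
        C₂ * Y * (1 + Real.log Y) ^ B := by
    refine le_trans (le_of_eq ?_) (h2 Y Y hY le_rfl)
    exact Finset.sum_congr (by ext; simp only [Fintype.mem_piFinset]) fun _ _ => rfl
  have h7 := mul_le_mul_of_nonneg_left h6 (by linarith : (0 : ℝ) ≤ C₁)
  refine h7.trans (le_of_eq ?_)
  ring

/-- a power of `log Y` against `thr Y 0` -/
theorem log_thr (B : ℕ) (η : ℝ) (hη : 0 < η) : ∃ C : ℝ, 1 ≤ C ∧ ∀ Y : ℝ,
    Real.exp (Real.exp 1) ≤ Y → (1 + Real.log Y) ^ B ≤ C * thr Y 0 ^ η := by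
  refine ⟨2 ^ B * Real.exp (B * (1 + B / η)), ?_, fun Y hY => ?_⟩
  · have h1 : (1 : ℝ) ≤ 2 ^ B := one_le_pow₀ (by norm_num)
    have h2 : 1 ≤ Real.exp (B * (1 + B / η)) := Real.one_le_exp (by positivity)
    nlinarith
  have hYp : 0 < Y := lt_of_lt_of_le (Real.exp_pos _) hY
  have hlY : Real.exp 1 ≤ Real.log Y := by
    rw [Real.le_log_iff_exp_le hYp]
    exact hY
  have hl0 : 0 < Real.log Y := lt_of_lt_of_le (Real.exp_pos _) hlY
  have hx : 1 ≤ Real.log (Real.log Y) := by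
    rw [Real.le_log_iff_exp_le hl0]
    exact hlY
  obtain ⟨x, hxe⟩ : ∃ x : ℝ, x = Real.log (Real.log Y) := ⟨_, rfl⟩
  rw [← hxe] at hx
  have hle : Real.log Y = Real.exp x := by rw [hxe, Real.exp_log hl0]
  have h1 : 1 + Real.log Y ≤ 2 * Real.exp x := by
    have : 1 ≤ Real.exp x := Real.one_le_exp (by linarith)
    rw [hle]
    linarith
  have h2 : (B : ℝ) * x ≤ η * x ^ 3 + B * (1 + B / η) := by
    have hB : (0 : ℝ) ≤ B := Nat.cast_nonneg B
    by_cases hc : (B : ℝ) / η ≤ x ^ 2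
    · have h3 : (B : ℝ) ≤ η * x ^ 2 := by
        rw [div_le_iff₀ hη] at hc
        linarith
      have h4 : 0 ≤ (B : ℝ) * (1 + B / η) := by positivity
      nlinarith
    · push Not at hc
      have h3 : x ≤ 1 + B / η := by nlinarith
      have h4 : 0 ≤ η * x ^ 3 := by positivity
      nlinarith [mul_le_mul_of_nonneg_left h3 hB]
  have ht : thr Y 0 ^ η = Real.exp (η * x ^ 3) := by
    unfold thr
    rw [← hxe, ← Real.exp_mul]
    congr 1
    norm_num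
    ring
  rw [ht]
  calc (1 + Real.log Y) ^ B ≤ (2 * Real.exp x) ^ B :=
        pow_le_pow_left₀ (by linarith) h1 B
    _ = 2 ^ B * Real.exp (B * x) := by rw [mul_pow, ← Real.exp_nat_mul]
    _ ≤ 2 ^ B * Real.exp (η * x ^ 3 + B * (1 + B / η)) := by
        refine mul_le_mul_of_nonneg_left (Real.exp_le_exp.2 h2) (by positivity)
    _ = 2 ^ B * Real.exp (B * (1 + B / η)) * Real.exp (η * x ^ 3) := by
        rw [Real.exp_add]
        ring

theorem fbd_of_mup [NeZero p] [Finite P] [Finite R] (hp : p.Prime) (hp2 : MOne p K)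
    (hζ : IsPrimitiveRoot ζ p) (hz2 : Z2 p K) (D : RD K p ζ) (L : LDs D.toRD0 Ω) (Fr : FR L)
    (Dg : GP p m l w N P R) (hN : 1 ≤ N) (hM : MUp Dg Fr) : FBd Dg Fr := by
  intro η hη
  obtain ⟨C₁, Y₁, hC₁, hY₁, h1⟩ := hM η hη
  obtain ⟨C₂, Y₂, hC₂, hY₂, h2⟩ := sup_all hp hp2 hζ hz2 D L Fr Dg
  obtain ⟨C₃, hC₃, B, h3⟩ := fb_triv hp hζ L Fr Dg hN
  obtain ⟨C₄, hC₄, h4⟩ := log_thr B η hη
  obtain ⟨Y₃, hY₃⟩ : ∃ Y₃ : ℝ, Y₃ = max (max Y₁ Y₂) (Real.exp (Real.exp 1)) := ⟨_, rfl⟩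
  have hY₃1 : 3 ≤ Y₃ := by
    rw [hY₃]
    exact le_trans hY₁ (le_trans (le_max_left _ _) (le_max_left _ _))
  have hl3 : 0 ≤ Real.log Y₃ := Real.log_nonneg (by linarith)
  refine ⟨C₁ + C₂ + C₃ * C₄ + C₃ * (1 + Real.log Y₃) ^ B, by positivity, ?_⟩
  intro b E hb ε Y hY
  have hl : 0 ≤ Real.log Y := Real.log_nonneg hY
  have hnE : 1 ≤ nr E := one_le_nr E
  have hnη : 1 ≤ nr E ^ η := Real.one_le_rpow hnE hη.le
  have hpow : 1 ≤ (1 + Real.log Y) ^ (N - 1) := one_le_pow₀ (by linarith)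
  obtain ⟨u, hu⟩ : ∃ u : ℝ, u = (1 + Real.log Y) ^ (N - 1) := ⟨_, rfl⟩
  obtain ⟨e, he⟩ : ∃ e : ℝ, e = nr E ^ η := ⟨_, rfl⟩
  rw [← he] at hnη ⊢
  rw [← hu] at hpow ⊢
  have hY0 : 0 < Y := by linarith
  have heu : 1 ≤ e * u := by nlinarith
  have h5 := h3 b E ε Y hY
  have hQ1 : 0 ≤ C₁ + C₂ := by linarith
  have hQ2 : 0 ≤ C₃ * C₄ := by nlinarith
  have hQ3 : 0 ≤ C₃ * (1 + Real.log Y₃) ^ B := by positivity
  have hYeu : 0 ≤ e * Y * u := by positivity
  by_cases hc : Y₃ ≤ Y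
  · by_cases hE : nr E ≤ thr Y 0
    · have hYa : Y₁ ≤ Y := by
        refine le_trans ?_ hc
        rw [hY₃]
        exact le_trans (le_max_left _ _) (le_max_left _ _)
      have hYb : Y₂ ≤ Y := by
        refine le_trans ?_ hc
        rw [hY₃]
        exact le_trans (le_max_right _ _) (le_max_left _ _)
      have a1 := h1 Y hYa b E hb hE ε
      have a2 := h2 Y hYb b E hb hE ε
      rw [← he, ← hu] at a1
      rw [← hu] at a2
      have hsplit : FSum Dg Fr b E ε Y =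
          (∑ f ∈ Fintype.piFinset (fun _ : Fin N => GF D.toRD0 Y),
            if (Dj f ∧ (∀ i, Disjoint (f i) E) ∧ ∏ i, nr (f i) ≤ Y ∧ SpR Dg.cr b f) ∧
              (∀ i, ∃ v ∈ f i, thr Y 1 < nm v) then FW Dg Fr b E ε f else 0) +
          ∑ f ∈ Fintype.piFinset (fun _ : Fin N => GF D.toRD0 Y),
            if (Dj f ∧ (∀ i, Disjoint (f i) E) ∧ ∏ i, nr (f i) ≤ Y ∧ SpR Dg.cr b f) ∧
              ¬ (∀ i, ∃ v ∈ f i, thr Y 1 < nm v) then FW Dg Fr b E ε f else 0 := by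
        unfold FSum
        rw [← Finset.sum_add_distrib]
        refine Finset.sum_congr rfl fun f _ => ?_
        by_cases h6 : Dj f ∧ (∀ i, Disjoint (f i) E) ∧ ∏ i, nr (f i) ≤ Y ∧ SpR Dg.cr b f
        · by_cases h7 : ∀ i, ∃ v ∈ f i, thr Y 1 < nm v
          · rw [if_pos h6, if_pos ⟨h6, h7⟩, if_neg (fun hh => hh.2 h7), add_zero]
          · rw [if_pos h6, if_neg (fun hh => h7 hh.2), if_pos ⟨h6, h7⟩, zero_add]
        · rw [if_neg h6, if_neg (fun hh => h6 hh.1), if_neg (fun hh => h6 hh.1), add_zero]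
      rw [hsplit]
      have a3 : C₂ * Y * u ≤ C₂ * (e * Y * u) := by
        have : Y * u ≤ e * (Y * u) := le_mul_of_one_le_left (by positivity) hnη
        nlinarith
      calc _ ≤ C₁ * e * Y * u + C₂ * Y * u := add_le_add a1 a2
        _ ≤ C₁ * (e * Y * u) + C₂ * (e * Y * u) := by nlinarith
        _ ≤ _ := by nlinarith
    · push Not at hE
      have hYc : Real.exp (Real.exp 1) ≤ Y := by
        refine le_trans ?_ hc
        rw [hY₃]
        exact le_max_right _ _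
      have a1 := h4 Y hYc
      have a2 : thr Y 0 ^ η ≤ e := by
        rw [he]
        exact Real.rpow_le_rpow (Real.exp_pos _).le hE.le hη.le
      have a3 : (1 + Real.log Y) ^ B ≤ C₄ * e :=
        a1.trans (mul_le_mul_of_nonneg_left a2 (by linarith))
      calc FSum Dg Fr b E ε Y ≤ C₃ * Y * (1 + Real.log Y) ^ B := h5
        _ ≤ C₃ * Y * (C₄ * e) := mul_le_mul_of_nonneg_left a3 (by positivity)
        _ ≤ C₃ * Y * (C₄ * e) * u := le_mul_of_one_le_right (by positivity) hpow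
        _ = C₃ * C₄ * (e * Y * u) := by ring
        _ ≤ _ := by nlinarith
  · push Not at hc
    have a1 : (1 + Real.log Y) ^ B ≤ (1 + Real.log Y₃) ^ B := by
      refine pow_le_pow_left₀ (by linarith) ?_ B
      have := Real.log_le_log hY0 hc.le
      linarith
    calc FSum Dg Fr b E ε Y ≤ C₃ * Y * (1 + Real.log Y) ^ B := h5
      _ ≤ C₃ * Y * (1 + Real.log Y₃) ^ B := mul_le_mul_of_nonneg_left a1 (by positivity)
      _ ≤ C₃ * Y * (1 + Real.log Y₃) ^ B * (e * u) :=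
          le_mul_of_one_le_right (by positivity) heu
      _ = C₃ * (1 + Real.log Y₃) ^ B * (e * Y * u) := by ring
      _ ≤ _ := by nlinarith

/-- the upper bounds for the main pattern -/
def MUpAll (p : ℕ) [NeZero p] : Prop :=
  ∀ (K : Type) [Field K] [NumberField K] (Ω : Type) [Field Ω] [Algebra K Ω] [IsAlgClosure K Ω]
    (ζ : K) (_ : IsPrimitiveRoot ζ p) (_ : MOne p K) (_ : Z2 p K) (D : RD K p ζ)
    (L : LDs D.toRD0 Ω) (Fr : FR L) (m l w N : ℕ) (P R : Type) [Group P] [Finite P] [Group R]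
    (Dg : GP p m l w N P R), 1 ≤ N → MUp Dg Fr

theorem fbd_all {p : ℕ} [NeZero p] (hp : p.Prime) (h : MUpAll p) : FBdAll p := by
  intro K _ _ Ω _ _ _ ζ hζ hp2 hz2 D L Fr m l w N P R _ _ _ Dg hN
  have hR : Finite R := Finite.of_surjective Dg.q Dg.qs
  exact fbd_of_mup hp hp2 hζ hz2 D L Fr Dg hN (h K Ω ζ hζ hp2 hz2 D L Fr m l w N P R Dg hN)

end H77.PT
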