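import Pool.Agent.H77.PT.Dq

/-!
# [H77 PT FOU] Fourier coefficients on `(ZMod p)^N`, 60-100 lines. File Pool/Agent/H77/PT/Fou.lean

`fco φ θ = p^(-N) ∑ t, φ t * ep (-(θ · t))`.
* `fco_inv`: `∑ θ, fco φ θ * ep (θ · t) = p^(-N) ∑ t', φ t' ∑ θ, ep (θ · (t - t'))`, and `∑ θ, ep (θ · u)` is `p ^ N` for `u = 0` and `0` otherwise (`rx_char` of Pool/Agent/H38/BB/CExp.lean with `⊤`, or the product over the coordinates).
* `fco_le`: triangle inequality. `fco_zero`: shift of the summation variable by `Pi.single j 1` gives `fco φ θ = ep (-(θ j)) * fco φ θ`, and `ep (θ j) ≠ 1` for `θ j ≠ 0` (`ep p a = 1 ↔ a = 0` for `p` prime; see the lemmas on `ep` in Pool/Agent/H63/MA, grep `ep_eq_one`, `ep_ne`).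
-/

set_option autoImplicit false

open scoped NumberField
open IsDedekindDomain
open scoped Classical

noncomputable section

namespace H77.PT

open H63.MA H38.BB H38.BG H57.PC H51.CUB H77.PC3

/-- the Fourier coefficients -/
def fco {p N : ℕ} [NeZero p] (φ : (Fin N → ZMod p) → ℝ) (θ : Fin N → ZMod p) : ℂ :=
  ((((p : ℝ) ^ N)⁻¹ : ℝ) : ℂ) * ∑ t, ((φ t : ℝ) : ℂ) * ep p (-(dt θ t))

private theorem fou_ep_sum {p N : ℕ} (hp : p.Prime) (f : Fin N → ZMod p) (S : Finset (Fin N)) :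
    ep p (∑ k ∈ S, f k) = ∏ k ∈ S, ep p (f k) := by
  induction S using Finset.induction_on with
  | empty => rw [Finset.sum_empty, Finset.prod_empty, ep_zero]
  | insert a S ha ih => rw [Finset.sum_insert ha, Finset.prod_insert ha, ep_add hp, ih]

/-- orthogonality -/
private theorem fou_orth {p N : ℕ} [NeZero p] (hp : p.Prime) (u : Fin N → ZMod p) :
    ∑ θ : Fin N → ZMod p, ep p (dt θ u) = if u = 0 then (p : ℂ) ^ N else 0 := by
  have h1 : ∀ θ : Fin N → ZMod p, ep p (dt θ u) = ∏ k, ep p (θ k * u k) := fun θ =>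
    fou_ep_sum hp (fun k => θ k * u k) Finset.univ
  rw [Finset.sum_congr rfl fun θ _ => h1 θ,
    ← Fintype.prod_sum (fun (k : Fin N) (a : ZMod p) => ep p (a * u k)),
    Finset.prod_congr rfl fun k _ => ep_sum hp (u k)]
  split_ifs with h
  · rw [Finset.prod_congr rfl fun k _ => if_pos (by rw [h]; rfl), Finset.prod_const,
      Finset.card_univ, Fintype.card_fin]
  · have h2 : ∃ k, u k ≠ 0 := by
      by_contra h3
      push Not at h3
      exact h (funext h3)
    obtain ⟨k, hk⟩ := h2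
    exact Finset.prod_eq_zero (Finset.mem_univ k) (if_neg hk)

private theorem fou_dt_sub {p N : ℕ} (θ t t' : Fin N → ZMod p) :
    dt θ (t - t') = dt θ t + -(dt θ t') := by
  unfold dt
  rw [← sub_eq_add_neg, ← Finset.sum_sub_distrib]
  refine Finset.sum_congr rfl fun k _ => ?_
  rw [Pi.sub_apply, mul_sub]

theorem fco_inv {p N : ℕ} [NeZero p] (hp : p.Prime) (φ : (Fin N → ZMod p) → ℝ)
    (t : Fin N → ZMod p) : ((φ t : ℝ) : ℂ) = ∑ θ, fco φ θ * ep p (dt θ t) := by
  have h1 : ∑ θ, fco φ θ * ep p (dt θ t) = ((((p : ℝ) ^ N)⁻¹ : ℝ) : ℂ) *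
      ∑ t', ((φ t' : ℝ) : ℂ) * ∑ θ : Fin N → ZMod p, ep p (dt θ (t - t')) := by
    unfold fco
    rw [Finset.mul_sum]
    simp only [Finset.mul_sum, Finset.sum_mul]
    rw [Finset.sum_comm]
    refine Finset.sum_congr rfl fun t' _ => Finset.sum_congr rfl fun θ _ => ?_
    rw [fou_dt_sub, ep_add hp]
    ring
  rw [h1]
  have h2 : ∑ t', ((φ t' : ℝ) : ℂ) * ∑ θ : Fin N → ZMod p, ep p (dt θ (t - t')) =
      ((φ t : ℝ) : ℂ) * (p : ℂ) ^ N := by
    rw [Finset.sum_eq_single t]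
    · rw [fou_orth hp, if_pos (sub_self t)]
    · intro t' _ ht
      rw [fou_orth hp, if_neg (sub_ne_zero.2 ht.symm), mul_zero]
    · intro h
      exact absurd (Finset.mem_univ t) h
  rw [h2]
  have h3 : ((p : ℂ) ^ N) ≠ 0 := pow_ne_zero _ (by exact_mod_cast hp.ne_zero)
  push_cast
  field_simp

theorem fco_le {p N : ℕ} [NeZero p] (φ : (Fin N → ZMod p) → ℝ) (hφ : ∀ t, 0 ≤ φ t)
    (θ : Fin N → ZMod p) : ‖fco φ θ‖ ≤ ((p : ℝ) ^ N)⁻¹ * ∑ t, φ t := by
  unfold fco
  rw [norm_mul, Complex.norm_real, Real.norm_eq_abs, abs_of_nonneg (by positivity)]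
  refine mul_le_mul_of_nonneg_left ?_ (by positivity)
  refine (norm_sum_le _ _).trans (Finset.sum_le_sum fun t _ => ?_)
  rw [norm_mul, ep_norm, mul_one, Complex.norm_real, Real.norm_eq_abs, abs_of_nonneg (hφ t)]

theorem fco_zero {p N : ℕ} [NeZero p] (hp : p.Prime) (φ : (Fin N → ZMod p) → ℝ)
    (θ : Fin N → ZMod p) (j : Fin N) (h : ∀ t, φ (t + Pi.single j 1) = φ t) (hj : θ j ≠ 0) :
    fco φ θ = 0 := by
  obtain ⟨S, hS⟩ : ∃ S : ℂ, S = ∑ t, ((φ t : ℝ) : ℂ) * ep p (-(dt θ t)) := ⟨_, rfl⟩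
  have h1 : S = ep p (-(θ j)) * S := by
    conv_lhs => rw [hS, ← Equiv.sum_comp (Equiv.addRight (Pi.single j (1 : ZMod p)))]
    rw [hS, Finset.mul_sum]
    refine Finset.sum_congr rfl fun t _ => ?_
    rw [Equiv.coe_addRight, h t]
    have h2 : dt θ (t + Pi.single j 1) = dt θ t + θ j := by
      unfold dt
      have h3 : θ j = ∑ k, θ k * (Pi.single j (1 : ZMod p) : Fin N → ZMod p) k := by
        rw [Finset.sum_eq_single j]
        · simp
        · intro k _ hk
          simp [hk]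
        · intro h
          exact absurd (Finset.mem_univ j) h
      rw [h3, ← Finset.sum_add_distrib]
      refine Finset.sum_congr rfl fun k _ => ?_
      rw [Pi.add_apply, mul_add]
    rw [h2, neg_add, ep_add hp]
    ring
  have h2 : ep p (-(θ j)) ≠ 1 := fun h3 => hj (neg_eq_zero.1 ((ep_eq_one hp _).1 h3))
  have h3 : S = 0 := by
    have h4 : (ep p (-(θ j)) - 1) * S = 0 := by
      rw [sub_mul, one_mul, ← h1, sub_self]
    rcases mul_eq_zero.1 h4 with h5 | h5
    · exact absurd (sub_eq_zero.1 h5) h2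
    · exact h5
  unfold fco
  rw [← hS, h3, mul_zero]

end H77.PT
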