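import Pool.Agent.H77.PT.Col
import Pool.Agent.H77.PT.Fou
import Pool.Agent.H77.PT.Fxp
import Pool.Agent.H57.LS.Def

/-!
# H77-PT-APD: definitions for the Fourier expansion over the large primes (MP_b39724_nt)

`G` a finite group, `Z : Multiplicative (Fin N → ZMod p) →* G` central, `C i` subgroups of `G`, `r : Pl K → G` any function. Types `a = (i, (θ, c))`, `i : Fin N`, `θ : Fin N → ZMod p`, `c : Fin #G` a colour.
* `cc a v`: the Fourier coefficient of `t ↦ fx (C i) (r v * Z t)` at `θ`, divided by `#G`.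
* `PJ`: the phase data. `ka a n`: the weight of a set `n` of primes of type `a`. `RS I S`: the type `S` is a support with classes `I` and admissible `θ` (`θ i = 0`, `θ j = 0` for `j ∉ I`). `TJ S`: the sum over the families with support `S`.
-/

set_option autoImplicit false

open scoped NumberField
open IsDedekindDomain
open scoped Classical

noncomputable section

namespace H77.PT

open H63.MA H38.BB H38.BG H57.PC H51.CUB H77.PC3 H57.LS

/-- the types -/
abbrev AJ (N p M : ℕ) : Type := Fin N × ((Fin N → ZMod p) × Fin M)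

/-- the phase data -/
def PJ (N p M : ℕ) : PD p N (AJ N p M) where
  x a := Pi.single a.1 1
  θ a := if a.2.1 a.1 = 0 then a.2.1 else 0
  self a := by
    by_cases h : a.2.1 a.1 = 0
    · rw [if_pos h]
      unfold dt
      rw [Finset.sum_eq_single a.1 (fun j _ hj => by rw [Pi.single_eq_of_ne hj, mul_zero])
        (fun h' => absurd (Finset.mem_univ _) h'), h, zero_mul]
    · rw [if_neg h]
      unfold dt
      exact Finset.sum_eq_zero fun j _ => by rw [Pi.zero_apply, zero_mul]

variable {K : Type} [Field K] [NumberField K] {p : ℕ} {ζ : K} {G : Type} [Group G] {N : ℕ}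

/-- the normalised Fourier coefficients -/
def cc [NeZero p] (Z : Multiplicative (Fin N → ZMod p) →* G) (C : Fin N → Subgroup G)
    (r : Pl K → G) (M : ℕ) (a : AJ N p M) (v : Pl K) : ℂ :=
  fco (fun t => fx (C a.1) (r v * Z (Multiplicative.ofAdd t))) a.2.1 / (M : ℂ)

/-- the weights -/
def ka [NeZero p] (Z : Multiplicative (Fin N → ZMod p) →* G) (C : Fin N → Subgroup G)
    (r : Pl K → G) (Bd : Finset (Pl K)) (z₂ : ℝ) (M : ℕ) (a : AJ N p M) (n : Finset (Pl K)) : ℂ :=
  if ∀ v ∈ n, z₂ < nm v ∧ v ∉ Bd then ∏ v ∈ n, cc Z C r M a v else 0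

/-- admissible supports with classes `I` -/
def RS (I : Finset (Fin N)) {M : ℕ} (S : Finset (AJ N p M)) : Prop :=
  (∀ i, i ∈ I ↔ ∃ a ∈ S, a.1 = i) ∧ ∀ a ∈ S, a.2.1 a.1 = 0 ∧ ∀ j, j ∉ I → a.2.1 j = 0

/-- the sum over the families with support `S` -/
def TJ [NeZero p] (D : RD0 K p ζ) (Z : Multiplicative (Fin N → ZMod p) →* G)
    (C : Fin N → Subgroup G) (r : Pl K → G) (Bd : Finset (Pl K)) (z₂ X Y : ℝ) (M : ℕ)
    (S : Finset (AJ N p M)) : ℂ :=
  TT3 D (PJ N p M) (fun _ => 1) ∅ (fun _ => 0) (fun _ : AJ N p M => (0 : Fin 1)) (fun _ => X)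
    (2 * Y) S z₂ (fun _ => ∅) (ka Z C r Bd z₂ M) (fun _ => 1)

end H77.PT
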