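import Pool.Agent.H77.PT.Apx

/-!
# [H77 PT APU] the unlinked supports, 120-180 lines. File Pool/Agent/H77/PT/Apu.lean

`apu`: the sum of the `‖TJ S‖` over the admissible unlinked supports `S` (`RS I S`, `lk a a' = 0` for all `a, a' ∈ S`) is at most `p^(N*N)` times the sum over the `f` with `Lc` of `∏ i, ∏ v ∈ f i, fx (C i ⊔ Z.range) (r v)`.
PROOF. (1) Let `S` be admissible and unlinked. `lk a a' = a.2.1 (a'.1) + a'.2.1 (a.1)` for `a, a' ∈ S` (`PJ`, `RS`: `θ a = a.2.1`; `dt θ (single i 1) = θ i`). For `a, b ∈ S` with `a.1 = b.1`: `a.2.1 = b.2.1`: on `j ∉ I` both are `0`; for `j ∈ I` choose `a' ∈ S` with `a'.1 = j`: `a.2.1 j = - a'.2.1 (a.1) = b.2.1 j`. So there is `ϑ : Fin N → (Fin N → ZMod p)`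
with `a.2.1 = ϑ (a.1)` for all `a ∈ S`. (2) `‖TJ S‖ ≤ ∑_{g, support S, Dj, ∏ nr ≤ X, primes > z₂ off Bd} ∏ a, ∏ v ∈ g a, e (a.1) v`, `e i v = fx (C i ⊔ Z.range) (r v) / M` (`cc_le'`; `ep` has absolute value `1`; the families in `TT3`: for `a ∉ S` `g a = ∅`, for `a ∈ S` `z₂ < nr (g a)`, so `g a ≠ ∅`; then `uc g` satisfies `Lc I Bd z₂ X` by `RS`).
(3) Sum over `S` (each `g` has exactly one support) and bound `1[S ⊆ S_ϑ for some ϑ]` by the sum over all `ϑ` (their number is `p ^ (N * N)`): `∑_S ‖TJ S‖ ≤ ∑_ϑ ∑_g [Lc (uc g), Dj g] ∏ a, ∏ v ∈ g a, (if a.2.1 = ϑ a.1 then e a.1 v else 0)`. By `col` (over `ℝ`, `A = Unit`, `S f = univ`) this is `∑_ϑ ∑_f [Lc f] ∏ i, ∏ v ∈ f i, ∑_{(θ, c)} (if θ = ϑ i then e i v else 0)`, and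
the inner sum is `M * e i v = fx (C i ⊔ Z.range) (r v)` (`#G ≥ 1`).
-/

set_option autoImplicit false

open scoped NumberField
open IsDedekindDomain
open scoped Classical

noncomputable section

namespace H77.PT

open H63.MA H38.BB H38.BG H57.PC H51.CUB H77.PC3 H57.LS

variable {K : Type} [Field K] [NumberField K] {p : ℕ} {ζ : K} {G : Type} [Group G] {N : ℕ}

private theorem apu_dt (θ : Fin N → ZMod p) (i : Fin N) : dt θ (Pi.single i 1) = θ i := by
  unfold dt
  rw [Finset.sum_eq_single i (fun j _ hj => by rw [Pi.single_eq_of_ne hj, mul_zero])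
    (fun h' => absurd (Finset.mem_univ _) h'), Pi.single_eq_same, mul_one]

/-- unlinked admissible supports come from a function -/
private theorem apu_fun {M : ℕ} {I : Finset (Fin N)} {S : Finset (AJ N p M)} (hS : RS I S)
    (hl : ∀ a ∈ S, ∀ a' ∈ S, (PJ N p M).lk a a' = 0) :
    ∃ ϑ : Fin N → (Fin N → ZMod p), ∀ a ∈ S, a.2.1 = ϑ a.1 := by
  have hlk : ∀ a ∈ S, ∀ a' ∈ S, a.2.1 a'.1 + a'.2.1 a.1 = 0 := by
    intro a ha a' ha'
    have h1 := hl a ha a' ha'
    have h2 : (PJ N p M).θ a = a.2.1 := if_pos (hS.2 a ha).1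
    have h3 : (PJ N p M).θ a' = a'.2.1 := if_pos (hS.2 a' ha').1
    have h4 : ∀ b : AJ N p M, (PJ N p M).x b = Pi.single b.1 1 := fun _ => rfl
    unfold PD.lk at h1
    rw [h2, h3, h4, h4, apu_dt, apu_dt] at h1
    exact h1
  have heq : ∀ a ∈ S, ∀ b ∈ S, a.1 = b.1 → a.2.1 = b.2.1 := by
    intro a ha b hb hab
    funext j
    by_cases hj : j ∈ I
    · obtain ⟨a', ha', hj'⟩ := (hS.1 j).1 hj
      have h1 := hlk a ha a' ha'
      have h2 := hlk b hb a' ha'
      rw [hj', hab] at h1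
      rw [hj'] at h2
      exact add_right_cancel (h1.trans h2.symm)
    · rw [(hS.2 a ha).2 j hj, (hS.2 b hb).2 j hj]
  have hex : ∀ i : Fin N, ∃ t : Fin N → ZMod p, ∀ a ∈ S, a.1 = i → a.2.1 = t := by
    intro i
    by_cases h : ∃ b ∈ S, b.1 = i
    · obtain ⟨b, hb, hbi⟩ := h
      exact ⟨b.2.1, fun a ha hai => heq a ha b hb (hai.trans hbi.symm)⟩
    · exact ⟨0, fun a ha hai => absurd ⟨a, ha, hai⟩ h⟩
  choose ϑ hϑ using hex
  exact ⟨ϑ, fun a ha => hϑ a.1 a ha rfl⟩

/-- the weight of a family for the function `ϑ` -/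
private def apu_W [NeZero p] (I : Finset (Fin N)) (Bd : Finset (Pl K)) (z₂ X : ℝ) {M : ℕ}
    (e : Fin N → Pl K → ℝ) (ϑ : Fin N → (Fin N → ZMod p)) (g : AJ N p M → Finset (Pl K)) : ℝ :=
  if Dj g then (if Lc I Bd z₂ X (uc g) then 1 else 0) *
    ∑ _ρ ∈ (Finset.univ : Finset Unit), ∏ a, ∏ v ∈ g a,
      (if a.2.1 = ϑ a.1 then e a.1 v else 0) else 0

private theorem apu_W_nonneg [NeZero p] (I : Finset (Fin N)) (Bd : Finset (Pl K)) (z₂ X : ℝ) {M : ℕ}
    {e : Fin N → Pl K → ℝ} (he : ∀ i v, 0 ≤ e i v) (ϑ : Fin N → (Fin N → ZMod p))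
    (g : AJ N p M → Finset (Pl K)) : 0 ≤ apu_W I Bd z₂ X e ϑ g := by
  unfold apu_W
  split_ifs
  · rw [one_mul]
    refine Finset.sum_nonneg fun _ _ => Finset.prod_nonneg fun a _ =>
      Finset.prod_nonneg fun v _ => ?_
    split_ifs
    · exact he _ _
    · exact le_rfl
  · rw [zero_mul]
  · exact le_rfl

/-- the bound for one support -/
private theorem apu_TJ [NeZero p] [Finite G] (D : RD0 K p ζ)
    (I : Finset (Fin N)) (Z : Multiplicative (Fin N → ZMod p) →* G)
    (hZ : ∀ t x, Z t * x = x * Z t) (C : Fin N → Subgroup G) (r : Pl K → G)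
    (Bd : Finset (Pl K)) (z₂ X Y : ℝ) (hz : 1 ≤ z₂) (hX : X ≤ 2 * Y)
    {S : Finset (AJ N p (Nat.card G))} (hS : RS I S) (e : Fin N → Pl K → ℝ)
    (he : ∀ i v, e i v = fx (C i ⊔ Z.range) (r v) / Nat.card G)
    (ϑ : Fin N → (Fin N → ZMod p)) (hϑ : ∀ a ∈ S, a.2.1 = ϑ a.1) :
    ‖TJ D Z C r Bd z₂ X Y (Nat.card G) S‖ ≤
      ∑ g ∈ (Fintype.piFinset (fun _ : AJ N p (Nat.card G) => GF D (2 * Y))).filter
        (fun g => spt g = S), apu_W I Bd z₂ X e ϑ g := by
  have he0 : ∀ i v, 0 ≤ e i v := by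
    intro i v
    rw [he]
    exact div_nonneg (fx_nonneg _ _) (Nat.cast_nonneg _)
  have hka : ∀ (a : AJ N p (Nat.card G)) (n : Finset (Pl K)),
      ‖ka Z C r Bd z₂ (Nat.card G) a n‖ ≤
        if ∀ v ∈ n, z₂ < nm v ∧ v ∉ Bd then ∏ v ∈ n, e a.1 v else 0 := by
    intro a n
    unfold ka
    split_ifs
    · rw [norm_prod]
      refine Finset.prod_le_prod (fun v _ => norm_nonneg _) fun v _ => ?_
      rw [he]
      exact cc_le' Z hZ C r a v
    · rw [norm_zero]
  obtain ⟨A0, hA0⟩ : ∃ A0 : Finset (AJ N p (Nat.card G) → Finset (Pl K)), A0 =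
    Fintype.piFinset (fun a => if a ∈ S then GF D (2 * Y) else {∅}) := ⟨_, rfl⟩
  obtain ⟨A1, hA1⟩ : ∃ A1 : Finset (AJ N p (Nat.card G) → Finset (Pl K)), A1 =
    A0.filter (fun g => Cond2 (∅ : Finset (Pl K)) (fun _ : AJ N p (Nat.card G) => (0 : Fin 1))
      (fun _ => X) S z₂ g ∧ ∀ a, ∀ v ∈ g a, z₂ < nm v ∧ v ∉ Bd) := ⟨_, rfl⟩
  have h1 : ‖TJ D Z C r Bd z₂ X Y (Nat.card G) S‖ ≤
      ∑ g ∈ A1, ∏ a, ∏ v ∈ g a, e a.1 v := by
    have hT : TJ D Z C r Bd z₂ X Y (Nat.card G) S = ∑ g ∈ A0,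
        if Cond2 (∅ : Finset (Pl K)) (fun _ : AJ N p (Nat.card G) => (0 : Fin 1))
            (fun _ => X) S z₂ g then
          (∏ a, ka Z C r Bd z₂ (Nat.card G) a (g a)) *
            (1 * ep p (ph2 D (PJ N p (Nat.card G)) (fun _ => 1) ∅ (fun _ => 0) g))
        else 0 := by
      unfold TJ TT3
      refine Finset.sum_congr ?_ fun _ _ => rfl
      ext g
      simp only [hA0, Fintype.mem_piFinset]
    rw [hT, hA1, Finset.sum_filter]
    refine norm_sum_le_of_le _ fun g _ => ?_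
    by_cases hc : Cond2 (∅ : Finset (Pl K)) (fun _ : AJ N p (Nat.card G) => (0 : Fin 1))
      (fun _ => X) S z₂ g
    · rw [if_pos hc, norm_mul, one_mul, ep_norm, mul_one, norm_prod]
      by_cases hB : ∀ a, ∀ v ∈ g a, z₂ < nm v ∧ v ∉ Bd
      · rw [if_pos ⟨hc, hB⟩]
        refine Finset.prod_le_prod (fun a _ => norm_nonneg _) fun a _ => ?_
        have h2 := hka a (g a)
        rwa [if_pos (hB a)] at h2
      · rw [if_neg fun h => hB h.2]
        push Not at hB
        obtain ⟨a, v, hv, hva⟩ := hB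
        have h2 := hka a (g a)
        rw [if_neg fun h => (h v hv).2 (hva (h v hv).1)] at h2
        have h3 : ‖ka Z C r Bd z₂ (Nat.card G) a (g a)‖ = 0 := le_antisymm h2 (norm_nonneg _)
        exact (Finset.prod_eq_zero (Finset.mem_univ a) h3).le
    · rw [if_neg hc, norm_zero, if_neg fun h => hc h.1]
  refine h1.trans ?_
  have h2 : ∀ g ∈ A1, g ∈ (Fintype.piFinset (fun _ : AJ N p (Nat.card G) =>
      GF D (2 * Y))).filter (fun g => spt g = S) ∧
      ∏ a, ∏ v ∈ g a, e a.1 v = apu_W I Bd z₂ X e ϑ g := by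
    intro g hg
    rw [hA1, Finset.mem_filter, hA0, Fintype.mem_piFinset] at hg
    obtain ⟨hg1, ⟨⟨hdj, hlg, hpr⟩, -⟩, hB⟩ := hg
    have hnS : ∀ a, a ∉ S → g a = ∅ := by
      intro a ha
      have h3 := hg1 a
      rw [if_neg ha] at h3
      exact Finset.mem_singleton.1 h3
    have hinS : ∀ a ∈ S, g a ≠ ∅ := by
      intro a ha h3
      have h4 := hlg a ha
      rw [h3] at h4
      have h5 : nr (∅ : Finset (Pl K)) = 1 := by
        unfold nr
        rw [Finset.prod_empty]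
      rw [h5] at h4
      linarith
    have hprod : ∏ a, nr (g a) ≤ X := by
      have h3 := hpr 0
      rwa [Finset.filter_true_of_mem (fun _ _ => rfl)] at h3
    have hone : 1 ≤ ∏ a, nr (g a) := by
      calc (1 : ℝ) = ∏ _a : AJ N p (Nat.card G), (1 : ℝ) := by rw [Finset.prod_const_one]
        _ ≤ ∏ a, nr (g a) := Finset.prod_le_prod (fun _ _ => zero_le_one) fun a _ =>
            one_le_nr (g a)
    have hspt : spt g = S := by
      ext a
      unfold spt
      rw [Finset.mem_filter]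
      constructor
      · rintro ⟨-, h3⟩
        by_contra h4
        exact h3 (hnS a h4)
      · exact fun h3 => ⟨Finset.mem_univ _, hinS a h3⟩
    have hdjg : Dj g := hdj
    have hmem : ∀ i v, v ∈ uc g i ↔ ∃ t, v ∈ g (i, t) := by
      intro i v
      unfold uc
      rw [Finset.mem_biUnion]
      simp
    have hLc : Lc I Bd z₂ X (uc g) := by
      refine ⟨uc_dj hdjg, fun i => ?_, ?_, fun i => ?_, fun i v hv => ?_⟩
      · rw [Finset.disjoint_left]
        intro v hv hvB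
        obtain ⟨t, ht⟩ := (hmem i v).1 hv
        exact (hB (i, t) v ht).2 hvB
      · rw [uc_nr hdjg]
        exact hprod
      · rw [hS.1 i]
        constructor
        · rintro ⟨a, ha, rfl⟩ h3
          obtain ⟨v, hv⟩ := Finset.nonempty_iff_ne_empty.2 (hinS a ha)
          have h4 : v ∈ uc g a.1 := (hmem a.1 v).2 ⟨a.2, hv⟩
          rw [h3] at h4
          exact absurd h4 (Finset.notMem_empty v)
        · intro h3
          obtain ⟨v, hv⟩ := Finset.nonempty_iff_ne_empty.2 h3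
          obtain ⟨t, ht⟩ := (hmem i v).1 hv
          refine ⟨(i, t), ?_, rfl⟩
          by_contra h4
          rw [hnS _ h4] at ht
          exact absurd ht (Finset.notMem_empty v)
      · obtain ⟨t, ht⟩ := (hmem i v).1 hv
        exact (hB (i, t) v ht).1
    refine ⟨?_, ?_⟩
    · rw [Finset.mem_filter, Fintype.mem_piFinset]
      refine ⟨fun a => ?_, hspt⟩
      have h3 := hg1 a
      by_cases ha : a ∈ S
      · rwa [if_pos ha] at h3
      · rw [hnS a ha, atupa_mem_GF]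
        refine ⟨?_, fun v hv => absurd hv (Finset.notMem_empty v)⟩
        have h5 : nr (∅ : Finset (Pl K)) = 1 := by
          unfold nr
          rw [Finset.prod_empty]
        rw [h5]
        linarith
    · unfold apu_W
      rw [if_pos hdjg, if_pos hLc, one_mul, Fintype.sum_unique]
      refine Finset.prod_congr rfl fun a _ => ?_
      by_cases ha : a ∈ S
      · exact Finset.prod_congr rfl fun v _ => by rw [if_pos (hϑ a ha)]
      · rw [hnS a ha, Finset.prod_empty, Finset.prod_empty]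
  rw [Finset.sum_congr rfl fun g hg => (h2 g hg).2]
  exact Finset.sum_le_sum_of_subset_of_nonneg (fun g hg => (h2 g hg).1)
    fun g _ _ => apu_W_nonneg I Bd z₂ X he0 ϑ g

theorem apu [NeZero p] [Finite G] (hp : p.Prime) (D : RD0 K p ζ)
    (I : Finset (Fin N)) (Z : Multiplicative (Fin N → ZMod p) →* G)
    (hZ : ∀ t x, Z t * x = x * Z t) (C : Fin N → Subgroup G) (r : Pl K → G)
    (Bd : Finset (Pl K)) (z₂ X Y : ℝ) (hz : 1 ≤ z₂) (hX : X ≤ 2 * Y) :
    ∑ S ∈ Finset.univ.filter (fun S : Finset (AJ N p (Nat.card G)) => RS I S ∧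
        ∀ a ∈ S, ∀ a' ∈ S, (PJ N p (Nat.card G)).lk a a' = 0),
      ‖TJ D Z C r Bd z₂ X Y (Nat.card G) S‖ ≤
      (p : ℝ) ^ (N * N) * ∑ g ∈ Fintype.piFinset (fun _ : Fin N => GF D (2 * Y)),
        if Lc I Bd z₂ X g then ∏ i, ∏ v ∈ g i, fx (C i ⊔ Z.range) (r v) else 0 := by
  have hfin : Fintype G := Fintype.ofFinite G
  have hM : (0 : ℝ) < (Nat.card G : ℝ) := by exact_mod_cast Nat.card_pos
  obtain ⟨e, he⟩ : ∃ e : Fin N → Pl K → ℝ,
      ∀ i v, e i v = fx (C i ⊔ Z.range) (r v) / Nat.card G := ⟨_, fun _ _ => rfl⟩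
  have he0 : ∀ i v, 0 ≤ e i v := by
    intro i v
    rw [he]
    exact div_nonneg (fx_nonneg _ _) hM.le
  obtain ⟨A, hA⟩ : ∃ A : Finset (AJ N p (Nat.card G) → Finset (Pl K)), A =
    Fintype.piFinset (fun _ : AJ N p (Nat.card G) => GF D (2 * Y)) := ⟨_, rfl⟩
  have h1 : ∀ S ∈ Finset.univ.filter (fun S : Finset (AJ N p (Nat.card G)) => RS I S ∧
      ∀ a ∈ S, ∀ a' ∈ S, (PJ N p (Nat.card G)).lk a a' = 0),
      ‖TJ D Z C r Bd z₂ X Y (Nat.card G) S‖ ≤
        ∑ ϑ : Fin N → (Fin N → ZMod p), ∑ g ∈ A.filter (fun g => spt g = S),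
          apu_W I Bd z₂ X e ϑ g := by
    intro S hS
    obtain ⟨-, hS1, hS2⟩ := Finset.mem_filter.1 hS
    obtain ⟨ϑ, hϑ⟩ := apu_fun hS1 hS2
    have h2 := apu_TJ D I Z hZ C r Bd z₂ X Y hz hX hS1 e he ϑ hϑ
    rw [← hA] at h2
    refine h2.trans ?_
    exact Finset.single_le_sum (f := fun ϑ : Fin N → (Fin N → ZMod p) =>
      ∑ g ∈ A.filter (fun g => spt g = S), apu_W I Bd z₂ X e ϑ g)
      (fun ϑ _ => Finset.sum_nonneg fun g _ => apu_W_nonneg I Bd z₂ X he0 ϑ g)
      (Finset.mem_univ ϑ)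
  refine (Finset.sum_le_sum h1).trans ?_
  rw [Finset.sum_comm]
  have h3 : ∀ ϑ : Fin N → (Fin N → ZMod p),
      ∑ S ∈ Finset.univ.filter (fun S : Finset (AJ N p (Nat.card G)) => RS I S ∧
        ∀ a ∈ S, ∀ a' ∈ S, (PJ N p (Nat.card G)).lk a a' = 0),
        ∑ g ∈ A.filter (fun g => spt g = S), apu_W I Bd z₂ X e ϑ g ≤
      ∑ g ∈ Fintype.piFinset (fun _ : Fin N => GF D (2 * Y)),
        if Lc I Bd z₂ X g then ∏ i, ∏ v ∈ g i, fx (C i ⊔ Z.range) (r v) else 0 := by
    intro ϑ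
    calc ∑ S ∈ Finset.univ.filter (fun S : Finset (AJ N p (Nat.card G)) => RS I S ∧
          ∀ a ∈ S, ∀ a' ∈ S, (PJ N p (Nat.card G)).lk a a' = 0),
          ∑ g ∈ A.filter (fun g => spt g = S), apu_W I Bd z₂ X e ϑ g ≤
          ∑ S : Finset (AJ N p (Nat.card G)),
            ∑ g ∈ A.filter (fun g => spt g = S), apu_W I Bd z₂ X e ϑ g :=
          Finset.sum_le_sum_of_subset_of_nonneg (Finset.filter_subset _ _) fun S _ _ =>
            Finset.sum_nonneg fun g _ => apu_W_nonneg I Bd z₂ X he0 ϑ g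
      _ = ∑ g ∈ A, apu_W I Bd z₂ X e ϑ g := Finset.sum_fiberwise A spt _
      _ = ∑ f ∈ Fintype.piFinset (fun _ : Fin N => GF D (2 * Y)),
          (if Lc I Bd z₂ X f then 1 else 0) * ∑ ρ ∈ (Finset.univ : Finset Unit),
            ∏ a, ∏ v ∈ f a, ∑ t : (Fin N → ZMod p) × Fin (Nat.card G),
              (if t.1 = ϑ a then e a v else 0) := by
          have hc := (col (M := ℝ) (A := Unit) (ι := Fin N) (T := (Fin N → ZMod p) × Fin (Nat.card G))
            D (2 * Y) (fun f => if Lc I Bd z₂ X f then 1 else 0)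
            (fun f hf => by
              by_cases hL : Lc I Bd z₂ X f
              · exact ⟨hL.1, hL.2.2.1.trans hX⟩
              · exact absurd (if_neg hL) hf)
            (fun _ => Finset.univ)
            (fun _ a v => if a.2.1 = ϑ a.1 then e a.1 v else 0)).symm
          rw [hA]
          refine (Finset.sum_congr ?_ fun _ _ => rfl).trans
            (hc.trans (Finset.sum_congr ?_ fun _ _ => rfl))
          · ext g
            simp only [Fintype.mem_piFinset]
          · ext g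
            simp only [Fintype.mem_piFinset]
      _ = ∑ g ∈ Fintype.piFinset (fun _ : Fin N => GF D (2 * Y)),
          if Lc I Bd z₂ X g then ∏ i, ∏ v ∈ g i, fx (C i ⊔ Z.range) (r v) else 0 := by
          refine Finset.sum_congr rfl fun f _ => ?_
          rw [Fintype.sum_unique]
          have h4 : ∀ (i : Fin N) (v : Pl K), ∑ t : (Fin N → ZMod p) × Fin (Nat.card G),
              (if t.1 = ϑ i then e i v else 0) = fx (C i ⊔ Z.range) (r v) := by
            intro i v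
            rw [Fintype.sum_prod_type, Finset.sum_eq_single (ϑ i)
              (fun θ _ hθ => Finset.sum_eq_zero fun y _ => if_neg hθ)
              (fun h' => absurd (Finset.mem_univ _) h'),
              Finset.sum_congr rfl fun y _ => if_pos rfl, Finset.sum_const,
              Finset.card_univ, Fintype.card_fin, nsmul_eq_mul, he]
            field_simp
          simp only [h4]
          split_ifs
          · rw [one_mul]
          · rw [zero_mul]
  refine (Finset.sum_le_sum fun ϑ _ => h3 ϑ).trans (le_of_eq ?_)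
  rw [Finset.sum_const, Finset.card_univ, nsmul_eq_mul]
  congr 1
  rw [Fintype.card_fun, Fintype.card_fun, ZMod.card, Fintype.card_fin, ← pow_mul]
  push_cast
  rfl

end H77.PT
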