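import Pool.Agent.H77.PT.Apd

/-!
# [H77 PT APX] the expansion over the large primes, 150-220 lines. File Pool/Agent/H77/PT/Apx.lean

`M = #G`. `apx`: the sum over the families `f : Fin N → Finset (Pl K)` with `Lc I Bd z₂ X` of `∏ i, ∏ v ∈ f i, fx (C i) (r v * Z (tv D f v))` is `∑_{S admissible} TJ S` (`RS I S`).
PROOF. (1) For `v ∈ f i`: `fx (C i) (r v * Z t) = ∑ θ, fco .. θ * ep (θ · t) = ∑_{(θ, c)} cc (i, θ, c) v * ep (θ · t)` (`fco_inv`; `M` colours, each `fco / M`), `t = tv D f v`.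
(2) `col` (Col.lean) with `ι = Fin N`, `T = (Fin N → ZMod p) × Fin M`, `X = 2 * Y`, `A = (Fin N → Finset (Pl K))`, `S f = {f}`, `c f = if Lc .. f then 1 else 0` (`Lc` contains `Dj` and `∏ nr ≤ X ≤ 2 * Y`), `u f a v = cc a v * ep (a.2.1 · tv D f v)`: the left side is `∑ g ∈ piFinset (GF D (2 Y)) over AJ, if Dj g then
 (if Lc .. (uc g) then 1 else 0) * ∏ a, ∏ v ∈ g a, cc a v * ep (a.2.1 · tv D (uc g) v)`.
(3) Partition by the support `S = {a | g a ≠ ∅}` (`Finset.sum_fiberwise`). The term is `0` unless `RS I S`: classes: `Lc` says `uc g i ≠ ∅ ↔ i ∈ I`, and `uc g i ≠ ∅` iff some `a ∈ S` has `a.1 = i`; if `a ∈ S` and `a.2.1 a.1 ≠ 0`, or `j ∉ I`, `a.2.1 j ≠ 0`, then `cc a v = 0` by `fco_zero`: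
 the function `t ↦ fx (C i) (r v * Z t)`, `i = a.1 ∈ I`, is invariant under `t ↦ t + single i 1` (`fx_mul`, `Z (single i 1) ∈ C i` central: hypothesis `hC`) and under `t ↦ t + single j 1`, `j ∉ I` (`Z (single j 1) = 1`).
(4) For `RS I S`, the families `g` with support `S`, `Dj g`, `Lc .. (uc g)` are exactly the families in the sum `TJ S` with `ka ≠ 0`-conditions: in `TT3`, `g ∈ piFinset (if a ∈ S then GF D (2 Y) else {∅})`, `Cond2 ∅ blk (fun _ => X) S z₂ g` = `Dj`, `z₂ < nr (g a)` for `a ∈ S`, `∏ nr (g a) ≤ X`; the factor `∏ a, ka a (g a)` is `0` unless all primes are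
 `> z₂` and outside `Bd`, and then `z₂ < nr (g a)` iff `g a ≠ ∅` (`z₂ ≥ 1`; `nm v ≤ nr (g a)` for `v ∈ g a`; `nr ∅ = 1`). (`∏ a, nr (g a) = ∏ i, nr (uc g i)`: `uc_nr`; `Disjoint (uc g i) Bd`.)
 The phases: `∏ a, ∏ v ∈ g a, ep (a.2.1 · tv D (uc g) v) = ep (ph2 D (PJ N p M) 1 ∅ 0 g)`: `ph2 = ph` for `E = ∅` (`cblk_ph2`, Pool/Agent/H38/BB/CBlk.lean), the first part of `ph` is `0` (`LL v 1 = 0`), and `∑ a, ∑ v ∈ g a, ∑ j, a.2.1 j * ∑_{w ∈ uc g j} LL v (pi w) = ∑ a, ∑ a', a.2.1 (a'.1) * Lf D (g a) (pf D (g a'))`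
 (`uc g j` is the disjoint union of the `g a'`, `a'.1 = j`; `LL` of a product is the sum: `D.mul`-type field, see `lf_pf`, `Lf`, `pf` in Pool/Agent/H63/MA/ABilB.lean, ADef.lean), and `dt (θ a) (x a') = (θ a) (a'.1)`, `θ a = a.2.1` for `a ∈ S` (`RS`; for `a ∉ S`, `g a = ∅`).
-/

set_option autoImplicit false

open scoped NumberField
open IsDedekindDomain
open scoped Classical

noncomputable section

namespace H77.PT

open H63.MA H38.BB H38.BG H57.PC H51.CUB H77.PC3 H57.LS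

variable {K : Type} [Field K] [NumberField K] {p : ℕ} {ζ : K} {G : Type} [Group G] {N : ℕ}

theorem apx_card (p N : ℕ) [NeZero p] : Fintype.card (Fin N → ZMod p) = p ^ N := by
  rw [Fintype.card_fun, ZMod.card, Fintype.card_fin]

theorem apx_pN (p N : ℕ) [NeZero p] : (0 : ℝ) < (p : ℝ) ^ N :=
  pow_pos (by exact_mod_cast Nat.pos_of_ne_zero (NeZero.ne p)) _

theorem apx_cc [NeZero p] (Z : Multiplicative (Fin N → ZMod p) →* G)
    (C : Fin N → Subgroup G) (r : Pl K → G) (M : ℕ) (a : AJ N p M) (v : Pl K) :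
    ‖cc Z C r M a v‖ ≤ ((p : ℝ) ^ N)⁻¹ *
      (∑ t : Fin N → ZMod p, fx (C a.1) (r v * Z (Multiplicative.ofAdd t))) / M := by
  unfold cc
  rw [norm_div, Complex.norm_natCast]
  exact div_le_div_of_nonneg_right (fco_le _ (fun t => fx_nonneg _ _) _) (Nat.cast_nonneg _)

theorem cc_le [NeZero p] [Finite G] (Z : Multiplicative (Fin N → ZMod p) →* G)
    (C : Fin N → Subgroup G) (r : Pl K → G) (a : AJ N p (Nat.card G)) (v : Pl K) :
    ‖cc Z C r (Nat.card G) a v‖ ≤ 1 := by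
  have hM : (0 : ℝ) < Nat.card G := by exact_mod_cast Nat.card_pos
  refine (apx_cc Z C r _ a v).trans ?_
  rw [div_le_one hM]
  have h1 : ∑ t : Fin N → ZMod p, fx (C a.1) (r v * Z (Multiplicative.ofAdd t)) ≤
      (p : ℝ) ^ N * Nat.card G := by
    refine (Finset.sum_le_card_nsmul _ _ (Nat.card G : ℝ) fun t _ => fx_le _ _).trans ?_
    rw [Finset.card_univ, apx_card, nsmul_eq_mul]
    push_cast
    exact le_rfl
  rw [inv_mul_le_iff₀ (apx_pN p N)]
  exact h1

theorem cc_le' [NeZero p] [Finite G] (Z : Multiplicative (Fin N → ZMod p) →* G)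
    (hZ : ∀ t x, Z t * x = x * Z t) (C : Fin N → Subgroup G) (r : Pl K → G)
    (a : AJ N p (Nat.card G)) (v : Pl K) :
    ‖cc Z C r (Nat.card G) a v‖ ≤ fx (C a.1 ⊔ Z.range) (r v) / Nat.card G := by
  refine (apx_cc Z C r _ a v).trans ?_
  rw [fx_mean Z hZ, ← mul_assoc, inv_mul_cancel₀ (apx_pN p N).ne', one_mul]

/-- the support -/
def apxS [NeZero p] {M : ℕ} (g : AJ N p M → Finset (Pl K)) : Finset (AJ N p M) :=
  Finset.univ.filter fun a => g a ≠ ∅

/-- the term -/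
def apxF [NeZero p] (D : RD0 K p ζ) (I : Finset (Fin N))
    (Z : Multiplicative (Fin N → ZMod p) →* G) (C : Fin N → Subgroup G) (r : Pl K → G)
    (Bd : Finset (Pl K)) (z₂ X : ℝ) (M : ℕ) (g : AJ N p M → Finset (Pl K)) : ℂ :=
  if Dj g then (if Lc I Bd z₂ X (uc g) then
    ∏ a, ∏ v ∈ g a, (cc Z C r M a v * ep p (dt a.2.1 (tv D (uc g) v))) else 0) else 0

theorem apx_mem_uc {T : Type} [Fintype T] {g : Fin N × T → Finset (Pl K)} {i : Fin N}
    {v : Pl K} : v ∈ uc g i ↔ ∃ t, v ∈ g (i, t) := by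
  unfold uc
  rw [Finset.mem_biUnion]
  exact ⟨fun ⟨t, _, h⟩ => ⟨t, h⟩, fun ⟨t, h⟩ => ⟨t, Finset.mem_univ _, h⟩⟩

theorem apx_sum_uc {T : Type} [Fintype T] {g : Fin N × T → Finset (Pl K)} (hg : Dj g)
    (i : Fin N) (F : Pl K → ZMod p) : ∑ w ∈ uc g i, F w = ∑ t, ∑ w ∈ g (i, t), F w := by
  unfold uc
  rw [Finset.sum_biUnion]
  intro t _ t' _ htt
  exact hg _ _ (fun h => htt (Prod.mk.inj h).2)

theorem apx_uc_ne [NeZero p] {M : ℕ} (g : AJ N p M → Finset (Pl K)) (i : Fin N) :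
    uc g i ≠ ∅ ↔ ∃ a ∈ apxS g, a.1 = i := by
  constructor
  · intro h
    obtain ⟨v, hv⟩ := Finset.nonempty_iff_ne_empty.2 h
    obtain ⟨t, ht⟩ := apx_mem_uc.1 hv
    exact ⟨(i, t), Finset.mem_filter.2 ⟨Finset.mem_univ _, Finset.ne_empty_of_mem ht⟩, rfl⟩
  · rintro ⟨a, ha, rfl⟩
    obtain ⟨v, hv⟩ := Finset.nonempty_iff_ne_empty.2 (Finset.mem_filter.1 ha).2
    exact Finset.ne_empty_of_mem (apx_mem_uc.2 ⟨a.2, hv⟩)

theorem apx_ph [NeZero p] (hp : p.Prime) (hζ : IsPrimitiveRoot ζ p) (D : RD0 K p ζ) {M : ℕ}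
    (g : AJ N p M → Finset (Pl K)) (hg : Dj g) (hG : ∀ a, ∀ v ∈ g a, v ∉ D.S0)
    (h0 : ∀ a, g a ≠ ∅ → a.2.1 a.1 = 0) :
    ph2 D (PJ N p M) (fun _ => 1) ∅ (fun _ => 0) g =
      ∑ a, ∑ v ∈ g a, dt a.2.1 (tv D (uc g) v) := by
  rw [cblk_ph2]
  unfold ph
  have h1 : ∑ a, ∑ v ∈ g a, dt ((PJ N p M).θ a)
      (fun k => D.LL v ((fun _ => 1 : Fin N → Kˣ) k)) = 0 := by
    refine Finset.sum_eq_zero fun a _ => Finset.sum_eq_zero fun v hv => ?_
    unfold dt
    refine Finset.sum_eq_zero fun k _ => ?_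
    show (PJ N p M).θ a k * D.LL v 1 = 0
    rw [LL_one hp hζ D (hG a v hv), mul_zero]
  rw [h1, zero_add]
  refine Finset.sum_congr rfl fun a _ => ?_
  by_cases ha : g a = ∅
  · rw [ha, Finset.sum_empty]
    refine Finset.sum_eq_zero fun a' _ => ?_
    unfold Lf
    rw [Finset.sum_empty, mul_zero]
  · have h2 : ∀ a', dt ((PJ N p M).θ a) ((PJ N p M).x a') * Lf D (g a) (pf D (g a')) =
        ∑ v ∈ g a, a.2.1 a'.1 * ∑ w ∈ g a', D.LL v (D.pi w) := by
      intro a'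
      rw [lf_pf hp hζ D (hG a), Finset.mul_sum]
      have h3 : dt ((PJ N p M).θ a) ((PJ N p M).x a') = a.2.1 a'.1 := by
        show dt (if a.2.1 a.1 = 0 then a.2.1 else 0) (Pi.single a'.1 1) = _
        rw [if_pos (h0 a ha)]
        unfold dt
        rw [Finset.sum_eq_single a'.1 (fun j _ hj => by rw [Pi.single_eq_of_ne hj, mul_zero])
          (fun h' => absurd (Finset.mem_univ _) h'), Pi.single_eq_same, mul_one]
      rw [h3]
    rw [Finset.sum_congr rfl fun a' _ => h2 a', Finset.sum_comm]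
    refine Finset.sum_congr rfl fun v _ => ?_
    unfold dt tv
    rw [Fintype.sum_prod_type]
    refine Finset.sum_congr rfl fun j _ => ?_
    rw [apx_sum_uc hg, Finset.mul_sum]

theorem apx_one [NeZero p] [Finite G] (hp : p.Prime) (D : RD0 K p ζ)
    (Z : Multiplicative (Fin N → ZMod p) →* G) (C : Fin N → Subgroup G) (r : Pl K → G)
    (f : Fin N → Finset (Pl K)) (i : Fin N) (v : Pl K) :
    ((fx (C i) (r v * Z (Multiplicative.ofAdd (tv D f v))) : ℝ) : ℂ) =
      ∑ t : (Fin N → ZMod p) × Fin (Nat.card G),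
        cc Z C r (Nat.card G) (i, t) v * ep p (dt t.1 (tv D f v)) := by
  have hM : ((Nat.card G : ℕ) : ℂ) ≠ 0 := by exact_mod_cast Nat.card_pos.ne'
  refine (fco_inv hp (fun t => fx (C i) (r v * Z (Multiplicative.ofAdd t)))
    (tv D f v)).trans ?_
  rw [Fintype.sum_prod_type]
  refine Finset.sum_congr rfl fun θ _ => ?_
  have h1 : ∀ c : Fin (Nat.card G),
      cc Z C r (Nat.card G) (i, (θ, c)) v * ep p (dt (θ, c).1 (tv D f v)) =
        (fco (fun t => fx (C i) (r v * Z (Multiplicative.ofAdd t))) θ *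
          ep p (dt θ (tv D f v))) / (Nat.card G : ℂ) := by
    intro c
    unfold cc
    dsimp only
    ring
  rw [Finset.sum_congr rfl fun c _ => h1 c, Finset.sum_const, Finset.card_univ,
    Fintype.card_fin, nsmul_eq_mul, mul_div_cancel₀ _ hM]

theorem apx_two [NeZero p] [Finite G] (hp : p.Prime) (D : RD0 K p ζ)
    (I : Finset (Fin N)) (Z : Multiplicative (Fin N → ZMod p) →* G) (C : Fin N → Subgroup G)
    (r : Pl K → G) (Bd : Finset (Pl K)) (z₂ X Y : ℝ) (hX : X ≤ 2 * Y) :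
    (((∑ g ∈ Fintype.piFinset (fun _ : Fin N => GF D (2 * Y)), if Lc I Bd z₂ X g then
      ∏ i, ∏ v ∈ g i, fx (C i) (r v * Z (Multiplicative.ofAdd (tv D g v))) else 0 : ℝ)) : ℂ) =
      ∑ g ∈ Fintype.piFinset (fun _ : AJ N p (Nat.card G) => GF D (2 * Y)),
        apxF D I Z C r Bd z₂ X (Nat.card G) g := by
  have h := col (M := ℂ) D (2 * Y)
    (fun f : Fin N → Finset (Pl K) => if Lc I Bd z₂ X f then 1 else 0)
    (fun f hf => by
      by_cases h : Lc I Bd z₂ X f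
      · exact ⟨h.1, h.2.2.1.trans hX⟩
      · exact absurd (if_neg h) hf)
    (fun f => {f}) (fun (f : Fin N → Finset (Pl K)) (a : AJ N p (Nat.card G)) v =>
      cc Z C r (Nat.card G) a v * ep p (dt a.2.1 (tv D f v)))
  rw [Complex.ofReal_sum]
  refine (Finset.sum_congr ?_ fun f _ => ?_).trans (h.trans (Finset.sum_congr ?_ fun g _ => ?_))
  · ext x
    simp only [Fintype.mem_piFinset]
  · rw [Finset.sum_singleton]
    by_cases h1 : Lc I Bd z₂ X f
    · rw [if_pos h1, if_pos h1, one_mul, Complex.ofReal_prod]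
      refine Finset.prod_congr rfl fun i _ => ?_
      rw [Complex.ofReal_prod]
      refine Finset.prod_congr rfl fun v _ => ?_
      exact apx_one hp D Z C r f i v
    · rw [if_neg h1, if_neg h1, zero_mul, Complex.ofReal_zero]
  · ext x
    simp only [Fintype.mem_piFinset]
  · unfold apxF
    by_cases h1 : Dj g
    · rw [if_pos h1, if_pos h1, Finset.sum_singleton]
      by_cases h2 : Lc I Bd z₂ X (uc g)
      · rw [if_pos h2, if_pos h2, one_mul]
      · rw [if_neg h2, if_neg h2, zero_mul]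
    · rw [if_neg h1, if_neg h1]

theorem apx_cc0 [NeZero p] (hp : p.Prime) (Z : Multiplicative (Fin N → ZMod p) →* G)
    (hZ : ∀ t x, Z t * x = x * Z t) (C : Fin N → Subgroup G) (r : Pl K → G) (M : ℕ)
    (a : AJ N p M) (v : Pl K) (j : Fin N) (hj : a.2.1 j ≠ 0)
    (h : Z (Multiplicative.ofAdd (Pi.single j 1)) ∈ C a.1) : cc Z C r M a v = 0 := by
  unfold cc
  rw [fco_zero hp _ a.2.1 j (fun t => ?_) hj, zero_div]
  rw [ofAdd_add, map_mul, ← mul_assoc]
  exact fx_mul _ _ _ (hZ _) h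

theorem apx_zero [NeZero p] (hp : p.Prime) (D : RD0 K p ζ)
    (I : Finset (Fin N)) (Z : Multiplicative (Fin N → ZMod p) →* G)
    (hZ : ∀ t x, Z t * x = x * Z t)
    (hZI : ∀ i, i ∉ I → Z (Multiplicative.ofAdd (Pi.single i 1)) = 1) (C : Fin N → Subgroup G)
    (hC : ∀ i ∈ I, Z (Multiplicative.ofAdd (Pi.single i 1)) ∈ C i)
    (r : Pl K → G) (Bd : Finset (Pl K)) (z₂ X : ℝ) (M : ℕ) (g : AJ N p M → Finset (Pl K))
    (h : ¬ RS I (apxS g)) : apxF D I Z C r Bd z₂ X M g = 0 := by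
  unfold apxF
  by_cases h1 : Dj g
  · rw [if_pos h1]
    by_cases h2 : Lc I Bd z₂ X (uc g)
    · rw [if_pos h2]
      have h3 : ∀ i, i ∈ I ↔ ∃ a ∈ apxS g, a.1 = i := by
        intro i
        rw [h2.2.2.2.1 i, apx_uc_ne]
      have h4 : ¬ ∀ a ∈ apxS g, a.2.1 a.1 = 0 ∧ ∀ j, j ∉ I → a.2.1 j = 0 :=
        fun h' => h ⟨h3, h'⟩
      push Not at h4
      obtain ⟨a, ha, h5⟩ := h4
      have h6 : ∃ j, a.2.1 j ≠ 0 ∧ Z (Multiplicative.ofAdd (Pi.single j 1)) ∈ C a.1 := by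
        by_cases h7 : a.2.1 a.1 = 0
        · obtain ⟨j, hj, hj'⟩ := h5 h7
          exact ⟨j, hj', by rw [hZI j hj]; exact (C a.1).one_mem⟩
        · exact ⟨a.1, h7, hC a.1 ((h3 a.1).2 ⟨a, ha, rfl⟩)⟩
      obtain ⟨j, hj, hjC⟩ := h6
      obtain ⟨v, hv⟩ := Finset.nonempty_iff_ne_empty.2 ((Finset.mem_filter.1 ha).2)
      refine Finset.prod_eq_zero (Finset.mem_univ a) (Finset.prod_eq_zero hv ?_)
      rw [apx_cc0 hp Z hZ C r M a v j hj hjC, zero_mul]
    · rw [if_neg h2]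
  · rw [if_neg h1]

theorem apx_TJ [NeZero p] (hp : p.Prime) (hζ : IsPrimitiveRoot ζ p) (D : RD0 K p ζ)
    (I : Finset (Fin N)) (Z : Multiplicative (Fin N → ZMod p) →* G)
    (C : Fin N → Subgroup G) (r : Pl K → G) (Bd : Finset (Pl K)) (z₂ X Y : ℝ) (hz : 1 ≤ z₂)
    (hX : X ≤ 2 * Y) (M : ℕ) (S : Finset (AJ N p M)) (hS : RS I S) :
    ∑ g ∈ (Fintype.piFinset (fun _ : AJ N p M => GF D (2 * Y))).filter (fun g => apxS g = S),
      apxF D I Z C r Bd z₂ X M g = TJ D Z C r Bd z₂ X Y M S := by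
  have hprod : ∀ g : AJ N p M → Finset (Pl K),
      (∀ i : Fin 1, ∏ a ∈ Finset.univ.filter (fun _ : AJ N p M => (0 : Fin 1) = i), nr (g a) ≤ X) ↔
        ∏ a, nr (g a) ≤ X := by
    intro g
    constructor
    · intro h
      have := h 0
      rwa [Finset.filter_true_of_mem (fun _ _ => rfl)] at this
    · intro h i
      rw [Finset.filter_true_of_mem (fun _ _ => Subsingleton.elim _ _)]
      exact h
  obtain ⟨T, hT⟩ : ∃ T : (AJ N p M → Finset (Pl K)) → ℂ, ∀ g, T g =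
      if Cond2 ∅ (fun _ : AJ N p M => (0 : Fin 1)) (fun _ => X) S z₂ g then
        (∏ a, ka Z C r Bd z₂ M a (g a)) *
          (1 * ep p (ph2 D (PJ N p M) (fun _ => 1) ∅ (fun _ => 0) g)) else 0 :=
    ⟨_, fun _ => rfl⟩
  have h2 : TJ D Z C r Bd z₂ X Y M S =
      ∑ g ∈ Fintype.piFinset (fun a => if a ∈ S then GF D (2 * Y) else {∅}), T g := by
    unfold TJ TT3
    refine Finset.sum_congr ?_ fun g _ => (hT g).symm
    ext x
    simp only [Fintype.mem_piFinset]
  have h3 : (Fintype.piFinset (fun _ : AJ N p M => GF D (2 * Y))).filter (fun g => apxS g = S) ⊆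
      Fintype.piFinset (fun a => if a ∈ S then GF D (2 * Y) else {∅}) := by
    intro g hg
    rw [Finset.mem_filter, Fintype.mem_piFinset] at hg
    rw [Fintype.mem_piFinset]
    intro a
    by_cases ha : a ∈ S
    · rw [if_pos ha]
      exact hg.1 a
    · rw [if_neg ha, Finset.mem_singleton]
      by_contra h
      apply ha
      rw [← hg.2]
      exact Finset.mem_filter.2 ⟨Finset.mem_univ _, h⟩
  have h4 : ∀ g ∈ Fintype.piFinset (fun a => if a ∈ S then GF D (2 * Y) else {∅}),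
      g ∉ (Fintype.piFinset (fun _ : AJ N p M => GF D (2 * Y))).filter (fun g => apxS g = S) →
        T g = 0 := by
    intro g hg hg'
    rw [hT, if_neg]
    intro hc
    apply hg'
    rw [Fintype.mem_piFinset] at hg
    have h1X : ∏ a, nr (g a) ≤ X := (hprod g).1 hc.1.2.2
    have h1 : (1 : ℝ) ≤ X := (atupa_prod_one g Finset.univ).trans h1X
    rw [Finset.mem_filter, Fintype.mem_piFinset]
    constructor
    · intro a
      have := hg a
      by_cases ha : a ∈ S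
      · rwa [if_pos ha] at this
      · rw [if_neg ha, Finset.mem_singleton] at this
        rw [this, atupa_mem_GF, aup_nr_empty]
        exact ⟨h1.trans hX, fun v hv => absurd hv (Finset.notMem_empty v)⟩
    · ext a
      unfold apxS
      rw [Finset.mem_filter]
      constructor
      · rintro ⟨-, h5⟩
        by_contra ha
        have := hg a
        rw [if_neg ha, Finset.mem_singleton] at this
        exact h5 this
      · intro ha
        refine ⟨Finset.mem_univ _, fun h5 => ?_⟩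
        have h6 := hc.1.2.1 a ha
        rw [h5, aup_nr_empty] at h6
        linarith
  rw [h2, ← Finset.sum_subset h3 h4]
  refine Finset.sum_congr rfl fun g hg => ?_
  rw [Finset.mem_filter, Fintype.mem_piFinset] at hg
  obtain ⟨hgG, hgS⟩ := hg
  have hGd : ∀ a, ∀ v ∈ g a, D.Gd v := fun a => (atupa_mem_GF.1 (hgG a)).2
  have hmem : ∀ a, g a ≠ ∅ ↔ a ∈ S := by
    intro a
    rw [← hgS]
    unfold apxS
    rw [Finset.mem_filter]
    exact ⟨fun h => ⟨Finset.mem_univ _, h⟩, fun h => h.2⟩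
  unfold apxF
  rw [hT]
  by_cases h1 : Dj g
  · rw [if_pos h1]
    by_cases h2 : Lc I Bd z₂ X (uc g)
    · rw [if_pos h2]
      have hc : Cond2 ∅ (fun _ : AJ N p M => (0 : Fin 1)) (fun _ => X) S z₂ g := by
        refine ⟨⟨h1, fun a ha => ?_, (hprod g).2 ?_⟩, fun a => Finset.disjoint_empty_right _⟩
        · obtain ⟨v, hv⟩ := Finset.nonempty_iff_ne_empty.2 ((hmem a).2 ha)
          have h5 := h2.2.2.2.2 a.1 v (apx_mem_uc.2 ⟨a.2, hv⟩)
          refine h5.trans_le ?_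
          have h6 : nr {v} ≤ nr (g a) := nr_mono (Finset.singleton_subset_iff.2 hv)
          have h7 : nr ({v} : Finset (Pl K)) = nm v := by
            unfold nr
            rw [Finset.prod_singleton]
          rwa [h7] at h6
        · rw [← uc_nr h1]
          exact h2.2.2.1
      rw [if_pos hc, one_mul, apx_ph hp hζ D g h1 (fun a v hv => (hGd a v hv).1)
        (fun a ha => (hS.2 a ((hmem a).1 ha)).1)]
      have h7 : ∀ a, ka Z C r Bd z₂ M a (g a) = ∏ v ∈ g a, cc Z C r M a v := by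
        intro a
        unfold ka
        rw [if_pos]
        intro v hv
        have hv' : v ∈ uc g a.1 := apx_mem_uc.2 ⟨a.2, hv⟩
        exact ⟨h2.2.2.2.2 a.1 v hv', fun hB => Finset.disjoint_left.1 (h2.2.1 a.1) hv' hB⟩
      rw [Finset.prod_congr rfl fun a _ => h7 a, aexp_ep_sum hp, ← Finset.prod_mul_distrib]
      refine Finset.prod_congr rfl fun a _ => ?_
      rw [aexp_ep_sum hp, ← Finset.prod_mul_distrib]
    · rw [if_neg h2]
      by_cases hc : Cond2 ∅ (fun _ : AJ N p M => (0 : Fin 1)) (fun _ => X) S z₂ g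
      · rw [if_pos hc]
        have h3 : ∃ i, ∃ v ∈ uc g i, ¬ (z₂ < nm v ∧ v ∉ Bd) := by
          by_contra hcon
          push Not at hcon
          apply h2
          refine ⟨uc_dj h1, fun i => Finset.disjoint_left.2 fun v hv => (hcon i v hv).2, ?_, ?_,
            fun i v hv => (hcon i v hv).1⟩
          · rw [uc_nr h1]
            exact (hprod g).1 hc.1.2.2
          · intro i
            rw [apx_uc_ne, hgS]
            exact hS.1 i
        obtain ⟨i, v, hv, hn⟩ := h3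
        obtain ⟨t, ht⟩ := apx_mem_uc.1 hv
        have h8 : ka Z C r Bd z₂ M (i, t) (g (i, t)) = 0 := by
          unfold ka
          rw [if_neg fun h => hn (h v ht)]
        rw [Finset.prod_eq_zero (Finset.mem_univ (i, t)) h8, zero_mul]
      · rw [if_neg hc]
  · rw [if_neg h1, if_neg fun hc => h1 hc.1.1]

theorem apx [NeZero p] [Finite G] (hp : p.Prime) (hζ : IsPrimitiveRoot ζ p) (D : RD0 K p ζ)
    (I : Finset (Fin N)) (Z : Multiplicative (Fin N → ZMod p) →* G)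
    (hZ : ∀ t x, Z t * x = x * Z t)
    (hZI : ∀ i, i ∉ I → Z (Multiplicative.ofAdd (Pi.single i 1)) = 1) (C : Fin N → Subgroup G)
    (hC : ∀ i ∈ I, Z (Multiplicative.ofAdd (Pi.single i 1)) ∈ C i) (r : Pl K → G)
    (Bd : Finset (Pl K)) (z₂ X Y : ℝ) (hz : 1 ≤ z₂) (hX : X ≤ 2 * Y) :
    (((∑ g ∈ Fintype.piFinset (fun _ : Fin N => GF D (2 * Y)), if Lc I Bd z₂ X g then
      ∏ i, ∏ v ∈ g i, fx (C i) (r v * Z (Multiplicative.ofAdd (tv D g v))) else 0 : ℝ)) : ℂ) =
      ∑ S ∈ Finset.univ.filter (fun S : Finset (AJ N p (Nat.card G)) => RS I S),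
        TJ D Z C r Bd z₂ X Y (Nat.card G) S := by
  rw [apx_two hp D I Z C r Bd z₂ X Y hX, ← Finset.sum_fiberwise _ apxS, Finset.sum_filter]
  refine Finset.sum_congr rfl fun S _ => ?_
  by_cases hS : RS I S
  · rw [if_pos hS]
    exact apx_TJ hp hζ D I Z C r Bd z₂ X Y hz hX _ S hS
  · rw [if_neg hS]
    refine Finset.sum_eq_zero fun g hg => ?_
    refine apx_zero hp D I Z hZ hZI C hC r Bd z₂ X _ g ?_
    rw [(Finset.mem_filter.1 hg).2]
    exact hS

end H77.PT
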