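import Pool.Agent.H77.PT.Def
import Pool.Agent.H36.QA.ADefs

/-!
# H77-PT-DQ: definitions for the last step of the pattern `I ≠ all` (MP_b39724_nt)

* `fx C r`: the number of fixed points of `r` on `G ⧸ C`.
* `VS Dg S`: the (central) subgroup of the elements of `V = ker π` with coordinates in `S`. `G2 Dg I = R ⧸ VS (VI Dg I)`, `k2` the projection `R → G2`, `p2` the projection
  `G2 → U`, `C2 Dg I i`: the image of the centraliser of `g i`. `ZD`: the homomorphism `Z t = ∏ z i ^ (t i)`, `z i` the class of `g i` for `i ∈ I` (central), `1` for `i ∉ I`.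
* `tv D g v j = ∑_{w ∈ g j} LL v (pi w)`: the exponents of the twist by the large primes.
* `Lc`: the conditions for the large parts `g : Fin N → Finset (Pl K)` (nonempty exactly for `i ∈ I`, primes larger than `z₂`, outside `Bd`, `∏ nr ≤ X`).
* `PH`: the homomorphisms `r : Γ → G2` with given small part `n`.
-/

set_option autoImplicit false

open scoped NumberField
open IsDedekindDomain
open scoped Classical

noncomputable section

namespace H77.PT

open H63.MA H38.BB H38.BG H57.PC H51.CUB H77.PC3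

/-- the number of fixed points on the cosets -/
def fx {G : Type} [Group G] (C : Subgroup G) (r : G) : ℝ := Nat.card {x : G ⧸ C // r • x = x}

section grp

variable {p m l w N : ℕ} {P R : Type} [Group P] [Group R]

/-- the subgroup of `V` of the elements with coordinates in `S` -/
def VS (Dg : GP p m l w N P R) (S : Submodule (ZMod p) (Fin l → ZMod p)) : Subgroup R where
  carrier := {r | Dg.π r = 1 ∧ (fun k => Dg.cv k r) ∈ S}
  one_mem' := ⟨map_one _, by
    have h : (fun k => Dg.cv k 1) = 0 := by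
      funext k
      exact cv_one Dg k
    change (fun k => Dg.cv k 1) ∈ S
    rw [h]
    exact S.zero_mem⟩
  mul_mem' := by
    rintro a b ⟨ha, ha'⟩ ⟨hb, hb'⟩
    refine ⟨by rw [map_mul, ha, hb, one_mul], ?_⟩
    have h : (fun k => Dg.cv k (a * b)) = (fun k => Dg.cv k a) + fun k => Dg.cv k b := by
      funext k
      exact Dg.vadd k a b ha hb
    rw [h]
    exact S.add_mem ha' hb'
  inv_mem' := by
    rintro a ⟨ha, ha'⟩
    refine ⟨by rw [map_inv, ha, inv_one], ?_⟩
    have h : (fun k => Dg.cv k a⁻¹) = -(fun k => Dg.cv k a) := by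
      funext k
      exact cv_inv Dg k a ha
    change (fun k => Dg.cv k a⁻¹) ∈ S
    rw [h]
    exact S.neg_mem ha'

instance (Dg : GP p m l w N P R) (S : Submodule (ZMod p) (Fin l → ZMod p)) :
    (VS Dg S).Normal := ⟨fun v hv r => by
  have h := Dg.vcen v hv.1 r
  have h2 : r * v * r⁻¹ = v := by rw [← h, mul_inv_cancel_right]
  rw [h2]
  exact hv⟩

/-- the quotient of `R` by `[U_I, U]` -/
abbrev G2 (Dg : GP p m l w N P R) (I : Finset (Fin N)) : Type := R ⧸ VS Dg (VI Dg I)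

/-- the projection -/
def k2 (Dg : GP p m l w N P R) (I : Finset (Fin N)) : R →* G2 Dg I :=
  QuotientGroup.mk' (VS Dg (VI Dg I))

theorem k2_surj (Dg : GP p m l w N P R) (I : Finset (Fin N)) :
    Function.Surjective (k2 Dg I) := QuotientGroup.mk'_surjective _

theorem k2_ker (Dg : GP p m l w N P R) (I : Finset (Fin N)) (r : R) :
    k2 Dg I r = 1 ↔ Dg.π r = 1 ∧ (fun k => Dg.cv k r) ∈ VI Dg I := by
  unfold k2
  rw [QuotientGroup.mk'_apply, QuotientGroup.eq_one_iff]
  exact Iff.rfl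

/-- the projection to `U` -/
def p2 (Dg : GP p m l w N P R) (I : Finset (Fin N)) :
    G2 Dg I →* Multiplicative (Fin m → ZMod p) :=
  QuotientGroup.lift (VS Dg (VI Dg I)) Dg.π fun r hr => hr.1

theorem p2_k2 (Dg : GP p m l w N P R) (I : Finset (Fin N)) (r : R) :
    p2 Dg I (k2 Dg I r) = Dg.π r := rfl

/-- `Z t = ∏ (class of g i) ^ (t i)`, the product over `i ∈ I`; central -/
structure ZD (Dg : GP p m l w N P R) (I : Finset (Fin N))
    (Z : Multiplicative (Fin N → ZMod p) →* G2 Dg I) : Prop where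
  cen : ∀ t x, Z t * x = x * Z t
  on : ∀ i ∈ I, Z (Multiplicative.ofAdd (Pi.single i 1)) = k2 Dg I (Dg.q (Dg.g i))
  off : ∀ i, i ∉ I → Z (Multiplicative.ofAdd (Pi.single i 1)) = 1

/-- the image of the centraliser of `g i` -/
def C2 (Dg : GP p m l w N P R) (I : Finset (Fin N)) (i : Fin N) : Subgroup (G2 Dg I) :=
  (Subgroup.centralizer {Dg.g i}).map ((k2 Dg I).comp Dg.q)

end grp

section sums

variable {K : Type} [Field K] [NumberField K] {p : ℕ} {ζ : K} {Ω : Type}
  [Field Ω] [Algebra K Ω] {m l w N : ℕ} {P R : Type} [Group P] [Group R]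

/-- the exponents of the `z j` at `v` -/
def tv (D : RD0 K p ζ) (g : Fin N → Finset (Pl K)) (v : Pl K) (j : Fin N) : ZMod p :=
  ∑ w ∈ g j, D.LL v (D.pi w)

/-- the conditions for the large part -/
def Lc (I : Finset (Fin N)) (Bd : Finset (Pl K)) (z₂ X : ℝ) (g : Fin N → Finset (Pl K)) : Prop :=
  Dj g ∧ (∀ i, Disjoint (g i) Bd) ∧ ∏ i, nr (g i) ≤ X ∧ (∀ i, i ∈ I ↔ g i ≠ ∅) ∧
    ∀ i, ∀ v ∈ g i, z₂ < nm v

/-- the homomorphisms to `G2` with given small part `n` -/
def PH [NeZero p] {D : RD0 K p ζ} (L : LDs D Ω) (Dg : GP p m l w N P R) (I : Finset (Fin N))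
    (Z : Multiplicative (Fin N → ZMod p) →* G2 Dg I) (b : Fin m → Kˣ) (E : Finset (Pl K)) (ε : Pl K → Gal(Ω/K) → R)
    (n : Fin N → Finset (Pl K)) : Set (Gal(Ω/K) →* G2 Dg I) :=
  {r | H38.ML.FT r ∧
    (∀ (σ : Gal(Ω/K)) k, kk p ζ (akR D Dg.cr b n k) σ = Multiplicative.toAdd (p2 Dg I (r σ)) k) ∧
    (∀ i, ∀ v ∈ n i, IsConj (r (L.t v)) (k2 Dg I (Dg.q (Dg.g i))) ∧ ∀ τ ∈ inr L v, r τ ^ p = 1) ∧
    (∀ v ∈ E, ∀ τ ∈ inr L v, r τ = k2 Dg I (ε v τ)) ∧
    (∀ v, v ∉ D.S0 → v ∉ E → (∀ i, v ∉ n i) → ∀ τ ∈ inr L v, r τ = 1) ∧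
    ∀ x : G2 Dg I, ∃ σ, r σ * x⁻¹ ∈ Z.range}

end sums

end H77.PT
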