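import Pool.Agent.H77.PT.Dq
import Pool.Agent.H57.LOW.Loc

/-!
# [H77 PT GCT] counting the labels over a Frobenius class (finite group theory), 150-220 lines. File Pool/Agent/H77/PT/Gct.lean

`gct`: for `x₀ ∈ G2` and `i ∈ I`: `Wn i * #Lab ≤ #B * fx (C2 i) x₀`, where `B = BS Dg (VI Dg I) i` and `Lab` is the set of the `r ∈ R` conjugate to `q (g i)` for which there is `y ∈ R` with `k2 y = x₀`, `y r = r y`, `cm y r ∈ B`.

PROOF. `c = q (g i)`, `S = VI Dg I`, `Ṽ = {u ∈ P | q u ∈ VS Dg S}` = kernel of `k2 ∘ q`.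
(1) Let `X = {x ∈ R | (k2 x)⁻¹ * x₀ * k2 x ∈ C2 i}`. `#X = #(VS S) * #(C2 i) * fx (C2 i) x₀`: `x ∈ X` iff `x₀ • (k2 x C2) = k2 x C2`; the fibres of `R → G2 → G2 ⧸ C2` have `#(VS S) * #(C2 i)` elements.
(2) If `r = x c x⁻¹ ∈ Lab` then `x ∈ X`: let `y` be as above, `y = q ỹ`, `x = q x̃`; `cm y r = cw [ỹ, x̃ g x̃⁻¹]` (`cm_eq` in Pool/Agent/H77/PC3/CTw.lean), `= cw [x̃⁻¹ ỹ x̃, g]` (the commutator is in `W` as `y r = r y`, and `W` is central, so conjugation by `x̃` does not change it). It is in `B = β(S, s i)`: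
`= β v (s i)` with `v ∈ S`; choose `u ∈ P` with `π (q u) = 1`, `cv (q u) = -v` (`Dg.vsur`, `Dg.qs`), so `u ∈ Ṽ`. `[x̃⁻¹ ỹ x̃ u, g] = [x̃⁻¹ ỹ x̃, g] [u, g]` up to central factors (`[a b, g] = a [b, g] a⁻¹ [a, g]`, `[u, g] ∈ W` central with `cw = β (cv (q u)) (s i) = -β v (s i)`: `Dg.hβ`), so it is `1` (`Dg.winj`), i.e. `x̃⁻¹ ỹ x̃ u` centralises `g`,
and its image in `G2` is `(k2 x)⁻¹ x₀ (k2 x)` (`u ∈ Ṽ`). So `(k2 x)⁻¹ x₀ (k2 x) ∈ C2 i`.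
(3) For `r ∈ Lab` the `x` with `x c x⁻¹ = r` form a left coset of the centraliser `C_R(c)`, contained in `X`; for different `r` they are disjoint: `#Lab * #C_R(c) ≤ #X`.
(4) `#C_R(c) * #cl_R(c) = #R` (orbit-stabilizer: `MulAction.card_orbit_mul_card_stabilizer_eq_card_group` for `ConjAct`, or `wn`-type lemmas in Pool/Agent/H57/LOW/Loc.lean), `#C_P(g) * #cl_P(g) = #P`, `#cl_P(g) = #cl_R(c) * Wn i` (the fibres of `cl_P(g) → cl_R(c)` have the same number of elements, conjugate; see `Loc.lean`), `#P = #R * #W`.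
`#(C2 i) = #C_P(g) / #(C_P(g) ∩ Ṽ)` and `#Ṽ = #(VS S) * #W`, `#Ṽ / #(C_P(g) ∩ Ṽ) = #B` (the homomorphism `Ṽ → B`, `u ↦ [u, g]`, `cw [u, g] = β (cv (q u)) (s i)`, is onto with kernel `C_P(g) ∩ Ṽ`). Hence `#(C2 i) * #(VS S) * #W = #C_P(g) * #B` and `#C_P(g) * Wn i = #C_R(c) * #W`.
(5) `Wn i * #Lab * #C_R(c) ≤ Wn i * #(VS S) * #(C2 i) * fx = Wn i * #C_P(g) * #B / #W * fx = #C_R(c) * #B * fx`; divide by `#C_R(c) > 0`.
(`wn_card` in Pool/Agent/H57/LOW/Loc.lean proves a very similar formula: its lemmas `locZ`, `loc_ker` etc. can be used or adapted.)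
-/

set_option autoImplicit false

open scoped NumberField
open IsDedekindDomain
open scoped Classical

noncomputable section

namespace H77.PT

open H63.MA H38.BB H38.BG H57.PC H51.CUB H77.PC3

variable {p m l w N : ℕ} {P R : Type} [Group P] [Group R]

theorem gct_C2 (Dg : GP p m l w N P R) (I : Finset (Fin N)) (i : Fin N) (x : G2 Dg I) :
    x ∈ C2 Dg I i ↔ ∃ z : P, z * Dg.g i = Dg.g i * z ∧ k2 Dg I (Dg.q z) = x := by
  unfold C2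
  rw [Subgroup.mem_map]
  constructor
  · rintro ⟨z, hz, rfl⟩
    rw [Subgroup.mem_centralizer_iff] at hz
    exact ⟨z, (hz _ (Set.mem_singleton _)).symm, rfl⟩
  · rintro ⟨z, hz, rfl⟩
    refine ⟨z, ?_, rfl⟩
    rw [Subgroup.mem_centralizer_iff]
    intro h hh
    rw [Set.mem_singleton_iff] at hh
    rw [hh]
    exact hz.symm

theorem gct_lift (Dg : GP p m l w N P R) (I : Finset (Fin N)) (v : Fin l → ZMod p)
    (hv : v ∈ VI Dg I) : ∃ u : P, Dg.π (Dg.q u) = 1 ∧ (fun j => Dg.cv j (Dg.q u)) = v ∧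
      k2 Dg I (Dg.q u) = 1 := by
  obtain ⟨r, hr1, hr2⟩ := Dg.vsur v
  obtain ⟨u, rfl⟩ := Dg.qs r
  have h1 : (fun j => Dg.cv j (Dg.q u)) = v := funext hr2
  refine ⟨u, hr1, h1, ?_⟩
  rw [k2_ker]
  refine ⟨hr1, ?_⟩
  rw [h1]
  exact hv

theorem gct_w (Dg : GP p m l w N P R) (u g : P) (hu : Dg.π (Dg.q u) = 1) :
    Dg.q (u * g * u⁻¹ * g⁻¹) = 1 := by
  have h2 := Dg.vcen (Dg.q u) hu (Dg.q g)
  rw [map_mul, map_mul, map_mul, map_inv, map_inv, h2]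
  group

theorem gct_com (Dg : GP p m l w N P R) (a u g : P) (hu : Dg.π (Dg.q u) = 1)
    (ha : Dg.q (a * g * a⁻¹ * g⁻¹) = 1) (k : Fin w) :
    Dg.cw k (a * u * g * (a * u)⁻¹ * g⁻¹) = Dg.β (fun j => Dg.cv j (Dg.q u))
      (Multiplicative.toAdd (Dg.π (Dg.q g))) k + Dg.cw k (a * g * a⁻¹ * g⁻¹) := by
  have hw := gct_w Dg u g hu
  have h1 : a * u * g * (a * u)⁻¹ * g⁻¹ =
      a * (u * g * u⁻¹ * g⁻¹) * a⁻¹ * (a * g * a⁻¹ * g⁻¹) := by group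
  have h2 : a * (u * g * u⁻¹ * g⁻¹) * a⁻¹ = u * g * u⁻¹ * g⁻¹ := by
    rw [← Dg.wcen _ hw a]
    group
  rw [h1, h2, Dg.wadd k _ _ hw ha, Dg.hβ u g k hu]

theorem gct_mem (Dg : GP p m l w N P R) (I : Finset (Fin N)) (i : Fin N) (x : P) (y : R)
    (hc : y * Dg.q (x * Dg.g i * x⁻¹) = Dg.q (x * Dg.g i * x⁻¹) * y)
    (hB : Dg.cm y (Dg.q (x * Dg.g i * x⁻¹)) ∈ BS Dg (VI Dg I) i) :
    (k2 Dg I (Dg.q x))⁻¹ * k2 Dg I y * k2 Dg I (Dg.q x) ∈ C2 Dg I i := by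
  obtain ⟨z, rfl⟩ := Dg.qs y
  obtain ⟨a, ha⟩ : ∃ a : P, a = x⁻¹ * z * x := ⟨_, rfl⟩
  have hz : z = x * a * x⁻¹ := by rw [ha]; group
  have hqa : Dg.q (a * Dg.g i * a⁻¹ * (Dg.g i)⁻¹) = 1 := by
    have h1 : a * Dg.g i * a⁻¹ * (Dg.g i)⁻¹ =
        x⁻¹ * (z * (x * Dg.g i * x⁻¹) * z⁻¹ * (x * Dg.g i * x⁻¹)⁻¹) * x := by
      rw [ha]
      group
    have h2 : Dg.q (z * (x * Dg.g i * x⁻¹) * z⁻¹ * (x * Dg.g i * x⁻¹)⁻¹) = 1 := by
      rw [map_mul, map_mul, map_mul Dg.q z, map_inv, map_inv, hc]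
      group
    rw [h1, map_mul, map_mul, h2, map_inv]
    group
  have hcm : ∀ k, Dg.cm (Dg.q z) (Dg.q (x * Dg.g i * x⁻¹)) k =
      Dg.cw k (a * Dg.g i * a⁻¹ * (Dg.g i)⁻¹) := by
    intro k
    rw [cm_eq]
    congr 1
    have h1 : z * (x * Dg.g i * x⁻¹) * z⁻¹ * (x * Dg.g i * x⁻¹)⁻¹ =
        x * (a * Dg.g i * a⁻¹ * (Dg.g i)⁻¹) * x⁻¹ := by
      rw [hz]
      group
    rw [h1, ← Dg.wcen _ hqa x]
    group
  unfold BS at hB
  rw [Submodule.mem_map] at hB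
  obtain ⟨v, hv, hvB⟩ := hB
  obtain ⟨u, hu1, hu2, hu3⟩ := gct_lift Dg I (-v) ((VI Dg I).neg_mem hv)
  have hau : a * u * Dg.g i * (a * u)⁻¹ * (Dg.g i)⁻¹ = 1 := by
    refine Dg.winj _ ?_ fun k => ?_
    · have h1 : a * u * Dg.g i * (a * u)⁻¹ * (Dg.g i)⁻¹ =
          a * (u * Dg.g i * u⁻¹ * (Dg.g i)⁻¹) * a⁻¹ * (a * Dg.g i * a⁻¹ * (Dg.g i)⁻¹) := by group
      rw [h1, map_mul, map_mul, map_mul, gct_w Dg u _ hu1, hqa, map_inv]
      group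
    · rw [gct_com Dg a u _ hu1 hqa, ← hcm, ← hvB, hu2]
      have h1 : Dg.β (-v) (Multiplicative.toAdd (Dg.π (Dg.q (Dg.g i)))) k +
          (Dg.β.flip (Dg.s i)) v k = 0 := by
        rw [map_neg, LinearMap.flip_apply]
        show -(Dg.β v (Dg.s i)) k + (Dg.β v (Dg.s i)) k = 0
        exact neg_add_cancel _
      exact h1
  rw [gct_C2]
  refine ⟨a * u, ?_, ?_⟩
  · have h1 := mul_inv_eq_one.1 hau
    exact mul_inv_eq_iff_eq_mul.1 h1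
  · rw [map_mul, map_mul, hu3, mul_one, ha]
    simp only [map_mul, map_inv]

theorem gct_X [Finite P] (Dg : GP p m l w N P R) (I : Finset (Fin N)) (i : Fin N)
    (x₀ : G2 Dg I) :
    Nat.card {x : P // (k2 Dg I (Dg.q x))⁻¹ * x₀ * k2 Dg I (Dg.q x) ∈ C2 Dg I i} =
      Nat.card {c : G2 Dg I ⧸ C2 Dg I i // x₀ • c = c} *
        Nat.card {x : P // k2 Dg I (Dg.q x) ∈ C2 Dg I i} := by
  have hfix : ∀ x : P, (k2 Dg I (Dg.q x))⁻¹ * x₀ * k2 Dg I (Dg.q x) ∈ C2 Dg I i ↔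
      x₀ • (QuotientGroup.mk (k2 Dg I (Dg.q x)) : G2 Dg I ⧸ C2 Dg I i) =
        QuotientGroup.mk (k2 Dg I (Dg.q x)) := by
    intro x
    rw [MulAction.Quotient.smul_mk, smul_eq_mul]
    constructor
    · intro h
      refine (QuotientGroup.eq.2 ?_).symm
      rwa [← mul_assoc]
    · intro h
      have h1 := QuotientGroup.eq.1 h.symm
      rwa [← mul_assoc] at h1
  refine H57.LOW.loc_fib (fun x => (⟨QuotientGroup.mk (k2 Dg I (Dg.q x.1)), (hfix x.1).1 x.2⟩ :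
    {c : G2 Dg I ⧸ C2 Dg I i // x₀ • c = c})) _ ?_
  rintro ⟨c, hc⟩
  obtain ⟨g, rfl⟩ := QuotientGroup.mk_surjective c
  obtain ⟨r, rfl⟩ := k2_surj Dg I g
  obtain ⟨d, rfl⟩ := Dg.qs r
  refine Nat.card_congr ⟨fun x => ⟨d⁻¹ * x.1.1, ?_⟩, fun x => ⟨⟨d * x.1, ?_⟩, ?_⟩, ?_, ?_⟩
  · have h1 : (QuotientGroup.mk (k2 Dg I (Dg.q x.1.1)) : G2 Dg I ⧸ C2 Dg I i) =
        QuotientGroup.mk (k2 Dg I (Dg.q d)) := congrArg Subtype.val x.2
    have h2 := QuotientGroup.eq.1 h1.symm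
    rw [map_mul, map_mul, map_inv, map_inv]
    exact h2
  · rw [hfix]
    have h1 : (QuotientGroup.mk (k2 Dg I (Dg.q (d * x.1))) : G2 Dg I ⧸ C2 Dg I i) =
        QuotientGroup.mk (k2 Dg I (Dg.q d)) := by
      refine (QuotientGroup.eq.2 ?_).symm
      rw [map_mul, map_mul, inv_mul_cancel_left]
      exact x.2
    rw [h1]
    exact hc
  · apply Subtype.ext
    refine (QuotientGroup.eq.2 ?_).symm
    rw [map_mul, map_mul, inv_mul_cancel_left]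
    exact x.2
  · intro x
    apply Subtype.ext
    apply Subtype.ext
    show d * (d⁻¹ * x.1.1) = x.1.1
    group
  · intro x
    apply Subtype.ext
    show d⁻¹ * (d * x.1) = x.1
    group

theorem gct_H [Finite P] (Dg : GP p m l w N P R) (I : Finset (Fin N)) (i : Fin N) :
    Nat.card {x : P // k2 Dg I (Dg.q x) ∈ C2 Dg I i} =
      Nat.card (BS Dg (VI Dg I) i) * Nat.card {x : P // x * Dg.g i = Dg.g i * x} := by
  -- structure of the elements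
  have hstr : ∀ x : P, k2 Dg I (Dg.q x) ∈ C2 Dg I i ↔ ∃ z u : P, z * Dg.g i = Dg.g i * z ∧
      Dg.π (Dg.q u) = 1 ∧ (fun j => Dg.cv j (Dg.q u)) ∈ VI Dg I ∧ x = z * u := by
    intro x
    rw [gct_C2]
    constructor
    · rintro ⟨z, hz, hzx⟩
      have h1 : k2 Dg I (Dg.q (z⁻¹ * x)) = 1 := by
        rw [map_mul, map_mul, map_inv, map_inv, hzx, inv_mul_cancel]
      rw [k2_ker] at h1
      exact ⟨z, z⁻¹ * x, hz, h1.1, h1.2, by group⟩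
    · rintro ⟨z, u, hz, hu1, hu2, rfl⟩
      refine ⟨z, hz, ?_⟩
      have h1 : k2 Dg I (Dg.q u) = 1 := (k2_ker Dg I _).2 ⟨hu1, hu2⟩
      rw [map_mul, map_mul, h1, mul_one]
  have hval : ∀ z u : P, z * Dg.g i = Dg.g i * z → Dg.π (Dg.q u) = 1 →
      Dg.q (z * u * Dg.g i * (z * u)⁻¹ * (Dg.g i)⁻¹) = 1 ∧
      (fun k => Dg.cw k (z * u * Dg.g i * (z * u)⁻¹ * (Dg.g i)⁻¹)) =
        Dg.β.flip (Dg.s i) (fun j => Dg.cv j (Dg.q u)) := by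
    intro z u hz hu
    have hz1 : z * Dg.g i * z⁻¹ * (Dg.g i)⁻¹ = 1 := by
      rw [hz]
      group
    have hzq : Dg.q (z * Dg.g i * z⁻¹ * (Dg.g i)⁻¹) = 1 := by rw [hz1, map_one]
    constructor
    · have h1 : z * u * Dg.g i * (z * u)⁻¹ * (Dg.g i)⁻¹ =
          z * (u * Dg.g i * u⁻¹ * (Dg.g i)⁻¹) * z⁻¹ * (z * Dg.g i * z⁻¹ * (Dg.g i)⁻¹) := by group
      rw [h1, map_mul, map_mul, map_mul, gct_w Dg u _ hu, hzq, map_inv]
      group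
    · funext k
      rw [gct_com Dg z u _ hu hzq, hz1, H57.LOW.loc_cw1, add_zero]
      rfl
  refine H57.LOW.loc_fib (fun x => (⟨fun k => Dg.cw k (x.1 * Dg.g i * x.1⁻¹ * (Dg.g i)⁻¹), by
    obtain ⟨z, u, hz, hu1, hu2, hx⟩ := (hstr x.1).1 x.2
    have hmm : Dg.β.flip (Dg.s i) (fun j => Dg.cv j (Dg.q u)) ∈ BS Dg (VI Dg I) i :=
      Submodule.mem_map.2 ⟨_, hu2, rfl⟩
    rw [hx, (hval z u hz hu1).2]
    exact hmm⟩ : BS Dg (VI Dg I) i)) _ ?_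
  rintro ⟨b, hb⟩
  obtain ⟨v, hv, hvb⟩ := Submodule.mem_map.1 hb
  obtain ⟨d, hd1, hd2, hd3⟩ := gct_lift Dg I v hv
  have hdv : (fun k => Dg.cw k (d * Dg.g i * d⁻¹ * (Dg.g i)⁻¹)) = b := by
    have h1 := (hval 1 d (by group) hd1).2
    rw [one_mul, hd2] at h1
    rw [h1]
    exact hvb
  have hdq : Dg.q (d * Dg.g i * d⁻¹ * (Dg.g i)⁻¹) = 1 := gct_w Dg d _ hd1
  refine Nat.card_congr ⟨fun x => ⟨d⁻¹ * x.1.1, ?_⟩, fun x => ⟨⟨d * x.1, ?_⟩, ?_⟩, ?_, ?_⟩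
  · have h1 : (fun k => Dg.cw k (x.1.1 * Dg.g i * x.1.1⁻¹ * (Dg.g i)⁻¹)) = b :=
      congrArg Subtype.val x.2
    obtain ⟨z, u, hz, hu1, hu2, hx⟩ := (hstr x.1.1).1 x.1.2
    have hxq : Dg.q (x.1.1 * Dg.g i * x.1.1⁻¹ * (Dg.g i)⁻¹) = 1 := by
      rw [hx]
      exact (hval z u hz hu1).1
    -- the two commutators are equal
    have h2 : (x.1.1 * Dg.g i * x.1.1⁻¹ * (Dg.g i)⁻¹) *
        (d * Dg.g i * d⁻¹ * (Dg.g i)⁻¹)⁻¹ = 1 := by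
      have hdi : Dg.q (d * Dg.g i * d⁻¹ * (Dg.g i)⁻¹)⁻¹ = 1 := by rw [map_inv, hdq, inv_one]
      refine Dg.winj _ (by rw [map_mul, hxq, hdi, one_mul]) fun k => ?_
      rw [Dg.wadd k _ _ hxq hdi]
      have h3 : Dg.cw k (d * Dg.g i * d⁻¹ * (Dg.g i)⁻¹) +
          Dg.cw k (d * Dg.g i * d⁻¹ * (Dg.g i)⁻¹)⁻¹ = 0 := by
        rw [← Dg.wadd k _ _ hdq hdi, mul_inv_cancel, H57.LOW.loc_cw1]
      have h4 : Dg.cw k (x.1.1 * Dg.g i * x.1.1⁻¹ * (Dg.g i)⁻¹) = b k := congrFun h1 k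
      have h5 : Dg.cw k (d * Dg.g i * d⁻¹ * (Dg.g i)⁻¹) = b k := congrFun hdv k
      rw [h4, ← h5]
      exact h3
    have h3 : x.1.1 * Dg.g i * x.1.1⁻¹ = d * Dg.g i * d⁻¹ := by
      have h4 := mul_inv_eq_one.1 h2
      exact mul_right_cancel h4
    have h4 : x.1.1 * Dg.g i = d * Dg.g i * d⁻¹ * x.1.1 := by
      rw [← h3]
      group
    rw [mul_assoc, h4]
    group
  · rw [hstr]
    have hdc : k2 Dg I (Dg.q d) = 1 := hd3
    have h1 : k2 Dg I (Dg.q (x.1 * (x.1⁻¹ * d * x.1))) = k2 Dg I (Dg.q x.1) := by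
      rw [map_mul, map_mul, map_mul Dg.q, map_mul Dg.q, map_mul, map_mul, hdc, map_inv, map_inv]
      group
    refine ⟨x.1, x.1⁻¹ * d * x.1, x.2, ?_, ?_, by group⟩
    · have h2 : k2 Dg I (Dg.q (x.1⁻¹ * d * x.1)) = 1 := by
        rw [map_mul, map_mul] at h1
        exact mul_eq_left.1 h1
      exact ((k2_ker Dg I _).1 h2).1
    · have h2 : k2 Dg I (Dg.q (x.1⁻¹ * d * x.1)) = 1 := by
        rw [map_mul, map_mul] at h1
        exact mul_eq_left.1 h1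
      exact ((k2_ker Dg I _).1 h2).2
  · apply Subtype.ext
    show (fun k => Dg.cw k (d * x.1 * Dg.g i * (d * x.1)⁻¹ * (Dg.g i)⁻¹)) = b
    rw [← hdv]
    funext k
    congr 1
    have h1 : d * x.1 * Dg.g i * (d * x.1)⁻¹ * (Dg.g i)⁻¹ =
        d * (x.1 * Dg.g i) * x.1⁻¹ * d⁻¹ * (Dg.g i)⁻¹ := by group
    rw [h1, x.2]
    group
  · intro x
    apply Subtype.ext
    apply Subtype.ext
    show d * (d⁻¹ * x.1.1) = x.1.1
    group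
  · intro x
    apply Subtype.ext
    show d⁻¹ * (d * x.1) = x.1
    group

theorem gct_W [Finite P] (Dg : GP p m l w N P R) (i : Fin N) (Q : R → Prop) :
    Nat.card {x : P // IsConj x (Dg.g i) ∧ Q (Dg.q x)} =
      Nat.card {r : R // IsConj r (Dg.q (Dg.g i)) ∧ Q r} * Dg.Wn i := by
  refine H57.LOW.loc_fib (fun x => (⟨Dg.q x.1, MonoidHom.map_isConj Dg.q x.2.1, x.2.2⟩ :
    {r : R // IsConj r (Dg.q (Dg.g i)) ∧ Q r})) _ ?_
  rintro ⟨r, hr, hQ⟩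
  obtain ⟨u, hu⟩ := isConj_iff.1 hr
  obtain ⟨y, rfl⟩ := Dg.qs u
  have hr2 : r = (Dg.q y)⁻¹ * Dg.q (Dg.g i) * Dg.q y := by
    rw [← hu]; group
  refine Nat.card_congr ⟨fun x => ⟨y * x.1.1 * y⁻¹, ?_, ?_⟩, fun x => ⟨⟨y⁻¹ * x.1 * y, ?_, ?_⟩, ?_⟩,
    ?_, ?_⟩
  · have h1 := x.1.2.1
    refine IsConj.trans ?_ h1
    exact (isConj_iff.2 ⟨y, rfl⟩).symm
  · have h2 : Dg.q x.1.1 = r := congrArg Subtype.val x.2
    rw [map_mul, map_mul, map_inv, h2, hu]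
  · have h1 := x.2.1
    refine IsConj.trans ?_ h1
    exact (isConj_iff.2 ⟨y, by group⟩)
  · have h1 : Dg.q (y⁻¹ * x.1 * y) = r := by
      rw [map_mul, map_mul, map_inv, x.2.2, hr2]
    rw [h1]
    exact hQ
  · apply Subtype.ext
    show Dg.q (y⁻¹ * x.1 * y) = r
    rw [map_mul, map_mul, map_inv, x.2.2, hr2]
  · intro x
    apply Subtype.ext
    apply Subtype.ext
    show y⁻¹ * (y * x.1.1 * y⁻¹) * y = x.1.1
    group
  · intro x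
    apply Subtype.ext
    show y * (y⁻¹ * x.1 * y) * y⁻¹ = x.1
    group

theorem gct_orb [Finite P] (G : P) (Q : P → Prop) :
    Nat.card {x : P // Q (x * G * x⁻¹)} =
      Nat.card {x : P // IsConj x G ∧ Q x} * Nat.card {x : P // x * G = G * x} := by
  refine H57.LOW.loc_fib (fun x => (⟨x.1 * G * x.1⁻¹, (isConj_iff.2 ⟨x.1, rfl⟩).symm, x.2⟩ :
    {x : P // IsConj x G ∧ Q x})) _ ?_
  rintro ⟨z, hz, hQ⟩
  obtain ⟨c, hc⟩ := isConj_iff.1 hz.symm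
  refine Nat.card_congr ⟨fun x => ⟨c⁻¹ * x.1.1, ?_⟩, fun x => ⟨⟨c * x.1, ?_⟩, ?_⟩, ?_, ?_⟩
  · have h0 : x.1.1 * G * x.1.1⁻¹ = z := congrArg Subtype.val x.2
    have h1 : x.1.1 * G * x.1.1⁻¹ = c * G * c⁻¹ := h0.trans hc.symm
    have h2 : x.1.1 * G = c * G * c⁻¹ * x.1.1 := by
      rw [← h1]; group
    rw [mul_assoc, h2]; group
  · have h1 : c * x.1 * G * (c * x.1)⁻¹ = z := by
      rw [← hc, mul_assoc c, x.2]; group
    rw [h1]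
    exact hQ
  · apply Subtype.ext
    show c * x.1 * G * (c * x.1)⁻¹ = z
    rw [← hc, mul_assoc c, x.2]; group
  · intro x
    apply Subtype.ext
    apply Subtype.ext
    show c * (c⁻¹ * x.1.1) = x.1.1
    group
  · intro x
    apply Subtype.ext
    show c⁻¹ * (c * x.1) = x.1
    group

theorem gct [NeZero p] [Finite P] (hp : p.Prime) (Dg : GP p m l w N P R) (I : Finset (Fin N))
    (i : Fin N) (x₀ : G2 Dg I) :
    (Dg.Wn i : ℝ) * Nat.card {r : R // IsConj r (Dg.q (Dg.g i)) ∧ ∃ y : R, k2 Dg I y = x₀ ∧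
      y * r = r * y ∧ Dg.cm y r ∈ BS Dg (VI Dg I) i} ≤
      Nat.card (BS Dg (VI Dg I) i) * fx (C2 Dg I i) x₀ := by
  obtain ⟨Q, hQ⟩ : ∃ Q : R → Prop, ∀ r, Q r ↔ ∃ y : R, k2 Dg I y = x₀ ∧
      y * r = r * y ∧ Dg.cm y r ∈ BS Dg (VI Dg I) i := ⟨_, fun _ => Iff.rfl⟩
  have e0 : {r : R // IsConj r (Dg.q (Dg.g i)) ∧ ∃ y : R, k2 Dg I y = x₀ ∧
      y * r = r * y ∧ Dg.cm y r ∈ BS Dg (VI Dg I) i} =
      {r : R // IsConj r (Dg.q (Dg.g i)) ∧ Q r} := by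
    congr 1
    funext r
    rw [hQ r]
  rw [e0]
  have h1 := gct_W Dg i Q
  have h2 := gct_orb (Dg.g i) (fun x => Q (Dg.q x))
  have h3 := gct_X Dg I i x₀
  have h4 := gct_H Dg I i
  have h5 : Nat.card {x : P // Q (Dg.q (x * Dg.g i * x⁻¹))} ≤
      Nat.card {x : P // (k2 Dg I (Dg.q x))⁻¹ * x₀ * k2 Dg I (Dg.q x) ∈ C2 Dg I i} := by
    refine Nat.card_le_card_of_injective (fun x => ⟨x.1, ?_⟩) ?_
    · obtain ⟨y, hy1, hy2, hy3⟩ := (hQ _).1 x.2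
      rw [← hy1]
      exact gct_mem Dg I i x.1 y hy2 hy3
    · intro a b hab
      exact Subtype.ext (congrArg (fun c => c.1) hab)
  have hZ : 0 < Nat.card {x : P // x * Dg.g i = Dg.g i * x} := by
    have : Nonempty {x : P // x * Dg.g i = Dg.g i * x} := ⟨⟨1, by group⟩⟩
    exact Nat.card_pos
  rw [h2, h3, h4] at h5
  rw [h1] at h5
  have h6 : Nat.card {r : R // IsConj r (Dg.q (Dg.g i)) ∧ Q r} * Dg.Wn i ≤
      Nat.card {c : G2 Dg I ⧸ C2 Dg I i // x₀ • c = c} * Nat.card (BS Dg (VI Dg I) i) := by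
    refine Nat.le_of_mul_le_mul_right ?_ hZ
    rw [mul_assoc (Nat.card {c : G2 Dg I ⧸ C2 Dg I i // x₀ • c = c})]
    exact h5
  unfold fx
  have h7 : ((Nat.card {r : R // IsConj r (Dg.q (Dg.g i)) ∧ Q r} * Dg.Wn i : ℕ) : ℝ) ≤
      ((Nat.card {c : G2 Dg I ⧸ C2 Dg I i // x₀ • c = c} * Nat.card (BS Dg (VI Dg I) i) : ℕ) : ℝ) :=
    by exact_mod_cast h6
  push_cast at h7
  calc (Dg.Wn i : ℝ) * Nat.card {r : R // IsConj r (Dg.q (Dg.g i)) ∧ Q r} =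
        Nat.card {r : R // IsConj r (Dg.q (Dg.g i)) ∧ Q r} * Dg.Wn i := mul_comm _ _
    _ ≤ _ := h7
    _ = _ := mul_comm _ _

end H77.PT
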