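import Pool.Agent.H77.PT.Gct
import Pool.Agent.H77.PT.Rhc

/-!
# [H77 PT GFB] the sum over the homomorphisms with given image in `G2`, 130-200 lines. File Pool/Agent/H77/PT/Gfb.lean

`h : Fin N × Bool → Finset (Pl K)` a disjoint family of primes outside `S0`, `n i = h (i, false)`, `g i = h (i, true)`. There is `C` (independent of `h, b, E, ε`) such that the sum over `ρ ∈ RHf` of `∏ phi (VI)` is at most `C * C ^ (∑ #(n i))` times the sum over the image `Im = {k2 ∘ ρ | ρ ∈ RHf}` (`Finset.image`) of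
`∏ i, ∏ v ∈ g i, fx (C2 i) (ρ₂ (F v))`.
PROOF. `Finset.sum_fiberwise_of_maps_to` along `ρ ↦ (k2 Dg I).comp ρ`. Fix `ρ₂ ∈ Im` and let `𝓡` be the set of the `ρ ∈ RHf` over `ρ₂`. For `v ∈ n i`: `phi (i, false) = Wn i ≤ #P`. For `v ∈ g i`: `phi (i, true) x = (Wn i / #B_i) * 1[x ∈ B_i]`, `B_i = BS Dg (VI Dg I) i`. So the sum is at most `#P ^ (∑ #(n i)) * ∏ i, (Wn i / #B_i) ^ #(g i) * #𝓡'`,
`𝓡'` the set of the `ρ ∈ 𝓡` with `cq ρ v ∈ B_i` for all `v ∈ g i`. For `ρ ∈ 𝓡'` and `v ∈ g i`, the label `r = ρ (t v)` is in `Lab i (ρ₂ (F v))` (the set in `gct`): conjugate to `q (g i)` (`RH`), with `y = ρ (F v)`: `k2 y = ρ₂ (F v)`, `y r = r y` (`Fr.com v _ R ρ`), `cm y r = cq ρ v ∈ B_i`.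
The map `ρ ↦ (ρ (t v))_v` on `𝓡'` has fibres with at most `rhn L Dg` elements (`rhc_fib`) and its image is contained in the functions with values in `R` at the `v ∈ n i` and in `Lab i (ρ₂ (F v))` at the `v ∈ g i`: `#𝓡' ≤ rhn * #R ^ (∑ #(n i)) * ∏ i, ∏ v ∈ g i, #Lab i (ρ₂ (F v))` (`Fintype.piFinset` over `↥(⋃ h a)`, or over
`(a : Fin N × Bool) → ↥(h a) → R` as in the proof of `rh_card_eq`, CLx.lean). Finally `(Wn i / #B_i) * #Lab i x ≤ fx (C2 i) x` by `gct` (`#B_i ≥ 1`). `C = rhn L Dg + #P * #R + 1` (`rhn ≥ 1`).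
-/

set_option autoImplicit false

open scoped NumberField
open IsDedekindDomain
open scoped Classical

noncomputable section

namespace H77.PT

open H63.MA H38.BB H38.BG H57.PC H51.CUB H77.PC3

variable {K : Type} [Field K] [NumberField K] {p : ℕ} {ζ : K} {D : RD0 K p ζ} {Ω : Type}
  [Field Ω] [Algebra K Ω] [IsAlgClosure K Ω] {m l w N : ℕ} {P R : Type} [Group P] [Group R]

omit [IsAlgClosure K Ω] in
private theorem gfb_mem (U : WY N (Fin N × Bool)) (hU : ∀ a, U.cls a = a.1)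
    (h : Fin N × Bool → Finset (Pl K)) (a : Fin N × Bool) (v : Pl K) (hv : v ∈ h a) :
    v ∈ clw U h a.1 := by
  unfold clw
  rw [Finset.mem_biUnion]
  exact ⟨a, Finset.mem_filter.2 ⟨Finset.mem_univ _, hU a⟩, hv⟩

/-- the number of the homomorphisms over one homomorphism to the quotient -/
private theorem gfb_one [NeZero p] [Finite R] (hp : p.Prime) (hζ : IsPrimitiveRoot ζ p)
    (L : LDs D Ω) (Fr : FR L) (Dg : GP p m l w N P R) (I : Finset (Fin N))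
    (U : WY N (Fin N × Bool)) (hU : ∀ a, U.cls a = a.1) (b : Fin m → Kˣ)
    (E : Finset (Pl K)) (ε : Pl K → Gal(Ω/K) → R) (h : Fin N × Bool → Finset (Pl K))
    (hS : ∀ a, ∀ v ∈ h a, v ∉ D.S0) (ρ₂ : Gal(Ω/K) →* G2 Dg I) (T : Finset (Gal(Ω/K) →* R))
    (h1 : ∀ ρ ∈ T, ρ ∈ RH L Dg b E ε (clw U h)) (h2 : ∀ ρ ∈ T, (k2 Dg I).comp ρ = ρ₂)
    (h3 : ∀ ρ ∈ T, ∀ i, ∀ v ∈ h (i, true), cq Dg Fr ρ v ∈ BS Dg (VI Dg I) i) :
    (T.card : ℝ) ≤ rhn L Dg * ((Nat.card R : ℝ) ^ (∑ i, (h (i, false)).card) *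
      ∏ i, ∏ v ∈ h (i, true), (Nat.card {r : R // IsConj r (Dg.q (Dg.g i)) ∧
        ∃ y : R, k2 Dg I y = ρ₂ (Fr.F v) ∧ y * r = r * y ∧
          Dg.cm y r ∈ BS Dg (VI Dg I) i} : ℝ)) := by
  have hfin : Fintype R := Fintype.ofFinite R
  obtain ⟨Lf, hLf⟩ : ∃ Lf : Fin N → G2 Dg I → Finset R, Lf = fun i x =>
      Finset.univ.filter fun r : R => IsConj r (Dg.q (Dg.g i)) ∧
        ∃ y : R, k2 Dg I y = x ∧ y * r = r * y ∧ Dg.cm y r ∈ BS Dg (VI Dg I) i := ⟨_, rfl⟩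
  have hLc : ∀ i x, (Lf i x).card = Nat.card {r : R // IsConj r (Dg.q (Dg.g i)) ∧
      ∃ y : R, k2 Dg I y = x ∧ y * r = r * y ∧ Dg.cm y r ∈ BS Dg (VI Dg I) i} := by
    intro i x
    rw [hLf, Nat.card_eq_fintype_card, Fintype.card_subtype]
  obtain ⟨Φ, hΦ⟩ : ∃ Φ : (Gal(Ω/K) →* R) → ((a : Fin N × Bool) → (↥(h a) → R)),
      Φ = fun ρ a v => ρ (L.t v.1) := ⟨_, rfl⟩
  obtain ⟨V, hV⟩ : ∃ V : Finset ((a : Fin N × Bool) → (↥(h a) → R)),
      V = Fintype.piFinset fun a => Fintype.piFinset fun v : ↥(h a) =>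
        if a.2 = true then Lf a.1 (ρ₂ (Fr.F v.1)) else Finset.univ := ⟨_, rfl⟩
  have e1 : T.card ≤ rhn L Dg * (T.image Φ).card := by
    refine Finset.card_le_mul_card_image T _ fun e _ => ?_
    refine rhc_fib hp hζ L Dg b E ε (clw U h) _ (fun ρ hρ => h1 ρ (Finset.mem_filter.1 hρ).1) ?_
    intro ρ hρ ρ' hρ' i v hv
    have f1 := (Finset.mem_filter.1 hρ).2
    have f2 := (Finset.mem_filter.1 hρ').2
    unfold clw at hv
    obtain ⟨a, -, hva⟩ := Finset.mem_biUnion.1 hv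
    have f3 : Φ ρ a ⟨v, hva⟩ = Φ ρ' a ⟨v, hva⟩ := by rw [f1, f2]
    rw [hΦ] at f3
    exact f3
  have e2 : T.image Φ ⊆ V := by
    intro e he
    obtain ⟨ρ, hρ, rfl⟩ := Finset.mem_image.1 he
    rw [hV, Fintype.mem_piFinset]
    rintro ⟨i, bb⟩
    rw [Fintype.mem_piFinset]
    intro v
    cases bb
    · simp
    · have hv := gfb_mem U hU h (i, true) v.1 v.2
      obtain ⟨r0, r1, r2, r3, r4⟩ := h1 ρ hρ
      have hvS := hS (i, true) v.1 v.2
      rw [if_pos rfl, hLf, Finset.mem_filter]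
      refine ⟨Finset.mem_univ _, ?_, ρ (Fr.F v.1), ?_, ?_, ?_⟩
      · rw [hΦ]
        exact (r2 i v.1 hv).1
      · rw [← h2 ρ hρ]
        rfl
      · rw [hΦ]
        exact Fr.com v.1 hvS R ρ r0 (r2 i v.1 hv).2
      · rw [hΦ]
        exact h3 ρ hρ i v.1 v.2
  have e3 : V.card = (∏ i, ∏ v ∈ h (i, true), (Lf i (ρ₂ (Fr.F v))).card) *
      (Fintype.card R) ^ (∑ i, (h (i, false)).card) := by
    rw [hV, Fintype.card_piFinset, Fintype.prod_prod_type]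
    rw [← Finset.prod_pow_eq_pow_sum, ← Finset.prod_mul_distrib]
    refine Finset.prod_congr rfl fun i _ => ?_
    rw [Fintype.prod_bool, Fintype.card_piFinset, Fintype.card_piFinset]
    congr 1
    · rw [← Finset.prod_coe_sort (h (i, true)) fun v => (Lf i (ρ₂ (Fr.F v))).card]
      exact Finset.prod_congr rfl fun v _ => by rw [if_pos rfl]
    · rw [Finset.prod_congr rfl fun v _ => by
        rw [if_neg (by simp : ¬ ((i, false) : Fin N × Bool).2 = true)]]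
      rw [Finset.prod_const, Finset.card_univ, Finset.card_univ, Fintype.card_coe]
  have e4 : T.card ≤ rhn L Dg * ((Nat.card R) ^ (∑ i, (h (i, false)).card) *
      ∏ i, ∏ v ∈ h (i, true), Nat.card {r : R // IsConj r (Dg.q (Dg.g i)) ∧
        ∃ y : R, k2 Dg I y = ρ₂ (Fr.F v) ∧ y * r = r * y ∧
          Dg.cm y r ∈ BS Dg (VI Dg I) i}) := by
    refine e1.trans (Nat.mul_le_mul_left _ ((Finset.card_le_card e2).trans (le_of_eq ?_)))
    rw [e3, mul_comm, Nat.card_eq_fintype_card (α := R)]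
    congr 1
    refine Finset.prod_congr rfl fun i _ => Finset.prod_congr rfl fun v _ => ?_
    rw [hLc]
  exact_mod_cast e4

theorem gfb [NeZero p] [Finite P] [Finite R] (hp : p.Prime) (hζ : IsPrimitiveRoot ζ p)
    (L : LDs D Ω) (Fr : FR L) (Dg : GP p m l w N P R) (I : Finset (Fin N)) :
    ∃ C : ℝ, 1 ≤ C ∧ ∀ (U : WY N (Fin N × Bool)) (_ : ∀ a, U.cls a = a.1) (b : Fin m → Kˣ)
      (E : Finset (Pl K)) (ε : Pl K → Gal(Ω/K) → R) (h : Fin N × Bool → Finset (Pl K)), Dj h →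
      (∀ a, ∀ v ∈ h a, v ∉ D.S0) →
      ∑ ρ ∈ RHf L Dg b E ε (clw U h), ∏ a, ∏ v ∈ h a, phi Dg (VI Dg I) a (cq Dg Fr ρ v) ≤
        C * C ^ (∑ i, (h (i, false)).card) *
          ∑ ρ₂ ∈ (RHf L Dg b E ε (clw U h)).image (fun ρ => (k2 Dg I).comp ρ),
            ∏ i, ∏ v ∈ h (i, true), fx (C2 Dg I i) (ρ₂ (Fr.F v)) := by
  obtain ⟨cP, hcP⟩ : ∃ c : ℝ, c = Nat.card P := ⟨_, rfl⟩
  obtain ⟨cR, hcR⟩ : ∃ c : ℝ, c = Nat.card R := ⟨_, rfl⟩
  obtain ⟨c0, hc0⟩ : ∃ c : ℝ, c = rhn L Dg := ⟨_, rfl⟩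
  have hcP1 : 1 ≤ cP := by
    rw [hcP]
    exact_mod_cast (Nat.card_pos : 0 < Nat.card P)
  have hcR1 : 1 ≤ cR := by
    rw [hcR]
    exact_mod_cast (Nat.card_pos : 0 < Nat.card R)
  have hc01 : 1 ≤ c0 := by
    rw [hc0]
    exact_mod_cast rhn_pos hp hζ L Dg
  have hPR : 0 ≤ cP * cR := by positivity
  refine ⟨c0 + cP * cR, by linarith, ?_⟩
  intro U hU b E ε h hdj hS
  obtain ⟨n, hn⟩ : ∃ n, n = ∑ i, (h (i, false)).card := ⟨_, rfl⟩
  obtain ⟨κ, hκ⟩ : ∃ κ : Fin N → ℝ, κ = fun i => (Dg.Wn i : ℝ) / Nat.card (BS Dg (VI Dg I) i) := ⟨_, rfl⟩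
  have hκ0 : ∀ i, 0 ≤ κ i := by
    intro i
    rw [hκ]
    positivity
  have hBf : ∀ i, 0 < Nat.card (BS Dg (VI Dg I) i) := by
    intro i
    have : Finite (BS Dg (VI Dg I) i) := inferInstance
    exact Nat.card_pos
  -- the weight of one homomorphism
  have hw : ∀ ρ : Gal(Ω/K) →* R, ∏ a, ∏ v ∈ h a, phi Dg (VI Dg I) a (cq Dg Fr ρ v) ≤
      cP ^ n * ((∏ i, ∏ _v ∈ h (i, true), κ i) *
        if ∀ i, ∀ v ∈ h (i, true), cq Dg Fr ρ v ∈ BS Dg (VI Dg I) i then 1 else 0) := by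
    intro ρ
    rw [Fintype.prod_prod_type, Finset.prod_congr rfl fun i _ => Fintype.prod_bool _,
      Finset.prod_mul_distrib, mul_comm]
    have hf0 : ∀ i, ∀ v ∈ h (i, false), (0 : ℝ) ≤ phi Dg (VI Dg I) (i, false) (cq Dg Fr ρ v) := by
      intro i v _
      unfold phi
      simp
    have hsm : ∏ i, ∏ v ∈ h (i, false), phi Dg (VI Dg I) (i, false) (cq Dg Fr ρ v) ≤ cP ^ n := by
      rw [hn, ← Finset.prod_pow_eq_pow_sum]
      refine Finset.prod_le_prod (fun i _ => Finset.prod_nonneg (hf0 i)) fun i _ => ?_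
      refine (Finset.prod_le_prod (hf0 i) fun v _ => ?_).trans (le_of_eq (Finset.prod_const cP))
      rw [hcP]
      exact phi_le Dg (VI Dg I) (i, false) _
    have hlg : ∏ i, ∏ v ∈ h (i, true), phi Dg (VI Dg I) (i, true) (cq Dg Fr ρ v) =
        (∏ i, ∏ _v ∈ h (i, true), κ i) *
        if ∀ i, ∀ v ∈ h (i, true), cq Dg Fr ρ v ∈ BS Dg (VI Dg I) i then 1 else 0 := by
      have hphi : ∀ i x, phi Dg (VI Dg I) (i, true) x = κ i * (if x ∈ BS Dg (VI Dg I) i then 1 else 0) := by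
        intro i x
        rw [hκ]
        unfold phi
        rw [if_pos rfl]
      by_cases hall : ∀ i, ∀ v ∈ h (i, true), cq Dg Fr ρ v ∈ BS Dg (VI Dg I) i
      · rw [if_pos hall, mul_one]
        refine Finset.prod_congr rfl fun i _ => Finset.prod_congr rfl fun v hv => ?_
        rw [hphi, if_pos (hall i v hv), mul_one]
      · rw [if_neg hall, mul_zero]
        push Not at hall
        obtain ⟨i, v, hv, hne⟩ := hall
        refine Finset.prod_eq_zero (Finset.mem_univ i) (Finset.prod_eq_zero hv ?_)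
        rw [hphi, if_neg hne, mul_zero]
    rw [hlg]
    refine mul_le_mul_of_nonneg_right hsm ?_
    refine mul_nonneg (Finset.prod_nonneg fun i _ => Finset.prod_nonneg fun _ _ => hκ0 i) ?_
    split_ifs <;> norm_num
  rw [← hn]
  refine (Finset.sum_le_sum fun ρ _ => hw ρ).trans ?_
  rw [← Finset.sum_fiberwise_of_maps_to
    (g := fun ρ : Gal(Ω/K) →* R => (k2 Dg I).comp ρ)
    (t := (RHf L Dg b E ε (clw U h)).image fun ρ => (k2 Dg I).comp ρ)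
    (fun ρ hρ => Finset.mem_image_of_mem _ hρ), Finset.mul_sum]
  refine Finset.sum_le_sum fun ρ₂ _ => ?_
  rw [← Finset.mul_sum, ← Finset.mul_sum, Finset.sum_boole]
  have hone := gfb_one hp hζ L Fr Dg I U hU b E ε h hS ρ₂
    (((RHf L Dg b E ε (clw U h)).filter fun ρ => (k2 Dg I).comp ρ = ρ₂).filter
      fun ρ => ∀ i, ∀ v ∈ h (i, true), cq Dg Fr ρ v ∈ BS Dg (VI Dg I) i)
    (fun ρ hρ => mem_RHf (Finset.mem_filter.1 (Finset.mem_filter.1 hρ).1).1)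
    (fun ρ hρ => (Finset.mem_filter.1 (Finset.mem_filter.1 hρ).1).2)
    (fun ρ hρ => (Finset.mem_filter.1 hρ).2)
  rw [← hn, ← hcR, ← hc0] at hone
  obtain ⟨Lc, hLc⟩ : ∃ Lc : Fin N → Pl K → ℝ, Lc = fun i v =>
      (Nat.card {r : R // IsConj r (Dg.q (Dg.g i)) ∧
        ∃ y : R, k2 Dg I y = ρ₂ (Fr.F v) ∧ y * r = r * y ∧
          Dg.cm y r ∈ BS Dg (VI Dg I) i} : ℝ) := ⟨_, rfl⟩
  have hLc0 : ∀ i v, 0 ≤ Lc i v := by
    intro i v
    rw [hLc]
    exact Nat.cast_nonneg _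
  have hone' : ((((RHf L Dg b E ε (clw U h)).filter fun ρ => (k2 Dg I).comp ρ = ρ₂).filter
      fun ρ => ∀ i, ∀ v ∈ h (i, true), cq Dg Fr ρ v ∈ BS Dg (VI Dg I) i).card : ℝ) ≤
      c0 * (cR ^ n * ∏ i, ∏ v ∈ h (i, true), Lc i v) := by
    rw [hLc]
    exact hone
  have hpr : (∏ i, ∏ _v ∈ h (i, true), κ i) * ∏ i, ∏ v ∈ h (i, true), Lc i v ≤
      ∏ i, ∏ v ∈ h (i, true), fx (C2 Dg I i) (ρ₂ (Fr.F v)) := by
    rw [← Finset.prod_mul_distrib]
    refine Finset.prod_le_prod (fun i _ => ?_) fun i _ => ?_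
    · exact mul_nonneg (Finset.prod_nonneg fun _ _ => hκ0 i)
        (Finset.prod_nonneg fun v _ => hLc0 i v)
    · rw [← Finset.prod_mul_distrib]
      refine Finset.prod_le_prod (fun v _ => mul_nonneg (hκ0 i) (hLc0 i v)) fun v _ => ?_
      have hg := gct hp Dg I i (ρ₂ (Fr.F v))
      have hB0 : (0 : ℝ) < Nat.card (BS Dg (VI Dg I) i) := by exact_mod_cast hBf i
      rw [hκ, hLc]
      simp only
      rw [div_mul_eq_mul_div, div_le_iff₀ hB0]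
      linarith
  have hκp : 0 ≤ ∏ i, ∏ _v ∈ h (i, true), κ i :=
    Finset.prod_nonneg fun i _ => Finset.prod_nonneg fun _ _ => hκ0 i
  have hLp : 0 ≤ ∏ i, ∏ v ∈ h (i, true), Lc i v :=
    Finset.prod_nonneg fun i _ => Finset.prod_nonneg fun v _ => hLc0 i v
  obtain ⟨X, hX⟩ : ∃ X, X = ∏ i, ∏ v ∈ h (i, true), fx (C2 Dg I i) (ρ₂ (Fr.F v)) := ⟨_, rfl⟩
  rw [← hX] at hpr ⊢
  have hX0 : 0 ≤ X := (mul_nonneg hκp hLp).trans hpr
  calc cP ^ n * ((∏ i, ∏ _v ∈ h (i, true), κ i) *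
        ((((RHf L Dg b E ε (clw U h)).filter fun ρ => (k2 Dg I).comp ρ = ρ₂).filter
        fun ρ => ∀ i, ∀ v ∈ h (i, true), cq Dg Fr ρ v ∈ BS Dg (VI Dg I) i).card : ℝ))
      ≤ cP ^ n * ((∏ i, ∏ _v ∈ h (i, true), κ i) *
        (c0 * (cR ^ n * ∏ i, ∏ v ∈ h (i, true), Lc i v))) := by
        apply mul_le_mul_of_nonneg_left _ (by positivity)
        exact mul_le_mul_of_nonneg_left hone' hκp
    _ = (c0 * (cP * cR) ^ n) * ((∏ i, ∏ _v ∈ h (i, true), κ i) *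
        ∏ i, ∏ v ∈ h (i, true), Lc i v) := by
        rw [mul_pow]
        ring
    _ ≤ (c0 * (cP * cR) ^ n) * X := mul_le_mul_of_nonneg_left hpr (by positivity)
    _ ≤ (c0 + cP * cR) * (c0 + cP * cR) ^ n * X := by
        apply mul_le_mul_of_nonneg_right _ hX0
        exact mul_le_mul (by linarith) (pow_le_pow_left₀ hPR (by linarith) n) (by positivity)
          (by positivity)

end H77.PT
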