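import Pool.Agent.H57.TLS.Uni

/-!
# H77-PT-IDC: the number of the ideals of norm in `(X, 2X]`, uniformly in the field (MP_b39724_nt)
-/

set_option autoImplicit false

open scoped NumberField
open NumberField H63.MA H36.QA H57.TLS

noncomputable section

namespace H77.PT

theorem idc (n : ℕ) (hn : 0 < n) : ∃ C : ℝ, 1 ≤ C ∧ ∃ A : ℕ, ∀ (F : Type) [Field F]
    [NumberField F], TC F n → ∀ X : ℝ, C * dd F ^ A ≤ X → ∀ T : Finset (Ideal (𝓞 F)),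
      (∀ I ∈ T, X < Ideal.absNorm I ∧ (Ideal.absNorm I : ℝ) ≤ 2 * X) →
      (T.card : ℝ) ≤ C * (1 + Real.log (dd F)) ^ n * X := by
  obtain ⟨C₁, hC₁, h1⟩ := mink n hn
  obtain ⟨C₂, hC₂, A₂, h2⟩ := box_count n hn
  obtain ⟨C₄, hC₄, h4⟩ := har n hn
  have hk : 0 ≤ kpn n := by
    unfold kpn
    positivity
  have hl0 : 0 ≤ Real.log (2 * C₁) := Real.log_nonneg (by linarith)
  obtain ⟨E₁, hE₁⟩ : ∃ E₁ : ℝ, E₁ = (kpn n + C₂) * (2 * C₁) * C₄ * (1 + Real.log (2 * C₁)) ^ n :=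
    ⟨_, rfl⟩
  have hE₁0 : 0 ≤ E₁ := by rw [hE₁]; positivity
  refine ⟨C₂ + E₁, by linarith, A₂, ?_⟩
  intro F _ _ hF X hCX T hT
  have hd : 1 ≤ dd F := one_le_dd F
  obtain ⟨d, hdd⟩ : ∃ d : ℝ, d = dd F := ⟨_, rfl⟩
  obtain ⟨s, hs⟩ : ∃ s : ℝ, s = Real.sqrt (dd F) := ⟨_, rfl⟩
  have hs1 : 1 ≤ s := by
    rw [hs]
    exact Real.one_le_sqrt.2 hd
  have hs2 : s * s = d := by
    rw [hs, hdd]
    exact Real.mul_self_sqrt (by linarith)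
  have hd1 : 1 ≤ d := by rw [hdd]; exact hd
  have hsd : s ≤ d := by nlinarith
  rw [← hdd] at hCX ⊢
  have hX1 : C₂ * d ^ A₂ ≤ X := by
    have h0 : 0 ≤ d ^ A₂ := by positivity
    nlinarith
  have hX2 : 1 ≤ X := by
    have h0 : 1 ≤ d ^ A₂ := one_le_pow₀ hd1
    nlinarith
  have hY : 1 ≤ 2 * C₁ * s * X := by
    have h0 : 1 ≤ C₁ * s := by nlinarith
    nlinarith
  obtain ⟨R, hR1, hRn, -⟩ := uni_root hn hY
  have hR0 : 0 < R := by linarith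
  have hZ2 : 2 ≤ 2 * C₁ * s := by nlinarith
  have hlog : 0 ≤ Real.log (2 * C₁ * s) := Real.log_nonneg (by linarith)
  have hsum := h4 F hF.2 (2 * C₁ * s) hZ2
  have hmaj := uni_major hC₁ hF (h1 F hF) (by linarith) hR0 (by rw [hRn, hs])
    (fun _ => (1 : ℝ)) (fun _ => zero_le_one) T hT
  have hone : ∀ 𝔫 ∈ IN F (2 * C₁ * s), ((bxs 𝔫 R).card : ℝ) ≤
      (kpn n + C₂) * (2 * C₁) * X * (1 / Ideal.absNorm 𝔫) := by
    intro 𝔫 h𝔫
    obtain ⟨hn1, hn0⟩ := (mem_IN (by linarith)).1 h𝔫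
    have hN𝔫 : 0 < (Ideal.absNorm 𝔫 : ℝ) := by
      have : Ideal.absNorm 𝔫 ≠ 0 := by rwa [Ne, Ideal.absNorm_eq_zero_iff]
      exact_mod_cast Nat.pos_of_ne_zero this
    have h5 := uni_card hn (h2 F hF 𝔫 hn0 R R hR0 le_rfl (by
      rw [hRn, ← hdd]
      calc C₂ * d ^ A₂ * Ideal.absNorm 𝔫 ≤ X * (2 * C₁ * s) := by
            exact mul_le_mul hX1 hn1 hN𝔫.le (by linarith)
        _ = 2 * C₁ * s * X := by ring) 0)
    rw [hRn, ← hs] at h5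
    rw [mul_one_div, le_div_iff₀ hN𝔫]
    have hs0 : 0 < s := by linarith
    refine le_of_mul_le_mul_right ?_ hs0
    calc ((bxs 𝔫 R).card : ℝ) * Ideal.absNorm 𝔫 * s = ((bxs 𝔫 R).card : ℝ) * (Ideal.absNorm 𝔫 * s) := by ring
      _ ≤ (kpn n + C₂) * (2 * C₁ * s * X) := h5
      _ = (kpn n + C₂) * (2 * C₁) * X * s := by ring
  have hX0 : 0 ≤ X := by linarith
  have hlogd : 0 ≤ Real.log d := Real.log_nonneg hd1
  have hlog2 : Real.log (2 * C₁ * s) ≤ (1 + Real.log (2 * C₁)) * (1 + Real.log d) := by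
    rw [Real.log_mul (by positivity) (by linarith)]
    have h6 : Real.log s ≤ Real.log d := Real.log_le_log (by linarith) hsd
    nlinarith [mul_nonneg hl0 hlogd]
  rw [← hs] at hmaj
  have hcard : (T.card : ℝ) = ∑ _𝔪 ∈ T, (1 : ℝ) := by
    rw [Finset.sum_const, nsmul_eq_mul, mul_one]
  rw [hcard]
  refine hmaj.trans ?_
  have hc2 : ∀ 𝔫 : Ideal (𝓞 F), ∑ _α ∈ bxs 𝔫 R, (1 : ℝ) = ((bxs 𝔫 R).card : ℝ) := fun 𝔫 => by
    rw [Finset.sum_const, nsmul_eq_mul, mul_one]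
  simp only [hc2]
  calc ∑ 𝔫 ∈ IN F (2 * C₁ * s), ((bxs 𝔫 R).card : ℝ)
      ≤ ∑ 𝔫 ∈ IN F (2 * C₁ * s), (kpn n + C₂) * (2 * C₁) * X * (1 / Ideal.absNorm 𝔫) :=
        Finset.sum_le_sum hone
    _ = (kpn n + C₂) * (2 * C₁) * X * ∑ 𝔫 ∈ IN F (2 * C₁ * s), (1 : ℝ) / Ideal.absNorm 𝔫 := by
        rw [Finset.mul_sum]
    _ ≤ (kpn n + C₂) * (2 * C₁) * X * (C₄ * Real.log (2 * C₁ * s) ^ n) :=
        mul_le_mul_of_nonneg_left hsum (by positivity)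
    _ ≤ (kpn n + C₂) * (2 * C₁) * X * (C₄ * ((1 + Real.log (2 * C₁)) * (1 + Real.log d)) ^ n) := by
        refine mul_le_mul_of_nonneg_left ?_ (by positivity)
        exact mul_le_mul_of_nonneg_left (pow_le_pow_left₀ hlog hlog2 n) (by linarith)
    _ = E₁ * (1 + Real.log d) ^ n * X := by
        rw [hE₁, mul_pow]
        ring
    _ ≤ (C₂ + E₁) * (1 + Real.log d) ^ n * X := by
        have h6 : 0 ≤ (1 + Real.log d) ^ n * X :=
          mul_nonneg (pow_nonneg (by linarith) n) hX0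
        nlinarith

end H77.PT
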