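import Pool.Agent.H77.PT.Pwb

/-!
# [H77 PT INR] the quotient by the range of `Z`, 60-100 lines. File Pool/Agent/H77/PT/Inr.lean

`r ∈ PH .. n`; `ρ₃ σ` = the class of `r σ` in `G2 ⧸ Z.range`.
* finite type: `H38.ML.ft_comp` (Pool/Agent/H38/ML/Factor.lean). Surjective: the last condition of `PH` (`r σ * x⁻¹ ∈ Z.range`; `Z.range` is normal: `QuotientGroup.eq` and normality).
* unramified outside `E` and the `n i`, `i ∉ I`: let `v ∉ S0`, `v ∉ E`, `v ∉ n i` for `i ∉ I`, `τ ∈ inr L v`. If `v` is in no `n i`: `r τ = 1` (5th condition of `PH`). If `v ∈ n i` with `i ∈ I`: `r (t v)` is conjugate to `k2 (q (g i)) = Z (single i 1)` (`hZ.on`), which is central, so `r (t v) = Z (single i 1) ∈ Z.range`, and `r τ = r (t v) ^ _` (`tm_z`, Pool/Agent/H38/BG/TTam.lean;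
 `G2` is finite) is in `Z.range`.
* `inr_C2`: `Z (single i 1) = k2 (q (g i))` is in `C2 Dg I i` for `i ∈ I`: `g i` centralises itself.
* `inr_norm`: `Z.range` is normal as it is central.
-/

set_option autoImplicit false

open scoped NumberField
open IsDedekindDomain
open scoped Classical

noncomputable section

namespace H77.PT

open H63.MA H38.BB H38.BG H57.PC H51.CUB H77.PC3

variable {p m l w N : ℕ} {P R : Type} [Group P] [Group R]

theorem inr_norm [NeZero p] (Dg : GP p m l w N P R) (I : Finset (Fin N))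
    (Z : Multiplicative (Fin N → ZMod p) →* G2 Dg I) (hZ : ZD Dg I Z) : Z.range.Normal := by
  constructor
  rintro x ⟨t, rfl⟩ g
  refine ⟨t, ?_⟩
  rw [← hZ.cen t g, mul_assoc, mul_inv_cancel, mul_one]

theorem inr_C2 [NeZero p] (Dg : GP p m l w N P R) (I : Finset (Fin N))
    (Z : Multiplicative (Fin N → ZMod p) →* G2 Dg I) (hZ : ZD Dg I Z) (i : Fin N) (hi : i ∈ I) :
    Z (Multiplicative.ofAdd (Pi.single i 1)) ∈ C2 Dg I i := by
  rw [hZ.on i hi]
  exact Subgroup.mem_map.2 ⟨Dg.g i, Subgroup.mem_centralizer_iff.2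
    (fun h hh => by rw [Set.mem_singleton_iff.1 hh]), rfl⟩

variable {K : Type} [Field K] [NumberField K] {ζ : K} {D : RD0 K p ζ} {Ω : Type}
  [Field Ω] [Algebra K Ω] [IsAlgClosure K Ω]

theorem inr_quot [NeZero p] [Finite P] [Finite R] (hp : p.Prime) (hζ : IsPrimitiveRoot ζ p)
    (L : LDs D Ω) (Dg : GP p m l w N P R) (I : Finset (Fin N))
    (Z : Multiplicative (Fin N → ZMod p) →* G2 Dg I) (hZ : ZD Dg I Z) [Z.range.Normal]
    (b : Fin m → Kˣ) (E : Finset (Pl K)) (ε : Pl K → Gal(Ω/K) → R) (n : Fin N → Finset (Pl K))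
    (hn : ∀ i, ∀ v ∈ n i, v ∉ D.S0) (r : Gal(Ω/K) →* G2 Dg I)
    (hr : r ∈ PH L Dg I Z b E ε n) :
    H38.ML.FT ((QuotientGroup.mk' Z.range).comp r) ∧
      Function.Surjective ((QuotientGroup.mk' Z.range).comp r) ∧
      ∀ v, v ∉ D.S0 → v ∉ E ∪ (Finset.univ.filter fun i => i ∉ I).biUnion n →
        ∀ τ ∈ inr L v, (QuotientGroup.mk' Z.range).comp r τ = 1 := by
  obtain ⟨hFT, hakR, hcond, hE, hun, hsurj⟩ := hr
  have hker : ∀ x : G2 Dg I, QuotientGroup.mk' Z.range x = 1 ↔ x ∈ Z.range := by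
    intro x
    rw [QuotientGroup.mk'_apply, QuotientGroup.eq_one_iff]
  refine ⟨H38.ML.ft_comp _ _ hFT, ?_, ?_⟩
  · intro y
    obtain ⟨x, rfl⟩ := QuotientGroup.mk'_surjective Z.range y
    obtain ⟨σ, hσ⟩ := hsurj x
    refine ⟨σ, ?_⟩
    have h1 := (hker (r σ * x⁻¹)).2 hσ
    rw [map_mul, map_inv, mul_inv_eq_one] at h1
    exact h1
  · intro v hvS hv τ hτ
    rw [Finset.mem_union, not_or] at hv
    change QuotientGroup.mk' Z.range (r τ) = 1
    rw [hker]
    by_cases hvn : ∀ i, v ∉ n i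
    · rw [hun v hvS hv.1 hvn τ hτ]
      exact one_mem _
    · push Not at hvn
      obtain ⟨i, hi⟩ := hvn
      have hiI : i ∈ I := by
        by_contra hc
        exact hv.2 (Finset.mem_biUnion.2 ⟨i, Finset.mem_filter.2 ⟨Finset.mem_univ _, hc⟩, hi⟩)
      obtain ⟨hconj, hpow⟩ := hcond i v hi
      rw [← hZ.on i hiI] at hconj
      obtain ⟨c, hc⟩ := isConj_iff.1 hconj.symm
      have hrt : r (L.t v) ∈ Z.range := by
        rw [← hc]
        refine ⟨Multiplicative.ofAdd (Pi.single i 1), ?_⟩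
        rw [← hZ.cen _ c, mul_assoc, mul_inv_cancel, mul_one]
      rw [tm_z hp hζ L r hFT v hvS hpow τ hτ]
      exact pow_mem hrt _

end H77.PT
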