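import Pool.Agent.H77.PT.Dq
import Pool.Agent.H77.PC3.CLx

/-!
# [H77 PT PHC] the number of the homomorphisms to `G2` with given small part, 130-200 lines. File Pool/Agent/H77/PT/Phc.lean

`phc`: `PH` is finite with at most `C * C ^ (∑ #(n i))` elements (`n` a family of primes outside `S0`).
PROOF. (1) Two elements `r, r'` of `PH` with `r (t v) = r' (t v)` for all `v ∈ ⋃ n i` agree on all inertia groups outside `S0`: at `v ∈ E` both are `k2 (ε v τ)`; at `v ∈ n i` use `tm_z` (see `rh_agree`, Pool/Agent/H77/PC3/CRh.lean; it works for every finite group); at the other `v` both are `1`.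
(2) Then `χ σ = r σ * (r' σ)⁻¹` has `p2 (χ σ) = 1` (same Kummer data; `p2` has commutative values), so it has values in the kernel of `p2`, which is central: for `x = k2 y` with `p2 x = 1`: `π y = 1` (`p2_k2`), so `y` is central in `R` (`Dg.vcen`). So `χ` is a homomorphism `Γ → G2` of finite type, trivial on the inertia groups outside `S0`.
(3) The number of such `χ` is at most `rhn L Dg`: choose a complement `W'` of `VI Dg I` in `Fin l → ZMod p` (`Submodule.exists_isCompl`, `ZMod p` is a field) and the linear projection `pr` onto `W'` along `VI` (`Submodule.linearProjOfIsCompl`); define `χ' σ = vof Dg (pr (cv (y)))` for any `y` with `k2 y = χ σ` (`vof`: CTw.lean; well defined: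
`y` is unique modulo `VS (VI)`, `pr` kills `VI`), a homomorphism to `V ⊆ R` (`vof_add`, `Dg.vadd`), `k2 (χ' σ) = χ σ`, of finite type, trivial where `χ` is trivial. So `χ' ` is in the set counted by `rhn` (`rhn_mem`, CLx.lean), and `χ ↦ χ'` is injective.
(4) So the fibres of `r ↦ (r (t v))_v`, a function on `↥(⋃ n i)` with values in `G2`, have at most `rhn L Dg` elements; the number of values is `#G2 ^ #(⋃ n i) ≤ #R ^ (∑ #(n i))`. Finiteness: an infinite `PH` would contain finite subsets of arbitrary size (as in `rh_finite`). `C = rhn L Dg + #R + 1`.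
-/

set_option autoImplicit false

open scoped NumberField
open IsDedekindDomain
open scoped Classical

noncomputable section

namespace H77.PT

open H63.MA H38.BB H38.BG H57.PC H51.CUB H77.PC3

variable {K : Type} [Field K] [NumberField K] {p : ℕ} {ζ : K} {D : RD0 K p ζ} {Ω : Type}
  [Field Ω] [Algebra K Ω] [IsAlgClosure K Ω] {m l w N : ℕ} {P R : Type} [Group P] [Group R]

private theorem phc_cen (Dg : GP p m l w N P R) (I : Finset (Fin N)) (x : G2 Dg I)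
    (hx : p2 Dg I x = 1) (y : G2 Dg I) : x * y = y * x := by
  obtain ⟨x', rfl⟩ := k2_surj Dg I x
  obtain ⟨y', rfl⟩ := k2_surj Dg I y
  rw [p2_k2] at hx
  rw [← map_mul, ← map_mul, Dg.vcen x' hx y']

private theorem phc_pr (hp : p.Prime) (S : Submodule (ZMod p) (Fin l → ZMod p)) :
    ∃ pr : (Fin l → ZMod p) →ₗ[ZMod p] (Fin l → ZMod p), (∀ x ∈ S, pr x = 0) ∧
      ∀ x, pr x - x ∈ S := by
  have : Fact p.Prime := ⟨hp⟩
  obtain ⟨s, hs⟩ := S.mkQ.exists_rightInverse_of_surjective (Submodule.range_mkQ S)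
  refine ⟨s ∘ₗ S.mkQ, fun x hx => ?_, fun x => ?_⟩
  · rw [LinearMap.comp_apply, Submodule.mkQ_apply, (Submodule.Quotient.mk_eq_zero S).2 hx, map_zero]
  · have h1 : S.mkQ (s (S.mkQ x)) = S.mkQ x := LinearMap.congr_fun hs (S.mkQ x)
    rw [LinearMap.comp_apply, ← Submodule.Quotient.mk_eq_zero S, ← Submodule.mkQ_apply, map_sub, h1,
      sub_self]

/-- the lift of a homomorphism with values in the kernel of `p2` -/
private theorem phc_lift (hp : p.Prime) (Dg : GP p m l w N P R) (I : Finset (Fin N))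
    {χ : Gal(Ω/K) →* G2 Dg I} (h0 : H38.ML.FT χ) (h1 : ∀ σ, p2 Dg I (χ σ) = 1) :
    ∃ χ' : Gal(Ω/K) →* R, H38.ML.FT χ' ∧ (∀ σ, Dg.π (χ' σ) = 1) ∧
      (∀ σ, k2 Dg I (χ' σ) = χ σ) ∧ ∀ σ, χ σ = 1 → χ' σ = 1 := by
  obtain ⟨pr, hpr0, hpr1⟩ := phc_pr hp (VI Dg I)
  obtain ⟨y, hy⟩ : ∃ y : Gal(Ω/K) → R, ∀ σ, k2 Dg I (y σ) = χ σ :=
    ⟨fun σ => Function.surjInv (k2_surj Dg I) (χ σ), fun σ => Function.surjInv_eq _ _⟩
  have hyπ : ∀ σ, Dg.π (y σ) = 1 := by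
    intro σ
    rw [← p2_k2 Dg I, hy, h1]
  have hsub : ∀ r r' : R, Dg.π r = 1 → Dg.π r' = 1 →
      (fun k => Dg.cv k (r * r'⁻¹)) = (fun k => Dg.cv k r) - fun k => Dg.cv k r' := by
    intro r r' hr hr'
    funext k
    rw [Dg.vadd k r r'⁻¹ hr (by rw [map_inv, hr', inv_one]), cv_inv Dg k r' hr', Pi.sub_apply,
      sub_eq_add_neg]
  have hwd : ∀ r r' : R, Dg.π r = 1 → Dg.π r' = 1 → k2 Dg I r = k2 Dg I r' →
      pr (fun k => Dg.cv k r) = pr fun k => Dg.cv k r' := by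
    intro r r' hr hr' h
    have h2 : k2 Dg I (r * r'⁻¹) = 1 := by rw [map_mul, map_inv, h, mul_inv_cancel]
    have h3 := ((k2_ker Dg I _).1 h2).2
    rw [hsub r r' hr hr'] at h3
    have h4 := hpr0 _ h3
    rw [map_sub] at h4
    exact sub_eq_zero.1 h4
  have hmul : ∀ σ τ, vof Dg (pr fun k => Dg.cv k (y (σ * τ))) =
      vof Dg (pr fun k => Dg.cv k (y σ)) * vof Dg (pr fun k => Dg.cv k (y τ)) := by
    intro σ τ
    have h2 := hwd (y (σ * τ)) (y σ * y τ) (hyπ _) (by rw [map_mul, hyπ, hyπ, one_mul])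
      (by rw [map_mul, hy, hy, hy, map_mul])
    have h3 : (fun k => Dg.cv k (y σ * y τ)) = (fun k => Dg.cv k (y σ)) +
        fun k => Dg.cv k (y τ) := by
      funext k
      exact Dg.vadd k _ _ (hyπ σ) (hyπ τ)
    rw [h2, h3, map_add, vof_add]
  obtain ⟨χ', hχ'⟩ : ∃ χ' : Gal(Ω/K) →* R, ∀ σ, χ' σ = vof Dg (pr fun k => Dg.cv k (y σ)) :=
    ⟨MonoidHom.mk' (fun σ => vof Dg (pr fun k => Dg.cv k (y σ))) hmul, fun _ => rfl⟩
  have htriv : ∀ σ, χ σ = 1 → χ' σ = 1 := by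
    intro σ hσ
    have h2 := hwd (y σ) 1 (hyπ σ) (map_one _) (by rw [hy, hσ, map_one])
    have h3 : (fun k => Dg.cv k (1 : R)) = 0 := by
      funext k
      exact cv_one Dg k
    rw [hχ', h2, h3, map_zero, vof_zero]
  refine ⟨χ', ?_, fun σ => ?_, fun σ => ?_, htriv⟩
  · obtain ⟨E, hE, hle⟩ := h0
    exact ⟨E, hE, fun σ hσ => htriv σ (hle hσ)⟩
  · rw [hχ']
    exact vof_pi Dg _
  · rw [hχ', ← hy σ]
    have h2 : k2 Dg I (vof Dg (pr fun k => Dg.cv k (y σ)) * (y σ)⁻¹) = 1 := by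
      rw [k2_ker, map_mul, map_inv, vof_pi, hyπ, inv_one, mul_one]
      refine ⟨rfl, ?_⟩
      rw [hsub _ _ (vof_pi Dg _) (hyπ σ)]
      have h3 : (fun k => Dg.cv k (vof Dg (pr fun k => Dg.cv k (y σ)))) =
          pr fun k => Dg.cv k (y σ) := by
        funext k
        exact vof_cv Dg _ k
      rw [h3]
      exact hpr1 _
    rw [map_mul, map_inv] at h2
    exact mul_inv_eq_one.1 h2

private theorem phc_fib [NeZero p] [Finite R] (hp : p.Prime) (hζ : IsPrimitiveRoot ζ p)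
    (L : LDs D Ω) (Dg : GP p m l w N P R) (I : Finset (Fin N))
    (Xs : Finset (Gal(Ω/K) →* G2 Dg I)) (r0 : Gal(Ω/K) →* G2 Dg I)
    (h : ∀ r ∈ Xs, ∃ χ : Gal(Ω/K) →* G2 Dg I, (∀ σ, r σ = χ σ * r0 σ) ∧ H38.ML.FT χ ∧
      (∀ σ, p2 Dg I (χ σ) = 1) ∧ ∀ v, v ∉ D.S0 → ∀ τ ∈ inr L v, χ τ = 1) :
    Xs.card ≤ rhn L Dg := by
  have h' : ∀ r : Gal(Ω/K) →* G2 Dg I, ∃ χ' : Gal(Ω/K) →* R, r ∈ Xs →
      χ' ∈ RHf L Dg (fun _ => (1 : Kˣ)) ∅ (fun _ _ => 1) (fun _ => ∅) ∧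
        ∀ σ, r σ = k2 Dg I (χ' σ) * r0 σ := by
    intro r
    by_cases hr : r ∈ Xs
    · obtain ⟨χ, h1, h2, h3, h4⟩ := h r hr
      obtain ⟨χ', g1, g2, g3, g4⟩ := phc_lift hp Dg I h2 h3
      exact ⟨χ', fun _ => ⟨(rhn_mem hp hζ Dg χ').2 ⟨g1, g2, fun v hv τ hτ => g4 τ (h4 v hv τ hτ)⟩,
        fun σ => by rw [g3, h1]⟩⟩
    · exact ⟨1, fun h' => absurd h' hr⟩
  choose F hF using h'
  unfold rhn
  refine Finset.card_le_card_of_injOn F (fun r hr => (hF r hr).1) ?_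
  intro r hr r' hr' he
  apply MonoidHom.ext
  intro σ
  rw [(hF r hr).2 σ, (hF r' hr').2 σ, he]

private theorem phc_diff [NeZero p] [Finite R] (hp : p.Prime) (hζ : IsPrimitiveRoot ζ p)
    (L : LDs D Ω) (Dg : GP p m l w N P R) (I : Finset (Fin N))
    (Z : Multiplicative (Fin N → ZMod p) →* G2 Dg I) (b : Fin m → Kˣ) (E : Finset (Pl K))
    (ε : Pl K → Gal(Ω/K) → R) (n : Fin N → Finset (Pl K)) (hn : ∀ i, ∀ v ∈ n i, v ∉ D.S0)
    (r r0 : Gal(Ω/K) →* G2 Dg I) (hr : r ∈ PH L Dg I Z b E ε n)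
    (hr0 : r0 ∈ PH L Dg I Z b E ε n) (h : ∀ i, ∀ v ∈ n i, r (L.t v) = r0 (L.t v)) :
    ∃ χ : Gal(Ω/K) →* G2 Dg I, (∀ σ, r σ = χ σ * r0 σ) ∧ H38.ML.FT χ ∧
      (∀ σ, p2 Dg I (χ σ) = 1) ∧ ∀ v, v ∉ D.S0 → ∀ τ ∈ inr L v, χ τ = 1 := by
  obtain ⟨a0, a1, a2, a3, a4, -⟩ := hr
  obtain ⟨b0, b1, b2, b3, b4, -⟩ := hr0
  have hag : ∀ v, v ∉ D.S0 → ∀ τ ∈ inr L v, r τ = r0 τ := by
    intro v hv τ hτ
    by_cases hvE : v ∈ E
    · rw [a3 v hvE τ hτ, b3 v hvE τ hτ]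
    by_cases hvf : ∃ i, v ∈ n i
    · obtain ⟨i, hi⟩ := hvf
      rw [tm_z hp hζ L r a0 v hv (a2 i v hi).2 τ hτ, tm_z hp hζ L r0 b0 v hv (b2 i v hi).2 τ hτ,
        h i v hi]
    · rw [a4 v hv hvE (fun i hi => hvf ⟨i, hi⟩) τ hτ, b4 v hv hvE (fun i hi => hvf ⟨i, hi⟩) τ hτ]
  have hπ : ∀ σ, p2 Dg I (r σ * (r0 σ)⁻¹) = 1 := by
    intro σ
    have h1 : p2 Dg I (r σ) = p2 Dg I (r0 σ) := by
      apply Multiplicative.toAdd.injective
      funext k
      rw [← a1 σ k, ← b1 σ k]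
    rw [map_mul, map_inv, h1, mul_inv_cancel]
  have hmul : ∀ σ τ, r (σ * τ) * (r0 (σ * τ))⁻¹ = r σ * (r0 σ)⁻¹ * (r τ * (r0 τ)⁻¹) := by
    intro σ τ
    rw [map_mul, map_mul, mul_inv_rev]
    have h1 : r σ * r τ * ((r0 τ)⁻¹ * (r0 σ)⁻¹) = r σ * ((r τ * (r0 τ)⁻¹) * (r0 σ)⁻¹) := by
      group
    rw [h1, phc_cen Dg I _ (hπ τ), ← mul_assoc]
  obtain ⟨χ, hχ⟩ : ∃ χ : Gal(Ω/K) →* G2 Dg I, ∀ σ, χ σ = r σ * (r0 σ)⁻¹ :=
    ⟨MonoidHom.mk' (fun σ => r σ * (r0 σ)⁻¹) hmul, fun _ => rfl⟩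
  refine ⟨χ, fun σ => by rw [hχ, inv_mul_cancel_right], ?_, fun σ => by rw [hχ, hπ],
    fun v hv τ hτ => by rw [hχ, hag v hv τ hτ, mul_inv_cancel]⟩
  obtain ⟨E, hE, hle⟩ := a0
  obtain ⟨E', hE', hle'⟩ := b0
  refine ⟨E ⊔ E', inferInstance, fun σ hσ => ?_⟩
  have h1 : σ ∈ E.fixingSubgroup := IntermediateField.fixingSubgroup_antitone le_sup_left hσ
  have h2 : σ ∈ E'.fixingSubgroup := IntermediateField.fixingSubgroup_antitone le_sup_right hσ
  have h3 := hle h1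
  have h4 := hle' h2
  rw [MonoidHom.mem_ker] at h3 h4 ⊢
  rw [hχ, h3, h4, inv_one, mul_one]

theorem phc [NeZero p] [Finite P] [Finite R] (hp : p.Prime) (hζ : IsPrimitiveRoot ζ p)
    (L : LDs D Ω) (Dg : GP p m l w N P R) (I : Finset (Fin N))
    (Z : Multiplicative (Fin N → ZMod p) →* G2 Dg I) :
    ∃ C : ℝ, 1 ≤ C ∧ ∀ (b : Fin m → Kˣ) (E : Finset (Pl K)) (ε : Pl K → Gal(Ω/K) → R)
      (n : Fin N → Finset (Pl K)), (∀ i, ∀ v ∈ n i, v ∉ D.S0) →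
      (PH L Dg I Z b E ε n).Finite ∧
        ((PH L Dg I Z b E ε n).ncard : ℝ) ≤ C * C ^ (∑ i, (n i).card) := by
  have hfG : Finite (G2 Dg I) := Finite.of_surjective (k2 Dg I) (k2_surj Dg I)
  have hfin : Fintype (G2 Dg I) := Fintype.ofFinite _
  obtain ⟨q, hq⟩ : ∃ q, q = Nat.card R := ⟨_, rfl⟩
  have hq1 : 1 ≤ q := by
    rw [hq]
    exact Nat.card_pos
  have hGq : Fintype.card (G2 Dg I) ≤ q := by
    rw [← Nat.card_eq_fintype_card, hq]
    exact Nat.card_le_card_of_surjective (k2 Dg I) (k2_surj Dg I)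
  refine ⟨(rhn L Dg : ℝ) + q + 1, ?_, fun b E ε n hn => ?_⟩
  · have h1 : (0 : ℝ) ≤ (rhn L Dg : ℝ) := Nat.cast_nonneg _
    have h2 : (0 : ℝ) ≤ (q : ℝ) := Nat.cast_nonneg _
    linarith
  obtain ⟨x, hx⟩ : ∃ x : Finset (Pl K), x = Finset.univ.biUnion n := ⟨_, rfl⟩
  obtain ⟨M, hM⟩ : ∃ M : ℕ, M = Fintype.card (↥x → G2 Dg I) := ⟨_, rfl⟩
  have key : ∀ Rs : Finset (Gal(Ω/K) →* G2 Dg I), (∀ r ∈ Rs, r ∈ PH L Dg I Z b E ε n) →
      Rs.card ≤ rhn L Dg * M := by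
    intro Rs hRs
    obtain ⟨F, hF⟩ : ∃ F : (Gal(Ω/K) →* G2 Dg I) → (↥x → G2 Dg I),
        F = fun r v => r (L.t v.1) := ⟨_, rfl⟩
    have hfib : ∀ e ∈ (Finset.univ : Finset (↥x → G2 Dg I)),
        (Rs.filter fun r => F r = e).card ≤ rhn L Dg := by
      intro e _
      rcases (Rs.filter fun r => F r = e).eq_empty_or_nonempty with h | ⟨r0, hr0⟩
      · rw [h, Finset.card_empty]
        exact Nat.zero_le _
      · refine phc_fib hp hζ L Dg I _ r0 fun r hr => ?_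
        rw [Finset.mem_filter] at hr hr0
        refine phc_diff hp hζ L Dg I Z b E ε n hn r r0 (hRs r hr.1) (hRs r0 hr0.1) ?_
        intro i v hi
        have h1 := hr.2.trans hr0.2.symm
        rw [hF] at h1
        exact congrFun h1 ⟨v, by
          rw [hx]
          exact Finset.mem_biUnion.2 ⟨i, Finset.mem_univ _, hi⟩⟩
    have h2 := Finset.card_le_mul_card_image_of_maps_to
      (fun r _ => Finset.mem_univ (F r)) (rhn L Dg) hfib
    rwa [Finset.card_univ, ← hM] at h2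
  have hfinite : (PH L Dg I Z b E ε n).Finite := by
    by_contra hinf
    obtain ⟨Rs, hRs, hcard⟩ := (show (PH L Dg I Z b E ε n).Infinite from
      hinf).exists_subset_card_eq (rhn L Dg * M + 1)
    have := key Rs fun r hr => hRs (Finset.mem_coe.2 hr)
    omega
  refine ⟨hfinite, ?_⟩
  rw [Set.ncard_eq_toFinset_card _ hfinite]
  have h1 := key hfinite.toFinset fun r hr => (Set.Finite.mem_toFinset hfinite).1 hr
  have hMq : M ≤ q ^ ∑ i, (n i).card := by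
    calc M = Fintype.card (G2 Dg I) ^ x.card := by rw [hM, Fintype.card_fun, Fintype.card_coe]
      _ ≤ q ^ x.card := Nat.pow_le_pow_left hGq _
      _ ≤ q ^ ∑ i, (n i).card := by
          refine Nat.pow_le_pow_right hq1 ?_
          rw [hx]
          exact Finset.card_biUnion_le
  have h2 : ((hfinite.toFinset.card : ℕ) : ℝ) ≤ (rhn L Dg : ℝ) * (q : ℝ) ^ ∑ i, (n i).card := by
    have h3 : hfinite.toFinset.card ≤ rhn L Dg * q ^ ∑ i, (n i).card :=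
      h1.trans (Nat.mul_le_mul_left _ hMq)
    exact_mod_cast h3
  refine h2.trans ?_
  have h4 : (0 : ℝ) ≤ (rhn L Dg : ℝ) := Nat.cast_nonneg _
  have h5 : (0 : ℝ) ≤ (q : ℝ) := Nat.cast_nonneg _
  refine mul_le_mul (by linarith) (pow_le_pow_left₀ h5 (by linarith) _) (by positivity)
    (by linarith)

end H77.PT
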