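import Pool.Agent.H77.PT.Red

/-!
# [H77 PT PN2] from `phi ⊥` to `phi (VII I)` by the trilinear sieve, 100-150 lines. File Pool/Agent/H77/PT/Pn2.lean

PROOF. `red` with `S = ⊥`, `S' = VII Dg I`, `Good T = ∀ a b c ∈ T`, all large (`a.1.2 = true`): `Th3 Dg T₀ a b c = 0`, `T₀ = (UW N Y k I).ex (cf Dg ⊥)`. Note `T₀.cls a = a.1.1`.
(h1) Let `om0 ≠ 0`, `T` good, `a, a' ∈ T` in the window `(i, true)`. `BS Dg (VII Dg I) i` is spanned by the `β (kV s_j s_l) s_i`, `j, l ∈ I` (`Submodule.span_induction`, `Submodule.map_span` or `Submodule.mem_map`; `dt` is linear). Choose `b, c ∈ T` in the windows `(j, true)`, `(l, true)` (`om0`).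
`Th3 a b c = 0 = Th3 a' b c`, and the second and third term of `Th3` do not depend on `a` versus `a'` (only `cls`): the difference is the claim.
(h2) `a, b, c ∈ T'` large; by `om0 T'` their classes are in `I`, by `om0 T` there are `a₁, b₁, c₁ ∈ T` in the same windows; the arguments `β (kV s_b s_c) s_a` etc. are in `BS Dg (VII Dg I) (cls a)`, so `Th3 a b c = Th3 a₁ b₁ c₁ = 0`.
(hbad) `ts_bad` with `A = J × J × J` (`J` = the types), `B` = the triples of large types with classes in `I` and `Th3 ≠ 0` (`Finset.univ.filter`), `Bd t T` = the three types are in `T`; the weight function is bounded by `1` (`om0 ∈ {0, 1}`); for a bad `T` with `om0 ≠ 0` there is such a triple.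
For `t ∈ B`: `lll` (LNK.lean) with `M` = the maximum of the `Wn i` (or `∑ i, Wn i`; `0 ≤ cf ≤ Wn i` as `p ^ w ≥ 1`), exponent `A`: `T₀.lo = thr Y (k + 1) = exp (x ^ (5 k + 8)) ≥ exp (x ^ 5)`, `x = log (log Y) ≥ 1` for `Y ≥ Y₀`. The number of the triples is at most `#J ^ 3`, `C := #J ^ 3 * C_lll`.
-/

set_option autoImplicit false

open scoped NumberField
open IsDedekindDomain
open scoped Classical

noncomputable section

namespace H77.PT

open H63.MA H38.BB H38.BG H57.PC H51.CUB H77.PC3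

variable {K : Type} [Field K] [NumberField K] {p : ℕ} {ζ : K} {Ω : Type}
  [Field Ω] [Algebra K Ω] [IsAlgClosure K Ω] {m l w N : ℕ} {P R : Type} [Group P] [Group R]

private theorem p2_add {p w : ℕ} (θ x y : Fin w → ZMod p) : dt θ (x + y) = dt θ x + dt θ y := by
  unfold dt
  rw [← Finset.sum_add_distrib]
  exact Finset.sum_congr rfl fun k _ => by rw [Pi.add_apply, mul_add]

private theorem p2_smul {p w : ℕ} (c : ZMod p) (θ x : Fin w → ZMod p) :
    dt θ (c • x) = c * dt θ x := by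
  unfold dt
  rw [Finset.mul_sum]
  exact Finset.sum_congr rfl fun k _ => by rw [Pi.smul_apply, smul_eq_mul]; ring

private theorem p2_zero {p w : ℕ} (θ : Fin w → ZMod p) : dt θ 0 = 0 := by
  unfold dt
  exact Finset.sum_eq_zero fun k _ => by rw [Pi.zero_apply, mul_zero]

section grp

variable {p m l w N : ℕ} {P R : Type} [Group P] [Group R]

private theorem p2_wt [NeZero p] (Dg : GP p m l w N P R) (S : Submodule (ZMod p) (Fin l → ZMod p))
    (a : Fin N × Bool) (ψ : Fin w → ZMod p) : cf Dg S a ψ ≤ ∑ i, (Dg.Wn i : ℝ) := by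
  have h1 : (Dg.Wn a.1 : ℝ) ≤ ∑ i, (Dg.Wn i : ℝ) :=
    Finset.single_le_sum (f := fun i => (Dg.Wn i : ℝ)) (fun i _ => Nat.cast_nonneg _)
      (Finset.mem_univ a.1)
  have h0 : (0 : ℝ) ≤ ∑ i, (Dg.Wn i : ℝ) := Finset.sum_nonneg fun i _ => Nat.cast_nonneg _
  have h2 : (Dg.Wn a.1 : ℝ) / (p : ℝ) ^ w ≤ Dg.Wn a.1 := by
    refine div_le_self (Nat.cast_nonneg _) (one_le_pow₀ ?_)
    exact_mod_cast Nat.one_le_iff_ne_zero.2 (NeZero.ne p)
  unfold cf
  split_ifs
  · exact h2.trans h1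
  · exact h0
  · exact h1
  · exact h0

end grp

private theorem p2_mem {J : Type} {a a₁ a₂ a₃ : J} (h : a ∈ ({a₁, a₂, a₃} : Finset J)) :
    a = a₁ ∨ a = a₂ ∨ a = a₃ := by
  rcases Finset.mem_insert.1 h with h | h
  · exact Or.inl h
  rcases Finset.mem_insert.1 h with h | h
  · exact Or.inr (Or.inl h)
  · exact Or.inr (Or.inr (Finset.mem_singleton.1 h))

private theorem p2_om {N : ℕ} (I : Finset (Fin N)) (S : Finset (Fin N × Bool))
    (h : om0 I S ≠ 0) : ∀ i, i ∈ I ↔ (i, true) ∈ S := by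
  unfold om0 at h
  by_contra h1
  exact h (if_neg h1)

private theorem p2_om1 {N : ℕ} (I : Finset (Fin N)) (S : Finset (Fin N × Bool)) :
    ‖((om0 I S : ℝ) : ℂ)‖ ≤ 1 := by
  unfold om0
  split_ifs <;> simp

private theorem p2_cls {N : ℕ} {F : Type} [DecidableEq F] {I : Finset (Fin N)}
    {T : Finset ((Fin N × Bool) × F)}
    (h : om0 I (T.image Prod.fst) ≠ 0) {a : (Fin N × Bool) × F} (ha : a ∈ T)
    (ha2 : a.1.2 = true) : a.1.1 ∈ I := by
  refine (p2_om I _ h a.1.1).2 ?_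
  have h1 : (a.1.1, true) = a.1 := by rw [← ha2]
  rw [h1]
  exact Finset.mem_image_of_mem _ ha

private theorem p2_ex {N : ℕ} {F : Type} [DecidableEq F] {I : Finset (Fin N)}
    {T : Finset ((Fin N × Bool) × F)}
    (h : om0 I (T.image Prod.fst) ≠ 0) {i : Fin N} (hi : i ∈ I) :
    ∃ a ∈ T, a.1 = (i, true) := by
  obtain ⟨a, ha, h1⟩ := Finset.mem_image.1 ((p2_om I _ h i).1 hi)
  exact ⟨a, ha, h1⟩

theorem pn2 [NeZero p] [Finite P] [Finite R] (hp : p.Prime) (hp2 : MOne p K)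
    (hζ : IsPrimitiveRoot ζ p) (hz : H57.BRA.Z2 p K) (D : RD K p ζ) (L : LDs D.toRD0 Ω) (Fr : FR L)
    (Dg : GP p m l w N P R) (I : Finset (Fin N)) (A : ℝ) :
    ∃ C Y₀ : ℝ, 0 < C ∧ 3 ≤ Y₀ ∧ ∀ Y : ℝ, Y₀ ≤ Y → ∀ (k : ℕ) (E : Finset (Pl K))
      (b : Fin m → Kˣ), BS2 D.toRD0 b E → nr E ≤ thr Y 0 → ∀ ε : Pl K → Gal(Ω/K) → R,
      PR Dg Fr (UW N Y k I) (phi Dg ⊥) b E ε (om0 I) Y ≤
        (p : ℝ) ^ (w * N) * PR Dg Fr (UW N Y k I) (phi Dg (VII Dg I)) b E ε (om0 I) Y +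
          C * Y * Real.log Y ^ (-A) := by
  classical
  obtain ⟨C₁, Y₁, hC₁, hY₁, hlll⟩ := lll hp hp2 hζ hz D L Fr Dg
    ((Fin N × Bool) × (Fin w → ZMod p)) (∑ i, (Dg.Wn i : ℝ)) A
  set n2 : ℝ := (Fintype.card (((Fin N × Bool) × (Fin w → ZMod p)) ×
    ((Fin N × Bool) × (Fin w → ZMod p)) × ((Fin N × Bool) × (Fin w → ZMod p))) : ℝ) with hn2
  have hn0 : 0 ≤ n2 := Nat.cast_nonneg _
  refine ⟨(n2 + 1) * C₁, max Y₁ (Real.exp (Real.exp 1)), by positivity,
    hY₁.trans (le_max_left _ _), ?_⟩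
  intro Y hY k E b hb hE ε
  have hY1 : Y₁ ≤ Y := (le_max_left _ _).trans hY
  have hY2 : Real.exp (Real.exp 1) ≤ Y := (le_max_right _ _).trans hY
  have hY0 : 0 < Y := (Real.exp_pos _).trans_le hY2
  have hl1 : Real.exp 1 ≤ Real.log Y := (Real.le_log_iff_exp_le hY0).2 hY2
  have hl0 : 0 < Real.log Y := (Real.exp_pos _).trans_le hl1
  have hx : 1 ≤ Real.log (Real.log Y) := (Real.le_log_iff_exp_le hl0).2 hl1
  set U : WY N (Fin N × Bool) := UW N Y k I with hU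
  set T₀ : TY N w p ((Fin N × Bool) × (Fin w → ZMod p)) := U.ex (cf Dg ⊥) with hT₀
  have hth : ∀ (a c e : (Fin N × Bool) × (Fin w → ZMod p)),
      Th3 Dg T₀ a c e =
        dt (T₀.psi a) (Dg.β (Dg.kV (Dg.s c.1.1) (Dg.s e.1.1)) (Dg.s a.1.1)) +
        dt (T₀.psi c) (Dg.β (Dg.kV (Dg.s e.1.1) (Dg.s a.1.1)) (Dg.s c.1.1)) +
        dt (T₀.psi e) (Dg.β (Dg.kV (Dg.s a.1.1) (Dg.s c.1.1)) (Dg.s e.1.1)) :=
    fun a c e => rfl
  refine red hp Dg Fr U I ⊥ (VII Dg I) bot_le b E ε Y _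
    (fun T => ∀ a ∈ T, ∀ c ∈ T, ∀ e ∈ T, a.1.2 = true → c.1.2 = true → e.1.2 = true →
      Th3 Dg T₀ a c e = 0) ?_ ?_ ?_
  · -- h1
    intro T hT hG a ha a' ha' ha2 haa y hy
    have ha2' : a'.1.2 = true := by rw [← haa]; exact ha2
    obtain ⟨v, hv, rfl⟩ := Submodule.mem_map.1 hy
    show dt (T₀.psi a) (Dg.β v (Dg.s a.1.1)) = dt (T₀.psi a') (Dg.β v (Dg.s a.1.1))
    unfold VII at hv
    induction hv using Submodule.span_induction with
    | mem x hx' =>
      obtain ⟨j, hj, j', hj', rfl⟩ := hx'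
      obtain ⟨c, hc, hc1⟩ := p2_ex hT hj
      obtain ⟨e, he, he1⟩ := p2_ex hT hj'
      have hc2 : c.1.2 = true := by rw [hc1]
      have hcj : c.1.1 = j := by rw [hc1]
      have he2 : e.1.2 = true := by rw [he1]
      have hej : e.1.1 = j' := by rw [he1]
      have e1 := hG a ha c hc e he ha2 hc2 he2
      have e2 := hG a' ha' c hc e he ha2' hc2 he2
      rw [hth, hcj, hej] at e1 e2
      rw [← haa] at e2
      linear_combination e1 - e2
    | zero =>
      rw [map_zero, LinearMap.zero_apply, p2_zero, p2_zero]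
    | add x y _ _ h3 h4 =>
      rw [map_add, LinearMap.add_apply, p2_add, p2_add,
        h3 (Submodule.mem_map.2 ⟨x, by assumption, rfl⟩),
        h4 (Submodule.mem_map.2 ⟨y, by assumption, rfl⟩)]
    | smul c x _ h3 =>
      rw [map_smul, LinearMap.smul_apply, p2_smul, p2_smul,
        h3 (Submodule.mem_map.2 ⟨x, by assumption, rfl⟩)]
  · -- h2
    intro T T' hT hT' hag hG a' ha' c' hc' e' he' ha2 hc2 he2
    have haI : a'.1.1 ∈ I := p2_cls hT' ha' ha2
    have hcI : c'.1.1 ∈ I := p2_cls hT' hc' hc2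
    have heI : e'.1.1 ∈ I := p2_cls hT' he' he2
    obtain ⟨a, ha, ha1⟩ := p2_ex hT haI
    obtain ⟨c, hc, hc1⟩ := p2_ex hT hcI
    obtain ⟨e, he, he1⟩ := p2_ex hT heI
    have ha3 : a.1 = a'.1 := by rw [ha1, ← ha2]
    have hc3 : c.1 = c'.1 := by rw [hc1, ← hc2]
    have he3 : e.1 = e'.1 := by rw [he1, ← he2]
    have ha4 : a.1.2 = true := by rw [ha3, ha2]
    have hc4 : c.1.2 = true := by rw [hc3, hc2]
    have he4 : e.1.2 = true := by rw [he3, he2]
    have gen : ∀ f ∈ T, ∀ f' ∈ T', f.1.2 = true → f.1 = f'.1 → ∀ i ∈ I, ∀ j ∈ I,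
        dt (T₀.psi f) (Dg.β (Dg.kV (Dg.s i) (Dg.s j)) (Dg.s f.1.1)) =
        dt (T₀.psi f') (Dg.β (Dg.kV (Dg.s i) (Dg.s j)) (Dg.s f.1.1)) := by
      intro f hf f' hf' h5 h6 i hi j hj
      exact hag f hf f' hf' h5 h6 _ (Submodule.mem_map.2 ⟨Dg.kV (Dg.s i) (Dg.s j),
        Submodule.subset_span ⟨i, hi, j, hj, rfl⟩, rfl⟩)
    have e1 := gen a ha a' ha' ha4 ha3 _ hcI _ heI
    have e2 := gen c hc c' hc' hc4 hc3 _ heI _ haI
    have e3 := gen e he e' he' he4 he3 _ haI _ hcI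
    have e4 := hG a ha c hc e he ha4 hc4 he4
    rw [hth, ha3, hc3, he3] at e4
    rw [ha3] at e1
    rw [hc3] at e2
    rw [he3] at e3
    rw [e1, e2, e3] at e4
    rw [hth]
    exact e4
  · -- hbad
    set B : Finset (((Fin N × Bool) × (Fin w → ZMod p)) × ((Fin N × Bool) × (Fin w → ZMod p)) ×
        ((Fin N × Bool) × (Fin w → ZMod p))) :=
      Finset.univ.filter fun t => t.1.1.2 = true ∧ t.2.1.1.2 = true ∧ t.2.2.1.2 = true ∧
        Th3 Dg T₀ t.1 t.2.1 t.2.2 ≠ 0 with hB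
    refine (ts_bad Dg Fr T₀ b E ε B (fun t S => t.1 ∈ S ∧ t.2.1 ∈ S ∧ t.2.2 ∈ S) Y
      (C₁ * Y * Real.log Y ^ (-A)) ?_ _ ?_ ?_).trans ?_
    · rintro ⟨a₁, a₂, a₃⟩ ht ω hω hω'
      rw [hB, Finset.mem_filter] at ht
      obtain ⟨_, l1, l2, l3, hne⟩ := ht
      refine hlll Y hY1 E b hb (hE.trans ?_) ε T₀ ?_ ω hω a₁ a₂ a₃ hne ?_ hω'
      · unfold thr
        exact Real.exp_le_exp.2 (pow_le_pow_right₀ hx (by norm_num))
      · intro a
        exact ⟨cf_nonneg Dg _ _ _, p2_wt Dg _ _ _⟩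
      · intro a ha
        have hlo : a.1.2 = true := by
          rcases p2_mem ha with rfl | rfl | rfl
          · exact l1
          · exact l2
          · exact l3
        show _ ≤ (if a.1.2 = true then thr Y (k + 1) else 0)
        rw [if_pos hlo]
        unfold thr
        exact Real.exp_le_exp.2 (pow_le_pow_right₀ hx (by omega))
    · intro S
      split_ifs
      · simp
      · exact p2_om1 _ _
    · intro S hS
      have hS1 : ¬ (∀ a ∈ S, ∀ c ∈ S, ∀ e ∈ S, a.1.2 = true → c.1.2 = true → e.1.2 = true →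
          Th3 Dg T₀ a c e = 0) := fun h => hS (if_pos h)
      push Not at hS1
      obtain ⟨a, ha, c, hc, e, he, ha2, hc2, he2, hne⟩ := hS1
      refine ⟨(a, c, e), ?_, ha, hc, he⟩
      rw [hB, Finset.mem_filter]
      exact ⟨Finset.mem_univ _, ha2, hc2, he2, hne⟩
    · have hBc : (B.card : ℝ) ≤ n2 := by
        rw [hn2]
        exact_mod_cast Finset.card_le_univ B
      have hnn : 0 ≤ C₁ * Y * Real.log Y ^ (-A) := by positivity
      calc (B.card : ℝ) * (C₁ * Y * Real.log Y ^ (-A)) ≤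
          (n2 + 1) * (C₁ * Y * Real.log Y ^ (-A)) := by
            apply mul_le_mul_of_nonneg_right _ hnn
            linarith
        _ = (n2 + 1) * C₁ * Y * Real.log Y ^ (-A) := by ring

end H77.PT
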