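import Pool.Agent.H77.PT.Red

/-!
# [H77 PT PN3] from `phi (VII I)` to `phi (VI I)` by the bilinear sieve over small fields, 120-170 lines. File Pool/Agent/H77/PT/Pn3.lean

PROOF. `red` with `S = VII Dg I ≤ S' = VI Dg I`, `Good T = ∀ a b ∈ T`, both large (`a.1.2 = true`): `th1 Dg T₀ a b = th1 Dg T₀ b a`, `T₀ = (UW N Y k I).ex (cf Dg (VII Dg I))`. Note `T₀.cls a = a.1.1`, `th1 Dg T₀ a b u = dt (psi a) (β (kV s_b u) s_a)`, and for large `a` the functional `T₀.psi a` kills `BS Dg (VII Dg I) a.1.1`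
(if the weight is `0` it is `0`), for small `a` (`a.1.2 = false`) it is `0` (weight `0` unless `ψ = 0`).
(h1) `a, a' ∈ T` in the window `(i, true)`; `BS Dg (VI Dg I) i` is spanned by the `β (kV s_j u) s_i`, `j ∈ I`. Choose `b ∈ T` in the window `(j, true)`. `dt (psi a) (β (kV s_j u) s_i) = th1 a b u = th1 b a u = th1 b a' u = th1 a' b u` (`th1 b a` only depends on the class of `a`; if `a = b` the second equality is trivial).
(h2) as in PN2 (Pn2.lean): the arguments are in `BS Dg (VI Dg I) (cls a)`.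
(hbad) `ts_bad` with the pairs of large types with classes in `I` and `th1 a₁ a₂ ≠ th1 a₂ a₁`; for each pair `lls_sub` (LNK.lean) with `z = max (thr Y k) (exp (x ^ 4))`, `x = log (log Y) ≥ 1`:
 - first hypothesis: for large `a`, `kV s_1 s_2 ∈ VII Dg I`, so `β (..) (s a) ∈ BS Dg (VII Dg I) a.1.1` is killed by `psi a`; for small `a`: `psi a = 0`;
 - second: `a.1.1 ∉ I`: `hi a = 0` or `thr Y k`, `≤ z`; `a.1.1 ∈ I`: `th1 a₁ a₂ (s a) = dt (psi a₁) (β (kV s_2 s_a) s_1) = 0` as `kV s_2 s_a ∈ VII Dg I`, and the same for `a₂, a₁`;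
 - third: `z ^ (x ^ 2) = exp (x ^ 2 * max (x ^ (5 k + 3)) (x ^ 4)) ≤ exp (x ^ (5 k + 8)) = thr Y (k + 1) = lo a` (`Real.exp_mul`, `x ≥ 1`).
 `nr E ≤ thr Y 0 = exp (x ^ 3) ≤ exp (x ^ 4)`. Weights bounded by `M = ∑ i, Wn i`. Number of pairs `≤ #J ^ 2`.
-/

set_option autoImplicit false

open scoped NumberField
open IsDedekindDomain
open scoped Classical

noncomputable section

namespace H77.PT

open H63.MA H38.BB H38.BG H57.PC H51.CUB H77.PC3

variable {K : Type} [Field K] [NumberField K] {p : ℕ} {ζ : K} {Ω : Type}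
  [Field Ω] [Algebra K Ω] [IsAlgClosure K Ω] {m l w N : ℕ} {P R : Type} [Group P] [Group R]

private theorem p3_add {p w : ℕ} (θ x y : Fin w → ZMod p) : dt θ (x + y) = dt θ x + dt θ y := by
  unfold dt
  rw [← Finset.sum_add_distrib]
  exact Finset.sum_congr rfl fun k _ => by rw [Pi.add_apply, mul_add]

private theorem p3_smul {p w : ℕ} (c : ZMod p) (θ x : Fin w → ZMod p) :
    dt θ (c • x) = c * dt θ x := by
  unfold dt
  rw [Finset.mul_sum]
  exact Finset.sum_congr rfl fun k _ => by rw [Pi.smul_apply, smul_eq_mul]; ring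

private theorem p3_zero {p w : ℕ} (θ : Fin w → ZMod p) : dt θ 0 = 0 := by
  unfold dt
  exact Finset.sum_eq_zero fun k _ => by rw [Pi.zero_apply, mul_zero]

private theorem p3_zero' {p w : ℕ} (x : Fin w → ZMod p) : dt (0 : Fin w → ZMod p) x = 0 := by
  unfold dt
  exact Finset.sum_eq_zero fun k _ => by rw [Pi.zero_apply, zero_mul]

section grp

variable {p m l w N : ℕ} {P R : Type} [Group P] [Group R]

private theorem p3_le (Dg : GP p m l w N P R) (I : Finset (Fin N)) : VII Dg I ≤ VI Dg I := by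
  refine Submodule.span_mono ?_
  rintro v ⟨i, hi, j, _, rfl⟩
  exact ⟨i, hi, _, rfl⟩

/-- the functionals of the types kill `[S, s i]` -/
private theorem p3_kill (Dg : GP p m l w N P R) (U : WY N (Fin N × Bool))
    (S : Submodule (ZMod p) (Fin l → ZMod p)) (a : (Fin N × Bool) × (Fin w → ZMod p))
    (v : Fin l → ZMod p) (hv : v ∈ S) :
    dt ((U.ex (cf Dg S)).psi a) (Dg.β v (Dg.s a.1.1)) = 0 := by
  show dt (if cf Dg S a.1 a.2 = 0 then 0 else a.2) (Dg.β v (Dg.s a.1.1)) = 0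
  by_cases h : cf Dg S a.1 a.2 = 0
  · rw [if_pos h]
    exact p3_zero' _
  rw [if_neg h]
  unfold cf at h
  by_cases h1 : a.1.2 = true
  · rw [if_pos h1] at h
    by_cases h2 : ∀ x ∈ BS Dg S a.1.1, dt a.2 x = 0
    · refine h2 _ ?_
      exact Submodule.mem_map.2 ⟨v, hv, rfl⟩
    · rw [if_neg h2] at h
      exact absurd rfl h
  · rw [if_neg h1] at h
    by_cases h2 : a.2 = 0
    · rw [h2]
      exact p3_zero' _
    · rw [if_neg h2] at h
      exact absurd rfl h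

private theorem p3_wt [NeZero p] (Dg : GP p m l w N P R) (S : Submodule (ZMod p) (Fin l → ZMod p))
    (a : Fin N × Bool) (ψ : Fin w → ZMod p) : cf Dg S a ψ ≤ ∑ i, (Dg.Wn i : ℝ) := by
  have h1 : (Dg.Wn a.1 : ℝ) ≤ ∑ i, (Dg.Wn i : ℝ) :=
    Finset.single_le_sum (f := fun i => (Dg.Wn i : ℝ)) (fun i _ => Nat.cast_nonneg _)
      (Finset.mem_univ a.1)
  have h0 : (0 : ℝ) ≤ ∑ i, (Dg.Wn i : ℝ) := Finset.sum_nonneg fun i _ => Nat.cast_nonneg _
  have h2 : (Dg.Wn a.1 : ℝ) / (p : ℝ) ^ w ≤ Dg.Wn a.1 := by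
    refine div_le_self (Nat.cast_nonneg _) (one_le_pow₀ ?_)
    exact_mod_cast Nat.one_le_iff_ne_zero.2 (NeZero.ne p)
  unfold cf
  split_ifs
  · exact h2.trans h1
  · exact h0
  · exact h1
  · exact h0

end grp

private theorem p3_thr {Y : ℝ} (hx : 1 ≤ Real.log (Real.log Y)) :
    thr Y 0 ≤ Real.exp (Real.log (Real.log Y) ^ 4) := by
  unfold thr
  exact Real.exp_le_exp.2 (pow_le_pow_right₀ hx (by norm_num))

private theorem p3_z {Y : ℝ} (hx : 1 ≤ Real.log (Real.log Y)) (k : ℕ) :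
    (max (thr Y k) (Real.exp (Real.log (Real.log Y) ^ 4))) ^ (Real.log (Real.log Y) ^ 2) ≤
      thr Y (k + 1) := by
  have h1 : thr Y k ^ (Real.log (Real.log Y) ^ 2) ≤ thr Y (k + 1) := by
    unfold thr
    rw [← Real.exp_mul]
    apply Real.exp_le_exp.2
    rw [← pow_add]
    exact pow_le_pow_right₀ hx (by omega)
  have h2 : Real.exp (Real.log (Real.log Y) ^ 4) ^ (Real.log (Real.log Y) ^ 2) ≤
      thr Y (k + 1) := by
    unfold thr
    rw [← Real.exp_mul]
    apply Real.exp_le_exp.2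
    rw [← pow_add]
    exact pow_le_pow_right₀ hx (by omega)
  rcases max_cases (thr Y k) (Real.exp (Real.log (Real.log Y) ^ 4)) with ⟨h, _⟩ | ⟨h, _⟩
  · rw [h]
    exact h1
  · rw [h]
    exact h2

private theorem p3_mem {J : Type} {a a₁ a₂ : J} (h : a ∈ ({a₁, a₂} : Finset J)) :
    a = a₁ ∨ a = a₂ := by
  rcases Finset.mem_insert.1 h with h | h
  · exact Or.inl h
  · exact Or.inr (Finset.mem_singleton.1 h)

private theorem p3_om {N : ℕ} (I : Finset (Fin N)) (S : Finset (Fin N × Bool))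
    (h : om0 I S ≠ 0) : ∀ i, i ∈ I ↔ (i, true) ∈ S := by
  unfold om0 at h
  by_contra h1
  exact h (if_neg h1)

private theorem p3_om1 {N : ℕ} (I : Finset (Fin N)) (S : Finset (Fin N × Bool)) :
    ‖((om0 I S : ℝ) : ℂ)‖ ≤ 1 := by
  unfold om0
  split_ifs <;> simp

private theorem p3_cls {N : ℕ} {F : Type} [DecidableEq F] {I : Finset (Fin N)}
    {T : Finset ((Fin N × Bool) × F)}
    (h : om0 I (T.image Prod.fst) ≠ 0) {a : (Fin N × Bool) × F} (ha : a ∈ T)
    (ha2 : a.1.2 = true) : a.1.1 ∈ I := by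
  refine (p3_om I _ h a.1.1).2 ?_
  have h1 : (a.1.1, true) = a.1 := by rw [← ha2]
  rw [h1]
  exact Finset.mem_image_of_mem _ ha

private theorem p3_ex {N : ℕ} {F : Type} [DecidableEq F] {I : Finset (Fin N)}
    {T : Finset ((Fin N × Bool) × F)}
    (h : om0 I (T.image Prod.fst) ≠ 0) {i : Fin N} (hi : i ∈ I) :
    ∃ a ∈ T, a.1 = (i, true) := by
  obtain ⟨a, ha, h1⟩ := Finset.mem_image.1 ((p3_om I _ h i).1 hi)
  exact ⟨a, ha, h1⟩

theorem pn3 [NeZero p] [Finite P] [Finite R] (hp : p.Prime) (hp2 : MOne p K)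
    (hζ : IsPrimitiveRoot ζ p) (hz : H57.BRA.Z2 p K) (D : RD K p ζ) (L : LDs D.toRD0 Ω) (Fr : FR L)
    (Dg : GP p m l w N P R) (I : Finset (Fin N)) (A : ℝ) :
    ∃ C Y₀ : ℝ, 0 < C ∧ 3 ≤ Y₀ ∧ ∀ Y : ℝ, Y₀ ≤ Y → ∀ (k : ℕ) (E : Finset (Pl K))
      (b : Fin m → Kˣ), BS2 D.toRD0 b E → nr E ≤ thr Y 0 → ∀ ε : Pl K → Gal(Ω/K) → R,
      PR Dg Fr (UW N Y k I) (phi Dg (VII Dg I)) b E ε (om0 I) Y ≤
        (p : ℝ) ^ (w * N) * PR Dg Fr (UW N Y k I) (phi Dg (VI Dg I)) b E ε (om0 I) Y +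
          C * Y * Real.log Y ^ (-A) := by
  classical
  obtain ⟨C₁, Y₁, hC₁, hY₁, hlls⟩ := lls_sub hp hp2 hζ hz D L Fr Dg
    ((Fin N × Bool) × (Fin w → ZMod p)) (∑ i, (Dg.Wn i : ℝ)) A
  set n2 : ℝ := (Fintype.card (((Fin N × Bool) × (Fin w → ZMod p)) ×
    ((Fin N × Bool) × (Fin w → ZMod p))) : ℝ) with hn2
  have hn0 : 0 ≤ n2 := Nat.cast_nonneg _
  refine ⟨(n2 + 1) * C₁, max Y₁ (Real.exp (Real.exp 1)), by positivity,
    hY₁.trans (le_max_left _ _), ?_⟩
  intro Y hY k E b hb hE ε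
  have hY1 : Y₁ ≤ Y := (le_max_left _ _).trans hY
  have hY2 : Real.exp (Real.exp 1) ≤ Y := (le_max_right _ _).trans hY
  have hY0 : 0 < Y := (Real.exp_pos _).trans_le hY2
  have hl1 : Real.exp 1 ≤ Real.log Y := (Real.le_log_iff_exp_le hY0).2 hY2
  have hl0 : 0 < Real.log Y := (Real.exp_pos _).trans_le hl1
  have hx : 1 ≤ Real.log (Real.log Y) := (Real.le_log_iff_exp_le hl0).2 hl1
  set U : WY N (Fin N × Bool) := UW N Y k I with hU
  set T₀ : TY N w p ((Fin N × Bool) × (Fin w → ZMod p)) := U.ex (cf Dg (VII Dg I)) with hT₀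
  have hth : ∀ (a c : (Fin N × Bool) × (Fin w → ZMod p)) (u : Fin m → ZMod p),
      th1 Dg T₀ a c u = dt (T₀.psi a) (Dg.β (Dg.kV (Dg.s c.1.1) u) (Dg.s a.1.1)) :=
    fun a c u => rfl
  refine red hp Dg Fr U I (VII Dg I) (VI Dg I) (p3_le Dg I) b E ε Y _
    (fun T => ∀ a ∈ T, ∀ c ∈ T, a.1.2 = true → c.1.2 = true →
      th1 Dg T₀ a c = th1 Dg T₀ c a) ?_ ?_ ?_
  · -- h1
    intro T hT hG a ha a' ha' ha2 haa y hy
    have ha2' : a'.1.2 = true := by rw [← haa]; exact ha2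
    obtain ⟨v, hv, rfl⟩ := Submodule.mem_map.1 hy
    show dt (T₀.psi a) (Dg.β v (Dg.s a.1.1)) = dt (T₀.psi a') (Dg.β v (Dg.s a.1.1))
    unfold VI at hv
    induction hv using Submodule.span_induction with
    | mem x hx' =>
      obtain ⟨j, hj, u, rfl⟩ := hx'
      obtain ⟨c, hc, hc1⟩ := p3_ex hT hj
      have hc2 : c.1.2 = true := by rw [hc1]
      have hcj : c.1.1 = j := by rw [hc1]
      have e1 := congrFun (hG a ha c hc ha2 hc2) u
      have e2 := congrFun (hG a' ha' c hc ha2' hc2) u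
      rw [hth, hth, hcj] at e1 e2
      rw [e1]
      rw [← haa] at e2
      rw [e2]
    | zero =>
      rw [map_zero, LinearMap.zero_apply, p3_zero, p3_zero]
    | add x y _ _ h3 h4 =>
      rw [map_add, LinearMap.add_apply, p3_add, p3_add,
        h3 (Submodule.mem_map.2 ⟨x, by assumption, rfl⟩),
        h4 (Submodule.mem_map.2 ⟨y, by assumption, rfl⟩)]
    | smul c x _ h3 =>
      rw [map_smul, LinearMap.smul_apply, p3_smul, p3_smul,
        h3 (Submodule.mem_map.2 ⟨x, by assumption, rfl⟩)]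
  · -- h2
    intro T T' hT hT' hag hG a' ha' c' hc' ha2 hc2
    have haI : a'.1.1 ∈ I := p3_cls hT' ha' ha2
    have hcI : c'.1.1 ∈ I := p3_cls hT' hc' hc2
    obtain ⟨a, ha, ha1⟩ := p3_ex hT haI
    obtain ⟨c, hc, hc1⟩ := p3_ex hT hcI
    have ha3 : a.1 = a'.1 := by rw [ha1, ← ha2]
    have hc3 : c.1 = c'.1 := by rw [hc1, ← hc2]
    have ha4 : a.1.2 = true := by rw [ha3, ha2]
    have hc4 : c.1.2 = true := by rw [hc3, hc2]
    funext u
    have e1 : dt (T₀.psi a) (Dg.β (Dg.kV (Dg.s c.1.1) u) (Dg.s a.1.1)) =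
        dt (T₀.psi a') (Dg.β (Dg.kV (Dg.s c.1.1) u) (Dg.s a.1.1)) := by
      refine hag a ha a' ha' ha4 ha3 _ (Submodule.mem_map.2 ⟨Dg.kV (Dg.s c.1.1) u, ?_, rfl⟩)
      refine Submodule.subset_span ⟨c.1.1, ?_, u, rfl⟩
      rw [hc3]
      exact hcI
    have e2 : dt (T₀.psi c) (Dg.β (Dg.kV (Dg.s a.1.1) u) (Dg.s c.1.1)) =
        dt (T₀.psi c') (Dg.β (Dg.kV (Dg.s a.1.1) u) (Dg.s c.1.1)) := by
      refine hag c hc c' hc' hc4 hc3 _ (Submodule.mem_map.2 ⟨Dg.kV (Dg.s a.1.1) u, ?_, rfl⟩)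
      refine Submodule.subset_span ⟨a.1.1, ?_, u, rfl⟩
      rw [ha3]
      exact haI
    have e3 := congrFun (hG a ha c hc ha4 hc4) u
    rw [hth, hth, e1, e2, ha3, hc3] at e3
    rw [hth, hth]
    exact e3
  · -- hbad
    set B : Finset (((Fin N × Bool) × (Fin w → ZMod p)) × ((Fin N × Bool) × (Fin w → ZMod p))) :=
      Finset.univ.filter fun t => t.1.1.2 = true ∧ t.2.1.2 = true ∧ t.1.1.1 ∈ I ∧
        t.2.1.1 ∈ I ∧ th1 Dg T₀ t.1 t.2 ≠ th1 Dg T₀ t.2 t.1 with hB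
    refine (ts_bad Dg Fr T₀ b E ε B (fun t S => t.1 ∈ S ∧ t.2 ∈ S) Y
      (C₁ * Y * Real.log Y ^ (-A)) ?_ _ ?_ ?_).trans ?_
    · rintro ⟨a₁, a₂⟩ ht ω hω hω'
      rw [hB, Finset.mem_filter] at ht
      obtain ⟨_, l1, l2, i1, i2, hne⟩ := ht
      refine hlls Y hY1 E b hb (hE.trans (p3_thr hx)) ε T₀ ?_ ω hω
        (max (thr Y k) (Real.exp (Real.log (Real.log Y) ^ 4))) (le_max_right _ _) a₁ a₂
        ?_ ?_ ?_ hne hω'
      · intro a
        exact ⟨cf_nonneg Dg _ _ _, p3_wt Dg _ _ _⟩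
      · intro a
        refine p3_kill Dg U (VII Dg I) a _ ?_
        exact Submodule.subset_span ⟨a₁.1.1, i1, a₂.1.1, i2, rfl⟩
      · intro a
        by_cases hI : a.1.1 ∈ I
        · right
          constructor
          · show dt (T₀.psi a₁) (Dg.β (Dg.kV (Dg.s a₂.1.1) (Dg.s a.1.1)) (Dg.s a₁.1.1)) = 0
            refine p3_kill Dg U (VII Dg I) a₁ _ ?_
            exact Submodule.subset_span ⟨a₂.1.1, i2, a.1.1, hI, rfl⟩
          · show dt (T₀.psi a₂) (Dg.β (Dg.kV (Dg.s a₁.1.1) (Dg.s a.1.1)) (Dg.s a₂.1.1)) = 0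
            refine p3_kill Dg U (VII Dg I) a₂ _ ?_
            exact Submodule.subset_span ⟨a₁.1.1, i1, a.1.1, hI, rfl⟩
        · left
          show (if a.1.2 = true then (if a.1.1 ∈ I then 2 * Y else 0) else
            if a.1.1 ∈ I then thr Y (k + 1) else thr Y k) ≤ _
          rw [if_neg hI, if_neg hI]
          have ht0 : thr Y k ≤ max (thr Y k) (Real.exp (Real.log (Real.log Y) ^ 4)) :=
            le_max_left _ _
          split_ifs
          · exact (Real.exp_pos _).le.trans ht0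
          · exact ht0
      · intro a ha
        have hlo : a.1.2 = true := by
          rcases p3_mem ha with rfl | rfl
          · exact l1
          · exact l2
        show _ ≤ (if a.1.2 = true then thr Y (k + 1) else 0)
        rw [if_pos hlo]
        exact p3_z hx k
    · intro S
      split_ifs
      · simp
      · exact p3_om1 _ _
    · intro S hS
      have hS1 : ¬ (∀ a ∈ S, ∀ c ∈ S, a.1.2 = true → c.1.2 = true →
          th1 Dg T₀ a c = th1 Dg T₀ c a) := fun h => hS (if_pos h)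
      have hS2 : om0 I (S.image Prod.fst) ≠ 0 := by
        intro h
        apply hS
        rw [h]
        simp
      push Not at hS1
      obtain ⟨a, ha, c, hc, ha2, hc2, hne⟩ := hS1
      refine ⟨(a, c), ?_, ha, hc⟩
      rw [hB, Finset.mem_filter]
      exact ⟨Finset.mem_univ _, ha2, hc2, p3_cls hS2 ha ha2, p3_cls hS2 hc hc2, hne⟩
    · have hBc : (B.card : ℝ) ≤ n2 := by
        rw [hn2]
        exact_mod_cast Finset.card_le_univ B
      have hnn : 0 ≤ C₁ * Y * Real.log Y ^ (-A) := by positivity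
      calc (B.card : ℝ) * (C₁ * Y * Real.log Y ^ (-A)) ≤
          (n2 + 1) * (C₁ * Y * Real.log Y ^ (-A)) := by
            apply mul_le_mul_of_nonneg_right _ hnn
            linarith
        _ = (n2 + 1) * C₁ * Y * Real.log Y ^ (-A) := by ring

end H77.PT
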