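import Pool.Agent.H77.PT.Sma
import Pool.Agent.H77.PT.Smb

/-!
# H77-PT-SMT: the pattern `I ≠ all` with the local weights for `VI` (MP_b39724_nt)
-/

set_option autoImplicit false

open scoped NumberField
open IsDedekindDomain
open scoped Classical

noncomputable section

namespace H77.PT

open H63.MA H38.BB H38.BG H57.PC H51.CUB H77.PC3

variable {K : Type} [Field K] [NumberField K] {p : ℕ} {ζ : K} {Ω : Type}
  [Field Ω] [Algebra K Ω] [IsAlgClosure K Ω] {m l w N : ℕ} {P R : Type} [Group P] [Group R]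

theorem n45 [NeZero p] [Finite P] [Finite R] (hp : p.Prime) (hp2 : MOne p K)
    (hζ : IsPrimitiveRoot ζ p) (D : RD K p ζ) (L : LDs D.toRD0 Ω) (Fr : FR L)
    (Dg : GP p m l w N P R) (I : Finset (Fin N)) (hI : I ≠ Finset.univ) (k : ℕ) :
    ∃ C Y₀ : ℝ, 0 < C ∧ 3 ≤ Y₀ ∧ ∀ Y : ℝ, Y₀ ≤ Y → ∀ (E : Finset (Pl K)) (b : Fin m → Kˣ),
      BS2 D.toRD0 b E → nr E ≤ thr Y 0 → ∀ ε : Pl K → Gal(Ω/K) → R,
      PR Dg Fr (UW N Y k I) (phi Dg (VI Dg I)) b E ε (om0 I) Y ≤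
        C * Y * (1 + Real.log Y) ^ (N - 1) := by
  obtain ⟨A, C₁, Y₁, hA, hC₁, hY₁, h1⟩ := sma hp hζ L Fr Dg I
  obtain ⟨C₂, Y₂, hC₂, hY₂, h2⟩ := smb hp hp2 hζ D L Fr Dg I hI k A hA
  refine ⟨C₁ + C₂, max Y₁ Y₂, by positivity, le_trans hY₁ (le_max_left _ _), ?_⟩
  intro Y hY E b hb hE ε
  have ha := h1 Y (le_trans (le_max_left _ _) hY) k E b ε
  have hb' := h2 Y (le_trans (le_max_right _ _) hY) E b hb hE ε
  have hY3 : 3 ≤ Y := le_trans (le_trans hY₁ (le_max_left _ _)) hY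
  have hl : 0 ≤ Real.log Y := Real.log_nonneg (by linarith)
  have hpow : 1 ≤ (1 + Real.log Y) ^ (N - 1) := one_le_pow₀ (by linarith)
  have hsplit : PR Dg Fr (UW N Y k I) (phi Dg (VI Dg I)) b E ε (om0 I) Y =
      (∑ h ∈ Fintype.piFinset (fun _ : Fin N × Bool => GF D.toRD0 (2 * Y)),
        if (Wc D.toRD0 (UW N Y k I) E Y h ∧ SpR Dg.cr b (clw (UW N Y k I) h)) ∧
            A * Real.log (Real.log Y) < ((∑ i, (h (i, false)).card : ℕ) : ℝ) then
          om0 I (spt h) * wl ((∏ a, nr (h a)) / Y) *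
            ∑ ρ ∈ RHf L Dg b E ε (clw (UW N Y k I) h),
              ∏ a, ∏ v ∈ h a, phi Dg (VI Dg I) a (cq Dg Fr ρ v)
        else 0) +
      (∑ h ∈ Fintype.piFinset (fun _ : Fin N × Bool => GF D.toRD0 (2 * Y)),
        if (Wc D.toRD0 (UW N Y k I) E Y h ∧ SpR Dg.cr b (clw (UW N Y k I) h)) ∧
            ¬ A * Real.log (Real.log Y) < ((∑ i, (h (i, false)).card : ℕ) : ℝ) then
          om0 I (spt h) * wl ((∏ a, nr (h a)) / Y) *
            ∑ ρ ∈ RHf L Dg b E ε (clw (UW N Y k I) h),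
              ∏ a, ∏ v ∈ h a, phi Dg (VI Dg I) a (cq Dg Fr ρ v)
        else 0) := by
    unfold PR
    rw [← Finset.sum_add_distrib]
    refine Finset.sum_congr (by ext; simp only [Fintype.mem_piFinset]) fun h _ => ?_
    by_cases hw : Wc D.toRD0 (UW N Y k I) E Y h ∧ SpR Dg.cr b (clw (UW N Y k I) h)
    · by_cases hx : A * Real.log (Real.log Y) < ((∑ i, (h (i, false)).card : ℕ) : ℝ)
      · rw [if_pos hw, if_pos ⟨hw, hx⟩, if_neg (fun hh => hh.2 hx), add_zero]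
      · rw [if_pos hw, if_neg (fun hh => hx hh.2), if_pos ⟨hw, hx⟩, zero_add]
    · rw [if_neg hw, if_neg (fun hh => hw hh.1), if_neg (fun hh => hw hh.1), add_zero]
  rw [hsplit]
  have h3 : C₁ * Y ≤ C₁ * Y * (1 + Real.log Y) ^ (N - 1) :=
    le_mul_of_one_le_right (by positivity) hpow
  calc _ ≤ C₁ * Y * (1 + Real.log Y) ^ (N - 1) + C₂ * Y * (1 + Real.log Y) ^ (N - 1) :=
        add_le_add (ha.trans h3) hb'
    _ = (C₁ + C₂) * Y * (1 + Real.log Y) ^ (N - 1) := by ring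

end H77.PT
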