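import Pool.Agent.H77.PT.Pn1
import Pool.Agent.H77.PT.Pn2
import Pool.Agent.H77.PT.Pn3
import Pool.Agent.H77.PT.Smt
import Pool.Agent.H77.PC3.CSu

/-!
# H77-PT-PIG: the patterns `I ≠ all` (MP_b39724_nt): `SUp`
-/

set_option autoImplicit false

open scoped NumberField
open IsDedekindDomain
open scoped Classical

noncomputable section

namespace H77.PT

open H63.MA H38.BB H38.BG H57.PC H51.CUB H77.PC3

theorem thr_mono {Y : ℝ} (hx : 1 ≤ Real.log (Real.log Y)) {i j : ℕ} (h : i ≤ j) :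
    thr Y i ≤ thr Y j := by
  unfold thr
  refine Real.exp_le_exp.2 (pow_le_pow_right₀ hx (by omega))

/-- the pigeonhole principle -/
theorem pig_pat {V : Type} {N : ℕ} (f : Fin N → Finset V) (nm' : V → ℝ) (θ : ℕ → ℝ)
    (hθ : Monotone θ) (h : ¬ ∀ i, ∃ v ∈ f i, θ 1 < nm' v) :
    ∃ k ∈ Finset.range (N + 1), ∃ I : Finset (Fin N), I ≠ Finset.univ ∧
      (∀ i ∈ I, ∃ v ∈ f i, θ (k + 1) < nm' v) ∧ ∀ i, i ∉ I → ∀ v ∈ f i, nm' v ≤ θ k := by
  classical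
  have hne : Nonempty (Fin N) := by
    rcases isEmpty_or_nonempty (Fin N) with h0 | h0
    · exact absurd (fun i => (h0.false i).elim) h
    · exact h0
  -- a step without a class whose largest norm is in the window
  have hk : ∃ k ∈ Finset.range (N + 1), ∀ i, (∃ v ∈ f i, θ k < nm' v) →
      ∃ v ∈ f i, θ (k + 1) < nm' v := by
    by_contra hcon
    push Not at hcon
    choose! i hi1 hi2 using hcon
    have hinj : Set.InjOn i ((Finset.range (N + 1) : Finset ℕ) : Set ℕ) := by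
      intro a ha b hb hab
      by_contra hne
      rcases lt_or_gt_of_ne hne with hlt | hlt
      · obtain ⟨v, hv, hv2⟩ := hi1 b hb
        have h1 := hi2 a ha v (by rw [hab]; exact hv)
        have h2 : θ (a + 1) ≤ θ b := hθ (by omega)
        linarith
      · obtain ⟨v, hv, hv2⟩ := hi1 a ha
        have h1 := hi2 b hb v (by rw [← hab]; exact hv)
        have h2 : θ (b + 1) ≤ θ a := hθ (by omega)
        linarith
    have hcard := Finset.card_le_card_of_injOn i (t := (Finset.univ : Finset (Fin N)))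
      (fun a _ => Finset.mem_univ _) hinj
    rw [Finset.card_range, Finset.card_univ, Fintype.card_fin] at hcard
    omega
  obtain ⟨k, hkr, hk⟩ := hk
  refine ⟨k, hkr, Finset.univ.filter (fun i => ∃ v ∈ f i, θ (k + 1) < nm' v), ?_, ?_, ?_⟩
  · intro hI
    apply h
    intro i
    have hi : i ∈ Finset.univ.filter (fun i => ∃ v ∈ f i, θ (k + 1) < nm' v) := by
      rw [hI]
      exact Finset.mem_univ i
    obtain ⟨v, hv, hv2⟩ := (Finset.mem_filter.1 hi).2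
    have h2 : θ 1 ≤ θ (k + 1) := hθ (by omega)
    exact ⟨v, hv, lt_of_le_of_lt h2 hv2⟩
  · intro i hi
    exact (Finset.mem_filter.1 hi).2
  · intro i hi v hv
    by_contra hcon
    push Not at hcon
    exact hi (Finset.mem_filter.2 ⟨Finset.mem_univ _, hk i ⟨v, hv, hcon⟩⟩)

variable {K : Type} [Field K] [NumberField K] {p : ℕ} {ζ : K} {Ω : Type}
  [Field Ω] [Algebra K Ω] [IsAlgClosure K Ω] {m l w N : ℕ} {P R : Type} [Group P] [Group R]

/-- one pattern -/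
theorem pig_one [NeZero p] [Finite P] [Finite R] (hp : p.Prime) (hp2 : MOne p K)
    (hζ : IsPrimitiveRoot ζ p) (hz2 : H57.BRA.Z2 p K) (D : RD K p ζ) (L : LDs D.toRD0 Ω) (Fr : FR L)
    (Dg : GP p m l w N P R) (k : ℕ) (I : Finset (Fin N)) (hI : I ≠ Finset.univ) :
    ∃ C Y₀ : ℝ, 0 < C ∧ 3 ≤ Y₀ ∧ ∀ Y : ℝ, Y₀ ≤ Y → ∀ (b : Fin m → Kˣ)
      (E : Finset (Pl K)), BS2 D.toRD0 b E → nr E ≤ thr Y 0 → ∀ ε : Pl K → Gal(Ω/K) → R,
      (∑ f ∈ Fintype.piFinset (fun _ : Fin N => GF D.toRD0 Y),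
        if (Dj f ∧ (∀ i, Disjoint (f i) E) ∧ ∏ i, nr (f i) ≤ Y ∧ SpR Dg.cr b f) ∧
          Pat Y k I f then FW Dg Fr b E ε f else 0) ≤
        C * Y * (1 + Real.log Y) ^ (N - 1) := by
  obtain ⟨C₂, Y₂, hC₂, hY₂, h2⟩ := pn2 hp hp2 hζ hz2 D L Fr Dg I 0
  obtain ⟨C₃, Y₃, hC₃, hY₃, h3⟩ := pn3 hp hp2 hζ hz2 D L Fr Dg I 0
  obtain ⟨C₄, Y₄, hC₄, hY₄, h4⟩ := n45 hp hp2 hζ D L Fr Dg I hI k
  obtain ⟨q, hq⟩ : ∃ q : ℝ, q = (p : ℝ) ^ (w * N) := ⟨_, rfl⟩
  have hq0 : 0 < q := by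
    rw [hq]
    exact pow_pos (by exact_mod_cast hp.pos) _
  refine ⟨q * (q * C₄ + C₃) + C₂, max (max Y₂ Y₃) Y₄, by positivity,
    le_trans hY₂ (le_trans (le_max_left _ _) (le_max_left _ _)), ?_⟩
  intro Y hY b E hb hE ε
  have hYa : Y₂ ≤ Y := le_trans (le_trans (le_max_left _ _) (le_max_left _ _)) hY
  have hYb : Y₃ ≤ Y := le_trans (le_trans (le_max_right _ _) (le_max_left _ _)) hY
  have hYc : Y₄ ≤ Y := le_trans (le_max_right _ _) hY
  have hY3 : 3 ≤ Y := hY₂.trans hYa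
  have e1 := pn1 Dg Fr k I Y (by linarith) b E ε
  have e2 := h2 Y hYa k E b hb hE ε
  have e3 := h3 Y hYb k E b hb hE ε
  have e4 := h4 Y hYc E b hb hE ε
  rw [← hq] at e2 e3
  rw [neg_zero, Real.rpow_zero, mul_one] at e2 e3
  have hl : 0 ≤ Real.log Y := Real.log_nonneg (by linarith)
  have hpow : 1 ≤ (1 + Real.log Y) ^ (N - 1) := one_le_pow₀ (by linarith)
  obtain ⟨u, hu⟩ : ∃ u : ℝ, u = (1 + Real.log Y) ^ (N - 1) := ⟨_, rfl⟩
  rw [← hu] at e4 hpow ⊢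
  have hY0 : 0 < Y := by linarith
  have a3 : C₃ * Y ≤ C₃ * Y * u := le_mul_of_one_le_right (by positivity) hpow
  have a2 : C₂ * Y ≤ C₂ * Y * u := le_mul_of_one_le_right (by positivity) hpow
  calc _ ≤ _ := e1
    _ ≤ _ := e2
    _ ≤ q * (q * (C₄ * Y * u) + C₃ * Y) + C₂ * Y := by
        have b1 := mul_le_mul_of_nonneg_left e4 hq0.le
        have b2 := mul_le_mul_of_nonneg_left (e3.trans (add_le_add_left b1 (C₃ * Y))) hq0.le
        linarith
    _ ≤ q * (q * (C₄ * Y * u) + C₃ * Y * u) + C₂ * Y * u := by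
        have b2 := mul_le_mul_of_nonneg_left (add_le_add_right a3 (q * (C₄ * Y * u))) hq0.le
        linarith
    _ = (q * (q * C₄ + C₃) + C₂) * Y * u := by ring

theorem sup_all [NeZero p] [Finite P] [Finite R] (hp : p.Prime) (hp2 : MOne p K)
    (hζ : IsPrimitiveRoot ζ p) (hz2 : H57.BRA.Z2 p K) (D : RD K p ζ) (L : LDs D.toRD0 Ω) (Fr : FR L)
    (Dg : GP p m l w N P R) : SUp Dg Fr := by
  classical
  have h := fun (k : ℕ) (I : {I : Finset (Fin N) // I ≠ Finset.univ}) =>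
    pig_one hp hp2 hζ hz2 D L Fr Dg k I.1 I.2
  choose C Y₀ hC hY₀ h using h
  obtain ⟨S, hS⟩ : ∃ S : Finset (ℕ × {I : Finset (Fin N) // I ≠ Finset.univ}),
      S = Finset.range (N + 1) ×ˢ Finset.univ := ⟨_, rfl⟩
  refine ⟨∑ s ∈ S, C s.1 s.2 + 1, ∑ s ∈ S, Y₀ s.1 s.2 + Real.exp (Real.exp 1), ?_, ?_, ?_⟩
  · have : 0 ≤ ∑ s ∈ S, C s.1 s.2 := Finset.sum_nonneg fun s _ => (hC s.1 s.2).le
    linarith
  · have h1 : 0 ≤ ∑ s ∈ S, Y₀ s.1 s.2 := Finset.sum_nonneg fun s _ =>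
      le_trans (by norm_num) (hY₀ s.1 s.2)
    have h2 : (2 : ℝ) ≤ Real.exp 1 := by
      have := Real.add_one_le_exp (1 : ℝ)
      linarith
    have h3 : (3 : ℝ) ≤ Real.exp (Real.exp 1) := by
      have := Real.add_one_le_exp (Real.exp 1)
      linarith
    linarith
  intro Y hY b E hb hE ε
  have hsum0 : 0 ≤ ∑ s ∈ S, Y₀ s.1 s.2 := Finset.sum_nonneg fun s _ =>
    le_trans (by norm_num) (hY₀ s.1 s.2)
  have hYe : Real.exp (Real.exp 1) ≤ Y := by linarith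
  have hYp : 0 < Y := lt_of_lt_of_le (Real.exp_pos _) hYe
  have hlY : Real.exp 1 ≤ Real.log Y := by
    rw [Real.le_log_iff_exp_le hYp]
    exact hYe
  have hx : 1 ≤ Real.log (Real.log Y) := by
    rw [Real.le_log_iff_exp_le (lt_of_lt_of_le (Real.exp_pos _) hlY)]
    exact hlY
  have hYs : ∀ s ∈ S, Y₀ s.1 s.2 ≤ Y := by
    intro s hs
    have h1 := Finset.single_le_sum (f := fun s : ℕ × {I : Finset (Fin N) // I ≠ Finset.univ} =>
      Y₀ s.1 s.2) (fun s _ => le_trans (by norm_num : (0 : ℝ) ≤ 3) (hY₀ s.1 s.2)) hs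
    have h2 : 0 < Real.exp (Real.exp 1) := Real.exp_pos _
    have h3 : Y₀ s.1 s.2 ≤ ∑ s ∈ S, Y₀ s.1 s.2 := h1
    linarith
  have hFW : ∀ f : Fin N → Finset (Pl K), 0 ≤ FW Dg Fr b E ε f := fun f => fw_nonneg Dg Fr b E ε f
  have hmain : (∑ f ∈ Fintype.piFinset (fun _ : Fin N => GF D.toRD0 Y),
        if (Dj f ∧ (∀ i, Disjoint (f i) E) ∧ ∏ i, nr (f i) ≤ Y ∧ SpR Dg.cr b f) ∧
            ¬ ∀ i, ∃ v ∈ f i, thr Y 1 < nm v then FW Dg Fr b E ε f else 0) ≤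
      ∑ s ∈ S, ∑ f ∈ Fintype.piFinset (fun _ : Fin N => GF D.toRD0 Y),
        if (Dj f ∧ (∀ i, Disjoint (f i) E) ∧ ∏ i, nr (f i) ≤ Y ∧ SpR Dg.cr b f) ∧
          Pat Y s.1 s.2.1 f then FW Dg Fr b E ε f else 0 := by
    rw [Finset.sum_comm]
    refine Finset.sum_le_sum fun f _ => ?_
    split_ifs with hf
    · obtain ⟨k, hk, I, hI, h1, h2⟩ := pig_pat f (fun v => (nm v : ℝ)) (thr Y)
        (fun i j hij => thr_mono hx hij) hf.2
      have hmem : (k, (⟨I, hI⟩ : {I : Finset (Fin N) // I ≠ Finset.univ})) ∈ S := by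
        rw [hS]
        exact Finset.mem_product.2 ⟨hk, Finset.mem_univ _⟩
      have h3 := Finset.single_le_sum
        (f := fun s : ℕ × {I : Finset (Fin N) // I ≠ Finset.univ} =>
          if (Dj f ∧ (∀ i, Disjoint (f i) E) ∧ ∏ i, nr (f i) ≤ Y ∧ SpR Dg.cr b f) ∧
            Pat Y s.1 s.2.1 f then FW Dg Fr b E ε f else 0)
        (fun s _ => by
          split_ifs
          · exact hFW f
          · exact le_rfl) hmem
      have h4 : (Dj f ∧ (∀ i, Disjoint (f i) E) ∧ ∏ i, nr (f i) ≤ Y ∧ SpR Dg.cr b f) ∧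
          Pat Y k I f := ⟨hf.1, h1, h2⟩
      dsimp only at h3
      rw [if_pos h4] at h3
      exact h3
    · refine Finset.sum_nonneg fun s _ => ?_
      split_ifs
      · exact hFW f
      · exact le_rfl
  refine hmain.trans ?_
  have hl : 0 ≤ Real.log Y := by linarith [Real.exp_pos 1]
  have hpow : 0 ≤ (1 + Real.log Y) ^ (N - 1) := pow_nonneg (by linarith) _
  calc _ ≤ ∑ s ∈ S, C s.1 s.2 * Y * (1 + Real.log Y) ^ (N - 1) :=
        Finset.sum_le_sum fun s hs => h s.1 s.2 Y (hYs s hs) b E hb hE ε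
    _ = (∑ s ∈ S, C s.1 s.2) * Y * (1 + Real.log Y) ^ (N - 1) := by
        rw [Finset.sum_mul, Finset.sum_mul]
    _ ≤ (∑ s ∈ S, C s.1 s.2 + 1) * Y * (1 + Real.log Y) ^ (N - 1) := by
        refine mul_le_mul_of_nonneg_right ?_ hpow
        exact mul_le_mul_of_nonneg_right (by linarith) hYp.le

end H77.PT
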