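import Pool.Agent.H77.PT.Lin
import Pool.Agent.H77.PT.Lia

/-!
# [H77 PT PN1] the families of a pattern as families with windows, 80-120 lines. File Pool/Agent/H77/PT/Pn1.lean

The part of `FSum` of the pattern `(k, I)` is at most `PR (phi ⊥)` for the windows `UW N Y k I`.
PROOF. For `f` in the sum with `Pat Y k I f` put `h (i, false) = {v ∈ f i | i ∈ I → nm v ≤ thr Y (k + 1)}`, `h (i, true) = {v ∈ f i | i ∈ I ∧ thr Y (k + 1) < nm v}`. Then `clw (UW N Y k I) h = f` (so `f ↦ h` is injective), `Wc D (UW ..) E Y h` (`∏ a, nr (h a) = ∏ i, nr (f i) ≤ Y ≤ 2 Y`: `Fintype.prod_prod_type`, `Finset.prod_filter_mul_prod_filter_not`;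
windows: `0 < nm v`; `nm v ≤ nr (f i) ≤ Y ≤ 2 Y`; `nm v ≤ thr Y k` for `i ∉ I` by `Pat`), `om0 I (spt h) = 1`, `wl (∏ / Y) = 1` (the argument is `≤ 1`), and `FW f = ∑ ρ, (if all cq = 0 then ∏ Wn ^ #(f i) else 0) ≤ ∑ ρ, ∏ a, ∏ v ∈ h a, phi Dg ⊥ a (cq ρ v)` termwise: if all `cq = 0` both sides are equal
(`BS Dg ⊥ i = ⊥`, `Nat.card = 1`, `0 ∈ ⊥`), otherwise the left side is `0` and the right side is `≥ 0` (`phi_nonneg`). So the sum is at most the sum over the `h` in the image, and the other terms of `PR` are nonnegative.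
-/

set_option autoImplicit false

open scoped NumberField
open IsDedekindDomain
open scoped Classical

noncomputable section

namespace H77.PT

open H63.MA H38.BB H38.BG H57.PC H51.CUB H77.PC3

variable {K : Type} [Field K] [NumberField K] {p : ℕ} {ζ : K} {D : RD0 K p ζ} {Ω : Type}
  [Field Ω] [Algebra K Ω] {m l w N : ℕ} {P R : Type} [Group P] [Group R]

/-- the family with windows of a family -/
private def p1T (Y : ℝ) (k : ℕ) (I : Finset (Fin N)) (f : Fin N → Finset (Pl K))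
    (a : Fin N × Bool) : Finset (Pl K) :=
  if a.2 = true then
    (if a.1 ∈ I then (f a.1).filter (fun v => thr Y (k + 1) < nm v) else ∅)
  else
    (if a.1 ∈ I then (f a.1).filter (fun v => ¬ thr Y (k + 1) < nm v) else f a.1)

private theorem p1_sub (Y : ℝ) (k : ℕ) (I : Finset (Fin N)) (f : Fin N → Finset (Pl K))
    (a : Fin N × Bool) : p1T Y k I f a ⊆ f a.1 := by
  unfold p1T
  split_ifs
  · exact Finset.filter_subset _ _
  · exact Finset.empty_subset _
  · exact Finset.filter_subset _ _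
  · exact Finset.Subset.refl _

private theorem p1_union (Y : ℝ) (k : ℕ) (I : Finset (Fin N)) (f : Fin N → Finset (Pl K))
    (i : Fin N) : p1T Y k I f (i, true) ∪ p1T Y k I f (i, false) = f i := by
  unfold p1T
  by_cases h : i ∈ I
  · simp only [if_pos h, if_true, Bool.false_eq_true, if_false]
    exact Finset.filter_union_filter_not_eq _ _
  · simp only [if_neg h, if_true, Bool.false_eq_true, if_false]
    exact Finset.empty_union _

private theorem p1_disj (Y : ℝ) (k : ℕ) (I : Finset (Fin N)) (f : Fin N → Finset (Pl K))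
    (i : Fin N) : Disjoint (p1T Y k I f (i, true)) (p1T Y k I f (i, false)) := by
  unfold p1T
  by_cases h : i ∈ I
  · simp only [if_pos h, if_true, Bool.false_eq_true, if_false]
    exact Finset.disjoint_filter_filter_not _ _ _
  · simp only [if_neg h, if_true, Bool.false_eq_true, if_false]
    exact Finset.disjoint_empty_left _

private theorem p1_clw (Y : ℝ) (k : ℕ) (I : Finset (Fin N)) (f : Fin N → Finset (Pl K)) :
    clw (UW N Y k I) (p1T Y k I f) = f := by
  funext i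
  ext v
  unfold clw
  rw [Finset.mem_biUnion]
  constructor
  · rintro ⟨a, ha, hv⟩
    have h1 : a.1 = i := (Finset.mem_filter.1 ha).2
    rw [← h1]
    exact p1_sub Y k I f a hv
  · intro hv
    rw [← p1_union Y k I f i, Finset.mem_union] at hv
    rcases hv with hv | hv
    · exact ⟨(i, true), Finset.mem_filter.2 ⟨Finset.mem_univ _, rfl⟩, hv⟩
    · exact ⟨(i, false), Finset.mem_filter.2 ⟨Finset.mem_univ _, rfl⟩, hv⟩

private theorem p1_nm (v : Pl K) {s : Finset (Pl K)} (hv : v ∈ s) :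
    (1 : ℝ) ≤ nm v ∧ (nm v : ℝ) ≤ nr s := by
  have h1 : nr ({v} : Finset (Pl K)) = (nm v : ℝ) := by
    unfold nr
    rw [Finset.prod_singleton]
  constructor
  · rw [← h1]
    exact one_le_nr _
  · rw [← h1]
    exact nr_mono (Finset.singleton_subset_iff.2 hv)

private theorem p1_prod (Y : ℝ) (k : ℕ) (I : Finset (Fin N)) (f : Fin N → Finset (Pl K)) :
    ∏ a, nr (p1T Y k I f a) = ∏ i, nr (f i) := by
  rw [Fintype.prod_prod_type]
  refine Finset.prod_congr rfl fun i _ => ?_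
  rw [Fintype.prod_bool, ← nr_union (p1_disj Y k I f i), p1_union]

private theorem p1_dj {Y : ℝ} {k : ℕ} {I : Finset (Fin N)} {f : Fin N → Finset (Pl K)}
    (hf : Dj f) : Dj (p1T Y k I f) := by
  rintro ⟨i, β⟩ ⟨i', β'⟩ hne
  by_cases h : i = i'
  · subst h
    cases β <;> cases β'
    · exact absurd rfl hne
    · exact (p1_disj Y k I f i).symm
    · exact p1_disj Y k I f i
    · exact absurd rfl hne
  · exact (hf i i' h).mono (p1_sub Y k I f (i, β)) (p1_sub Y k I f (i', β'))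

private theorem p1_om {Y : ℝ} {k : ℕ} {I : Finset (Fin N)} {f : Fin N → Finset (Pl K)}
    (hf : Pat Y k I f) : om0 I (spt (p1T Y k I f)) = 1 := by
  unfold om0
  rw [if_pos]
  intro i
  unfold spt
  rw [Finset.mem_filter]
  constructor
  · intro hi
    obtain ⟨v, hv, hv1⟩ := hf.1 i hi
    refine ⟨Finset.mem_univ _, ?_⟩
    apply Finset.Nonempty.ne_empty
    refine ⟨v, ?_⟩
    unfold p1T
    simp only [if_pos hi, if_true]
    exact Finset.mem_filter.2 ⟨hv, hv1⟩
  · rintro ⟨_, h⟩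
    by_contra hi
    apply h
    unfold p1T
    simp only [if_neg hi, if_true]

private theorem p1_wl {x : ℝ} (hx : x ≤ 1) : wl x = 1 := by
  unfold wl
  rw [min_eq_left (by linarith), max_eq_right (by norm_num)]

private theorem p1_phi (Dg : GP p m l w N P R) (a : Fin N × Bool) :
    phi Dg ⊥ a 0 = Dg.Wn a.1 := by
  unfold phi
  split_ifs with h1 h2
  · have h3 : BS Dg (⊥ : Submodule (ZMod p) (Fin l → ZMod p)) a.1 = ⊥ := Submodule.map_bot _
    rw [h3]
    have h4 : Nat.card (⊥ : Submodule (ZMod p) (Fin w → ZMod p)) = 1 := Nat.card_unique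
    rw [h4]
    simp
  · exact absurd (Submodule.zero_mem _) h2
  · rfl

private theorem p1_term {L : LDs D Ω} (Dg : GP p m l w N P R) (Fr : FR L) (k : ℕ)
    (I : Finset (Fin N)) (Y : ℝ) (f : Fin N → Finset (Pl K)) (ρ : Gal(Ω/K) →* R) :
    (if ∀ i, ∀ v ∈ f i, cq Dg Fr ρ v = 0 then ∏ i, (Dg.Wn i : ℝ) ^ (f i).card else 0) ≤
      ∏ a, ∏ v ∈ p1T Y k I f a, phi Dg ⊥ a (cq Dg Fr ρ v) := by
  split_ifs with h
  · have h1 : ∀ a, ∏ v ∈ p1T Y k I f a, phi Dg ⊥ a (cq Dg Fr ρ v) =
        (Dg.Wn a.1 : ℝ) ^ (p1T Y k I f a).card := by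
      intro a
      rw [← Finset.prod_const]
      refine Finset.prod_congr rfl fun v hv => ?_
      rw [h a.1 v (p1_sub Y k I f a hv), p1_phi]
    simp_rw [h1]
    rw [Fintype.prod_prod_type]
    refine le_of_eq (Finset.prod_congr rfl fun i _ => ?_)
    rw [Fintype.prod_bool, ← pow_add, ← Finset.card_union_of_disjoint (p1_disj Y k I f i),
      p1_union]
  · exact Finset.prod_nonneg fun a _ => Finset.prod_nonneg fun v _ => phi_nonneg Dg _ _ _

private theorem p1_ge [NeZero p] {J : Type} [Fintype J] {L : LDs D Ω} (Dg : GP p m l w N P R)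
    (Fr : FR L) (U : WY N J) (φ : J → (Fin w → ZMod p) → ℝ) (b : Fin m → Kˣ)
    (E : Finset (Pl K)) (ε : Pl K → Gal(Ω/K) → R) (ω : Finset J → ℝ) (Y : ℝ)
    (hφ : ∀ a x, 0 ≤ φ a x) (hω : ∀ S, 0 ≤ ω S) {ι : Type} (S : Finset ι)
    (T : ι → J → Finset (Pl K)) (hT : Set.InjOn T (S : Set ι)) (g : ι → ℝ)
    (h1 : ∀ f ∈ S, ∀ a, T f a ∈ GF D (2 * Y)) (h2 : ∀ f ∈ S, Wc D U E Y (T f))
    (h3 : ∀ f ∈ S, SpR Dg.cr b (clw U (T f)))
    (h4 : ∀ f ∈ S, g f ≤ ω (spt (T f)) * wl ((∏ a, nr (T f a)) / Y) *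
        ∑ ρ ∈ RHf L Dg b E ε (clw U (T f)), ∏ a, ∏ v ∈ T f a, φ a (cq Dg Fr ρ v)) :
    ∑ f ∈ S, g f ≤ PR Dg Fr U φ b E ε ω Y := by
  unfold PR
  calc ∑ f ∈ S, g f ≤ ∑ f ∈ S, (if Wc D U E Y (T f) ∧ SpR Dg.cr b (clw U (T f)) then
        ω (spt (T f)) * wl ((∏ a, nr (T f a)) / Y) *
        ∑ ρ ∈ RHf L Dg b E ε (clw U (T f)), ∏ a, ∏ v ∈ T f a, φ a (cq Dg Fr ρ v) else 0) := by
        refine Finset.sum_le_sum fun f hf => ?_
        rw [if_pos ⟨h2 f hf, h3 f hf⟩]
        exact h4 f hf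
    _ = ∑ h ∈ S.image T, (if Wc D U E Y h ∧ SpR Dg.cr b (clw U h) then
        ω (spt h) * wl ((∏ a, nr (h a)) / Y) *
        ∑ ρ ∈ RHf L Dg b E ε (clw U h), ∏ a, ∏ v ∈ h a, φ a (cq Dg Fr ρ v) else 0) := by
        rw [Finset.sum_image hT]
    _ ≤ _ := by
        refine Finset.sum_le_sum_of_subset_of_nonneg ?_ fun h _ _ => ?_
        · intro h hh
          obtain ⟨f, hf, rfl⟩ := Finset.mem_image.1 hh
          exact Fintype.mem_piFinset.2 (h1 f hf)
        · split_ifs
          · exact mul_nonneg (mul_nonneg (hω _) (wl_nonneg _)) (Finset.sum_nonneg fun ρ _ =>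
              Finset.prod_nonneg fun a _ => Finset.prod_nonneg fun v _ => hφ _ _)
          · exact le_rfl

theorem pn1 [NeZero p] {L : LDs D Ω} (Dg : GP p m l w N P R) (Fr : FR L) (k : ℕ)
    (I : Finset (Fin N)) (Y : ℝ) (hY : 1 ≤ Y) (b : Fin m → Kˣ) (E : Finset (Pl K))
    (ε : Pl K → Gal(Ω/K) → R) :
    (∑ f ∈ Fintype.piFinset (fun _ : Fin N => GF D Y),
      if (Dj f ∧ (∀ i, Disjoint (f i) E) ∧ ∏ i, nr (f i) ≤ Y ∧ SpR Dg.cr b f) ∧ Pat Y k I f then
        FW Dg Fr b E ε f else 0) ≤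
      PR Dg Fr (UW N Y k I) (phi Dg ⊥) b E ε (om0 I) Y := by
  rw [← Finset.sum_filter]
  have hY0 : 0 < Y := by linarith
  have hinj : ∀ s : Set (Fin N → Finset (Pl K)), Set.InjOn (p1T (K := K) Y k I) s := by
    intro s f _ f' _ h
    rw [← p1_clw Y k I f, h, p1_clw]
  refine p1_ge Dg Fr (UW N Y k I) (phi Dg ⊥) b E ε (om0 I) Y (fun a x => phi_nonneg Dg _ a x)
    (fun S => by unfold om0; split_ifs <;> norm_num) _ (p1T (K := K) Y k I) (hinj _) _
    ?_ ?_ ?_ ?_
  · intro f hf a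
    have h1 := Fintype.mem_piFinset.1 (Finset.mem_filter.1 hf).1 a.1
    unfold GF at h1 ⊢
    rw [Finset.mem_filter] at h1 ⊢
    refine ⟨mem_AF.2 ?_, fun v hv => h1.2 v (p1_sub Y k I f a hv)⟩
    have h2 := mem_AF.1 h1.1
    have h3 := nr_mono (p1_sub Y k I f a)
    linarith
  · intro f hf
    obtain ⟨hf0, ⟨hdj, hdE, hprod, hsp⟩, hpat⟩ := Finset.mem_filter.1 hf
    have hfi : ∀ i, nr (f i) ≤ Y := by
      intro i
      have h1 := Fintype.mem_piFinset.1 hf0 i
      unfold GF at h1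
      exact mem_AF.1 (Finset.mem_filter.1 h1).1
    refine ⟨p1_dj hdj, fun a => (hdE a.1).mono_left (p1_sub Y k I f a), ?_, ?_⟩
    · rw [p1_prod]
      linarith
    · rintro ⟨i, β⟩ v hv
      have hvf : v ∈ f i := p1_sub Y k I f (i, β) hv
      obtain ⟨hn1, hn2⟩ := p1_nm v hvf
      have hn3 := hn2.trans (hfi i)
      cases β with
      | true =>
        unfold p1T at hv
        by_cases hi : i ∈ I
        · simp only [if_pos hi, if_true] at hv
          show (if true = true then thr Y (k + 1) else 0) < (nm v : ℝ) ∧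
            (nm v : ℝ) ≤ (if true = true then (if i ∈ I then 2 * Y else 0) else
              if i ∈ I then thr Y (k + 1) else thr Y k)
          rw [if_pos rfl, if_pos rfl, if_pos hi]
          exact ⟨(Finset.mem_filter.1 hv).2, by linarith⟩
        · simp only [if_neg hi, if_true] at hv
          exact absurd hv (Finset.notMem_empty v)
      | false =>
        show (if false = true then thr Y (k + 1) else 0) < (nm v : ℝ) ∧
          (nm v : ℝ) ≤ (if false = true then (if i ∈ I then 2 * Y else 0) else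
            if i ∈ I then thr Y (k + 1) else thr Y k)
        rw [if_neg Bool.false_ne_true, if_neg Bool.false_ne_true]
        refine ⟨by linarith, ?_⟩
        by_cases hi : i ∈ I
        · unfold p1T at hv
          simp only [if_pos hi, Bool.false_eq_true, if_false] at hv
          rw [if_pos hi]
          exact not_lt.1 (Finset.mem_filter.1 hv).2
        · rw [if_neg hi]
          exact hpat.2 i hi v hvf
  · intro f hf
    obtain ⟨hf0, ⟨hdj, hdE, hprod, hsp⟩, hpat⟩ := Finset.mem_filter.1 hf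
    rw [p1_clw]
    exact hsp
  · intro f hf
    obtain ⟨hf0, ⟨hdj, hdE, hprod, hsp⟩, hpat⟩ := Finset.mem_filter.1 hf
    rw [p1_om hpat, p1_wl, one_mul, one_mul]
    · rw [p1_clw]
      unfold FW
      exact Finset.sum_le_sum fun ρ _ => p1_term Dg Fr k I Y f ρ
    · rw [p1_prod, div_le_one hY0]
      exact hprod

end H77.PT
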