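import Pool.Agent.H77.PT.Gfb
import Pool.Agent.H77.PT.Gtw
import Pool.Agent.H77.PT.Phc

/-!
# [H77 PT PWB] the sum over the homomorphisms, pointwise bound, 100-150 lines. File Pool/Agent/H77/PT/Pwb.lean

`PHf`: the finite set of the elements of `PH` (`phc` gives finiteness). `mem_PHf`, `phf_card` are immediate from `phc`.
`pwb`: `h` a family with the conditions of the pattern. By `gfb` the left side is at most `C * C ^ (∑ #(n i))` times `∑_{ρ₂ ∈ Im} ∏ i, ∏ v ∈ g i, fx (C2 i) (ρ₂ (F v))`, `Im = {k2 ∘ ρ | ρ ∈ RHf}`. By `gtw` there is `tau` (depending only on `h`) such that every `ρ₂ = k2 ∘ ρ` is `σ ↦ r σ * tau σ` with `r ∈ PH`; choose `r = r(ρ₂)`;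
`ρ₂ ↦ r(ρ₂)` is injective (`ρ₂ = r * tau`), and `ρ₂ (F v) = r (F v) * Z (tv D g v)` for `v ∉ S0`. The terms are `≥ 0` (`fx_nonneg`), so the sum over `Im` is at most the sum over `PHf` (`Finset.sum_le_sum_of_injOn`-type: `Finset.sum_image` for the image of `Im` in `PHf` and `Finset.sum_le_sum_of_subset_of_nonneg`). (`ρ ∈ RHf → ρ ∈ RH`: `mem_RHf`-type lemma, grep `RHf` in Pool/Agent/H77/PC3/CRh.lean.)
-/

set_option autoImplicit false

open scoped NumberField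
open IsDedekindDomain
open scoped Classical

noncomputable section

namespace H77.PT

open H63.MA H38.BB H38.BG H57.PC H51.CUB H77.PC3

variable {K : Type} [Field K] [NumberField K] {p : ℕ} {ζ : K} {D : RD0 K p ζ} {Ω : Type}
  [Field Ω] [Algebra K Ω] {m l w N : ℕ} {P R : Type} [Group P] [Group R]

/-- the elements of `PH` as a finite set -/
def PHf [NeZero p] (L : LDs D Ω) (Dg : GP p m l w N P R) (I : Finset (Fin N))
    (Z : Multiplicative (Fin N → ZMod p) →* G2 Dg I) (b : Fin m → Kˣ) (E : Finset (Pl K))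
    (ε : Pl K → Gal(Ω/K) → R) (n : Fin N → Finset (Pl K)) : Finset (Gal(Ω/K) →* G2 Dg I) :=
  if h : (PH L Dg I Z b E ε n).Finite then h.toFinset else ∅

theorem mem_PHf [IsAlgClosure K Ω] [NeZero p] [Finite P] [Finite R] (hp : p.Prime)
    (hζ : IsPrimitiveRoot ζ p) (L : LDs D Ω) (Dg : GP p m l w N P R) (I : Finset (Fin N))
    (Z : Multiplicative (Fin N → ZMod p) →* G2 Dg I) (b : Fin m → Kˣ) (E : Finset (Pl K))
    (ε : Pl K → Gal(Ω/K) → R) (n : Fin N → Finset (Pl K)) (hn : ∀ i, ∀ v ∈ n i, v ∉ D.S0)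
    (r : Gal(Ω/K) →* G2 Dg I) : r ∈ PHf L Dg I Z b E ε n ↔ r ∈ PH L Dg I Z b E ε n := by
  obtain ⟨C, _, hC⟩ := phc hp hζ L Dg I Z
  unfold PHf
  rw [dif_pos (hC b E ε n hn).1, Set.Finite.mem_toFinset]

theorem phf_card [IsAlgClosure K Ω] [NeZero p] [Finite P] [Finite R] (hp : p.Prime)
    (hζ : IsPrimitiveRoot ζ p) (L : LDs D Ω) (Dg : GP p m l w N P R) (I : Finset (Fin N))
    (Z : Multiplicative (Fin N → ZMod p) →* G2 Dg I) :
    ∃ C : ℝ, 1 ≤ C ∧ ∀ (b : Fin m → Kˣ) (E : Finset (Pl K)) (ε : Pl K → Gal(Ω/K) → R)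
      (n : Fin N → Finset (Pl K)), (∀ i, ∀ v ∈ n i, v ∉ D.S0) →
      ((PHf L Dg I Z b E ε n).card : ℝ) ≤ C * C ^ (∑ i, (n i).card) := by
  obtain ⟨C, hC1, hC⟩ := phc hp hζ L Dg I Z
  refine ⟨C, hC1, fun b E ε n hn => ?_⟩
  obtain ⟨h1, h2⟩ := hC b E ε n hn
  unfold PHf
  rw [dif_pos h1, ← Set.ncard_eq_toFinset_card _ h1]
  exact h2

/-- the product with a central homomorphism -/
private def pwbM {A G : Type} [Group A] [Group G] (tau : A →* G) (ht : ∀ σ x, tau σ * x = x * tau σ)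
    (r : A →* G) : A →* G where
  toFun σ := r σ * tau σ
  map_one' := by rw [map_one, map_one, mul_one]
  map_mul' σ σ' := by
    rw [map_mul, map_mul]
    calc r σ * r σ' * (tau σ * tau σ') = r σ * (r σ' * tau σ) * tau σ' := by group
      _ = r σ * (tau σ * r σ') * tau σ' := by rw [ht]
      _ = r σ * tau σ * (r σ' * tau σ') := by group

theorem pwb [IsAlgClosure K Ω] [NeZero p] [Finite P] [Finite R] (hp : p.Prime)
    (hζ : IsPrimitiveRoot ζ p) (L : LDs D Ω) (Fr : FR L) (Dg : GP p m l w N P R)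
    (I : Finset (Fin N)) (Z : Multiplicative (Fin N → ZMod p) →* G2 Dg I) (hZ : ZD Dg I Z) :
    ∃ C : ℝ, 1 ≤ C ∧ ∀ (U : WY N (Fin N × Bool)) (_ : ∀ a, U.cls a = a.1) (b : Fin m → Kˣ)
      (E : Finset (Pl K)), BS2 D b E → ∀ (ε : Pl K → Gal(Ω/K) → R)
      (h : Fin N × Bool → Finset (Pl K)), Dj h → (∀ a, Disjoint (h a) E) →
      (∀ a, ∀ v ∈ h a, v ∉ D.S0) → (∀ i, i ∉ I → h (i, true) = ∅) →
      SpR Dg.cr b (clw U h) →
      ∑ ρ ∈ RHf L Dg b E ε (clw U h), ∏ a, ∏ v ∈ h a, phi Dg (VI Dg I) a (cq Dg Fr ρ v) ≤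
        C * C ^ (∑ i, (h (i, false)).card) *
          ∑ r ∈ PHf L Dg I Z b E ε (fun i => h (i, false)), ∏ i, ∏ v ∈ h (i, true),
            fx (C2 Dg I i) (r (Fr.F v) *
              Z (Multiplicative.ofAdd (tv D (fun i => h (i, true)) v))) := by
  obtain ⟨C, hC1, hC⟩ := gfb hp hζ L Fr Dg I
  refine ⟨C, hC1, ?_⟩
  intro U hU b E hb ε h hdj hE hS hI hsp
  refine (hC U hU b E ε h hdj hS).trans ?_
  have hC0 : 0 ≤ C := by linarith
  refine mul_le_mul_of_nonneg_left ?_ (by positivity)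
  obtain ⟨tau, htc, htF, ht⟩ := gtw hp hζ L Fr Dg I Z hZ U hU b E hb ε h hdj hE hS hI hsp
  have hn : ∀ i, ∀ v ∈ (fun i => h (i, false)) i, v ∉ D.S0 := fun i v hv => hS (i, false) v hv
  have hinj : Function.Injective (pwbM tau htc) := by
    intro r r' hr
    refine MonoidHom.ext fun σ => ?_
    have h1 : r σ * tau σ = r' σ * tau σ := DFunLike.congr_fun hr σ
    exact mul_right_cancel h1
  have hsub : (RHf L Dg b E ε (clw U h)).image (fun ρ => (k2 Dg I).comp ρ) ⊆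
      (PHf L Dg I Z b E ε (fun i => h (i, false))).image (pwbM tau htc) := by
    intro ρ₂ hρ₂
    rw [Finset.mem_image] at hρ₂
    obtain ⟨ρ, hρ, rfl⟩ := hρ₂
    obtain ⟨r, hr, hrσ⟩ := ht ρ (mem_RHf hρ)
    rw [Finset.mem_image]
    refine ⟨r, (mem_PHf hp hζ L Dg I Z b E ε _ hn r).2 hr, ?_⟩
    refine MonoidHom.ext fun σ => ?_
    exact (hrσ σ).symm
  refine (Finset.sum_le_sum_of_subset_of_nonneg hsub fun ρ₂ _ _ =>
    Finset.prod_nonneg fun i _ => Finset.prod_nonneg fun v _ => Nat.cast_nonneg _).trans ?_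
  rw [Finset.sum_image fun r _ r' _ hr => hinj hr]
  refine Finset.sum_le_sum fun r _ => le_of_eq ?_
  refine Finset.prod_congr rfl fun i _ => Finset.prod_congr rfl fun v hv => ?_
  have h1 : pwbM tau htc r (Fr.F v) = r (Fr.F v) * tau (Fr.F v) := rfl
  rw [h1, htF v (hS (i, true) v hv)]

end H77.PT
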