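import Pool.Agent.H77.PT.Pts
import Pool.Agent.H77.PT.Lin
import Pool.Agent.H77.PT.Lia

/-!
# [H77 PT RED] reduction of the local conditions from `[S, s i]` to `[S', s i]`, 150-220 lines. File Pool/Agent/H77/PT/Red.lean

`T₀ = U.ex (cf Dg S)`, types `a = ((i, β), ψ)`. `Good` is a property of supports such that (h1) in a good support (with the right windows) the functionals of two types of the same large window agree on `BS Dg S' i`, and (h2) `Good` only depends on the functionals of the large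
types modulo the annihilators of the `BS Dg S' i`. Then `PR (phi S) ≤ p^(w N) PR (phi S') + M`, `M` the bound for the part of the bad supports.

PROOF. `PR (phi S) = TS T₀ ω`, `ω T = om0 I (T.image fst)` (`pr_pc`, `phi_cf`, `pc_ts`). `ω = ω_bad + ∑ χ ∈ X, ω_χ` where `χ : Fin N → (Fin w → ZMod p)`, `ω_χ T = if T ⊆ S_χ then ω T else 0`, `S_χ = {a | a.1.2 = true → ∀ y ∈ BS Dg S' a.1.1, dt (T₀.psi a) y = dt (χ a.1.1) y}`, and `X` is the set of
the normalised `χ` such that there is a good `T ⊆ S_χ` with `ω T ≠ 0`. Normalised: `χ i = nrm i (χ i)` for all `i` and `χ i = 0` for `i ∉ I`, where `nrm i : (Fin w → ZMod p) → (Fin w → ZMod p)` satisfies: `nrm i ψ = ψ` on `BS Dg S' i`, and `nrm i ψ = nrm i ψ'` if `ψ = ψ'` on `BS Dg S' i`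
(choice: `Quotient.out` for the setoid; or `Function.extend`/`Classical.choose` depending only on the restriction of `ψ` to `BS Dg S' i`: for `F` = the function `fun y : BS Dg S' i => dt ψ y` put `nrm = if h : ∃ ψ', ∀ y, dt ψ' y = F y then h.choose else 0`).
Let `ω T ≠ 0`. If `T` is good there is exactly one `χ ∈ X` with `T ⊆ S_χ`: existence: for `i ∈ I` choose `a ∈ T` with `a.1 = (i, true)` (`om0`) and put `χ i = nrm i (T₀.psi a)` (h1; large types in `T` have class in `I`); uniqueness: two normalised `χ, χ'` with `T ⊆ S_χ, S_χ'` agree on `BS Dg S' i` for `i ∈ I`.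
If `T` is bad there is no such `χ ∈ X`: by (h2) (`T₁` good in `S_χ`, `T` in `S_χ`) `T` would be good. Hence (`ts_sum`, norm) `TS T₀ ω ≤ M + ∑_{χ ∈ X} ‖TS T₀ ω_χ‖`, and `ts_sub` with `S₀ = S_χ`, `ω = om0 I`: `TS T₀ ω_χ = PC φ_χ`, `φ_χ a x = ∑ ψ, (if (a, ψ) ∈ S_χ then cf Dg S a ψ else 0) ep (ψ · x)`.
For `a = (i, false)` this is `phi Dg S a x = phi Dg S' a x`. For `a = (i, true)`: `cf ≠ 0` implies `T₀.psi (a, ψ) = ψ`, so the sum is over the `ψ` with `ψ = χ i` on `BS Dg S' i` of `cf Dg S a ψ ep (ψ · x)`: if `χ i` kills `BS Dg S i` it is `phi Dg S' a x * ep (χ i · x)` (`phi_coset`), otherwise it is `0` (`cf = 0` for all these `ψ`).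
So `‖φ_χ a x‖ ≤ phi Dg S' a x` (`ep_norm`), and `pc_abs`, `pr_mono` give `‖TS T₀ ω_χ‖ ≤ PR (phi S')` (`‖om0‖ = om0`). `#X ≤ #(Fin N → Fin w → ZMod p) = p ^ (w * N)`.
-/

set_option autoImplicit false

open scoped NumberField
open IsDedekindDomain
open scoped Classical

noncomputable section

namespace H77.PT

open H63.MA H38.BB H38.BG H57.PC H51.CUB H77.PC3

variable {K : Type} [Field K] [NumberField K] {p : ℕ} {ζ : K} {D : RD0 K p ζ} {Ω : Type}
  [Field Ω] [Algebra K Ω] {m l w N : ℕ} {P R : Type} [Group P] [Group R]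

/-- a representative of a functional modulo the annihilator of a subspace -/
private def rep {p w : ℕ} (A : Submodule (ZMod p) (Fin w → ZMod p)) (ψ : Fin w → ZMod p) :
    Fin w → ZMod p :=
  (fun F : A → ZMod p =>
    if h : ∃ ψ' : Fin w → ZMod p, ∀ y : A, dt ψ' y = F y then h.choose else 0) fun y => dt ψ y

private theorem rep_eq {p w : ℕ} (A : Submodule (ZMod p) (Fin w → ZMod p))
    (ψ : Fin w → ZMod p) : ∀ y ∈ A, dt (rep A ψ) y = dt ψ y := by
  have h : ∃ ψ' : Fin w → ZMod p, ∀ y : A, dt ψ' y = dt ψ y := ⟨ψ, fun _ => rfl⟩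
  intro y hy
  have h1 : rep A ψ = h.choose := by
    unfold rep
    exact dif_pos h
  rw [h1]
  exact h.choose_spec ⟨y, hy⟩

private theorem rep_congr {p w : ℕ} (A : Submodule (ZMod p) (Fin w → ZMod p))
    (ψ ψ' : Fin w → ZMod p) (h : ∀ y ∈ A, dt ψ y = dt ψ' y) : rep A ψ = rep A ψ' := by
  unfold rep
  congr 1
  funext y
  exact h y y.2

private theorem om0_ne {N : ℕ} {I : Finset (Fin N)} {S : Finset (Fin N × Bool)}
    (h : om0 I S ≠ 0) : ∀ i, i ∈ I ↔ (i, true) ∈ S := by
  unfold om0 at h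
  by_contra hc
  rw [if_neg hc] at h
  exact h rfl

private theorem om0_nonneg {N : ℕ} (I : Finset (Fin N)) (S : Finset (Fin N × Bool)) :
    0 ≤ om0 I S := by
  unfold om0
  split_ifs <;> norm_num

/-- the combinatorial decomposition of the support function -/
private theorem red_dec {p w N : ℕ} [NeZero p] (I : Finset (Fin N))
    (B : Fin N → Submodule (ZMod p) (Fin w → ZMod p))
    (ps : (Fin N × Bool) × (Fin w → ZMod p) → Fin w → ZMod p)
    (Good : Finset ((Fin N × Bool) × (Fin w → ZMod p)) → Prop)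
    (h1 : ∀ T, om0 I (T.image Prod.fst) ≠ 0 → Good T → ∀ a ∈ T, ∀ a' ∈ T, a.1.2 = true →
      a.1 = a'.1 → ∀ y ∈ B a.1.1, dt (ps a) y = dt (ps a') y)
    (h2 : ∀ T T', om0 I (T.image Prod.fst) ≠ 0 → om0 I (T'.image Prod.fst) ≠ 0 →
      (∀ a ∈ T, ∀ a' ∈ T', a.1.2 = true → a.1 = a'.1 → ∀ y ∈ B a.1.1,
        dt (ps a) y = dt (ps a') y) → Good T → Good T') :
    ∃ X : Finset (Fin N → Fin w → ZMod p),
      ∀ T : Finset ((Fin N × Bool) × (Fin w → ZMod p)),
        ((om0 I (T.image Prod.fst) : ℝ) : ℂ) =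
          (if Good T then 0 else ((om0 I (T.image Prod.fst) : ℝ) : ℂ)) +
          ∑ χ ∈ X, if T ⊆ Finset.univ.filter (fun a : (Fin N × Bool) × (Fin w → ZMod p) =>
              a.1.2 = true → ∀ y ∈ B a.1.1, dt (ps a) y = dt (χ a.1.1) y)
            then ((om0 I (T.image Prod.fst) : ℝ) : ℂ) else 0 := by
  obtain ⟨SS, hSS⟩ : ∃ SS : (Fin N → Fin w → ZMod p) →
      Finset ((Fin N × Bool) × (Fin w → ZMod p)), SS = fun χ => Finset.univ.filter
        (fun a : (Fin N × Bool) × (Fin w → ZMod p) =>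
              a.1.2 = true → ∀ y ∈ B a.1.1, dt (ps a) y = dt (χ a.1.1) y) := ⟨_, rfl⟩
  have hmem : ∀ χ a, a ∈ SS χ ↔ (a.1.2 = true → ∀ y ∈ B a.1.1, dt (ps a) y = dt (χ a.1.1) y) := by
    intro χ a
    rw [hSS]
    simp
  refine ⟨Finset.univ.filter fun χ => (∀ i ∈ I, χ i = rep (B i) (χ i)) ∧ (∀ i, i ∉ I → χ i = 0) ∧
    ∃ T, om0 I (T.image Prod.fst) ≠ 0 ∧ Good T ∧ T ⊆ SS χ, fun T => ?_⟩
  have hrw : ∀ χ : Fin N → Fin w → ZMod p, Finset.univ.filter
      (fun a : (Fin N × Bool) × (Fin w → ZMod p) =>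
              a.1.2 = true → ∀ y ∈ B a.1.1, dt (ps a) y = dt (χ a.1.1) y) = SS χ := by
    intro χ
    rw [hSS]
  simp only [hrw]
  by_cases h0 : om0 I (T.image Prod.fst) = 0
  · rw [h0]
    simp
  have hI := om0_ne h0
  have hlarge : ∀ a ∈ T, a.1.2 = true → a.1.1 ∈ I := by
    intro a ha h
    rw [hI]
    rw [Finset.mem_image]
    exact ⟨a, ha, Prod.ext rfl h⟩
  have hch : ∀ i ∈ I, ∃ a ∈ T, a.1 = (i, true) := by
    intro i hi
    have := (hI i).1 hi
    rw [Finset.mem_image] at this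
    exact this
  by_cases hG : Good T
  · rw [if_pos hG, zero_add]
    choose! c hc hc1 using hch
    obtain ⟨χ₀, hχ₀⟩ : ∃ χ₀ : Fin N → Fin w → ZMod p, χ₀ = fun i =>
      if i ∈ I then rep (B i) (ps (c i)) else 0 := ⟨_, rfl⟩
    have hsub : T ⊆ SS χ₀ := by
      intro a ha
      rw [hmem]
      intro h y hy
      have hi := hlarge a ha h
      have e1 : a.1 = (c a.1.1).1 := by
        rw [hc1 _ hi]
        exact Prod.ext rfl h
      rw [h1 T h0 hG a ha _ (hc _ hi) h e1 y hy, hχ₀]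
      simp only
      rw [if_pos hi, rep_eq (B a.1.1) (ps (c a.1.1)) y hy]
    have hX : χ₀ ∈ Finset.univ.filter fun χ : Fin N → Fin w → ZMod p =>
        (∀ i ∈ I, χ i = rep (B i) (χ i)) ∧ (∀ i, i ∉ I → χ i = 0) ∧
        ∃ T, om0 I (T.image Prod.fst) ≠ 0 ∧ Good T ∧ T ⊆ SS χ := by
      rw [Finset.mem_filter]
      refine ⟨Finset.mem_univ _, ?_, ?_, T, h0, hG, hsub⟩
      · intro i hi
        rw [hχ₀]
        simp only
        rw [if_pos hi]
        exact rep_congr _ _ _ fun y hy => (rep_eq _ _ y hy).symm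
      · intro i hi
        rw [hχ₀]
        simp only
        rw [if_neg hi]
    rw [Finset.sum_eq_single χ₀ ?_ (fun h => absurd hX h), if_pos hsub]
    intro χ hχ hne
    rw [if_neg]
    intro hsub'
    apply hne
    rw [Finset.mem_filter] at hχ hX
    funext i
    by_cases hi : i ∈ I
    · rw [hχ.2.1 i hi, hX.2.1 i hi]
      apply rep_congr
      intro y hy
      have e1 := (hmem _ _).1 (hsub (hc i hi))
      have e2 := (hmem _ _).1 (hsub' (hc i hi))
      rw [hc1 i hi] at e1 e2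
      rw [← e1 rfl y hy, ← e2 rfl y hy]
    · rw [hχ.2.2.1 i hi, hX.2.2.1 i hi]
  · rw [if_neg hG, Finset.sum_eq_zero, add_zero]
    intro χ hχ
    rw [if_neg]
    intro hsub
    rw [Finset.mem_filter] at hχ
    obtain ⟨-, -, -, T1, hT0, hT1, hT2⟩ := hχ
    apply hG
    refine h2 T1 T hT0 h0 ?_ hT1
    intro a ha a' ha' h haa y hy
    have e1 := (hmem _ _).1 (hT2 ha) h y hy
    have e2 := (hmem _ _).1 (hsub ha')
    rw [← haa] at e2
    rw [e1, e2 h y hy]

theorem red [NeZero p] (hp : p.Prime) {L : LDs D Ω} (Dg : GP p m l w N P R) (Fr : FR L)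
    (U : WY N (Fin N × Bool)) (I : Finset (Fin N)) (S S' : Submodule (ZMod p) (Fin l → ZMod p))
    (hS : S ≤ S') (b : Fin m → Kˣ) (E : Finset (Pl K)) (ε : Pl K → Gal(Ω/K) → R) (Y M : ℝ)
    (Good : Finset ((Fin N × Bool) × (Fin w → ZMod p)) → Prop)
    (h1 : ∀ T, om0 I (T.image Prod.fst) ≠ 0 → Good T → ∀ a ∈ T, ∀ a' ∈ T, a.1.2 = true →
      a.1 = a'.1 → ∀ y ∈ BS Dg S' a.1.1,
        dt ((U.ex (cf Dg S)).psi a) y = dt ((U.ex (cf Dg S)).psi a') y)
    (h2 : ∀ T T', om0 I (T.image Prod.fst) ≠ 0 → om0 I (T'.image Prod.fst) ≠ 0 →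
      (∀ a ∈ T, ∀ a' ∈ T', a.1.2 = true → a.1 = a'.1 → ∀ y ∈ BS Dg S' a.1.1,
        dt ((U.ex (cf Dg S)).psi a) y = dt ((U.ex (cf Dg S)).psi a') y) → Good T → Good T')
    (hbad : ‖TS Dg Fr (U.ex (cf Dg S)) b E ε
      (fun T => if Good T then 0 else ((om0 I (T.image Prod.fst) : ℝ) : ℂ)) Y‖ ≤ M) :
    PR Dg Fr U (phi Dg S) b E ε (om0 I) Y ≤
      (p : ℝ) ^ (w * N) * PR Dg Fr U (phi Dg S') b E ε (om0 I) Y + M := by
  obtain ⟨X, hX⟩ := red_dec I (fun i => BS Dg S' i) (U.ex (cf Dg S)).psi Good h1 h2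
  have hPR' : 0 ≤ PR Dg Fr U (phi Dg S') b E ε (om0 I) Y :=
    pr_nonneg Dg Fr U _ b E ε _ Y (phi_nonneg Dg S') (om0_nonneg I)
  -- the sum as a sum over typed families
  have hI : ∀ T : Finset ((Fin N × Bool) × (Fin w → ZMod p)),
      @Finset.image _ _ (fun a b => Classical.propDecidable (a = b)) Prod.fst T =
        T.image Prod.fst := by
    intro T
    ext x
    simp only [Finset.mem_image]
  have hA : ((PR Dg Fr U (phi Dg S) b E ε (om0 I) Y : ℝ) : ℂ) =
      TS Dg Fr (U.ex (cf Dg S)) b E ε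
        (fun T => ((om0 I (T.image Prod.fst) : ℝ) : ℂ)) Y := by
    rw [pr_pc]
    have h3 : (fun (a : Fin N × Bool) (x : Fin w → ZMod p) => ((phi Dg S a x : ℝ) : ℂ)) =
        fun a x => ∑ ψ, ((cf Dg S a ψ : ℝ) : ℂ) * ep p (dt ψ x) := by
      funext a x
      exact phi_cf hp Dg S a x
    rw [h3]
    have e0 := pc_ts hp Dg Fr U (cf Dg S) b E ε (fun S => ((om0 I S : ℝ) : ℂ)) Y
    simp only [hI] at e0
    exact e0
  -- one coset
  have hB : ∀ χ : Fin N → Fin w → ZMod p, ‖TS Dg Fr (U.ex (cf Dg S)) b E ε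
      (fun T => if T ⊆ Finset.univ.filter (fun a : (Fin N × Bool) × (Fin w → ZMod p) =>
          a.1.2 = true → ∀ y ∈ BS Dg S' a.1.1,
            dt ((U.ex (cf Dg S)).psi a) y = dt (χ a.1.1) y)
        then ((om0 I (T.image Prod.fst) : ℝ) : ℂ) else 0) Y‖ ≤
      PR Dg Fr U (phi Dg S') b E ε (om0 I) Y := by
    intro χ
    have h3 := ts_sub hp Dg Fr U (cf Dg S)
      (Finset.univ.filter (fun a : (Fin N × Bool) × (Fin w → ZMod p) =>
          a.1.2 = true → ∀ y ∈ BS Dg S' a.1.1,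
            dt ((U.ex (cf Dg S)).psi a) y = dt (χ a.1.1) y)) b E ε
      (fun S => ((om0 I S : ℝ) : ℂ)) Y
    have h4 : TS Dg Fr (U.ex (cf Dg S)) b E ε
      (fun T => if T ⊆ Finset.univ.filter (fun a : (Fin N × Bool) × (Fin w → ZMod p) =>
          a.1.2 = true → ∀ y ∈ BS Dg S' a.1.1,
            dt ((U.ex (cf Dg S)).psi a) y = dt (χ a.1.1) y)
        then ((om0 I (T.image Prod.fst) : ℝ) : ℂ) else 0) Y =
      PC Dg Fr U (fun a x => ∑ ψ, ((if (a, ψ) ∈
          Finset.univ.filter (fun a : (Fin N × Bool) × (Fin w → ZMod p) =>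
          a.1.2 = true → ∀ y ∈ BS Dg S' a.1.1,
            dt ((U.ex (cf Dg S)).psi a) y = dt (χ a.1.1) y)
          then cf Dg S a ψ else 0 : ℝ) : ℂ) * ep p (dt ψ x)) b E ε
        (fun S => ((om0 I S : ℝ) : ℂ)) Y := by
      simp only [hI] at h3
      rw [h3]
      congr 1
      funext a x
      refine Finset.sum_congr rfl fun ψ _ => ?_
      by_cases hm : (a, ψ) ∈ Finset.univ.filter (fun a : (Fin N × Bool) × (Fin w → ZMod p) =>
          a.1.2 = true → ∀ y ∈ BS Dg S' a.1.1,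
            dt ((U.ex (cf Dg S)).psi a) y = dt (χ a.1.1) y)
      · rw [if_pos hm, if_pos hm]
      · rw [if_neg hm, if_neg hm]
    rw [h4]
    refine (pc_abs Dg Fr U _ b E ε _ Y).trans (pr_mono Dg Fr U _ _ b E ε _ _ Y
      (fun _ _ => norm_nonneg _) ?_ (fun _ => norm_nonneg _) ?_)
    · rintro ⟨i, β⟩ x
      cases β with
      | false =>
        have h5 : (∑ ψ, ((if ((i, false), ψ) ∈
              Finset.univ.filter (fun a : (Fin N × Bool) × (Fin w → ZMod p) =>
          a.1.2 = true → ∀ y ∈ BS Dg S' a.1.1,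
            dt ((U.ex (cf Dg S)).psi a) y = dt (χ a.1.1) y)
              then cf Dg S (i, false) ψ else 0 : ℝ) : ℂ) * ep p (dt ψ x)) =
            ((phi Dg S (i, false) x : ℝ) : ℂ) := by
          rw [phi_cf hp]
          refine Finset.sum_congr rfl fun ψ _ => ?_
          rw [if_pos (by simp)]
        rw [h5]
        unfold phi
        simp
      | true =>
        have h5 : (∑ ψ, ((if ((i, true), ψ) ∈
              Finset.univ.filter (fun a : (Fin N × Bool) × (Fin w → ZMod p) =>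
          a.1.2 = true → ∀ y ∈ BS Dg S' a.1.1,
            dt ((U.ex (cf Dg S)).psi a) y = dt (χ a.1.1) y)
              then cf Dg S (i, true) ψ else 0 : ℝ) : ℂ) * ep p (dt ψ x)) =
            ∑ ψ ∈ Finset.univ.filter (fun ψ : Fin w → ZMod p =>
                ∀ y ∈ BS Dg S' i, dt ψ y = dt (χ i) y),
              ((cf Dg S (i, true) ψ : ℝ) : ℂ) * ep p (dt ψ x) := by
          rw [Finset.sum_filter]
          refine Finset.sum_congr rfl fun ψ _ => ?_
          by_cases h0 : cf Dg S (i, true) ψ = 0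
          · rw [h0]
            simp
          · have e1 : (U.ex (cf Dg S)).psi ((i, true), ψ) = ψ := by
              show (if cf Dg S (i, true) ψ = 0 then 0 else ψ) = ψ
              rw [if_neg h0]
            by_cases h6 : ∀ y ∈ BS Dg S' i, dt ψ y = dt (χ i) y
            · rw [if_pos, if_pos h6]
              rw [Finset.mem_filter]
              refine ⟨Finset.mem_univ _, fun _ => ?_⟩
              rw [e1]
              exact h6
            · rw [if_neg, if_neg h6]
              · simp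
              · rw [Finset.mem_filter]
                rintro ⟨-, h7⟩
                have h8 := h7 rfl
                rw [e1] at h8
                exact h6 h8
        rw [h5]
        by_cases h6 : ∀ y ∈ BS Dg S i, dt (χ i) y = 0
        · rw [phi_coset hp Dg S S' hS i (χ i) h6 x, norm_mul, ep_norm, mul_one,
            Complex.norm_real, Real.norm_of_nonneg (phi_nonneg Dg S' _ _)]
        · have h7 : (∑ ψ ∈ Finset.univ.filter (fun ψ : Fin w → ZMod p =>
                ∀ y ∈ BS Dg S' i, dt ψ y = dt (χ i) y),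
              ((cf Dg S (i, true) ψ : ℝ) : ℂ) * ep p (dt ψ x)) = 0 := by
            refine Finset.sum_eq_zero fun ψ hψ => ?_
            rw [Finset.mem_filter] at hψ
            have h8 : cf Dg S (i, true) ψ = 0 := by
              unfold cf
              rw [if_pos rfl, if_neg]
              intro h9
              apply h6
              intro y hy
              rw [← hψ.2 y (Submodule.map_mono hS hy)]
              exact h9 y hy
            rw [h8]
            simp
          rw [h7, norm_zero]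
          exact phi_nonneg Dg S' _ _
    · intro T
      rw [Complex.norm_real, Real.norm_of_nonneg (om0_nonneg I T)]
  -- additivity
  have hC : TS Dg Fr (U.ex (cf Dg S)) b E ε
        (fun T => ((om0 I (T.image Prod.fst) : ℝ) : ℂ)) Y =
      TS Dg Fr (U.ex (cf Dg S)) b E ε
        (fun T => if Good T then 0 else ((om0 I (T.image Prod.fst) : ℝ) : ℂ)) Y +
      ∑ χ ∈ X, TS Dg Fr (U.ex (cf Dg S)) b E ε
        (fun T => if T ⊆ Finset.univ.filter (fun a : (Fin N × Bool) × (Fin w → ZMod p) =>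
          a.1.2 = true → ∀ y ∈ BS Dg S' a.1.1,
            dt ((U.ex (cf Dg S)).psi a) y = dt (χ a.1.1) y)
        then ((om0 I (T.image Prod.fst) : ℝ) : ℂ) else 0) Y := by
    rw [← ts_sum]
    have h3 : (fun T : Finset ((Fin N × Bool) × (Fin w → ZMod p)) =>
        ((om0 I (T.image Prod.fst) : ℝ) : ℂ)) =
        fun T => ∑ t : Bool, (cond t
          (fun T => if Good T then 0 else ((om0 I (T.image Prod.fst) : ℝ) : ℂ))
          (fun T => ∑ χ ∈ X, if T ⊆ Finset.univ.filter
            (fun a : (Fin N × Bool) × (Fin w → ZMod p) =>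
              a.1.2 = true → ∀ y ∈ BS Dg S' a.1.1,
                dt ((U.ex (cf Dg S)).psi a) y = dt (χ a.1.1) y)
            then ((om0 I (T.image Prod.fst) : ℝ) : ℂ) else 0)) T := by
      funext T
      rw [Fintype.sum_bool, cond_true, cond_false]
      exact hX T
    conv_lhs => rw [h3]
    rw [ts_sum Dg Fr (U.ex (cf Dg S)) b E ε (Finset.univ : Finset Bool), Fintype.sum_bool,
      cond_true, cond_false]
  have hD : PR Dg Fr U (phi Dg S) b E ε (om0 I) Y ≤
      ‖((PR Dg Fr U (phi Dg S) b E ε (om0 I) Y : ℝ) : ℂ)‖ := by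
    rw [Complex.norm_real]
    exact Real.le_norm_self _
  have hE : (X.card : ℝ) ≤ (p : ℝ) ^ (w * N) := by
    have h3 : X.card ≤ Fintype.card (Fin N → Fin w → ZMod p) := Finset.card_le_univ X
    rw [Fintype.card_fun, Fintype.card_fun, ZMod.card, Fintype.card_fin, Fintype.card_fin,
      ← pow_mul] at h3
    exact_mod_cast h3
  refine hD.trans ?_
  rw [hA, hC]
  refine (norm_add_le _ _).trans ?_
  have hF : ‖∑ χ ∈ X, TS Dg Fr (U.ex (cf Dg S)) b E ε
        (fun T => if T ⊆ Finset.univ.filter (fun a : (Fin N × Bool) × (Fin w → ZMod p) =>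
          a.1.2 = true → ∀ y ∈ BS Dg S' a.1.1,
            dt ((U.ex (cf Dg S)).psi a) y = dt (χ a.1.1) y)
        then ((om0 I (T.image Prod.fst) : ℝ) : ℂ) else 0) Y‖ ≤
      (p : ℝ) ^ (w * N) * PR Dg Fr U (phi Dg S') b E ε (om0 I) Y := by
    refine (norm_sum_le _ _).trans ((Finset.sum_le_sum fun χ _ => hB χ).trans ?_)
    rw [Finset.sum_const, nsmul_eq_mul]
    exact mul_le_mul_of_nonneg_right hE hPR'
  linarith

end H77.PT
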