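import Pool.Agent.H77.PT.Dq

/-!
# [H77 PT ZEX] the homomorphism `Z`, 100-150 lines. File Pool/Agent/H77/PT/Zex.lean

* `zex_cen`: for `i ∈ I` the class `k2 (q (g i))` is central in `G2`: for `x = k2 r`: `x z x⁻¹ z⁻¹ = k2 (r g r⁻¹ g⁻¹)`, `g = q (g i)`; it has `π = 1` and `cv = -kV (s i) (π r)` (`Dg.hk`, `cv_inv`), in `VI Dg I` (`Submodule.subset_span`); `k2_ker`.
* `zex`: there is `Z` with `ZD Dg I Z`. PROOF. Let `A = Subgroup.center (G2 Dg I)`, a commutative group (`Subgroup.center.isMulCommutative`; `open scoped IsMulCommutative` gives the `CommGroup` instance), `z i ∈ A` the class of `g i` for `i ∈ I` and `1` otherwise; `z i ^ p = 1` (`Dg.pow`). Define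
 `Z t = ∏ i, z i ^ (t i).val` (`MonoidHom.mk'`; additivity: `z ^ (a + b).val = z ^ a.val * z ^ b.val` since `(a + b).val = (a.val + b.val) % p` and `z ^ p = 1`: `ZMod.val_add`, `pow_mod_orderOf`-type lemma, `Finset.prod_mul_distrib`).
 `Z (single i 1) = z i` (`(1 : ZMod p).val = 1` as `p > 1`; `z j ^ 0 = 1` for `j ≠ i`: `Finset.prod_eq_single`).
* `zex_p2`: `p2 (Z t) = ∑_{i ∈ I} t i • s i` (additively): both sides are homomorphisms in `t`; on `single i 1`: `p2 (k2 (q (g i))) = π (q (g i)) = s i` or `0` (`t = ∑ i, t i • single i 1`; `Z (ofAdd (n • x)) = Z (ofAdd x) ^ n` with `n = (t i).val`).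
-/

set_option autoImplicit false

open scoped NumberField
open IsDedekindDomain
open scoped Classical

noncomputable section

namespace H77.PT

open H63.MA H38.BB H38.BG H57.PC H51.CUB H77.PC3

variable {p m l w N : ℕ} {P R : Type} [Group P] [Group R]

private theorem ex_hom {A : Type} [CommGroup A] (z : Fin N → A) (hz : ∀ i, z i ^ p = 1) :
    ∃ Z : Multiplicative (Fin N → ZMod p) →* A,
      ∀ i, Z (Multiplicative.ofAdd (Pi.single i 1)) = z i := by
  have hz' : ∀ i, (zmultiplesHom (Additive A) (Additive.ofMul (z i))) (p : ℤ) = 0 := by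
    intro i
    rw [zmultiplesHom_apply, natCast_zsmul, ← ofMul_pow, hz i, ofMul_one]
  let F : (Fin N → ZMod p) →+ Additive A := ∑ i, (ZMod.lift p
    ⟨zmultiplesHom (Additive A) (Additive.ofMul (z i)), hz' i⟩).comp
      (Pi.evalAddMonoidHom (fun _ : Fin N => ZMod p) i)
  refine ⟨AddMonoidHom.toMultiplicativeLeft F, ?_⟩
  intro i
  rw [AddMonoidHom.coe_toMultiplicativeLeft]
  change Additive.toMul (F (Pi.single i 1)) = z i
  have h1 : F (Pi.single i 1) = ∑ j, ZMod.lift p
      ⟨zmultiplesHom (Additive A) (Additive.ofMul (z j)), hz' j⟩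
        ((Pi.single i 1 : Fin N → ZMod p) j) := by
    simp only [F, AddMonoidHom.finsetSum_apply, AddMonoidHom.comp_apply,
      Pi.evalAddMonoidHom_apply]
  rw [h1, Finset.sum_eq_single i]
  · rw [Pi.single_eq_same]
    have h2 := ZMod.lift_coe p (f := ⟨zmultiplesHom (Additive A) (Additive.ofMul (z i)), hz' i⟩) 1
    rw [Int.cast_one] at h2
    rw [h2]
    simp
  · intro j _ hj
    rw [Pi.single_eq_of_ne hj, map_zero]
  · intro h
    exact absurd (Finset.mem_univ i) h

private theorem single_sum (t : Fin N → ZMod p) [NeZero p] :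
    t = ∑ i, (t i).val • (Pi.single i (1 : ZMod p) : Fin N → ZMod p) := by
  funext j
  rw [Finset.sum_apply, Finset.sum_eq_single j]
  · rw [Pi.smul_apply, Pi.single_eq_same, nsmul_eq_mul, mul_one, ZMod.natCast_zmod_val]
  · intro i _ hi
    rw [Pi.smul_apply, Pi.single_eq_of_ne (Ne.symm hi), smul_zero]
  · intro h
    exact absurd (Finset.mem_univ j) h

theorem zex_cen (Dg : GP p m l w N P R) (I : Finset (Fin N)) (i : Fin N) (hi : i ∈ I)
    (x : G2 Dg I) : k2 Dg I (Dg.q (Dg.g i)) * x = x * k2 Dg I (Dg.q (Dg.g i)) := by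
  obtain ⟨r, rfl⟩ := k2_surj Dg I x
  have h : k2 Dg I (Dg.q (Dg.g i) * r * (Dg.q (Dg.g i))⁻¹ * r⁻¹) = 1 := by
    rw [k2_ker]
    constructor
    · rw [map_mul, map_mul, map_mul, map_inv, map_inv, mul_comm (Dg.π (Dg.q (Dg.g i))) (Dg.π r),
        mul_inv_cancel_right, mul_inv_cancel]
    · have h2 : (fun k => Dg.cv k (Dg.q (Dg.g i) * r * (Dg.q (Dg.g i))⁻¹ * r⁻¹)) =
          Dg.kV (Dg.s i) (Multiplicative.toAdd (Dg.π r)) := by
        funext k
        exact Dg.hk _ _ k
      rw [h2]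
      exact Submodule.subset_span ⟨i, hi, _, rfl⟩
  rw [map_mul, map_mul, map_mul, map_inv, map_inv] at h
  rw [mul_inv_eq_one, mul_inv_eq_iff_eq_mul] at h
  exact h

theorem zex [NeZero p] (hp : p.Prime) (Dg : GP p m l w N P R) (I : Finset (Fin N)) :
    ∃ Z : Multiplicative (Fin N → ZMod p) →* G2 Dg I, ZD Dg I Z := by
  letI : CommGroup (Subgroup.center (G2 Dg I)) :=
    { (inferInstance : Group (Subgroup.center (G2 Dg I))) with
      mul_comm := fun a b => Subtype.ext ((Subgroup.mem_center_iff.mp a.2 b.1).symm) }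
  have hc : ∀ i, i ∈ I → k2 Dg I (Dg.q (Dg.g i)) ∈ Subgroup.center (G2 Dg I) := by
    intro i hi
    rw [Subgroup.mem_center_iff]
    intro x
    exact (zex_cen Dg I i hi x).symm
  let z : Fin N → Subgroup.center (G2 Dg I) := fun i =>
    if h : i ∈ I then ⟨k2 Dg I (Dg.q (Dg.g i)), hc i h⟩ else 1
  have hz : ∀ i, z i ^ p = 1 := by
    intro i
    by_cases h : i ∈ I
    · have h1 : z i = ⟨k2 Dg I (Dg.q (Dg.g i)), hc i h⟩ := dif_pos h
      rw [h1]
      apply Subtype.ext
      change (k2 Dg I (Dg.q (Dg.g i))) ^ p = 1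
      rw [← map_pow, ← map_pow, Dg.pow i, map_one, map_one]
    · have h1 : z i = 1 := dif_neg h
      rw [h1, one_pow]
  obtain ⟨Z0, hZ0⟩ := ex_hom (p := p) z hz
  refine ⟨(Subgroup.center (G2 Dg I)).subtype.comp Z0, ⟨?_, ?_, ?_⟩⟩
  · intro t x
    exact (Subgroup.mem_center_iff.mp (Z0 t).2 x).symm
  · intro i hi
    change ((Z0 (Multiplicative.ofAdd (Pi.single i 1)) : Subgroup.center (G2 Dg I)) : G2 Dg I) = _
    rw [hZ0 i]
    have h1 : z i = ⟨k2 Dg I (Dg.q (Dg.g i)), hc i hi⟩ := dif_pos hi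
    rw [h1]
  · intro i hi
    change ((Z0 (Multiplicative.ofAdd (Pi.single i 1)) : Subgroup.center (G2 Dg I)) : G2 Dg I) = _
    rw [hZ0 i]
    have h1 : z i = 1 := dif_neg hi
    rw [h1]
    rfl

theorem zex_p2 [NeZero p] (hp : p.Prime) (Dg : GP p m l w N P R) (I : Finset (Fin N))
    (Z : Multiplicative (Fin N → ZMod p) →* G2 Dg I) (hZ : ZD Dg I Z) (t : Fin N → ZMod p)
    (k : Fin m) :
    Multiplicative.toAdd (p2 Dg I (Z (Multiplicative.ofAdd t))) k =
      ∑ i ∈ I, t i * Dg.s i k := by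
  let F : (Fin N → ZMod p) →+ (Fin m → ZMod p) :=
    AddMonoidHom.toMultiplicative.symm ((p2 Dg I).comp Z)
  have hF : ∀ u, Multiplicative.toAdd (p2 Dg I (Z (Multiplicative.ofAdd u))) = F u := fun u => rfl
  have hs : ∀ i, F (Pi.single i 1) = if i ∈ I then Dg.s i else 0 := by
    intro i
    rw [← hF]
    by_cases h : i ∈ I
    · rw [if_pos h, hZ.on i h, p2_k2]
      rfl
    · rw [if_neg h, hZ.off i h, map_one, toAdd_one]
  rw [hF]
  conv_lhs => rw [single_sum t]
  rw [map_sum, Finset.sum_apply]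
  have h2 : ∀ i, F ((t i).val • (Pi.single i (1 : ZMod p) : Fin N → ZMod p)) k =
      if i ∈ I then t i * Dg.s i k else 0 := by
    intro i
    rw [map_nsmul, hs, Pi.smul_apply, nsmul_eq_mul, ZMod.natCast_zmod_val]
    by_cases h : i ∈ I
    · rw [if_pos h, if_pos h]
    · rw [if_neg h, if_neg h, Pi.zero_apply, mul_zero]
  simp only [h2]
  rw [Finset.sum_ite_mem, Finset.univ_inter]

end H77.PT
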